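import Mathlib

/-! # Module AlgD: an identity for derivations

`A` is a commutative ring, `v`, `W` derivations, `v f = 0`, `v g = 0`, `v (v s) = 0`, `a = v s`. Then
`⁅f v, ⁅(s g) v, W⁆⁆ - ⁅(s f) v, ⁅g v, W⁆⁆ = f g ⁅a v, W⁆ - 2 a f (W g) v`.

Proof: evaluate at `h` (`Derivation.ext`), expand with `Derivation.commutator_apply`,
`Derivation.smul_apply`, `Derivation.leibniz`, `map_add`, `map_sub`, using `v (v s) = 0`,
`v (f * h) = f * v h`, `v (W g)`… (the terms are polynomials in `s, f, g, v s, W f, W g, W s, v (W f),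
v (W g), v (W s), W (v s), v h, W h, v (v h), v (W h), W (v h), W (W h)…`), and finish with `ring`. Note that
`W (v f) = 0` as `v f = 0`. General formula (checked by hand): for all `F, H`
`⁅F v, ⁅H v, W⁆⁆ h = F (v H) ⁅v,W⁆h + F H (v v W h - 2 v W v h + W v v h)
  + (v h) (- F v(W H) - H v(W F) + W(H) v(F) + H W(v F))`. -/

namespace Pool.Agent.MP_fe3720.BB

theorem alg_D {A : Type} [CommRing A] [Algebra ℂ A] (v W : Derivation ℂ A A) (s f g : A)
    (hf : v f = 0) (hg : v g = 0) (hs : v (v s) = 0) :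
    ⁅f • v, ⁅(s * g) • v, W⁆⁆ - ⁅(s * f) • v, ⁅g • v, W⁆⁆ =
      (f * g) • ⁅(v s) • v, W⁆ - (2 * (v s * f * W g)) • v := by
  have _ := hs
  apply Derivation.ext
  intro h
  simp only [Derivation.sub_apply, Derivation.commutator_apply, Derivation.smul_apply, smul_eq_mul,
    Derivation.leibniz, map_sub, map_add, hf, hg, mul_zero, add_zero, zero_add, map_zero]
  ring

end Pool.Agent.MP_fe3720.BB
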