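import Pool.Agent.Work.MP_fe3720_an.R.OC
import Pool.Agent.Work.MP_fe3720_an.R.FlowC
import Pool.Agent.Work.MP_fe3720_an.R.Word
import Pool.Agent.Work.MP_fe3720_an.R.LC
import Pool.Agent.Work.MP_fe3720_an.R.Ident
import Pool.Agent.Work.MP_fe3720_an.R.Shear
import Pool.Agent.Work.MP_fe3720_an.R.Val

/-! # Part B (RR-spaces with a slice have the density property): common definitions
(FIXED: do not change)

`X` is a connected Stein manifold of dimension `m` as in part R (`SD0 m O G`), `v` is a complete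
vector field with a nonconstant first integral `f` and a slice `s`: `v (v s) = 0`, `v s ≠ 0`. -/

namespace Pool.Agent.MP_fe3720.BB

open Topology RR

variable {X : Type} [TopologicalSpace X] {O : Subalgebra ℂ (X → ℂ)}

/-- `v` is a complete vector field with a nonconstant first integral `f` and a slice `s` -/
structure IsSlice (v : Derivation ℂ O O) (f s : O) : Prop where
  complete : IsCompleteVF v
  first : v f = 0
  nonconst : ∃ x y, f x ≠ f y
  slice : v (v s) = 0
  ne : v s ≠ 0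

/-- the functions `c` such that `c • w` is in the closed Lie algebra -/
def Coef (w : Derivation ℂ O O) : Set O := {c | c • w ∈ clLie O}

/-- Interpolation for injective sequences leaving every compact set fast enough. -/
def Interp (O : Subalgebra ℂ (X → ℂ)) : Prop :=
  ∃ K : ℕ → Set X, (∀ n, IsCompact (K n)) ∧ Monotone K ∧
    ∀ x y : ℕ → X, Function.Injective x → Function.Injective y → (∀ n, x n ∉ K n) →
      (∀ n, y n ∉ K n) → ∃ φ : HolAut O, ∀ n, φ (x n) = y n

/-- the automorphisms act transitively on `k`-tuples of distinct points, for all `k` -/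
def KTrans (O : Subalgebra ℂ (X → ℂ)) : Prop :=
  ∀ (k : ℕ) (x y : Fin k → X), Function.Injective x → Function.Injective y →
    ∃ φ : HolAut O, ∀ i, φ (x i) = y i

/-- some first integral of `φ_* v` is not a first integral of `ψ_* v` -/
def Link (v : Derivation ℂ O O) (φ ψ : HolAut O) : Prop :=
  ∃ g : O, φ.push v g = 0 ∧ ψ.push v g ≠ 0

/-- the algebra generated by the first integrals of the fields `φ_* v` -/
def alB (v : Derivation ℂ O O) : Subalgebra ℂ O :=
  Algebra.adjoin ℂ {h : O | ∃ φ : HolAut O, φ.push v h = 0}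

/-- the differentials of `h 0, …, h (m-1)` at `x` are linearly independent (`m` is the dimension
of `X`, tested on vector fields) -/
def Reg {m : ℕ} (h : Fin m → O) (x : X) : Prop :=
  ∃ E : Fin m → Derivation ℂ O O, (∀ i, IsVF (E i)) ∧
    (Matrix.of fun i j => (E i (h j)) x).det ≠ 0

/-- the level sets of `b` in `S` are totally disconnected -/
def TDL {n : ℕ} (b : Fin n → O) (S : Set X) : Prop :=
  ∀ C ⊆ S, IsPreconnected C → (∀ i, ∀ x ∈ C, ∀ y ∈ C, (b i) x = (b i) y) → C.Subsingleton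

/-- a polyhedron around `K` given by `n` functions of the algebra `alB v` -/
def PolyData (v : Derivation ℂ O O) (K : Set X) (n : ℕ) : Prop :=
  ∃ (U : Set X) (b : Fin n → O), IsOpen U ∧ K ⊆ U ∧ IsCompact (closure U) ∧
    (∀ i, b i ∈ alB v) ∧ (∀ i, ∀ x ∈ K, ‖(b i) x‖ < 1) ∧
    (∀ x ∈ frontier U, ∃ i, 1 < ‖(b i) x‖) ∧ TDL b (closure U)

/-- a special polyhedron `{x ∈ U | ‖β i x‖ < 1}`, given by `m` functions (`m` the dimension) -/
structure SpecPoly {m : ℕ} (U : Set X) (β : Fin m → O) : Prop where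
  opn : IsOpen U
  cpt : IsCompact (closure U)
  front : ∀ x ∈ frontier U, ∃ i, 1 < ‖(β i) x‖
  tdl : TDL β (closure U)
  reg : Dense {x : X | Reg β x}

/-- the fibre of `β` over `y` -/
def fib {m : ℕ} (U : Set X) (β : Fin m → O) (y : Fin m → ℂ) : Set X :=
  {x | x ∈ U ∧ ∀ i, (β i) x = y i}

/-- the critical values -/
def crit {m : ℕ} (U : Set X) (β : Fin m → O) : Set (Fin m → ℂ) :=
  {y | ∃ x ∈ U, (∀ i, (β i) x = y i) ∧ ¬ Reg β x}

/-- the functions that are uniform limits on `K` of elements of `A` -/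
def ClK (K : Set X) (A : Set O) : Set (X → ℂ) :=
  {e | ∀ ε > 0, ∃ a ∈ A, ∀ x ∈ K, ‖e x - a x‖ < ε}

/-- every ideal of functions on `|G i| ≤ r` (uniform limits of holomorphic functions) without
common zeros is dense -/
def GelK {N : ℕ} (O : Subalgebra ℂ (X → ℂ)) (G : Fin N → O) : Prop :=
  ∀ (r : ℝ) (I : Set (X → ℂ)), (∀ e ∈ I, e ∈ ClK {x | ∀ i, ‖(G i) x‖ ≤ r} (Set.univ : Set O)) →
    (∀ e ∈ I, ∀ e' ∈ I, e + e' ∈ I) → (∀ e ∈ I, ∀ h : O, h.1 * e ∈ I) → (0 : X → ℂ) ∈ I →
    (∀ x, (∀ i, ‖(G i) x‖ ≤ r) → ∃ e ∈ I, e x ≠ 0) →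
    ∀ ε > 0, ∃ e ∈ I, ∀ x, (∀ i, ‖(G i) x‖ ≤ r) → ‖1 - e x‖ < ε

/-- the flow of `φ_* v`, if `Φ` is the flow of `v` -/
def pushFlow (Φ : ℂ → HolAut O) (φ : HolAut O) : ℂ → HolAut O :=
  fun t => φ.comp ((Φ t).comp φ.symm)

end Pool.Agent.MP_fe3720.BB
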