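import Pool.Agent.Work.MP_fe3720_an.B.CoefA

/-! # Module ChainC: chains of conjugate fields

`mul_ne_zero_O`: `O` has no zero divisors (`ident_mul` with `U = univ`).

`chain_coef`: induction on `k`, for all `θ`. For `k = 0`: `Algebra.adjoin ℂ ∅ = ⊥`; `q = 1`, `coef_one`,
`coef_csmul`. Step `b : Fin (k+1) → O`: choose (by `hmid`) `ψ` with `Link v θ ψ`, `Link v ψ (φ 0)` and `φ'` with
`Link v (φ 0) φ'`. By induction (for `Fin.tail b` and `φ'`) there is `q' ≠ 0` with `q' * c ∈ Coef (φ'.push v)` for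
`c ∈ adjoin (range (Fin.tail b))`. By `coef_conj` (three times), with `g₀, g₁, g₂` from the links
(`g₀ ∈ ker ((φ 0).push v)`, `u₀ = φ'.push v g₀ ≠ 0`; `g₁ ∈ ker (ψ.push v)`, `u₁ = (φ 0).push v g₁ ≠ 0`;
`g₂ ∈ ker (θ.push v)`, `u₂ = ψ.push v g₂ ≠ 0`):
  `a₀ * (b 0)^n * u₀ * (q' * c) ∈ Coef ((φ 0).push v)` (as `(φ 0).push v ((b 0)^n) = 0`),
  `a₁ * 1 * u₁ * (that) ∈ Coef (ψ.push v)`, `a₂ * 1 * u₂ * (that) ∈ Coef (θ.push v)`,
where `a_i = (…).symm.pull (v s) ≠ 0`. So `q = a₂ u₂ a₁ u₁ a₀ u₀ q' ≠ 0` and `q * ((b 0)^n * c) ∈ Coef (θ.push v)`.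
Every element of `adjoin (range b)` is a finite sum of elements `(b 0)^n * c`, `c ∈ adjoin (range (Fin.tail b))`
(the set of these sums is a subalgebra containing all `b i`; `Algebra.adjoin_induction`, or
`Submodule.span` of the set of these products); `coef_add`. -/

namespace Pool.Agent.MP_fe3720.BB

open Topology RR Filter

variable {X : Type} [MetricSpace X] [ProperSpace X] [PreconnectedSpace X]
  {O : Subalgebra ℂ (X → ℂ)} {m N : ℕ} {G : Fin N → O}

theorem mul_ne_zero_O (hS : SD0 m O G) (hne : Nonempty X) {f g : O} (hf : f ≠ 0) (hg : g ≠ 0) :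
    f * g ≠ 0 := by
  obtain ⟨x, -, h1, h2⟩ := ident_mul hS hf hg isOpen_univ Set.univ_nonempty
  intro h
  have h3 : f x * g x = 0 := congrFun (congrArg Subtype.val h) x
  exact (mul_ne_zero h1 h2) h3

theorem exists_point {f : O} (hf : f ≠ 0) : Nonempty X := by
  by_contra h
  rw [not_nonempty_iff] at h
  exact hf (Subtype.ext (funext fun x => h.elim x))

theorem chain_coef (hS : SD0 m O G) {v : Derivation ℂ O O} (hv : IsCompleteVF v) {s : O}
    (hs : v (v s) = 0) (hs0 : v s ≠ 0)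
    (hmid : ∀ φ θ : HolAut O, ∃ ψ : HolAut O, Link v φ ψ ∧ Link v ψ θ) {k : ℕ} (b : Fin k → O)
    (φ : Fin k → HolAut O) (hb : ∀ i, (φ i).push v (b i) = 0) (θ : HolAut O) :
    ∃ q : O, q ≠ 0 ∧ ∀ P ∈ Algebra.adjoin ℂ (Set.range b), q * P ∈ Coef (θ.push v) := by
  have hX : Nonempty X := exists_point hs0
  have hone : (1 : O) ≠ 0 := by
    obtain ⟨x⟩ := hX
    intro h
    have h3 : (1 : ℂ) = 0 := congrFun (congrArg Subtype.val h) x
    exact one_ne_zero h3
  have hpull : ∀ α : HolAut O, α.symm.pull (v s) ≠ 0 := by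
    intro α h
    have h1 : α.symm.pull (v s) = α.symm.pull 0 := by rw [h, map_zero]
    exact hs0 (α.symm.pull.injective h1)
  have mul0 : ∀ {f g : O}, f ≠ 0 → g ≠ 0 → f * g ≠ 0 := fun hf hg => mul_ne_zero_O hS hX hf hg
  induction k generalizing θ with
  | zero =>
    refine ⟨1, hone, fun P hP => ?_⟩
    have hr : Set.range b = ∅ := Set.range_eq_empty b
    rw [hr, Algebra.adjoin_empty, Algebra.mem_bot] at hP
    obtain ⟨c, rfl⟩ := hP
    have h1 : (1 : O) * algebraMap ℂ O c = c • (1 : O) := by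
      rw [one_mul, Algebra.algebraMap_eq_smul_one]
    rw [h1]
    exact coef_csmul (coef_one hv θ) c
  | succ k ih =>
    obtain ⟨ψ, ⟨g₂, hg₂, hu₂⟩, ⟨g₁, hg₁, hu₁⟩⟩ := hmid θ (φ 0)
    obtain ⟨φ', ⟨g₀, hg₀, hu₀⟩, -⟩ := hmid (φ 0) (φ 0)
    obtain ⟨q', hq', hq'C⟩ := ih (Fin.tail b) (Fin.tail φ) (fun i => hb i.succ) φ'
    set a₀ := (φ 0).symm.pull (v s)
    set a₁ := ψ.symm.pull (v s)
    set a₂ := θ.symm.pull (v s)
    set u₀ := φ'.push v g₀
    set u₁ := (φ 0).push v g₁
    set u₂ := ψ.push v g₂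
    have h1θ : θ.push v (1 : O) = 0 := Derivation.map_one_eq_zero _
    have h1ψ : ψ.push v (1 : O) = 0 := Derivation.map_one_eq_zero _
    have hpow : ∀ n : ℕ, (φ 0).push v (b 0 ^ n) = 0 := by
      intro n
      rw [Derivation.leibniz_pow, hb 0, smul_zero, smul_zero]
    refine ⟨a₂ * u₂ * (a₁ * u₁) * (a₀ * u₀) * q', mul0 (mul0 (mul0 (mul0 (hpull _) hu₂)
      (mul0 (hpull _) hu₁)) (mul0 (hpull _) hu₀)) hq', fun P hP => ?_⟩
    -- the products
    have hprod : ∀ (n : ℕ) (c : O), c ∈ Algebra.adjoin ℂ (Set.range (Fin.tail b)) →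
        (a₂ * u₂ * (a₁ * u₁) * (a₀ * u₀) * q') * (b 0 ^ n * c) ∈ Coef (θ.push v) := by
      intro n c hc
      have h1 := coef_conj hS hv hs (φ 0) φ' (hq'C c hc) (hpow n) hg₀
      have h2 := coef_conj hS hv hs ψ (φ 0) h1 h1ψ hg₁
      have h3 := coef_conj hS hv hs θ ψ h2 h1θ hg₂
      have e : (a₂ * u₂ * (a₁ * u₁) * (a₀ * u₀) * q') * (b 0 ^ n * c) =
          a₂ * 1 * u₂ * (a₁ * 1 * u₁ * (a₀ * b 0 ^ n * u₀ * (q' * c))) := by ring
      rw [e]
      exact h3
    -- the span of the products is an algebra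
    let S : Submodule ℂ O := Submodule.span ℂ
      {z | ∃ (n : ℕ) (c : O), c ∈ Algebra.adjoin ℂ (Set.range (Fin.tail b)) ∧ z = b 0 ^ n * c}
    have hSmem : ∀ (n : ℕ) (c : O), c ∈ Algebra.adjoin ℂ (Set.range (Fin.tail b)) →
        b 0 ^ n * c ∈ S := fun n c hc => Submodule.subset_span ⟨n, c, hc, rfl⟩
    have hSmul : ∀ x ∈ S, ∀ y ∈ S, x * y ∈ S := by
      intro x hx y hy
      induction hx using Submodule.span_induction with
      | mem x hx =>
        obtain ⟨n, c, hc, rfl⟩ := hx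
        induction hy using Submodule.span_induction with
        | mem y hy =>
          obtain ⟨n', c', hc', rfl⟩ := hy
          have e : b 0 ^ n * c * (b 0 ^ n' * c') = b 0 ^ (n + n') * (c * c') := by ring
          rw [e]
          exact hSmem _ _ (Subalgebra.mul_mem _ hc hc')
        | zero => rw [mul_zero]; exact S.zero_mem
        | add y y' _ _ h h' => rw [mul_add]; exact S.add_mem h h'
        | smul r y _ h => rw [mul_smul_comm]; exact S.smul_mem r h
      | zero => rw [zero_mul]; exact S.zero_mem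
      | add x x' _ _ h h' => rw [add_mul]; exact S.add_mem h h'
      | smul r x _ h => rw [smul_mul_assoc]; exact S.smul_mem r h
    have hPS : P ∈ S := by
      induction hP using Algebra.adjoin_induction with
      | mem x hx =>
        obtain ⟨i, rfl⟩ := hx
        refine Fin.cases ?_ (fun i => ?_) i
        · have := hSmem 1 1 (Subalgebra.one_mem _)
          rwa [pow_one, mul_one] at this
        · have := hSmem 0 (b i.succ) (Algebra.subset_adjoin ⟨i, rfl⟩)
          rwa [pow_zero, one_mul] at this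
      | algebraMap r =>
        have := hSmem 0 (algebraMap ℂ O r) (Subalgebra.algebraMap_mem _ r)
        rwa [pow_zero, one_mul] at this
      | add x y _ _ hx hy => exact S.add_mem hx hy
      | mul x y _ _ hx hy => exact hSmul x hx y hy
    clear hP
    induction hPS using Submodule.span_induction with
    | mem x hx =>
      obtain ⟨n, c, hc, rfl⟩ := hx
      exact hprod n c hc
    | zero =>
      rw [mul_zero]
      have := coef_csmul (coef_one hv θ) 0
      rwa [zero_smul] at this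
    | add x y _ _ hx hy => rw [mul_add]; exact coef_add hx hy
    | smul r x _ hx => rw [mul_smul_comm]; exact coef_csmul hx r

/-- finitely many elements of `alB v`: there is one multiplier for the algebra they generate -/
theorem alB_coef (hS : SD0 m O G) {v : Derivation ℂ O O} (hv : IsCompleteVF v) {s : O}
    (hs : v (v s) = 0) (hs0 : v s ≠ 0)
    (hmid : ∀ φ θ : HolAut O, ∃ ψ : HolAut O, Link v φ ψ ∧ Link v ψ θ) {k : ℕ} (b : Fin k → O)
    (hb : ∀ i, b i ∈ alB v) :
    ∃ q : O, q ≠ 0 ∧ ∀ P ∈ Algebra.adjoin ℂ (Set.range b), q * P ∈ Coef v := by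
  classical
  -- finitely many generators
  have h1 : ∀ x ∈ alB v, ∃ T : Finset O, (∀ h ∈ T, ∃ φ : HolAut O, φ.push v h = 0) ∧
      x ∈ Algebra.adjoin ℂ (T : Set O) := by
    intro x hx
    induction hx using Algebra.adjoin_induction with
    | mem x hx => exact ⟨{x}, fun h hh => by
        rw [Finset.mem_singleton] at hh; rw [hh]; exact hx, Algebra.subset_adjoin (by simp)⟩
    | algebraMap r => exact ⟨∅, fun h hh => absurd hh (Finset.notMem_empty h),
        Subalgebra.algebraMap_mem _ r⟩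
    | add x y _ _ hx hy =>
      obtain ⟨T, hT, h⟩ := hx
      obtain ⟨T', hT', h'⟩ := hy
      refine ⟨T ∪ T', fun h hh => (Finset.mem_union.mp hh).elim (hT h) (hT' h), ?_⟩
      refine Subalgebra.add_mem _ (Algebra.adjoin_mono ?_ h) (Algebra.adjoin_mono ?_ h') <;> simp
    | mul x y _ _ hx hy =>
      obtain ⟨T, hT, h⟩ := hx
      obtain ⟨T', hT', h'⟩ := hy
      refine ⟨T ∪ T', fun h hh => (Finset.mem_union.mp hh).elim (hT h) (hT' h), ?_⟩
      refine Subalgebra.mul_mem _ (Algebra.adjoin_mono ?_ h) (Algebra.adjoin_mono ?_ h') <;> simp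
  choose T hT hbT using fun i => h1 (b i) (hb i)
  let U : Finset O := Finset.univ.biUnion T
  have hU : ∀ h ∈ U, ∃ φ : HolAut O, φ.push v h = 0 := by
    intro h hh
    obtain ⟨i, -, hi⟩ := Finset.mem_biUnion.mp hh
    exact hT i h hi
  let e := U.equivFin
  let c : Fin U.card → O := fun i => (e.symm i : O)
  have hc : ∀ i, ∃ φ : HolAut O, φ.push v (c i) = 0 := fun i => hU _ (e.symm i).2
  choose φ hφ using hc
  obtain ⟨q, hq, hqP⟩ := chain_coef hS hv hs hs0 hmid c φ hφ (idAut O)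
  have hid : (idAut O).push v = v := by
    apply Derivation.ext
    intro f
    rfl
  rw [hid] at hqP
  refine ⟨q, hq, fun P hP => hqP P ?_⟩
  have hle : Algebra.adjoin ℂ (Set.range b) ≤ Algebra.adjoin ℂ (Set.range c) := by
    refine Algebra.adjoin_le ?_
    rintro _ ⟨i, rfl⟩
    refine Algebra.adjoin_mono ?_ (hbT i)
    intro h hh
    have hhU : h ∈ U := Finset.mem_biUnion.mpr ⟨i, Finset.mem_univ i, hh⟩
    exact ⟨e ⟨h, hhU⟩, by simp [c]⟩
  exact hle hP

end Pool.Agent.MP_fe3720.BB
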