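import Pool.Agent.Work.MP_fe3720_an.B.Base

/-! # Module ClKM: uniform limits on compact sets

`K` compact, `A` a subalgebra of `O`, all elements of `O` are continuous (`hO.cont`), so bounded on `K`.
* `clK_add`, `clK_mul` (the elements of `ClK K A` are bounded on `K`), `clK_const`, `clK_of_mem`, `clK_sum`, `clK_prod`.
* `clK_comp`: if `e ∈ ClK K₁ univ` and `θ` maps `K` into `K₁` then `e ∘ θ ∈ ClK K univ` (`θ.pull a`).
* `clK_coef_mul`: if `w` is a vector field and `e h ∈ ClK K (Coef w)` for all `h ∈ O` then `e E ∈ ClK K (Coef w)` for every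
  `E ∈ ClK K univ` (`e` is bounded on `K`: it is in `ClK K univ`).
* `clK_coef_push`: if `e h ∈ ClK K₁ (Coef v)` for all `h : O` and `θ` maps `K` into `K₁` then
  `(e ∘ θ) h ∈ ClK K (Coef (θ.symm.push v))` for all `h : O`: for `h` take `h' = θ.symm.pull h` and `c ∈ Coef v` close to `e h'` on
  `K₁`; `θ.pull c ∈ Coef (θ.symm.push v)`: `θ.symm.push (c • v) = (θ.pull c) • θ.symm.push v` (`push_smul`; `θ.symm.symm = θ`
  definitionally), `push_clLie` (module Push). -/

namespace Pool.Agent.MP_fe3720.BB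

open Topology RR Filter

variable {X : Type} [TopologicalSpace X] {O : Subalgebra ℂ (X → ℂ)}

theorem clK_bounded (hO : IsClosedAlg O) {K : Set X} (hK : IsCompact K) {A : Set O} {e : X → ℂ}
    (he : e ∈ ClK K A) : ∃ C : ℝ, 0 ≤ C ∧ ∀ x ∈ K, ‖e x‖ ≤ C := by
  obtain ⟨a, -, ha⟩ := he 1 one_pos
  obtain ⟨B, hB⟩ := hK.exists_bound_of_continuousOn (hO.cont _ a.2).continuousOn
  refine ⟨|B| + 1, by positivity, fun x hx => ?_⟩
  have h1 := ha x hx
  have h2 := hB x hx
  have h3 := le_abs_self B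
  have h4 : e x = (e x - a x) + a x := by ring
  have h5 := norm_add_le (e x - a x) (a x)
  rw [← h4] at h5
  linarith

theorem clK_mono {K : Set X} {A A' : Set O} (h : A ⊆ A') {e : X → ℂ} (he : e ∈ ClK K A) :
    e ∈ ClK K A' := by
  intro ε hε
  obtain ⟨a, ha, h1⟩ := he ε hε
  exact ⟨a, h ha, h1⟩

theorem clK_congr {K : Set X} {A : Set O} {e e' : X → ℂ} (h : ∀ x ∈ K, e x = e' x)
    (he : e ∈ ClK K A) : e' ∈ ClK K A := by
  intro ε hε
  obtain ⟨a, ha, h1⟩ := he ε hε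
  refine ⟨a, ha, fun x hx => ?_⟩
  rw [← h x hx]
  exact h1 x hx

theorem clK_of_mem {K : Set X} {A : Set O} {a : O} (ha : a ∈ A) : a.1 ∈ ClK K A := by
  intro ε hε
  refine ⟨a, ha, fun x _ => ?_⟩
  rw [sub_self, norm_zero]
  exact hε

theorem clK_add {K : Set X} {A : Submodule ℂ O} {e e' : X → ℂ} (he : e ∈ ClK K (A : Set O))
    (he' : e' ∈ ClK K (A : Set O)) : e + e' ∈ ClK K (A : Set O) := by
  intro ε hε
  obtain ⟨a, ha, h1⟩ := he (ε / 2) (by positivity)
  obtain ⟨a', ha', h2⟩ := he' (ε / 2) (by positivity)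
  refine ⟨a + a', A.add_mem ha ha', fun x hx => ?_⟩
  have h3 : (e + e') x - (a + a' : O) x = (e x - a x) + (e' x - a' x) := by
    show e x + e' x - (a x + a' x) = _
    ring
  rw [h3]
  have := norm_add_le (e x - a x) (e' x - a' x)
  have h4 := h1 x hx
  have h5 := h2 x hx
  linarith

theorem clK_mul (hO : IsClosedAlg O) {K : Set X} (hK : IsCompact K) {A : Subalgebra ℂ O}
    {e e' : X → ℂ} (he : e ∈ ClK K (A : Set O)) (he' : e' ∈ ClK K (A : Set O)) :
    e * e' ∈ ClK K (A : Set O) := by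
  obtain ⟨C, hC0, hC⟩ := clK_bounded hO hK he
  obtain ⟨C', hC0', hC'⟩ := clK_bounded hO hK he'
  intro ε hε
  set δ : ℝ := min 1 (ε / (C + C' + 2)) with hδ
  have hδ0 : 0 < δ := lt_min one_pos (by positivity)
  have hδ1 : δ ≤ 1 := min_le_left _ _
  have hδ2 : δ * (C + C' + 2) ≤ ε := by
    have := min_le_right (1 : ℝ) (ε / (C + C' + 2))
    rwa [← hδ, le_div_iff₀ (by positivity)] at this
  obtain ⟨a, ha, h1⟩ := he δ hδ0
  obtain ⟨a', ha', h2⟩ := he' δ hδ0
  refine ⟨a * a', A.mul_mem ha ha', fun x hx => ?_⟩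
  have h3 : (e * e') x - (a * a' : O) x = e x * (e' x - a' x) + (e x - a x) * a' x := by
    show e x * e' x - (a x * a' x) = _
    ring
  rw [h3]
  have h4 := (h1 x hx).le
  have h5 := h2 x hx
  have h6 := hC x hx
  have h7 : ‖a' x‖ ≤ C' + 1 := by
    have h8 : a' x = e' x - (e' x - a' x) := by ring
    rw [h8]
    have h9 := norm_sub_le (e' x) (e' x - a' x)
    have h10 := hC' x hx
    linarith
  calc ‖e x * (e' x - a' x) + (e x - a x) * a' x‖
      ≤ ‖e x‖ * ‖e' x - a' x‖ + ‖e x - a x‖ * ‖a' x‖ := by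
        rw [← norm_mul, ← norm_mul]
        exact norm_add_le _ _
    _ ≤ C * δ + δ * (C' + 1) := by gcongr
    _ < δ * (C + C' + 2) := by nlinarith
    _ ≤ ε := hδ2

theorem clK_sum {ι : Type} (s : Finset ι) {K : Set X} {A : Subalgebra ℂ O} (e : ι → X → ℂ)
    (he : ∀ i ∈ s, e i ∈ ClK K (A : Set O)) : (∑ i ∈ s, e i) ∈ ClK K (A : Set O) := by
  classical
  induction s using Finset.induction with
  | empty =>
    rw [Finset.sum_empty]
    exact clK_of_mem (a := 0) A.zero_mem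
  | insert i s hi ih =>
    rw [Finset.sum_insert hi]
    exact clK_add (A := Subalgebra.toSubmodule A) (he i (Finset.mem_insert_self i s))
      (ih fun j hj => he j (Finset.mem_insert_of_mem hj))

theorem clK_prod (hO : IsClosedAlg O) {ι : Type} (s : Finset ι) {K : Set X} (hK : IsCompact K)
    {A : Subalgebra ℂ O} (e : ι → X → ℂ) (he : ∀ i ∈ s, e i ∈ ClK K (A : Set O)) :
    (∏ i ∈ s, e i) ∈ ClK K (A : Set O) := by
  classical
  induction s using Finset.induction with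
  | empty =>
    rw [Finset.prod_empty]
    exact clK_of_mem (a := 1) A.one_mem
  | insert i s hi ih =>
    rw [Finset.prod_insert hi]
    exact clK_mul hO hK (he i (Finset.mem_insert_self i s))
      (ih fun j hj => he j (Finset.mem_insert_of_mem hj))

theorem clK_closed {K : Set X} {A : Set O} {e : X → ℂ}
    (h : ∀ ε > 0, ∃ e' ∈ ClK K A, ∀ x ∈ K, ‖e x - e' x‖ < ε) : e ∈ ClK K A := by
  intro ε hε
  obtain ⟨e', he', h1⟩ := h (ε / 2) (by positivity)
  obtain ⟨a, ha, h2⟩ := he' (ε / 2) (by positivity)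
  refine ⟨a, ha, fun x hx => ?_⟩
  have h3 : e x - a x = (e x - e' x) + (e' x - a x) := by ring
  rw [h3]
  have := norm_add_le (e x - e' x) (e' x - a x)
  have h4 := h1 x hx
  have h5 := h2 x hx
  linarith

theorem clK_comp {K K₁ : Set X} {e : X → ℂ} (he : e ∈ ClK K₁ (Set.univ : Set O))
    (θ : HolAut O) (hθ : ∀ x ∈ K, θ x ∈ K₁) : (fun x => e (θ x)) ∈ ClK K (Set.univ : Set O) := by
  intro ε hε
  obtain ⟨a, -, h1⟩ := he ε hε
  exact ⟨θ.pull a, trivial, fun x hx => h1 _ (hθ x hx)⟩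

theorem clK_coef_mul (hO : IsClosedAlg O) {K : Set X} (hK : IsCompact K)
    {w : Derivation ℂ O O} {e E : X → ℂ} (he : e ∈ ClK K (Set.univ : Set O))
    (h : ∀ h : O, (fun x => e x * h x) ∈ ClK K (Coef w)) (hE : E ∈ ClK K (Set.univ : Set O)) :
    (fun x => e x * E x) ∈ ClK K (Coef w) := by
  obtain ⟨C, hC0, hC⟩ := clK_bounded hO hK he
  refine clK_closed fun ε hε => ?_
  obtain ⟨a, -, h1⟩ := hE (ε / (C + 1)) (by positivity)
  refine ⟨fun x => e x * a x, h a, fun x hx => ?_⟩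
  have h2 := (h1 x hx)
  have h3 := hC x hx
  rw [← mul_sub, norm_mul]
  calc ‖e x‖ * ‖E x - a x‖ ≤ C * ‖E x - a x‖ := by gcongr
    _ ≤ C * (ε / (C + 1)) := by gcongr
    _ < (C + 1) * (ε / (C + 1)) := by
        have : 0 < ε / (C + 1) := by positivity
        nlinarith
    _ = ε := by field_simp

theorem clK_coef_push {K K₁ : Set X} {v : Derivation ℂ O O} {e : X → ℂ}
    (h : ∀ h : O, (fun x => e x * h x) ∈ ClK K₁ (Coef v)) (θ : HolAut O)
    (hθ : ∀ x ∈ K, θ x ∈ K₁) (h' : O) :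
    (fun x => e (θ x) * h' x) ∈ ClK K (Coef (θ.symm.push v)) := by
  intro ε hε
  obtain ⟨c, hc, h1⟩ := h (θ.symm.pull h') ε hε
  refine ⟨θ.pull c, ?_, fun x hx => ?_⟩
  · show θ.pull c • θ.symm.push v ∈ clLie O
    have h2 := HolAut.push_clLie θ.symm hc
    rw [HolAut.push_smul] at h2
    exact h2
  · have h3 : ‖e (θ x) * (θ.symm.pull h') (θ x) - c (θ x)‖ < ε := h1 (θ x) (hθ x hx)
    have h4 : (θ.symm.pull h') (θ x) = h' x := by
      show h' (θ.symm (θ x)) = h' x
      rw [HolAut.symm_apply_self]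
    rw [h4] at h3
    exact h3

end Pool.Agent.MP_fe3720.BB
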