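import Pool.Agent.Work.MP_fe3720_an.B.LevelC

/-! # Module CoSpan: the functions `f ∘ ψ`, `ψ ∈ Aut`, separate points and directions

* `sep_pts`: for `x ≠ y` there is `ψ` with `f (ψ x) ≠ f (ψ y)`: 2-transitivity and `hfc`.
* `co_span`: let `𝓢 = {f ∘ ψ | ψ ∈ Aut}` (`ψ.pull f`). If `Reg g x` for some `g : Fin m → 𝓢` at one point `x`, then at every
  point, by transitivity: for `A ∈ Aut`, `Reg g x → Reg (A.symm.pull (g i)) (A x)` (push the fields `E i` by `A`:
  `(A.push (E i) (A.symm.pull g_j)) (A x) = (E i g_j) x`; `isVF_push`), and `A.symm.pull (ψ.pull f) = (ψ.comp A.symm).pull f`.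
  Otherwise no point is regular for any such `g`, and `level_curve` with `W = univ` gives two points
  `x ≠ y` (in `C`) with `f (ψ x) = f (ψ y)` for all `ψ`, contradiction to `sep_pts`.
* `co_local`: by `reg_local` the map `z ↦ (f (ψ i z))_i` is injective near `x`. -/

namespace Pool.Agent.MP_fe3720.BB

open Topology RR Filter

variable {X : Type} [MetricSpace X] [ProperSpace X] [PreconnectedSpace X]
  {O : Subalgebra ℂ (X → ℂ)} {m N : ℕ} {G : Fin N → O}

theorem sep_pts (hK : KTrans O) {f : O} (hfc : ∃ x y, f x ≠ f y) {x y : X} (hxy : x ≠ y) :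
    ∃ ψ : HolAut O, f (ψ x) ≠ f (ψ y) := by
  obtain ⟨p, q, hpq⟩ := hfc
  have inj : ∀ {a b : X}, a ≠ b → Function.Injective (![a, b] : Fin 2 → X) := by
    intro a b hab i j hij
    fin_cases i <;> fin_cases j <;> simp_all
  have hpq' : p ≠ q := fun h => hpq (by rw [h])
  obtain ⟨φ, h⟩ := hK 2 ![x, y] ![p, q] (inj hxy) (inj hpq')
  refine ⟨φ, ?_⟩
  have h0 : φ x = p := h 0
  have h1 : φ y = q := h 1
  rw [h0, h1]
  exact hpq

theorem reg_aut {g : Fin m → O} {x : X} (h : Reg g x) (A : HolAut O) :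
    Reg (fun i => A.symm.pull (g i)) (A x) := by
  obtain ⟨E, hE, hdet⟩ := h
  refine ⟨fun i => A.push (E i), fun i => A.isVF_push (hE i), ?_⟩
  have h1 : (Matrix.of fun i j => (A.push (E i) (A.symm.pull (g j))) (A x)) =
      Matrix.of fun i j => (E i (g j)) x := by
    ext i j
    rw [Matrix.of_apply, Matrix.of_apply, HolAut.push_apply]
    have h2 : A.pull (A.symm.pull (g j)) = g j := by
      apply Subtype.ext
      funext z
      show (g j) (A.symm (A z)) = (g j) z
      rw [HolAut.symm_apply_self]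
    rw [h2]
  rw [h1]
  exact hdet

theorem co_span (hS : SD0 m O G) (hK : KTrans O) {f : O} (hfc : ∃ x y, f x ≠ f y) (x : X) :
    ∃ ψ : Fin m → HolAut O, Reg (fun i => (ψ i).pull f) x := by
  by_cases hex : ∃ (x₁ : X) (ψ : Fin m → HolAut O), Reg (fun i => (ψ i).pull f) x₁
  · obtain ⟨x₁, ψ, h⟩ := hex
    obtain ⟨A, hA⟩ := hK 1 (fun _ => x₁) (fun _ => x) (fun i j _ => Subsingleton.elim i j)
      (fun i j _ => Subsingleton.elim i j)
    refine ⟨fun i => (ψ i).comp A.symm, ?_⟩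
    have h1 := reg_aut h A
    rw [hA 0] at h1
    exact h1
  · exfalso
    obtain ⟨C, -, -, ⟨y, hy, z, hz, hyz⟩, hC⟩ := level_curve hS
      {g : O | ∃ ψ : HolAut O, g = ψ.pull f} isOpen_univ ⟨x, trivial⟩ (by
        intro x' _ g hg hreg
        choose ψ hψ using hg
        refine hex ⟨x', ψ, ?_⟩
        have : g = fun i => (ψ i).pull f := funext hψ
        rwa [← this])
    obtain ⟨ψ, hψ⟩ := sep_pts hK hfc hyz
    exact hψ (hC (ψ.pull f) ⟨ψ, rfl⟩ y hy z hz)

theorem co_local (hS : SD0 m O G) (hK : KTrans O) {f : O} (hfc : ∃ x y, f x ≠ f y) (x : X) :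
    ∃ (ψ : Fin m → HolAut O) (W : Set X), IsOpen W ∧ x ∈ W ∧
      Set.InjOn (fun z i => ((ψ i).pull f) z) W := by
  obtain ⟨ψ, h⟩ := co_span hS hK hfc x
  obtain ⟨W, -, h1, h2, h3, -⟩ := reg_local hS _ h (W₀ := Set.univ) univ_mem
  exact ⟨ψ, W, h1, h2, h3⟩

end Pool.Agent.MP_fe3720.BB
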