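import Pool.Agent.Work.MP_fe3720_an.B.Base

/-! # Module SliceC: complete fields `g v` and `(g s) v`

`hS : SD0 m O G`, `v` complete with flow `Φ` (`exists_flow`), `g` a first integral (`v g = 0`).

* `complete_ker`: `g • v` is complete: `IsVF` by `IsVF.fsmul`; the curve through `x` is
  `t ↦ Φ (g x * t) x`: `HasDerivAt` by the chain rule (`IsFlow.deriv`), with derivative
  `(v h)(γ t) * g x` and `g (γ t) = g x` (`IsFlow.inv`).
* `slice_flow`: `s (Φ τ x) = s x + (v s) x * τ` (and `(v s) (Φ τ x) = (v s) x` by `IsFlow.inv`): the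
  derivative of `τ ↦ s (Φ τ x)` is `(v s)(Φ τ x) = (v s) x`, constant (`is_const_of_deriv_eq_zero`).
* `complete_slice`: `(g * s) • v` is complete. Let `E : ℂ → ℂ` be entire with `z * E z = exp z - 1`
  (`expE` below). The curve through `x` is `γ t = Φ (τ t) x`, `τ t = s x * g x * t * E (g x * a x * t)`,
  `a = v s`. If `a x * g x ≠ 0`: `τ t = s x * (exp (g x a x t) - 1) / a x`, `τ' t = s x g x exp (g x a x t)`; in general
  `1 + a x g x t E (g x a x t) = exp (g x a x t)` and `τ' = s x g x exp (g x a x t)` (`HasDerivAt` of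
  `t ↦ t * E (c t)` is `exp (c t)`: for `c ≠ 0` it is `(exp (c t) - 1)/c`, for `c = 0` it is `t * E 0 = t`). So
  `τ' t = g x * (s x + a x * τ t) = (g * s) (γ t)`. -/

namespace Pool.Agent.MP_fe3720.BB

open Topology RR

variable {X : Type} [MetricSpace X] [ProperSpace X] {O : Subalgebra ℂ (X → ℂ)} {m N : ℕ}
  {G : Fin N → O}

/-- `(exp z - 1) / z` -/
theorem expE : ∃ E : ℂ → ℂ, ∀ c t : ℂ, HasDerivAt (fun t => t * E (c * t)) (Complex.exp (c * t)) t ∧
    1 + c * (t * E (c * t)) = Complex.exp (c * t) := by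
  classical
  refine ⟨fun z => if z = 0 then 1 else (Complex.exp z - 1) / z, fun c t => ?_⟩
  by_cases hc : c = 0
  · subst hc
    simp only [zero_mul, if_true, mul_one, Complex.exp_zero, add_zero, and_true]
    exact hasDerivAt_id t
  · have hfun : ∀ t : ℂ, t * (if c * t = 0 then 1 else (Complex.exp (c * t) - 1) / (c * t)) =
        (Complex.exp (c * t) - 1) / c := by
      intro t
      by_cases ht : t = 0
      · subst ht
        simp
      · rw [if_neg (mul_ne_zero hc ht)]
        field_simp
    constructor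
    · have h1 : (fun t : ℂ => t * (if c * t = 0 then 1 else (Complex.exp (c * t) - 1) / (c * t))) =
          fun t => (Complex.exp (c * t) - 1) / c := funext hfun
      show HasDerivAt (fun t : ℂ => t * (if c * t = 0 then 1 else
        (Complex.exp (c * t) - 1) / (c * t))) (Complex.exp (c * t)) t
      rw [h1]
      have h2 : HasDerivAt (fun t : ℂ => c * t) c t := by
        simpa using (hasDerivAt_id t).const_mul c
      have h3 := ((h2.cexp).sub_const 1).div_const c
      rw [mul_div_assoc, div_self hc, mul_one] at h3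
      exact h3
    · show 1 + c * (t * (if c * t = 0 then 1 else (Complex.exp (c * t) - 1) / (c * t))) = _
      rw [hfun t]
      field_simp
      ring

theorem complete_ker (hS : SD0 m O G) {v : Derivation ℂ O O} (hv : IsCompleteVF v) {g : O}
    (hg : v g = 0) : IsCompleteVF (g • v) := by
  obtain ⟨Φ, hΦ⟩ := exists_flow hS hv
  refine ⟨hv.1.fsmul hS.alg.cont g, fun x => ⟨fun t => Φ (g x * t) x, ?_, ?_, ?_⟩⟩
  · exact hΦ.cont.comp ((continuous_const.mul continuous_id).prodMk continuous_const)
  · show Φ (g x * 0) x = x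
    rw [mul_zero, hΦ.zero]
  · intro f t
    have h1 := hΦ.deriv f x (g x * t)
    have h2 : HasDerivAt (fun t : ℂ => g x * t) (g x) t := by
      simpa using (hasDerivAt_id t).const_mul (g x)
    have h3 := h1.comp t h2
    have h4 : ((g • v) f) (Φ (g x * t) x) = (v f) (Φ (g x * t) x) * g x := by
      show g (Φ (g x * t) x) * (v f) (Φ (g x * t) x) = _
      rw [hΦ.inv hg, mul_comm]
    show HasDerivAt (fun s => f (Φ (g x * s) x)) (((g • v) f) (Φ (g x * t) x)) t
    rw [h4]
    exact h3

theorem slice_flow {v : Derivation ℂ O O} {Φ : ℂ → HolAut O} (hΦ : IsFlow v Φ) {s : O}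
    (hs : v (v s) = 0) (τ : ℂ) (x : X) : s (Φ τ x) = s x + (v s) x * τ := by
  have hd : ∀ t : ℂ, HasDerivAt (fun t => s (Φ t x) - (v s) x * t) 0 t := by
    intro t
    have h1 := hΦ.deriv s x t
    have h2 : HasDerivAt (fun t : ℂ => (v s) x * t) ((v s) x) t := by
      simpa using (hasDerivAt_id t).const_mul ((v s) x)
    have h3 := h1.sub h2
    rw [hΦ.inv hs, sub_self] at h3
    exact h3
  have hconst := is_const_of_deriv_eq_zero (fun t => (hd t).differentiableAt)
    (fun t => (hd t).deriv) τ 0
  simp only [hΦ.zero, mul_zero, sub_zero] at hconst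
  linear_combination hconst

theorem complete_slice (hS : SD0 m O G) {v : Derivation ℂ O O} (hv : IsCompleteVF v) {s g : O}
    (hs : v (v s) = 0) (hg : v g = 0) : IsCompleteVF ((g * s) • v) := by
  obtain ⟨Φ, hΦ⟩ := exists_flow hS hv
  obtain ⟨E, hE⟩ := expE
  refine ⟨hv.1.fsmul hS.alg.cont (g * s), fun x => ?_⟩
  set c : ℂ := g x * (v s) x with hc
  have hd : ∀ t : ℂ, HasDerivAt (fun t => s x * g x * (t * E (c * t)))
      (s x * g x * Complex.exp (c * t)) t := fun t => (hE c t).1.const_mul _
  refine ⟨fun t => Φ (s x * g x * (t * E (c * t))) x, ?_, ?_, ?_⟩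
  · refine hΦ.cont.comp (Continuous.prodMk ?_ continuous_const)
    exact continuous_iff_continuousAt.mpr fun t => (hd t).continuousAt
  · show Φ (s x * g x * (0 * E (c * 0))) x = x
    rw [zero_mul, mul_zero, hΦ.zero]
  · intro f t
    have h3 := (hΦ.deriv f x (s x * g x * (t * E (c * t)))).comp t (hd t)
    have h4 : (((g * s) • v) f) (Φ (s x * g x * (t * E (c * t))) x) =
        (v f) (Φ (s x * g x * (t * E (c * t))) x) * (s x * g x * Complex.exp (c * t)) := by
      show (g (Φ (s x * g x * (t * E (c * t))) x) * s (Φ (s x * g x * (t * E (c * t))) x)) *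
        (v f) (Φ (s x * g x * (t * E (c * t))) x) = _
      rw [hΦ.inv hg, slice_flow hΦ hs, ← (hE c t).2, hc]
      ring
    show HasDerivAt (fun t => f (Φ (s x * g x * (t * E (c * t))) x))
      ((((g * s) • v) f) (Φ (s x * g x * (t * E (c * t))) x)) t
    rw [h4]
    exact h3

end Pool.Agent.MP_fe3720.BB
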