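import Pool.Agent.Work.MP_fe3720_an.B.AlgD
import Pool.Agent.Work.MP_fe3720_an.B.SliceC

/-! # Module CoefA: the basic step for the coefficients

* `coef_step`: let `W ∈ clLie O`. By `alg_D` for `(f, g)` and for `(f * g, 1)` (`W 1 = 0`):
  `(2 * (v s * f * W g)) • v = (⁅(f g) v, ⁅s v, W⁆⁆ - ⁅(s f g) v, ⁅v, W⁆⁆) - (⁅f v, ⁅(s g) v, W⁆⁆ - ⁅(s f) v, ⁅g v, W⁆⁆)`;
  the fields `f v`, `(s f) v`, … are complete by `complete_ker`, `complete_slice` (commute the products),
  so in `clLie` (`mem_clLie_of_complete`); `clLie_lie`, `clLie_sub`, `clLie_csmul` with `1/2`.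
* `coef_conj`: apply `coef_step` to `v' = θ.push v` (complete by `isComplete_push`), `s' = θ.symm.pull s`:
  `v' s' = θ.symm.pull (v s)` and `v' (v' s') = 0` (`push_eq`, `pull_pull_symm`), and
  `W = c • φ.push v ∈ clLie`, `W g = c * φ.push v g`.
* `coef_one`: `1 • θ.push v` is complete. -/

namespace Pool.Agent.MP_fe3720.BB

open Topology RR

variable {X : Type} [MetricSpace X] [ProperSpace X] {O : Subalgebra ℂ (X → ℂ)} {m N : ℕ}
  {G : Fin N → O}

theorem coef_step (hS : SD0 m O G) {v : Derivation ℂ O O} (hv : IsCompleteVF v) {s f g : O}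
    (hs : v (v s) = 0) (hf : v f = 0) (hg : v g = 0) {W : Derivation ℂ O O} (hW : W ∈ clLie O) :
    v s * f * W g ∈ Coef v := by
  have hfg : v (f * g) = 0 := by
    rw [Derivation.leibniz, hf, hg, smul_zero, smul_zero, add_zero]
  have h1 : v (1 : O) = 0 := Derivation.map_one_eq_zero v
  have hk : ∀ k : O, v k = 0 → k • v ∈ clLie O := fun k hk =>
    mem_clLie_of_complete (complete_ker hS hv hk)
  have hsk : ∀ k : O, v k = 0 → (s * k) • v ∈ clLie O := fun k hk => by
    rw [mul_comm]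
    exact mem_clLie_of_complete (complete_slice hS hv hs hk)
  have e1 := alg_D v W s f g hf hg hs
  have e2 := alg_D v W s (f * g) 1 hfg h1 hs
  have h2 : (2 * (v s * f * W g)) • v =
      (⁅(f * g) • v, ⁅(s * 1) • v, W⁆⁆ - ⁅(s * (f * g)) • v, ⁅(1 : O) • v, W⁆⁆) -
      (⁅f • v, ⁅(s * g) • v, W⁆⁆ - ⁅(s * f) • v, ⁅g • v, W⁆⁆) := by
    rw [e1, e2]
    apply Derivation.ext
    intro k
    simp only [Derivation.sub_apply, Derivation.smul_apply, smul_eq_mul,
      Derivation.map_one_eq_zero, mul_one]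
    ring
  have h3 : (2 * (v s * f * W g)) • v ∈ clLie O := by
    rw [h2]
    exact clLie_sub
      (clLie_sub (clLie_lie (hk _ hfg) (clLie_lie (hsk _ h1) hW))
        (clLie_lie (hsk _ hfg) (clLie_lie (hk _ h1) hW)))
      (clLie_sub (clLie_lie (hk _ hf) (clLie_lie (hsk _ hg) hW))
        (clLie_lie (hsk _ hf) (clLie_lie (hk _ hg) hW)))
  have h4 := clLie_csmul h3 (1 / 2)
  have h5 : (v s * f * W g) • v = (1 / 2 : ℂ) • ((2 * (v s * f * W g)) • v) := by
    apply Derivation.ext
    intro k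
    apply Subtype.ext
    funext x
    show (v s) x * f x * (W g) x * (v k) x =
      (1 / 2 : ℂ) * ((2 : ℂ) * ((v s) x * f x * (W g) x) * (v k) x)
    ring
  show (v s * f * W g) • v ∈ clLie O
  rw [h5]
  exact h4

theorem coef_conj (hS : SD0 m O G) {v : Derivation ℂ O O} (hv : IsCompleteVF v) {s : O}
    (hs : v (v s) = 0) (θ φ : HolAut O) {c f g : O} (hc : c ∈ Coef (φ.push v))
    (hf : θ.push v f = 0) (hg : θ.push v g = 0) :
    θ.symm.pull (v s) * f * (φ.push v g) * c ∈ Coef (θ.push v) := by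
  have h1 : θ.push v (θ.symm.pull s) = θ.symm.pull (v s) := by
    rw [HolAut.push_eq, HolAut.pull_pull_symm]
  have h2 : θ.push v (θ.push v (θ.symm.pull s)) = 0 := by
    rw [h1, HolAut.push_eq, HolAut.pull_pull_symm, hs, map_zero]
  have h3 := coef_step hS (HolAut.isComplete_push θ hv) h2 hf hg
    (W := c • φ.push v) hc
  rw [h1] at h3
  have h4 : (c • φ.push v) g = φ.push v g * c := by
    rw [Derivation.smul_apply, smul_eq_mul, mul_comm]
  rw [h4, ← mul_assoc] at h3
  exact h3

theorem coef_one {v : Derivation ℂ O O} (hv : IsCompleteVF v) (θ : HolAut O) :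
    (1 : O) ∈ Coef (θ.push v) := by
  show (1 : O) • θ.push v ∈ clLie O
  rw [one_smul]
  exact mem_clLie_of_complete (HolAut.isComplete_push θ hv)

theorem coef_add {w : Derivation ℂ O O} {a b : O} (ha : a ∈ Coef w) (hb : b ∈ Coef w) :
    a + b ∈ Coef w := by
  show (a + b) • w ∈ clLie O
  rw [add_smul]
  exact clLie_add ha hb

theorem coef_csmul {w : Derivation ℂ O O} {a : O} (ha : a ∈ Coef w) (c : ℂ) :
    c • a ∈ Coef w := by
  have h := clLie_csmul ha c
  have h5 : (c • a) • w = c • (a • w) := by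
    apply Derivation.ext
    intro k
    apply Subtype.ext
    funext x
    show c * a x * (w k) x = c * (a x * (w k) x)
    ring
  show (c • a) • w ∈ clLie O
  rw [h5]
  exact h

end Pool.Agent.MP_fe3720.BB
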