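import Pool.Agent.Work.MP_fe3720_an.B.RegB
import Pool.Agent.Work.MP_fe3720_an.Fin

/-! # Module CramerI: Cramer's rule as an identity of derivations

This is in the proof of `cramer_mem` of `Pool/Agent/Work/MP_fe3720_an/Fin.lean`: with `M = (u_i f_j)`, `Δ = det M`,
`c_i = ∑_j (D f_j) adj(M)_{j i}` and `E = Δ • D - ∑ c_i • u_i`, `Δ • E = 0`. So `(Δ * Δ) • D = ∑ i, (Δ * c_i) • u_i`. The charts are
from `hS.charts`. -/

namespace Pool.Agent.MP_fe3720.BB

open Topology RR Filter

variable {X : Type} [MetricSpace X] {O : Subalgebra ℂ (X → ℂ)} {m N : ℕ} {G : Fin N → O}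

theorem cramer_exp (hS : SD0 m O G) {D : Derivation ℂ O O} (hD : IsVF D)
    (u : Fin m → Derivation ℂ O O) (hu : ∀ i, IsVF (u i)) (f : Fin m → O) :
    ((Matrix.of fun i j => u i (f j)).det *
      (Matrix.of fun i j => u i (f j)).det) • D = ∑ i, ((Matrix.of fun i j => u i (f j)).det *
        ∑ j, D (f j) * (Matrix.of fun i j => u i (f j)).adjugate j i) • u i := by
  set M : Matrix (Fin m) (Fin m) O := Matrix.of fun i j => u i (f j) with hM
  set Δ : O := M.det with hΔ
  set c : Fin m → O := fun i => ∑ j, D (f j) * M.adjugate j i with hc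
  have hcM : ∀ k, ∑ i, c i * u i (f k) = D (f k) * Δ := by
    intro k
    have h1 : ∑ i, c i * M i k = ∑ j, D (f j) * (∑ i, M.adjugate j i * M i k) := by
      simp only [hc, Finset.sum_mul, Finset.mul_sum]
      rw [Finset.sum_comm]
      refine Finset.sum_congr rfl fun j _ => Finset.sum_congr rfl fun i _ => by ring
    have h2 : ∀ j, ∑ i, M.adjugate j i * M i k = if j = k then Δ else 0 := by
      intro j
      have h3 := congrFun (congrFun (M.adjugate_mul) j) k
      rw [Matrix.mul_apply] at h3
      rw [h3, Matrix.smul_apply, Matrix.one_apply]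
      split_ifs <;> simp [hΔ]
    have h3 : ∑ i, c i * u i (f k) = ∑ i, c i * M i k := rfl
    rw [h3, h1]
    simp only [h2]
    simp
  set E : Derivation ℂ O O := Δ • D - ∑ i, c i • u i with hE
  have hEapp : ∀ h : O, E h = Δ * D h - ∑ i, c i * u i h := by
    intro h
    rw [hE, Derivation.sub_apply, der_sum_apply]
    rfl
  have hEf : ∀ k, E (f k) = 0 := by
    intro k
    rw [hEapp, hcM]
    ring
  have hEvf : IsVF E := by
    have h1 : IsVF (∑ i, c i • u i) :=
      isVF_sum _ _ fun i _ => (hu i).fsmul hS.alg.cont (c i)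
    have h2 : E = Δ • D + (-1 : ℂ) • (∑ i, c i • u i) := by
      apply Derivation.ext
      intro h
      apply Subtype.ext
      funext x
      rw [hE]
      show (Δ x * (D h) x) - ((∑ i, c i • u i : Derivation ℂ O O) h) x =
        (Δ x * (D h) x) + (-1 : ℂ) * ((∑ i, c i • u i : Derivation ℂ O O) h) x
      ring
    rw [h2]
    exact (hD.fsmul hS.alg.cont Δ).add (h1.csmul _)
  -- `Δ • E = 0`
  have hΔE : ∀ (h : O) (x : X), Δ x * (E h) x = 0 := by
    intro h x
    by_cases hx : Δ x = 0
    · rw [hx, zero_mul]
    · have hEx : (E h) x = 0 := by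
        obtain ⟨q, κ, V, hc', hy₀, hκ₀⟩ := hS.charts x
        have htan := hc'.tan
        set y : Fin m → ℂ := fun j => (q j) x with hy
        have htan' : ∀ D' : Derivation ℂ O O, IsVF D' → ∀ g : O,
            (D' g) x = fderiv ℂ (fun y => g (κ y)) y (fun j => (D' (q j)) x) := by
          intro D' hD' g
          have := htan D' hD' g y hy₀
          rwa [hκ₀] at this
        set ξ : Fin m → (Fin m → ℂ) := fun i j => (u i (q j)) x with hξ
        -- the matrix at `x`
        have hdet : (Matrix.of fun i j => (u i (f j)) x).det ≠ 0 := by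
          have h1 : Δ x = (Matrix.of fun i j => (u i (f j)) x).det := by
            have h2 := RingHom.map_det ((Pi.evalRingHom (fun _ : X => ℂ) x).comp O.val.toRingHom) M
            exact h2
          rw [← h1]; exact hx
        have hli : LinearIndependent ℂ ξ := by
          rw [Fintype.linearIndependent_iff]
          intro a ha
          have h1 : Matrix.vecMul a (Matrix.of fun i j => (u i (f j)) x) = 0 := by
            funext j
            show ∑ i, a i * (u i (f j)) x = 0
            have h2 : ∀ i, (u i (f j)) x = fderiv ℂ (fun y => (f j) (κ y)) y (ξ i) :=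
              fun i => htan' (u i) (hu i) (f j)
            simp only [h2]
            have h3 : ∑ i, a i * fderiv ℂ (fun y => (f j) (κ y)) y (ξ i) =
                fderiv ℂ (fun y => (f j) (κ y)) y (∑ i, a i • ξ i) := by
              rw [map_sum]
              refine Finset.sum_congr rfl fun i _ => ?_
              rw [map_smul, smul_eq_mul]
            rw [h3, ha, map_zero]
          have h2 := Matrix.eq_zero_of_vecMul_eq_zero hdet h1
          exact fun i => congrFun h2 i
        have hspan : Submodule.span ℂ (Set.range ξ) = ⊤ :=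
          hli.span_eq_top_of_card_eq_finrank' (by simp)
        obtain ⟨a, ha⟩ := (Submodule.mem_span_range_iff_exists_fun ℂ).mp
          (hspan ▸ Submodule.mem_top : (fun j => (E (q j)) x) ∈ Submodule.span ℂ (Set.range ξ))
        have ha0 : a = 0 := by
          have h1 : Matrix.vecMul a (Matrix.of fun i j => (u i (f j)) x) = 0 := by
            funext j
            show ∑ i, a i * (u i (f j)) x = 0
            have h2 : ∀ i, (u i (f j)) x = fderiv ℂ (fun y => (f j) (κ y)) y (ξ i) :=
              fun i => htan' (u i) (hu i) (f j)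
            simp only [h2]
            have h3 : ∑ i, a i * fderiv ℂ (fun y => (f j) (κ y)) y (ξ i) =
                fderiv ℂ (fun y => (f j) (κ y)) y (∑ i, a i • ξ i) := by
              rw [map_sum]
              refine Finset.sum_congr rfl fun i _ => ?_
              rw [map_smul, smul_eq_mul]
            rw [h3, ha, ← htan' E hEvf (f j), hEf]
            rfl
          exact Matrix.eq_zero_of_vecMul_eq_zero hdet h1
        rw [htan' E hEvf h, ← ha, ha0]
        simp
      rw [hEx, mul_zero]
  show (Δ * Δ) • D = ∑ i, (Δ * c i) • u i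
  apply Derivation.ext
  intro h
  rw [der_sum_apply]
  have h1 : Δ * E h = 0 := by
    apply Subtype.ext
    funext x
    exact hΔE h x
  have h2 : (∑ i, ((Δ * c i) • u i) h) = Δ * ∑ i, c i * u i h := by
    rw [Finset.mul_sum]
    refine Finset.sum_congr rfl fun i _ => ?_
    show Δ * c i * u i h = _
    ring
  rw [h2]
  show Δ * Δ * D h = _
  rw [hEapp] at h1
  linear_combination h1

theorem cramer_id (hS : SD0 m O G) {D : Derivation ℂ O O} (hD : IsVF D)
    (u : Fin m → Derivation ℂ O O) (hu : ∀ i, IsVF (u i)) (f : Fin m → O) :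
    ∃ c : Fin m → O, ((Matrix.of fun i j => u i (f j)).det *
      (Matrix.of fun i j => u i (f j)).det) • D = ∑ i, c i • u i :=
  ⟨_, cramer_exp hS hD u hu f⟩

end Pool.Agent.MP_fe3720.BB
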