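import Pool.Agent.Work.MP_fe3720_an.B.TrBase

/-! # Module DetR: real and complex determinants

* `det_jac`: the matrix of `fderiv ℂ g z` in the standard basis is `Jac g z` (`LinearMap.det_toLin'`,
  `LinearMap.toMatrix'`, `ContinuousLinearMap.det`).
* `det_real`: the real determinant of a complex linear map is the square of the modulus of the complex one:
  `LinearMap.det_restrictScalars` (the norm `Algebra.norm ℝ (det)`; `Algebra.norm_complex_eq` or
  `Complex.normSq`), `Complex.normSq_eq_norm_sq`. -/

namespace Pool.Agent.MP_fe3720.BB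

theorem det_jac {m : ℕ} (g : (Fin m → ℂ) → (Fin m → ℂ)) (z : Fin m → ℂ) :
    (fderiv ℂ g z).det = (Jac g z).det := by
  unfold ContinuousLinearMap.det
  rw [← LinearMap.det_toMatrix']
  congr 1

theorem det_real {m : ℕ} (A : (Fin m → ℂ) →L[ℂ] (Fin m → ℂ)) :
    |(A.restrictScalars ℝ).det| = ‖A.det‖ ^ 2 := by
  have h : (A.restrictScalars ℝ).det = Algebra.norm ℝ (A.det) := by
    unfold ContinuousLinearMap.det
    exact LinearMap.det_restrictScalars (R := ℝ) (S := ℂ) (f := (A : (Fin m → ℂ) →ₗ[ℂ] (Fin m → ℂ)))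
  rw [h, Algebra.norm_complex_apply, Complex.normSq_eq_norm_sq, abs_of_nonneg (by positivity)]

end Pool.Agent.MP_fe3720.BB
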