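import Pool.Agent.Work.MP_fe3720_an.B.Base
import Pool.Agent.Work.MP_fe3720_an.FrobCalc

/-! # Module RegB: regular points

* `reg_iff`: in a chart, `(E i (h j)) (κ y) = fderiv (h j ∘ κ) y (E i q)` (`hc.tan`), so the matrix is the product of
  the matrix `(E i (q l))` and (the transpose of) the matrix of `A = fderiv ℂ (fun y j => h j (κ y)) y`; if its
  determinant is nonzero, so is `A.det` (`LinearMap.det`; `Matrix.det_mul`, `LinearMap.det_toLin'`/
  `LinearMap.toMatrix'`). Conversely choose `E` with `(E i (q j)) (κ y) = δ_ij` (`exists_fields`, R/Val).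
* `reg_open`: the determinant `∑_σ …` of elements of `O` is in `O`, so continuous.
* `reg_dense`: `Δ = det (E i (h j)) ∈ O` is not zero; by `ident` it does not vanish identically on any
  nonempty open set.
* `reg_local`: at a regular point `x`, with a chart, `inverse_general` (FrobCalc) for `g y = (h j (κ y))_j`: there are
  arbitrarily small open `W ∋ x` such that `h` is injective on `W`, `h '' W` is open, all points of `W` are
  regular. In the coordinates: `W = κ '' 𝒩`, and the inverse. -/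

namespace Pool.Agent.MP_fe3720.BB

open Topology RR Filter

variable {X : Type} [MetricSpace X] [ProperSpace X] [PreconnectedSpace X]
  {O : Subalgebra ℂ (X → ℂ)} {m N : ℕ} {G : Fin N → O}

/-- the derivative of the map `y ↦ (h j (κ y))_j` -/
theorem chart_map_fderiv {q : Fin m → O} {κ : (Fin m → ℂ) → X} {V : Set (Fin m → ℂ)}
    (hc : IsChart O q κ V) {n : ℕ} (h : Fin n → O) {y : Fin m → ℂ} (hy : y ∈ V) :
    ContDiffAt ℂ 1 (fun y => fun j => (h j) (κ y)) y ∧
      ∀ w j, (fderiv ℂ (fun y => fun j => (h j) (κ y)) y w) j =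
        fderiv ℂ (fun y => (h j) (κ y)) y w := by
  have h1 : ∀ j, ContDiffAt ℂ 1 (fun y => (h j) (κ y)) y := fun j =>
    (hc.smooth (h j)).contDiffAt (hc.opn.mem_nhds hy)
  refine ⟨contDiffAt_pi.mpr h1, fun w j => ?_⟩
  have h2 : HasFDerivAt (fun y => fun j => (h j) (κ y))
      (ContinuousLinearMap.pi fun j => fderiv ℂ (fun y => (h j) (κ y)) y) y :=
    hasFDerivAt_pi.mpr fun j => ((h1 j).differentiableAt (by norm_num)).hasFDerivAt
  rw [h2.fderiv]
  rfl

theorem reg_iff (hS : SD0 m O G) {q : Fin m → O} {κ : (Fin m → ℂ) → X} {V : Set (Fin m → ℂ)}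
    (hc : IsChart O q κ V) {y : Fin m → ℂ} (hy : y ∈ V) (h : Fin m → O) :
    Reg h (κ y) ↔ (fderiv ℂ (fun y => fun j => (h j) (κ y)) y).det ≠ 0 := by
  obtain ⟨-, hA⟩ := chart_map_fderiv hc h hy
  set A := fderiv ℂ (fun y => fun j => (h j) (κ y)) y with hAdef
  have key : ∀ E : Fin m → Derivation ℂ O O, (∀ i, IsVF (E i)) →
      (Matrix.of fun i j => (E i (h j)) (κ y)) =
        (Matrix.of fun i j => (E i (q j)) (κ y)) * (LinearMap.toMatrix' A.toLinearMap).transpose := by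
    intro E hE
    ext i j
    have h1 := hc.tan (E i) (hE i) (h j) y hy
    rw [← hA] at h1
    rw [Matrix.of_apply, h1, Matrix.mul_apply]
    have h2 := congrFun (LinearMap.toMatrix'_mulVec A.toLinearMap
      (fun l => (E i (q l)) (κ y))) j
    have h3 : (A.toLinearMap fun l => (E i (q l)) (κ y)) j =
      (A fun l => (E i (q l)) (κ y)) j := rfl
    rw [← h3, ← h2]
    simp only [Matrix.mulVec, dotProduct, Matrix.of_apply, Matrix.transpose_apply]
    exact Finset.sum_congr rfl fun l _ => mul_comm _ _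
  have hdet : (LinearMap.toMatrix' A.toLinearMap).det = A.det := LinearMap.det_toMatrix' _
  constructor
  · rintro ⟨E, hE, hE2⟩
    rw [key E hE, Matrix.det_mul, Matrix.det_transpose, hdet] at hE2
    exact right_ne_zero_of_mul hE2
  · intro hdet0
    obtain ⟨E, hE, hE2⟩ := exists_fields hS hc hy
    refine ⟨E, hE, ?_⟩
    rw [key E hE, Matrix.det_mul, Matrix.det_transpose, hdet]
    have h1 : (Matrix.of fun i j => (E i (q j)) (κ y)) = 1 := by
      ext i j
      rw [Matrix.of_apply, hE2, Matrix.one_apply]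
    rw [h1, Matrix.det_one, one_mul]
    exact hdet0

theorem reg_open (hS : SD0 m O G) (h : Fin m → O) : IsOpen {x : X | Reg h x} := by
  have : {x : X | Reg h x} = ⋃ E : {E : Fin m → Derivation ℂ O O // ∀ i, IsVF (E i)},
      {x | (Matrix.of fun i j => (E.1 i (h j)) x).det ≠ 0} := by
    ext x
    simp only [Set.mem_iUnion]
    exact ⟨fun ⟨E, hE, h1⟩ => ⟨⟨E, hE⟩, h1⟩, fun ⟨E, h1⟩ => ⟨E.1, E.2, h1⟩⟩
  rw [this]
  refine isOpen_iUnion fun E => isOpen_ne_fun ?_ continuous_const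
  refine Continuous.matrix_det ?_
  refine continuous_pi fun i => continuous_pi fun j => ?_
  exact cont hS (E.1 i (h j))

/-- the determinant as an element of `O` -/
theorem det_mem (E : Fin m → Derivation ℂ O O) (h : Fin m → O) (x : X) :
    ((Matrix.of fun i j => E i (h j)).det : O) x = (Matrix.of fun i j => (E i (h j)) x).det := by
  let ev : O →+* ℂ := (Pi.evalRingHom (fun _ : X => ℂ) x).comp O.val.toRingHom
  have h1 : ev (Matrix.of fun i j => E i (h j)).det =
      (ev.mapMatrix (Matrix.of fun i j => E i (h j))).det := ev.map_det _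
  exact h1

theorem reg_dense (hS : SD0 m O G) (h : Fin m → O) {x : X} (hx : Reg h x) :
    Dense {x : X | Reg h x} := by
  obtain ⟨E, hE, hdet⟩ := hx
  rw [dense_iff_inter_open]
  intro U hU hne
  by_contra hcon
  have h1 : ∀ y ∈ U, ((Matrix.of fun i j => E i (h j)).det : O) y = 0 := by
    intro y hy
    rw [det_mem]
    by_contra h2
    exact hcon ⟨y, hy, E, hE, h2⟩
  have h2 := ident hS hU hne h1
  rw [← det_mem, h2] at hdet
  exact hdet rfl

theorem det_ne_zero_iff_injective (A : (Fin m → ℂ) →L[ℂ] (Fin m → ℂ)) :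
    A.det ≠ 0 ↔ Function.Injective A := by
  have h1 : A.det = LinearMap.det A.toLinearMap := rfl
  rw [h1, ← isUnit_iff_ne_zero, ← LinearMap.isUnit_iff_isUnit_det, LinearMap.isUnit_iff_ker_eq_bot,
    LinearMap.ker_eq_bot]
  rfl

theorem reg_local (hS : SD0 m O G) (h : Fin m → O) {x : X} (hx : Reg h x) {W₀ : Set X}
    (hW₀ : W₀ ∈ 𝓝 x) : ∃ W ⊆ W₀, IsOpen W ∧ x ∈ W ∧ Set.InjOn (fun z j => (h j) z) W ∧
      IsOpen ((fun z j => (h j) z) '' W) ∧ (∀ z ∈ W, Reg h z) ∧
      ∀ W' ⊆ W, IsOpen W' → IsOpen ((fun z j => (h j) z) '' W') := by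
  obtain ⟨q, κ, V, hc, hV, hκ⟩ := hS.charts x
  set y₀ := fun j => (q j) x with hy₀
  obtain ⟨hF, -⟩ := chart_map_fderiv hc h hV
  have hdet := (reg_iff hS hc hV h).mp (by rw [hκ]; exact hx)
  have hinj := (det_ne_zero_iff_injective _).mp hdet
  have hbij : Function.Bijective (fderiv ℂ (fun y => fun j => (h j) (κ y)) y₀) :=
    ⟨hinj, (LinearMap.injective_iff_surjective
      (f := (fderiv ℂ (fun y => fun j => (h j) (κ y)) y₀).toLinearMap)).mp hinj⟩
  have hκc : ContinuousAt κ y₀ := hc.cont.continuousAt (hc.opn.mem_nhds hV)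
  have hSn : V ∩ κ ⁻¹' W₀ ∈ 𝓝 y₀ :=
    inter_mem (hc.opn.mem_nhds hV) (hκc.preimage_mem_nhds (by rw [hκ]; exact hW₀))
  obtain ⟨𝒩, 𝒱, H, hNo, hN0, hNS, hVo, hGN, hHV⟩ := inverse_general _ y₀ hF hbij _ hSn
  have hNV : 𝒩 ⊆ V := fun n hn => (hNS hn).1
  have hHc : ContinuousOn H 𝒱 := fun y hy => ((hHV y hy).2.2.1.continuousAt).continuousWithinAt
  have hop : ∀ W' ⊆ κ '' 𝒩, IsOpen W' → IsOpen ((fun z j => (h j) z) '' W') := by
    intro W' hW' hWo
    have h1 : IsOpen (𝒩 ∩ κ ⁻¹' W') := (hc.cont.mono hNV).isOpen_inter_preimage hNo hWo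
    have h2 : IsOpen (𝒱 ∩ H ⁻¹' (𝒩 ∩ κ ⁻¹' W')) := hHc.isOpen_inter_preimage hVo h1
    convert h2 using 1
    ext y
    constructor
    · rintro ⟨z, hz, rfl⟩
      obtain ⟨n, hn, rfl⟩ := hW' hz
      obtain ⟨h3, h4, -, -⟩ := hGN n hn
      refine ⟨h3, ?_⟩
      show H (fun j => (h j) (κ n)) ∈ 𝒩 ∩ κ ⁻¹' W'
      have h4' : H (fun j => (h j) (κ n)) = n := h4
      rw [h4']
      exact ⟨hn, hz⟩
    · rintro ⟨hy, hy2, hy3⟩
      exact ⟨κ (H y), hy3, (hHV y hy).2.1⟩
  refine ⟨κ '' 𝒩, ?_, chart_image_open hS.alg hc hNo hNV, ⟨y₀, hN0, hκ⟩, ?_, ?_, ?_, hop⟩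
  · rintro _ ⟨n, hn, rfl⟩
    exact (hNS hn).2
  · rintro _ ⟨n, hn, rfl⟩ _ ⟨n', hn', rfl⟩ he
    have h1 : H (fun j => (h j) (κ n)) = n := (hGN n hn).2.1
    have h2 : H (fun j => (h j) (κ n')) = n' := (hGN n' hn').2.1
    have he' : (fun j => (h j) (κ n)) = fun j => (h j) (κ n') := he
    rw [← h1, ← h2, he']
  · exact hop _ subset_rfl (chart_image_open hS.alg hc hNo hNV)
  · rintro _ ⟨n, hn, rfl⟩
    rw [reg_iff hS hc (hNV hn), det_ne_zero_iff_injective]
    exact (hGN n hn).2.2.2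

end Pool.Agent.MP_fe3720.BB
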