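import Mathlib

/-! # Part B, traces: common definitions (FIXED: do not change) -/

namespace Pool.Agent.MP_fe3720.BB

open Topology MeasureTheory

/-- the Jacobian matrix of `g` at `z` -/
noncomputable def Jac {m : ℕ} (g : (Fin m → ℂ) → (Fin m → ℂ)) (z : Fin m → ℂ) :
    Matrix (Fin m) (Fin m) ℂ :=
  Matrix.of fun l k => (fderiv ℂ g z (Pi.single k 1)) l

/-- the derivative `∂/∂(conjugate of z_j)` of a real differentiable function -/
noncomputable def dbar {m : ℕ} (j : Fin m) (θ : (Fin m → ℂ) → ℂ) (z : Fin m → ℂ) : ℂ :=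
  (1 / 2) * (fderiv ℝ θ z (Pi.single j 1) + Complex.I * fderiv ℝ θ z (Pi.single j Complex.I))

/-- a radial mollifier of radius `s` -/
structure IsRad {m : ℕ} (s : ℝ) (ρ : (Fin m → ℂ) → ℝ) : Prop where
  smooth : ContDiff ℝ 2 ρ
  supp : ∀ w, s ≤ ‖w‖ → ρ w = 0
  nonneg : ∀ w, 0 ≤ ρ w
  inv : ∀ c : ℂ, ‖c‖ = 1 → ∀ w, ρ (c • w) = ρ w
  int : ∫ w, ρ w = 1

/-- the mollified trace -/
noncomputable def tauI {m : ℕ} (B : Set (Fin m → ℂ)) (g : (Fin m → ℂ) → (Fin m → ℂ))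
    (h : (Fin m → ℂ) → ℂ) (ρ : (Fin m → ℂ) → ℝ) (y : Fin m → ℂ) : ℂ :=
  ∫ ζ in B, h ζ * (ρ (y - g ζ) : ℂ) * ((‖(Jac g ζ).det‖ ^ 2 : ℝ) : ℂ)

/-- the local situation: `B` open with compact closure in `V`, `g`, `h` holomorphic on `V`, and `g` maps the
frontier of `B` outside of the ball of radius `2 R` around `y₀` -/
structure IsLoc {m : ℕ} (V B : Set (Fin m → ℂ)) (g : (Fin m → ℂ) → (Fin m → ℂ))
    (h : (Fin m → ℂ) → ℂ) (y₀ : Fin m → ℂ) (R : ℝ) : Prop where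
  opnV : IsOpen V
  gC : ContDiffOn ℂ 2 g V
  hC : ContDiffOn ℂ 1 h V
  opnB : IsOpen B
  cptB : IsCompact (closure B)
  sub : closure B ⊆ V
  Rpos : 0 < R
  front : ∀ ζ ∈ frontier B, g ζ ∉ Metric.ball y₀ (2 * R)

end Pool.Agent.MP_fe3720.BB
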