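import Pool.Agent.Work.MP_fe3720_an.B.DetR
import Pool.Agent.Work.MP_fe3720_an.B.RegB
import Pool.Agent.Work.MP_fe3720_an.B.TrBase

/-! # Module FibC: fibres of a special polyhedron

`hP : SpecPoly U β`, `y ∈ ball 0 1` (sup norm: `‖y i‖ < 1` for all `i`; also for `m = 0`).
* `fib_eq`: `fib U β y = {x ∈ closure U | ∀ i, β i x = y i}`: on the frontier some `‖β i x‖ > 1 > ‖y i‖`
  (`closure U = U ∪ frontier U`). So it is compact (`fib_compact`).
* `fib_td`: preconnected subsets of a fibre are subsingletons (`hP.tdl`).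
* `fib_near`: if `fib U β y₀ ⊆ B`, `B` open, there is `r > 0` such that `fib U β y ⊆ B` for all `y ∈ ball y₀ r`: otherwise
  there are `y n → y₀` and `x n ∈ fib U β (y n) \ B`, in the compact `closure U`; a limit point `x ∈ closure U \ B` has
  `β x = y₀`, so `x ∈ fib U β y₀` by `fib_eq`. Contradiction.
* `fib_finite`: if `y ∉ crit U β` every point of the fibre is regular, so isolated in it (`reg_local`): compact and
  discrete, finite.
* `crit_null`: cover `X` by countably many charts; in a chart `crit` is the image by `g y = (β j (κ y))_j` of a set of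
  points with `(fderiv ℂ g y).det = 0` (`reg_iff`), null by Sard's theorem
  (`MeasureTheory.addHaar_image_eq_zero_of_det_fderiv_eq_zero` over `ℝ`; the real derivative is the restriction of
  scalars, its determinant vanishes if the complex one does: `LinearMap.det_restrictScalars`).
* `dense_reg`: for every nonempty open `W ⊆ U` there is `x ∈ W` with `Reg β x` and `(β i x)_i ∉ crit U β`: take `x₁ ∈ W`
  regular (`hP.reg`), `W' ⊆ W` from `reg_local`: `β '' W'` is open and nonempty, of positive measure, so not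
  contained in `crit U β`. -/

namespace Pool.Agent.MP_fe3720.BB

open Topology RR Filter MeasureTheory

variable {X : Type} [MetricSpace X] [ProperSpace X] [PreconnectedSpace X]
  {O : Subalgebra ℂ (X → ℂ)} {m N : ℕ} {G : Fin N → O}

theorem fib_eq (hS : SD0 m O G) {U : Set X} {β : Fin m → O} (hP : SpecPoly U β)
    {y : Fin m → ℂ} (hy : y ∈ Metric.ball 0 1) :
    fib U β y = {x | x ∈ closure U ∧ ∀ i, (β i) x = y i} := by
  ext x
  constructor
  · rintro ⟨h1, h2⟩
    exact ⟨subset_closure h1, h2⟩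
  · rintro ⟨h1, h2⟩
    refine ⟨?_, h2⟩
    by_contra h3
    obtain ⟨i, hi⟩ := hP.front x (by rw [hP.opn.frontier_eq]; exact ⟨h1, h3⟩)
    rw [h2 i] at hi
    rw [mem_ball_zero_iff] at hy
    have := norm_le_pi_norm y i
    linarith

theorem cont_beta (hS : SD0 m O G) {n : ℕ} (β : Fin n → O) :
    Continuous (fun x i => (β i) x) := continuous_pi fun i => cont hS (β i)

theorem fib_compact (hS : SD0 m O G) {U : Set X} {β : Fin m → O} (hP : SpecPoly U β)
    {y : Fin m → ℂ} (hy : y ∈ Metric.ball 0 1) : IsCompact (fib U β y) := by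
  rw [fib_eq hS hP hy]
  have : {x | x ∈ closure U ∧ ∀ i, (β i) x = y i} =
      closure U ∩ (fun x i => (β i) x) ⁻¹' {y} := by
    ext x
    constructor
    · rintro ⟨h1, h2⟩
      exact ⟨h1, funext h2⟩
    · rintro ⟨h1, h2⟩
      exact ⟨h1, fun i => congrFun h2 i⟩
  rw [this]
  exact hP.cpt.inter_right ((isClosed_singleton).preimage (cont_beta hS β))

theorem fib_td {U : Set X} {β : Fin m → O} (hP : SpecPoly U β) (y : Fin m → ℂ) :
    ∀ C ⊆ fib U β y, IsPreconnected C → C.Subsingleton := by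
  intro C hC hCp
  refine hP.tdl C (fun x hx => subset_closure (hC hx).1) hCp fun i x hx z hz => ?_
  rw [(hC hx).2 i, (hC hz).2 i]

theorem fib_near (hS : SD0 m O G) {U : Set X} {β : Fin m → O} (hP : SpecPoly U β)
    {y₀ : Fin m → ℂ} (hy₀ : y₀ ∈ Metric.ball 0 1) {B : Set X} (hB : IsOpen B)
    (h : fib U β y₀ ⊆ B) : ∃ r > 0, ∀ y ∈ Metric.ball y₀ r, fib U β y ⊆ B := by
  have hK : IsCompact ((fun x i => (β i) x) '' (closure U \ B)) :=
    (hP.cpt.diff hB).image (cont_beta hS β)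
  have hy : y₀ ∈ ((fun x i => (β i) x) '' (closure U \ B))ᶜ := by
    rintro ⟨x, ⟨hx1, hx2⟩, hx3⟩
    refine hx2 (h ?_)
    rw [fib_eq hS hP hy₀]
    exact ⟨hx1, fun i => congrFun hx3 i⟩
  obtain ⟨r, hr, hball⟩ := Metric.isOpen_iff.mp hK.isClosed.isOpen_compl y₀ hy
  refine ⟨r, hr, fun y hy x hx => ?_⟩
  by_contra hxB
  exact hball hy ⟨x, ⟨subset_closure hx.1, hxB⟩, funext hx.2⟩

theorem fib_finite (hS : SD0 m O G) {U : Set X} {β : Fin m → O} (hP : SpecPoly U β)
    {y : Fin m → ℂ} (hy : y ∈ Metric.ball 0 1) (hc : y ∉ crit U β) : (fib U β y).Finite := by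
  have hreg : ∀ x ∈ fib U β y, Reg β x := by
    intro x hx
    by_contra h
    exact hc ⟨x, hx.1, hx.2, h⟩
  have h1 : ∀ x ∈ fib U β y, ∃ W : Set X, W ∈ 𝓝 x ∧ ∀ z ∈ fib U β y, z ∈ W → z = x := by
    intro x hx
    obtain ⟨W, -, hWo, hxW, hinj, -⟩ := reg_local hS β (hreg x hx) (W₀ := Set.univ) univ_mem
    refine ⟨W, hWo.mem_nhds hxW, fun z hz hzW => hinj hzW hxW ?_⟩
    funext i
    exact (hz.2 i).trans (hx.2 i).symm
  choose! W hW1 hW2 using h1
  obtain ⟨t, ht1, ht2⟩ := (fib_compact hS hP hy).elim_nhds_subcover W hW1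
  refine t.finite_toSet.subset fun z hz => ?_
  obtain ⟨x, hx, hzx⟩ := Set.mem_iUnion₂.mp (ht2 hz)
  rw [hW2 x (ht1 x hx) z hz hzx]
  exact hx

theorem crit_null (hS : SD0 m O G) (U : Set X) (β : Fin m → O) : volume (crit U β) = 0 := by
  choose q κ V hc hV hκ using hS.charts
  obtain ⟨s, hs, hcov⟩ := TopologicalSpace.countable_cover_nhds
    (f := fun x => κ x '' V x) (fun x => (hc x).img.mem_nhds ⟨_, hV x, hκ x⟩)
  have hsub : crit U β ⊆ ⋃ a ∈ s, (fun y j => (β j) (κ a y)) ''
      {y | y ∈ V a ∧ (fderiv ℂ (fun y j => (β j) (κ a y)) y).det = 0} := by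
    rintro y ⟨x, -, hx2, hx3⟩
    have h2 : x ∈ ⋃ x ∈ s, κ x '' V x := by rw [hcov]; trivial
    obtain ⟨a, ha, z, hz, hzx⟩ := Set.mem_iUnion₂.mp h2
    refine Set.mem_iUnion₂.mpr ⟨a, ha, z, ⟨hz, ?_⟩, ?_⟩
    · by_contra h
      refine hx3 ?_
      rw [← hzx]
      exact (reg_iff hS (hc a) hz β).mpr h
    · funext i
      show (β i) (κ a z) = y i
      rw [hzx, hx2]
  refine measure_mono_null hsub ((measure_biUnion_null_iff hs).mpr fun a _ => ?_)
  refine addHaar_image_eq_zero_of_det_fderivWithin_eq_zero volume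
    (f' := fun y => (fderiv ℂ (fun y j => (β j) (κ a y)) y).restrictScalars ℝ) ?_ ?_
  · rintro y ⟨hy, -⟩
    exact (((chart_map_fderiv (hc a) β hy).1.differentiableAt
      (by norm_num)).hasFDerivAt.restrictScalars ℝ).hasFDerivWithinAt
  · rintro y ⟨-, hy⟩
    have h1 := det_real (fderiv ℂ (fun y j => (β j) (κ a y)) y)
    rw [hy, norm_zero] at h1
    have h2 : |((fderiv ℂ (fun y j => (β j) (κ a y)) y).restrictScalars ℝ).det| = 0 := by
      rw [h1]; norm_num
    exact abs_eq_zero.mp h2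

theorem dense_reg (hS : SD0 m O G) {U : Set X} {β : Fin m → O} (hP : SpecPoly U β) {W : Set X}
    (hW : IsOpen W) (hne : W.Nonempty) :
    ∃ x ∈ W, Reg β x ∧ (fun i => (β i) x) ∉ crit U β := by
  obtain ⟨x₁, hx₁, hreg⟩ := hP.reg.inter_open_nonempty W hW hne
  obtain ⟨W', hW', hWo', hx₁', -, hopen, hregW, -⟩ := reg_local hS β hreg (hW.mem_nhds hx₁)
  by_contra hcon
  push Not at hcon
  have hsub : (fun z j => (β j) z) '' W' ⊆ crit U β := by
    rintro _ ⟨z, hz, rfl⟩
    exact hcon z (hW' hz) (hregW z hz)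
  have h1 : volume ((fun z j => (β j) z) '' W') = 0 := measure_mono_null hsub (crit_null hS U β)
  have h2 : 0 < volume ((fun z j => (β j) z) '' W') := hopen.measure_pos volume ⟨_, x₁, hx₁', rfl⟩
  exact h2.ne' h1

end Pool.Agent.MP_fe3720.BB
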