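import Pool.Agent.Work.MP_fe3720_an.B.NZEv

/-! # Module Links: intermediate automorphisms

Let `Φ` be the flow of `v`, `p` with `NZ v p` and `p' = Φ t p ≠ p` (`orbit_unbounded` for the compact set `{p}`).
* `link_of`: if `ψ p = a`, `ψ p' = b` and `f (φ.symm a) ≠ f (φ.symm b)` then `Link v φ ψ`: take `g = φ.symm.pull f`;
  `φ.push v g = φ.symm.pull (v (φ.pull (φ.symm.pull f))) = 0`; if `ψ.push v g = 0` then `v (ψ.pull g) = 0`
  (`push_eq`), so `ψ.pull g` is constant on the orbit (`IsFlow.inv`): `g (ψ p) = g (ψ p')`, i.e.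
  `f (φ.symm a) = f (φ.symm b)`.
* `link_mid`: given `φ, θ`. We look for `ψ` with `ψ p = a`, `ψ p' = b`, where `f (φ.symm a) ≠ f (φ.symm b)` (so `Link v φ ψ`),
  and `ψ u = θ p`, `ψ u' = θ p'` with `f u ≠ f u'` (so `f (ψ.symm (θ p)) ≠ f (ψ.symm (θ p'))` and
  `Link v ψ θ` by `link_of` with `(φ, ψ)` replaced by `(ψ, θ)`). By 4-transitivity it is enough that
  `p, p', u, u'` are distinct and `a, b, θ p, θ p'` are distinct. As `f` is unbounded (`unbounded_B`; or only: the set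
  of the values of `f` is infinite) choose `u` with `‖f u‖ > ‖f p‖ + ‖f p'‖`, `u'` with `‖f u'‖ > ‖f u‖ + ‖f p‖ + ‖f p'‖`;
  `a = φ a'`, `b = φ b'` with `‖f a'‖` larger than `‖f (φ.symm (θ p))‖`, `‖f (φ.symm (θ p'))‖`, and
  `‖f b'‖` larger than these and `‖f a'‖`. -/

namespace Pool.Agent.MP_fe3720.BB

open Topology RR Filter

variable {X : Type} [MetricSpace X] [ProperSpace X] [PreconnectedSpace X]
  {O : Subalgebra ℂ (X → ℂ)} {m N : ℕ} {G : Fin N → O}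

private theorem inj4 {Y : Type} {a b c d : Y} (h1 : a ≠ b) (h2 : a ≠ c) (h3 : a ≠ d) (h4 : b ≠ c)
    (h5 : b ≠ d) (h6 : c ≠ d) : Function.Injective ![a, b, c, d] := by
  have e0 : ![a, b, c, d] 0 = a := rfl
  have e1 : ![a, b, c, d] 1 = b := rfl
  have e2 : ![a, b, c, d] 2 = c := rfl
  have e3 : ![a, b, c, d] 3 = d := rfl
  intro i j hij
  match i, j with
  | 0, 0 => rfl
  | 1, 1 => rfl
  | 2, 2 => rfl
  | 3, 3 => rfl
  | 0, 1 => exact absurd hij h1
  | 0, 2 => exact absurd hij h2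
  | 0, 3 => exact absurd hij h3
  | 1, 2 => exact absurd hij h4
  | 1, 3 => exact absurd hij h5
  | 2, 3 => exact absurd hij h6
  | 1, 0 => exact absurd hij.symm h1
  | 2, 0 => exact absurd hij.symm h2
  | 3, 0 => exact absurd hij.symm h3
  | 2, 1 => exact absurd hij.symm h4
  | 3, 1 => exact absurd hij.symm h5
  | 3, 2 => exact absurd hij.symm h6

theorem link_of {v : Derivation ℂ O O} {Φ : ℂ → HolAut O} (hΦ : IsFlow v Φ) {f : O}
    (hf : v f = 0) {p : X} {t : ℂ} {φ ψ : HolAut O}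
    (h : f (φ.symm (ψ p)) ≠ f (φ.symm (ψ (Φ t p)))) : Link v φ ψ := by
  refine ⟨φ.symm.pull f, ?_, fun h0 => ?_⟩
  · rw [HolAut.push_eq, HolAut.pull_pull_symm, hf, map_zero]
  · rw [HolAut.push_eq] at h0
    have h1 : v (ψ.pull (φ.symm.pull f)) = 0 := by
      have h2 : ψ.symm.pull (v (ψ.pull (φ.symm.pull f))) = ψ.symm.pull 0 := by
        rw [h0, map_zero]
      exact ψ.symm.pull.injective h2
    exact h (hΦ.inv h1 t p).symm

theorem link_mid (hS : SD0 m O G) (hI : Interp O) (hK : KTrans O) {v : Derivation ℂ O O}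
    (hv : IsCompleteVF v) (hv0 : v ≠ 0) {f : O} (hf : v f = 0) (hfc : ∃ x y, f x ≠ f y)
    (φ θ : HolAut O) : ∃ ψ : HolAut O, Link v φ ψ ∧ Link v ψ θ := by
  obtain ⟨Φ, hΦ⟩ := exists_flow hS hv
  obtain ⟨p, hp⟩ := exists_nz hv0
  obtain ⟨t, ht⟩ := orbit_unbounded hS hΦ hp (isCompact_singleton (x := p))
  rw [Set.mem_singleton_iff] at ht
  set p' := Φ t p with hp'
  have hU := fun M => unbounded_B hS hI hv hv0 hfc M
  obtain ⟨u, hu, -⟩ := hU (‖f p‖ + ‖f p'‖)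
  obtain ⟨u', hu', -⟩ := hU (‖f u‖ + ‖f p‖ + ‖f p'‖)
  obtain ⟨a', ha', -⟩ := hU (‖f (φ.symm (θ p))‖ + ‖f (φ.symm (θ p'))‖)
  obtain ⟨b', hb', -⟩ := hU (‖f a'‖ + ‖f (φ.symm (θ p))‖ + ‖f (φ.symm (θ p'))‖)
  have hne : ∀ {x y : X}, ‖f x‖ < ‖f y‖ → x ≠ y := fun h e => by rw [e] at h; exact lt_irrefl _ h
  have n1 := norm_nonneg (f p)
  have n2 := norm_nonneg (f p')
  have n3 := norm_nonneg (f u)
  have n4 := norm_nonneg (f a')
  have n5 := norm_nonneg (f (φ.symm (θ p)))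
  have n6 := norm_nonneg (f (φ.symm (θ p')))
  have d1 : p ≠ p' := fun h => ht h.symm
  have d2 : p ≠ u := hne (by linarith)
  have d3 : p ≠ u' := hne (by linarith)
  have d4 : p' ≠ u := hne (by linarith)
  have d5 : p' ≠ u' := hne (by linarith)
  have d6 : u ≠ u' := hne (by linarith)
  have e1 : a' ≠ b' := hne (by linarith)
  have e2 : φ.symm (θ p) ≠ a' := hne (by linarith)
  have e3 : φ.symm (θ p) ≠ b' := hne (by linarith)
  have e4 : φ.symm (θ p') ≠ a' := hne (by linarith)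
  have e5 : φ.symm (θ p') ≠ b' := hne (by linarith)
  have c1 : φ a' ≠ φ b' := fun h => e1 (φ.toHomeo.injective h)
  have hs : ∀ {z w : X}, φ.symm z ≠ w → φ w ≠ z := fun h e => h (by rw [← e, HolAut.symm_apply_self])
  have c2 := hs e2
  have c3 := hs e3
  have c4 := hs e4
  have c5 := hs e5
  have c6 : θ p ≠ θ p' := fun h => d1 (θ.toHomeo.injective h)
  obtain ⟨ψ, hψ⟩ := hK 4 ![p, p', u, u'] ![φ a', φ b', θ p, θ p']
    (inj4 d1 d2 d3 d4 d5 d6) (inj4 c1 c2 c4 c3 c5 c6)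
  have hψ0 : ψ p = φ a' := hψ 0
  have hψ1 : ψ p' = φ b' := hψ 1
  have hψ2 : ψ u = θ p := hψ 2
  have hψ3 : ψ u' = θ p' := hψ 3
  refine ⟨ψ, link_of hΦ hf (p := p) (t := t) ?_, link_of hΦ hf (p := p) (t := t) ?_⟩
  · rw [← hp', hψ0, hψ1, HolAut.symm_apply_self, HolAut.symm_apply_self]
    intro h
    have : ‖f a'‖ < ‖f b'‖ := by linarith
    rw [h] at this
    exact lt_irrefl _ this
  · rw [← hp', ← hψ2, ← hψ3, HolAut.symm_apply_self, HolAut.symm_apply_self]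
    intro h
    have : ‖f u‖ < ‖f u'‖ := by linarith
    rw [h] at this
    exact lt_irrefl _ this

end Pool.Agent.MP_fe3720.BB
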