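import Pool.Agent.Work.MP_fe3720_an.B.SepNZ

/-! # Module Trans: `k`-transitivity

* `escape`: induction on `k`. For `k = 0` trivial. Let `x : Fin (k+1) → X`. By `sep_nz` there is `α` with
  `NZ v (α (x 0))` and `f (α (x i.succ)) ≠ f (α (x 0))`. By induction there is `β` with `β (α (x i.succ)) ∉ K` for
  all `i : Fin k`. Let `g` be the polynomial with `g (f (α (x i.succ))) = 0` and `g (f (α (x 0))) = 1`
  (`∏ (z - a_i) / ∏ (a_0 - a_i)`), entire. By `shear` (R/Shear) `Γ τ y = Φ (τ * g (f y)) y` is an automorphism which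
  fixes the `α (x i.succ)` and moves `α (x 0)` to `Φ τ (α (x 0))`. The set `β.symm '' K` is compact; choose `τ` with
  `Φ τ (α (x 0)) ∉ β.symm '' K` (`orbit_unbounded`). Then `θ = β ∘ Γ τ ∘ α` works.
* `kTrans`: let `K` be from `far_tuple`; move `x` and `y` out of `K` by `escape`, and use `far_tuple`. -/

namespace Pool.Agent.MP_fe3720.BB

open Topology RR Filter

variable {X : Type} [MetricSpace X] [ProperSpace X] [PreconnectedSpace X]
  {O : Subalgebra ℂ (X → ℂ)} {m N : ℕ} {G : Fin N → O}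

theorem escape (hS : SD0 m O G) (hI : Interp O) {v : Derivation ℂ O O} (hv : IsCompleteVF v)
    (hv0 : v ≠ 0) {f : O} (hf : v f = 0) (hfc : ∃ x y, f x ≠ f y)
    (hT : ∀ x : X, ∃ w : Derivation ℂ O O, IsCompleteVF w ∧ NZ w x) {K : Set X}
    (hK : IsCompact K) (k : ℕ) (x : Fin k → X) (hx : Function.Injective x) :
    ∃ θ : HolAut O, ∀ i, θ (x i) ∉ K := by
  induction k with
  | zero => exact ⟨idAut O, fun i => i.elim0⟩
  | succ k ih =>
    obtain ⟨α, hα, hαs⟩ := sep_nz hS hI hv hv0 hf hfc hT x hx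
    obtain ⟨β, hβ⟩ := ih (fun i => α (x i.succ)) (fun i j hij =>
      Fin.succ_injective _ (hx (α.toHomeo.injective hij)))
    obtain ⟨Φ, hΦ⟩ := exists_flow hS hv
    set g : ℂ → ℂ := fun z => ∏ i : Fin k, (z - f (α (x i.succ))) / (f (α (x 0)) -
      f (α (x i.succ))) with hg
    have hgd : Differentiable ℂ g := by
      have : ∀ i ∈ (Finset.univ : Finset (Fin k)), Differentiable ℂ (fun z : ℂ =>
          (z - f (α (x i.succ))) / (f (α (x 0)) - f (α (x i.succ)))) := by
        intro i _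
        exact (differentiable_id.sub_const _).div_const _
      exact Differentiable.fun_finsetProd this
    have hg0 : g (f (α (x 0))) = 1 := by
      simp only [hg]
      refine Finset.prod_eq_one fun i _ => div_self ?_
      exact sub_ne_zero.mpr (hαs i).symm
    have hgs : ∀ i : Fin k, g (f (α (x i.succ))) = 0 := by
      intro i
      simp only [hg]
      refine Finset.prod_eq_zero (Finset.mem_univ i) ?_
      rw [sub_self, zero_div]
    obtain ⟨Γ, hΓ, -⟩ := shear hS hv.1 hΦ hf hgd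
    obtain ⟨τ, hτ⟩ := orbit_unbounded hS hΦ hα (hK.image β.toHomeo.symm.continuous)
    refine ⟨β.comp ((Γ τ).comp α), fun i => ?_⟩
    refine Fin.cases ?_ (fun i => ?_) i
    · show β (Γ τ (α (x 0))) ∉ K
      rw [hΓ, hg0, mul_one]
      intro h
      exact hτ ⟨_, h, β.symm_apply_self _⟩
    · show β (Γ τ (α (x i.succ))) ∉ K
      rw [hΓ, hgs, mul_zero, hΦ.zero]
      exact hβ i

theorem kTrans (hS : SD0 m O G) (hI : Interp O) {v : Derivation ℂ O O} (hv : IsCompleteVF v)
    (hv0 : v ≠ 0) {f : O} (hf : v f = 0) (hfc : ∃ x y, f x ≠ f y)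
    (hT : ∀ x : X, ∃ w : Derivation ℂ O O, IsCompleteVF w ∧ NZ w x) : KTrans O := by
  intro k x y hx hy
  have hnc : ∀ K : Set X, IsCompact K → ∃ x, x ∉ K := fun K hK => nonCompact hS hv hv0 hK
  obtain ⟨K, hK, hfar⟩ := far_tuple hI hnc k
  obtain ⟨θ, hθ⟩ := escape hS hI hv hv0 hf hfc hT hK k x hx
  obtain ⟨θ', hθ'⟩ := escape hS hI hv hv0 hf hfc hT hK k y hy
  obtain ⟨φ, hφ⟩ := hfar (fun i => θ (x i)) (fun i => θ' (y i))
    (θ.toHomeo.injective.comp hx) (θ'.toHomeo.injective.comp hy) hθ hθ'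
  refine ⟨θ'.symm.comp (φ.comp θ), fun i => ?_⟩
  rw [HolAut.comp_apply, HolAut.comp_apply, hφ i, HolAut.symm_apply_self]

end Pool.Agent.MP_fe3720.BB
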