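import Pool.Agent.Work.MP_fe3720_an.B.GoodF
import Pool.Agent.Work.MP_fe3720_an.B.CramerI
import Pool.Agent.Work.MP_fe3720_an.B.Trans
import Pool.Agent.Work.MP_fe3720_an.B.Links

/-! # Module FinalB: the density property

`mem_clLie_B`: let `D` be a vector field. Given a finite set `S`, a compact set and `ε`; choose `r` with the compact set
contained in `K = KK G r` (`exists_KK`). Let `I` be the set of the `E ∈ ClK K univ` such that for all `H : O`, all finite `S'`
and `ε' > 0` there is `U ∈ clLie O` with `‖E x * H x * (D g) x - (U g) x‖ < ε'` for `x ∈ K`, `g ∈ S'`. `I` is closed under sums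
(`clLie_add`) and products with `h ∈ O`, contains `0`. For `x₀ ∈ K` let `u, e, g` be from `good_fields` for `K`; let
`Δ = det (u i (g j)) ∈ O`, `c` from `cramer_id`: `(Δ * Δ) • D = ∑ i, c i • u i`. `E = (∏ i, e i) * Δ * Δ`; `E x₀ ≠ 0`. On `K`:
`E * H * (D g') = ∑ i, (e i * (∏_{j ≠ i} e j * c i * H)) * (u i g')`, and by `clK_coef_mul` each
`e i * (…) ∈ ClK K (Coef (u i))`: take `a ∈ Coef (u i)` close to it on `K`; `a • u i ∈ clLie O`, and `u i g'` is bounded on
`K`. So `E ∈ I`. By `GelK` there is `E ∈ I` with `‖1 - E‖ < δ` on `K`; with `H = 1`, `U ∈ clLie O` is close to `E * D g`, so to `D g`,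
on `K`, and `U` is approximated by an element of `completeLie O`.

`density_B`: `interp_of_RR`, `kTrans`, `mem_clLie_B`, `densityProperty_of`. -/

namespace Pool.Agent.MP_fe3720.BB

open Topology RR Filter

variable {X : Type} [MetricSpace X] [ProperSpace X] [PreconnectedSpace X]
  {O : Subalgebra ℂ (X → ℂ)} {m N : ℕ} {G : Fin N → O}

/-- `E` multiplies `D` into the limits of the Lie algebra on `K` -/
private def Good (K : Set X) (D : Derivation ℂ O O) : Set (X → ℂ) :=
  {E | E ∈ ClK K (Set.univ : Set O) ∧ ∀ (H : O) (S' : Finset O), ∀ ε > 0, ∃ U ∈ clLie O,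
    ∀ g ∈ S', ∀ x ∈ K, ‖E x * H x * (D g) x - (U g) x‖ < ε}

/-- a common bound for finitely many functions on a compact set -/
private theorem common_bound (hO : IsClosedAlg O) {ι : Type} (T : Finset ι) (w : ι → O)
    {K : Set X} (hK : IsCompact K) : ∃ B : ℝ, 0 ≤ B ∧ ∀ i ∈ T, ∀ x ∈ K, ‖(w i) x‖ ≤ B := by
  classical
  induction T using Finset.induction with
  | empty => exact ⟨0, le_rfl, fun i hi => absurd hi (Finset.notMem_empty i)⟩
  | insert i T hi ih =>
    obtain ⟨B, hB0, hB⟩ := ih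
    obtain ⟨B', hB'⟩ := hK.exists_bound_of_continuousOn (hO.cont _ (w i).2).continuousOn
    refine ⟨max B |B'|, le_max_of_le_left hB0, fun j hj x hx => ?_⟩
    rcases Finset.mem_insert.mp hj with rfl | hj
    · exact ((hB' x hx).trans (le_abs_self _)).trans (le_max_right _ _)
    · exact (hB j hj x hx).trans (le_max_left _ _)

private theorem good_point (hS : SD0 m O G) (hI : Interp O) (hKT : KTrans O)
    {v : Derivation ℂ O O} {f s : O} (hsl : IsSlice v f s) {D : Derivation ℂ O O} (hD : IsVF D)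
    {K : Set X} (hK : IsCompact K) {x₀ : X} (hx₀ : x₀ ∈ K) : ∃ E ∈ Good K D, E x₀ ≠ 0 := by
  classical
  have hO := hS.alg
  obtain ⟨u, e, g, hu, he, heC, hex, hdet⟩ := good_fields hS hI hKT hsl hK hx₀
  obtain ⟨c, hc⟩ := cramer_id hS hD u hu g
  set Δ : O := (Matrix.of fun i j => u i (g j)).det with hΔ
  have hΔx : Δ x₀ = (Matrix.of fun i j => (u i (g j)) x₀).det := det_mem u g x₀
  have heT : ∀ i, e i ∈ ClK K ((⊤ : Subalgebra ℂ O) : Set O) := fun i =>
    clK_mono (fun _ _ => trivial) (he i)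
  have hmem : ∀ a : O, a.1 ∈ ClK K ((⊤ : Subalgebra ℂ O) : Set O) := fun a => clK_of_mem trivial
  refine ⟨(∏ i, e i) * (Δ.1 * Δ.1), ⟨?_, fun H S' ε hε => ?_⟩, ?_⟩
  · exact clK_mono (fun _ _ => trivial) (clK_mul hO hK (clK_prod hO _ hK e fun i _ => heT i)
      (clK_mul hO hK (hmem Δ) (hmem Δ)))
  · -- the bound
    obtain ⟨B, hB0, hB⟩ := common_bound hO (Finset.univ ×ˢ S') (fun p : Fin m × O => u p.1 p.2) hK
    set δ : ℝ := ε / ((m : ℝ) * B + 1) with hδ
    have hδ0 : 0 < δ := by positivity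
    -- approximations of the coefficients
    have hF : ∀ i, (fun x => e i x * ((∏ j ∈ Finset.univ.erase i, e j) * ((c i).1 * H.1)) x) ∈
        ClK K (Coef (u i)) := fun i =>
      clK_coef_mul hO hK (he i) (heC i) (clK_mono (fun _ _ => trivial)
        (clK_mul hO hK (clK_prod hO _ hK e fun j _ => heT j)
          (clK_mul hO hK (hmem (c i)) (hmem H))))
    choose a ha1 ha2 using fun i => hF i δ hδ0
    refine ⟨∑ i, a i • u i, clLie_sum _ _ fun i _ => ha1 i, fun g' hg' x hx => ?_⟩
    have h1 : ((∑ i, a i • u i : Derivation ℂ O O) g') x = ∑ i, a i x * (u i g') x := by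
      rw [der_sum_apply']
      rfl
    have h2 : Δ x * Δ x * (D g') x = ∑ i, c i x * (u i g') x := by
      have h3 : (((Δ * Δ) • D : Derivation ℂ O O) g') x =
          ((∑ i, c i • u i : Derivation ℂ O O) g') x :=
        congrArg (fun E : Derivation ℂ O O => (E g') x) hc
      rw [der_sum_apply'] at h3
      exact h3
    have h4 : ((∏ i, e i) * (Δ.1 * Δ.1)) x * H x * (D g') x =
        ∑ i, (e i x * ((∏ j ∈ Finset.univ.erase i, e j) * ((c i).1 * H.1)) x) * (u i g') x := by
      have h5 : ((∏ i, e i) * (Δ.1 * Δ.1)) x * H x * (D g') x =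
          (∏ i, e i) x * H x * (Δ x * Δ x * (D g') x) := by
        show (∏ i, e i) x * (Δ x * Δ x) * H x * (D g') x = _
        ring
      rw [h5, h2, Finset.mul_sum]
      refine Finset.sum_congr rfl fun i _ => ?_
      have h6 : (∏ j, e j) x = e i x * (∏ j ∈ Finset.univ.erase i, e j) x := by
        rw [← Finset.mul_prod_erase Finset.univ e (Finset.mem_univ i)]
        rfl
      rw [h6]
      show _ = e i x * ((∏ j ∈ Finset.univ.erase i, e j) x * (c i x * H x)) * (u i g') x
      ring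
    rw [h4, h1, ← Finset.sum_sub_distrib]
    calc ‖∑ i, ((e i x * ((∏ j ∈ Finset.univ.erase i, e j) * ((c i).1 * H.1)) x) * (u i g') x -
          a i x * (u i g') x)‖ ≤ ∑ _i : Fin m, δ * B := by
          refine (norm_sum_le _ _).trans (Finset.sum_le_sum fun i _ => ?_)
          rw [← sub_mul, norm_mul]
          have h7 := (ha2 i x hx).le
          have h8 := hB (i, g') (Finset.mem_product.mpr ⟨Finset.mem_univ i, hg'⟩) x hx
          gcongr
      _ = δ * (m * B) := by
          rw [Finset.sum_const, Finset.card_univ, Fintype.card_fin, nsmul_eq_mul]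
          ring
      _ < δ * (m * B + 1) := by nlinarith
      _ = ε := by
          rw [hδ]
          field_simp
  · show (∏ i, e i) x₀ * (Δ x₀ * Δ x₀) ≠ 0
    rw [Finset.prod_apply, hΔx]
    exact mul_ne_zero (Finset.prod_ne_zero_iff.mpr fun i _ => hex i) (mul_ne_zero hdet hdet)

theorem mem_clLie_B (hS : SD0 m O G) (hG : GelK O G) (hI : Interp O) (hKT : KTrans O)
    {v : Derivation ℂ O O} {f s : O} (hsl : IsSlice v f s) {D : Derivation ℂ O O} (hD : IsVF D) :
    D ∈ clLie O := by
  classical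
  have hO := hS.alg
  refine ⟨hD, fun S K₀ hK₀ ε hε => ?_⟩
  obtain ⟨r, hr0, hr⟩ := exists_KK hS hK₀
  have hsub : K₀ ⊆ KK G r := (hr r le_rfl).trans interior_subset
  have hK : IsCompact (KK G r) := isCompact_KK hS r
  obtain ⟨B, hB0, hB⟩ := common_bound hO S (fun g => D g) hK
  obtain ⟨E, hE, hE1⟩ := hG r (Good (KK G r) D) (fun e he => he.1) (by
    rintro e ⟨he1, he2⟩ e' ⟨he1', he2'⟩
    refine ⟨clK_add (A := (⊤ : Submodule ℂ O)) he1 he1', fun H S' ε hε => ?_⟩
    obtain ⟨U, hU, h1⟩ := he2 H S' (ε / 2) (by positivity)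
    obtain ⟨U', hU', h2⟩ := he2' H S' (ε / 2) (by positivity)
    refine ⟨U + U', clLie_add hU hU', fun g hg x hx => ?_⟩
    have h3 := h1 g hg x hx
    have h4 := h2 g hg x hx
    have h5 : (e + e') x * H x * (D g) x - ((U + U') g) x =
        (e x * H x * (D g) x - (U g) x) + (e' x * H x * (D g) x - (U' g) x) := by
      show (e x + e' x) * H x * (D g) x - ((U g) x + (U' g) x) = _
      ring
    rw [h5]
    refine (norm_add_le _ _).trans_lt ?_
    linarith) (by
    rintro e ⟨he1, he2⟩ h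
    refine ⟨clK_mul hO hK (A := ⊤) (clK_of_mem (a := h) trivial) he1, fun H S' ε hε => ?_⟩
    obtain ⟨U, hU, h1⟩ := he2 (h * H) S' ε hε
    refine ⟨U, hU, fun g hg x hx => ?_⟩
    have h5 : (h.1 * e) x * H x * (D g) x - (U g) x =
        e x * (h * H : O) x * (D g) x - (U g) x := by
      show h x * e x * H x * (D g) x - (U g) x = e x * (h x * H x) * (D g) x - (U g) x
      ring
    rw [h5]
    exact h1 g hg x hx) (by
    refine ⟨clK_of_mem (a := 0) trivial, fun H S' ε hε => ⟨0, clLie_zero, fun g hg x hx => ?_⟩⟩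
    have h5 : (0 : X → ℂ) x * H x * (D g) x - ((0 : Derivation ℂ O O) g) x = 0 := by
      show (0 : ℂ) * H x * (D g) x - 0 = 0
      ring
    rw [h5, norm_zero]
    exact hε) (fun x hx => good_point hS hI hKT hsl hD hK hx) (ε / 3 / (B + 1)) (by positivity)
  obtain ⟨U, hU, h1⟩ := hE.2 1 S (ε / 3) (by positivity)
  obtain ⟨U', hU', h2⟩ := hU.2 S (KK G r) hK (ε / 3) (by positivity)
  refine ⟨U', hU', fun g hg x hx => ?_⟩
  have hxK := hsub hx
  have h3 := h1 g hg x hxK
  have h4 := h2 g hg x hxK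
  have h5 := hE1 x hxK
  have h6 := hB g hg x hxK
  have h7 : (D g) x - (U' g) x = (1 - E x) * (D g) x +
      ((E x * (1 : O) x * (D g) x - (U g) x) + ((U g) x - (U' g) x)) := by
    have : (1 : O) x = 1 := rfl
    rw [this]
    ring
  rw [h7]
  have h8 : ‖(1 - E x) * (D g) x‖ ≤ ε / 3 := by
    rw [norm_mul]
    calc ‖1 - E x‖ * ‖(D g) x‖ ≤ (ε / 3 / (B + 1)) * B := by
          gcongr
      _ ≤ (ε / 3 / (B + 1)) * (B + 1) := by
          gcongr
          linarith
      _ = ε / 3 := by field_simp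
  have h9 := norm_add_le ((1 - E x) * (D g) x)
    ((E x * (1 : O) x * (D g) x - (U g) x) + ((U g) x - (U' g) x))
  have h10 := norm_add_le (E x * (1 : O) x * (D g) x - (U g) x) ((U g) x - (U' g) x)
  linarith

theorem density_B (hS : SD0 m O G) (hG : GelK O G) (hRR : IsRR O) {v : Derivation ℂ O O}
    {f s : O} (hsl : IsSlice v f s)
    (hT : ∀ x : X, ∃ w : Derivation ℂ O O, IsCompleteVF w ∧ NZ w x) : DensityProperty O := by
  have hI := interp_of_RR hRR
  have hv0 : v ≠ 0 := by
    intro h0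
    have := hsl.ne
    rw [h0] at this
    exact this rfl
  have hKT := kTrans hS hI hsl.complete hv0 hsl.first hsl.nonconst hT
  exact densityProperty_of fun D hD => mem_clLie_B hS hG hI hKT hsl hD

end Pool.Agent.MP_fe3720.BB
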