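import Pool.Agent.Work.MP_fe3720_an.B.Base
import Pool.Agent.Work.MP_fe3720_an.R.MainR

/-! # Module GelB: ideals without common zeros on `|z_i| ≤ r` are dense

`Z ⊆ ℂ^N` a Stein submanifold, `O = hol Z`, `G = coord Z`. Let `K = {x ∈ Z | ∀ i, ‖x i‖ ≤ r}`, compact. This is a variant of module
Gel (`Pool/Agent/Work/MP_fe3720_an/Gel.lean`, see also Conv.lean) for sets `I` of functions which are only uniform limits on
`K` of elements of `O`. If `K` is empty take `e = 0`. Let `B ⊆ C(K, ℂ)` be the closed subalgebra generated by the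
restrictions of the coordinates (`polyK`, topological closure), a commutative Banach algebra. Every
`e ∈ ClK K univ` restricts to an element of `B` (elements of `hol Z` are uniform limits on `K` of polynomials). Let
`J = {b ∈ B | ∀ ε > 0, ∃ e ∈ I, ∀ x ∈ K, ‖b x - e x‖ < ε}`, an ideal of `B` (for `b ∈ B`, `j ∈ J`: take a polynomial `p`
close to `b`, and `e ∈ I` close to `j`; `p * e ∈ I` is close to `b j`). If `J ≠ ⊤` there is a character `χ` of `B`
vanishing on `J` (`Ideal.exists_le_maximal`, `Ideal.toCharacterSpace`), and `χ` is the evaluation at a point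
`x ∈ K` (as in Gel.lean with `mem_of_hull` of Conv.lean). There is `e ∈ I` with `e x ≠ 0`, and its restriction is in
`J`: contradiction. So `1 ∈ J`. -/

namespace Pool.Agent.MP_fe3720.BB

open Topology RR Filter

variable {X : Type} [TopologicalSpace X]

theorem closK_of_approx {ι : Type} (g : ι → C(X, ℂ)) (K : Set X) [CompactSpace K] (f : X → ℂ)
    (hf : ∀ ε > 0, ∃ P ∈ closedAlg g, ∀ x ∈ K, ‖f x - P x‖ < ε) :
    ∃ b ∈ closK g K, ∀ x : K, b x = f x := by
  have hK : IsCompact K := isCompact_iff_compactSpace.mpr inferInstance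
  have happ : ∀ ε > 0, ∃ Q ∈ polyK g K, ∀ x : K, ‖f x - Q x‖ < ε := by
    intro ε hε
    obtain ⟨P', hP', h'⟩ := hf (ε / 2) (by positivity)
    obtain ⟨P, hP, h⟩ := hP' K hK (ε / 2) (by positivity)
    obtain ⟨Q, hQ, hQP⟩ := polyK_of_adjoin g K P hP
    refine ⟨Q, hQ, fun x => ?_⟩
    rw [hQP]
    have h1 := h x x.2
    have h2 := h' x x.2
    have h3 : f x - P x = (f x - P' x) + (P' x - P x) := by ring
    rw [h3]
    have := norm_add_le (f x - P' x) (P' x - P x)
    linarith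
  have hc : Continuous (fun x : K => f x) := by
    refine continuous_of_uniform_approx_of_continuous fun u hu => ?_
    obtain ⟨ε, hε, h⟩ := Metric.mem_uniformity_dist.mp hu
    obtain ⟨Q, -, hQ⟩ := happ ε hε
    exact ⟨Q, Q.continuous, fun y => h (by rw [dist_eq_norm]; exact hQ y)⟩
  refine ⟨⟨_, hc⟩, ?_, fun x => rfl⟩
  show (⟨_, hc⟩ : C(K, ℂ)) ∈ closure (polyK g K : Set C(K, ℂ))
  rw [Metric.mem_closure_iff]
  intro ε hε
  obtain ⟨Q, hQ, h⟩ := happ ε hε
  refine ⟨Q, hQ, ?_⟩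
  rw [ContinuousMap.dist_lt_iff hε]
  intro x
  rw [dist_eq_norm]
  exact h x

theorem gelK_of {ι : Type} (g : ι → C(X, ℂ)) {K' : Set X} (hK' : IsCompact K')
    (hne : K'.Nonempty)
    (hhull : ∀ a : ι → ℂ, (∀ (P : MvPolynomial ι ℂ) (C : ℝ),
        (∀ x ∈ K', ‖MvPolynomial.eval (fun i => g i x) P‖ ≤ C) → ‖MvPolynomial.eval a P‖ ≤ C) →
        ∃ x ∈ K', a = fun i => g i x)
    (I : Set (X → ℂ)) (hcl : ∀ e ∈ I, ∀ ε > 0, ∃ P ∈ closedAlg g, ∀ x ∈ K', ‖e x - P x‖ < ε)
    (hadd : ∀ e ∈ I, ∀ e' ∈ I, e + e' ∈ I) (hmul : ∀ e ∈ I, ∀ h ∈ closedAlg g, h * e ∈ I)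
    (h0 : 0 ∈ I) (hz : ∀ x ∈ K', ∃ e ∈ I, e x ≠ 0) (ε : ℝ) (hε : 0 < ε) :
    ∃ e ∈ I, ∀ x ∈ K', ‖1 - e x‖ < ε := by
  classical
  have hcs : CompactSpace K' := isCompact_iff_compactSpace.mp hK'
  have hnes : Nonempty K' := hne.to_subtype
  have hcomp : CompleteSpace (closK g K') :=
    (Subalgebra.isClosed_topologicalClosure (polyK g K')).completeSpace_coe
  let gB : ι → closK g K' := fun i =>
    ⟨gr g K' i, Subalgebra.le_topologicalClosure _ (Algebra.subset_adjoin ⟨i, rfl⟩)⟩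
  let IB : Ideal (closK g K') :=
    { carrier := {b | ∀ δ > 0, ∃ f ∈ I, ∀ x : K', ‖(b : C(K', ℂ)) x - f x‖ < δ}
      add_mem' := by
        intro c d h1 h2 δ hδ
        obtain ⟨f, hf, h1⟩ := h1 (δ / 2) (by positivity)
        obtain ⟨f', hf', h2⟩ := h2 (δ / 2) (by positivity)
        refine ⟨f + f', hadd f hf f' hf', fun x => ?_⟩
        have a1 := h1 x
        have a2 := h2 x
        have a3 : ((c + d : closK g K') : C(K', ℂ)) x - (f + f') x =
            ((c : C(K', ℂ)) x - f x) + ((d : C(K', ℂ)) x - f' x) := by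
          show ((c : C(K', ℂ)) x + (d : C(K', ℂ)) x) - (f x + f' x) = _
          ring
        rw [a3]
        have := norm_add_le ((c : C(K', ℂ)) x - f x) ((d : C(K', ℂ)) x - f' x)
        linarith
      zero_mem' := by
        intro δ hδ
        refine ⟨0, h0, fun x => ?_⟩
        have h1 : ((0 : closK g K') : C(K', ℂ)) x - (0 : X → ℂ) x = 0 := by
          show (0 : ℂ) - 0 = 0
          ring
        rw [h1, norm_zero]
        exact hδ
      smul_mem' := by
        intro b c h1 δ hδ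
        obtain ⟨f, hf, h1⟩ := h1 (min 1 (δ / (2 * (‖b‖ + 1)))) (lt_min one_pos (by positivity))
        obtain ⟨Q, hQ, h2⟩ := closK_approx g K' b b.2 (δ / (2 * (‖c‖ + 1))) (by positivity)
        obtain ⟨P, hP, hPQ⟩ := adjoin_of_polyK g K' Q hQ
        have hPm : P ∈ closedAlg g := fun K _ ε hε => ⟨P, hP, fun x _ => by simpa using hε⟩
        refine ⟨P * f, hmul f hf P hPm, fun x => ?_⟩
        have a1 := (h1 x).trans_le (min_le_right _ _)
        have a0 := (h1 x).trans_le (min_le_left _ _)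
        have a2 : ‖(b : C(K', ℂ)) x - P x‖ < δ / (2 * (‖c‖ + 1)) := by
          rw [← hPQ]
          exact (((b : C(K', ℂ)) - Q).norm_coe_le_norm x).trans_lt h2
        have a3 : ‖(b : C(K', ℂ)) x‖ ≤ ‖b‖ := (b : C(K', ℂ)).norm_coe_le_norm x
        have a4 : ‖(c : C(K', ℂ)) x‖ ≤ ‖c‖ := (c : C(K', ℂ)).norm_coe_le_norm x
        have a5 : ‖f x‖ ≤ ‖c‖ + 1 := by
          have h3 : f x = (c : C(K', ℂ)) x - ((c : C(K', ℂ)) x - f x) := by ring
          rw [h3]
          have := norm_sub_le ((c : C(K', ℂ)) x) ((c : C(K', ℂ)) x - f x)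
          linarith
        have a6 : ((b • c : closK g K') : C(K', ℂ)) x - (P * f) x =
            (b : C(K', ℂ)) x * ((c : C(K', ℂ)) x - f x) + ((b : C(K', ℂ)) x - P x) * f x := by
          show (b : C(K', ℂ)) x * (c : C(K', ℂ)) x - P x * f x = _
          ring
        rw [a6]
        have a7 := norm_add_le ((b : C(K', ℂ)) x * ((c : C(K', ℂ)) x - f x))
          (((b : C(K', ℂ)) x - P x) * f x)
        rw [norm_mul, norm_mul] at a7
        rw [lt_div_iff₀ (by positivity)] at a1 a2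
        have a8 : ‖(b : C(K', ℂ)) x‖ * ‖(c : C(K', ℂ)) x - f x‖ ≤
            (‖b‖ + 1) * ‖(c : C(K', ℂ)) x - f x‖ := by
          gcongr
          linarith
        have a9 : ‖(b : C(K', ℂ)) x - P x‖ * ‖f x‖ ≤
            ‖(b : C(K', ℂ)) x - P x‖ * (‖c‖ + 1) := by gcongr
        linarith }
  have hone : ‖(1 : closK g K')‖ = 1 := by
    have h1 : ‖(1 : closK g K')‖ = ‖(1 : C(K', ℂ))‖ := rfl
    rw [h1]
    exact CStarRing.norm_one
  have htop : IB = ⊤ := by
    by_contra hnt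
    obtain ⟨M, hM, hIM⟩ := Ideal.exists_le_maximal IB hnt
    let χ := M.toCharacterSpace
    have hχ0 : ∀ b ∈ M, χ b = 0 := fun b hb => M.toCharacterSpace_apply_eq_zero_of_mem hb
    let χ' : closK g K' →ₐ[ℂ] ℂ := WeakDual.CharacterSpace.toAlgHom χ
    have hχ' : ∀ b, χ' b = χ b := fun b => rfl
    have hnorm : ∀ b : closK g K', ‖χ' b‖ ≤ ‖b‖ := fun b => by
      have h1 := AlgHom.norm_apply_le_self_mul_norm_one χ' b
      rwa [hone, mul_one] at h1
    set a : ι → ℂ := fun i => χ' (gB i) with ha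
    have heval : ∀ P : MvPolynomial ι ℂ, MvPolynomial.eval a P =
        χ' (MvPolynomial.aeval gB P) := by
      intro P
      have h1 := congrArg (fun f => f P) (MvPolynomial.comp_aeval (f := gB) χ')
      have h2 : χ' (MvPolynomial.aeval gB P) = MvPolynomial.aeval a P := h1
      rw [h2]
      rfl
    have hevalx : ∀ (P : MvPolynomial ι ℂ) (x : K'),
        ((MvPolynomial.aeval gB P : closK g K') : C(K', ℂ)) x =
          MvPolynomial.eval (fun i => g i x) P := by
      intro P x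
      let ev : closK g K' →ₐ[ℂ] ℂ :=
        (ContinuousMap.evalAlgHom ℂ ℂ x).comp (closK g K').val
      have h1 := congrArg (fun f => f P) (MvPolynomial.comp_aeval (f := gB) ev)
      exact h1
    obtain ⟨x, hx, hax⟩ := hhull a (by
      intro P C hC
      rw [heval]
      refine (hnorm _).trans ?_
      have hC0 : 0 ≤ C := by
        obtain ⟨x₀, hx₀⟩ := hne
        exact (norm_nonneg _).trans (hC x₀ hx₀)
      have h1 : ‖(MvPolynomial.aeval gB P : closK g K')‖ =
          ‖((MvPolynomial.aeval gB P : closK g K') : C(K', ℂ))‖ := rfl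
      rw [h1, ContinuousMap.norm_le _ hC0]
      intro y
      rw [hevalx]
      exact hC y y.2)
    -- `χ` is the evaluation at `x`
    have hpoly : ∀ Q : closK g K', (Q : C(K', ℂ)) ∈ polyK g K' →
        χ' Q = (Q : C(K', ℂ)) ⟨x, hx⟩ := by
      rintro ⟨Q, hQ'⟩ hQ
      have hQ2 : Q ∈ polyK g K' := hQ
      unfold polyK at hQ2
      have key : ∃ h : Q ∈ closK g K', χ' ⟨Q, h⟩ = Q ⟨x, hx⟩ := by
        induction hQ2 using Algebra.adjoin_induction with
        | mem Q hx' =>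
          obtain ⟨i, rfl⟩ := hx'
          exact ⟨(gB i).2, congrFun hax i⟩
        | algebraMap r =>
          exact ⟨Subalgebra.algebraMap_mem _ r, χ'.commutes r⟩
        | add x y hx' hy' h1 h2 =>
          obtain ⟨m1, e1⟩ := h1 (Subalgebra.le_topologicalClosure _ hx') hx'
          obtain ⟨m2, e2⟩ := h2 (Subalgebra.le_topologicalClosure _ hy') hy'
          refine ⟨Subalgebra.add_mem _ m1 m2, ?_⟩
          have h3 := map_add χ' ⟨x, m1⟩ ⟨y, m2⟩
          rw [e1, e2] at h3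
          exact h3
        | mul x y hx' hy' h1 h2 =>
          obtain ⟨m1, e1⟩ := h1 (Subalgebra.le_topologicalClosure _ hx') hx'
          obtain ⟨m2, e2⟩ := h2 (Subalgebra.le_topologicalClosure _ hy') hy'
          refine ⟨Subalgebra.mul_mem _ m1 m2, ?_⟩
          have h3 := map_mul χ' ⟨x, m1⟩ ⟨y, m2⟩
          rw [e1, e2] at h3
          exact h3
      exact key.2
    have hall : ∀ b : closK g K', χ' b = (b : C(K', ℂ)) ⟨x, hx⟩ := by
      intro b
      have hlim : ∀ δ > 0, ‖χ' b - (b : C(K', ℂ)) ⟨x, hx⟩‖ ≤ δ := by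
        intro δ hδ
        obtain ⟨Q, hQ, h1⟩ := closK_approx g K' b b.2 (δ / 2) (by positivity)
        let Q' : closK g K' := ⟨Q, Subalgebra.le_topologicalClosure _ hQ⟩
        have h2 := hnorm (b - Q')
        rw [map_sub, hpoly Q' hQ] at h2
        have h3 : ‖b - Q'‖ < δ / 2 := h1
        have h4 : ‖(b : C(K', ℂ)) ⟨x, hx⟩ - Q ⟨x, hx⟩‖ ≤ ‖(b : C(K', ℂ)) - Q‖ :=
          ((b : C(K', ℂ)) - Q).norm_coe_le_norm ⟨x, hx⟩
        have h5 : χ' b - (b : C(K', ℂ)) ⟨x, hx⟩ =
            (χ' b - Q ⟨x, hx⟩) - ((b : C(K', ℂ)) ⟨x, hx⟩ - Q ⟨x, hx⟩) := by ring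
        rw [h5]
        have h6 := norm_sub_le (χ' b - Q ⟨x, hx⟩) ((b : C(K', ℂ)) ⟨x, hx⟩ - Q ⟨x, hx⟩)
        have h7 : ‖χ' b - Q ⟨x, hx⟩‖ ≤ ‖b - Q'‖ := h2
        linarith
      have h0 : ‖χ' b - (b : C(K', ℂ)) ⟨x, hx⟩‖ ≤ 0 :=
        le_of_forall_pos_le_add fun δ hδ => by simpa using hlim δ hδ
      exact sub_eq_zero.mp (norm_le_zero_iff.mp h0)
    obtain ⟨f, hf, hfx⟩ := hz x hx
    obtain ⟨b, hb, hbf⟩ := closK_of_approx g K' f (hcl f hf)
    have h1 : (⟨b, hb⟩ : closK g K') ∈ IB := fun δ hδ => ⟨f, hf, fun x => by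
      show ‖b x - f x‖ < δ
      rw [hbf, sub_self, norm_zero]
      exact hδ⟩
    have h2 := hχ0 _ (hIM h1)
    rw [← hχ', hall] at h2
    exact hfx ((hbf ⟨x, hx⟩).symm.trans h2)
  have h1 : (1 : closK g K') ∈ IB := htop ▸ Submodule.mem_top
  obtain ⟨f, hf, h2⟩ := h1 ε hε
  exact ⟨f, hf, fun x hx => h2 ⟨x, hx⟩⟩

theorem gelK_hol {N d : ℕ} {Z : Set (Fin N → ℂ)} (hZ : IsSteinSubmanifold N d Z) :
    GelK (hol Z) (coord Z) := by
  intro r I hcl hadd hmul h0 hz ε hε
  have hZc := isClosed_of_submanifold hZ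
  rcases ({x : Z | ∀ i, ‖(coord Z i) x‖ ≤ r}).eq_empty_or_nonempty with he | hne
  · refine ⟨0, h0, fun x hx => ?_⟩
    have : x ∈ ({x : Z | ∀ i, ‖(coord Z i) x‖ ≤ r}) := hx
    rw [he] at this
    exact absurd this (Set.notMem_empty x)
  have hK' : IsCompact {x : Z | ∀ i, ‖(coord Z i) x‖ ≤ r} := by
    rw [Subtype.isCompact_iff]
    have h1 : (Subtype.val '' {x : Z | ∀ i, ‖(coord Z i) x‖ ≤ r}) =
        Z ∩ {z | ∀ i, ‖z i‖ ≤ r} := by
      ext z
      constructor
      · rintro ⟨x, hx, rfl⟩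
        exact ⟨x.2, hx⟩
      · rintro ⟨h1, h2⟩
        exact ⟨⟨z, h1⟩, h2, rfl⟩
    rw [h1]
    obtain ⟨x₀, hx₀⟩ := hne
    refine Metric.isCompact_of_isClosed_isBounded (hZc.inter ?_) ?_
    · have : {z : Fin N → ℂ | ∀ i, ‖z i‖ ≤ r} = ⋂ i, {z | ‖z i‖ ≤ r} := by
        ext z
        simp
      rw [this]
      exact isClosed_iInter fun i => isClosed_le (continuous_apply i).norm continuous_const
    · refine (Metric.isBounded_closedBall (x := (0 : Fin N → ℂ)) (r := max r 0)).subset ?_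
      rintro z ⟨-, hz⟩
      rw [mem_closedBall_zero_iff, pi_norm_le_iff_of_nonneg (le_max_right _ _)]
      exact fun i => (hz i).trans (le_max_left _ _)
  obtain ⟨e, he, h1⟩ := gelK_of (fun i : Fin N => (⟨fun z : Z => z.1 i, (continuous_apply i).comp continuous_subtype_val⟩ : C(Z, ℂ)))
    hK' hne (by
      intro a ha
      have haZ : a ∈ Z := by
        refine mem_of_hull hZ (Subtype.val '' {x : Z | ∀ i, ‖(coord Z i) x‖ ≤ r})
          (hK'.image continuous_subtype_val) ?_ a fun P C hC => ha P C fun x hx => ?_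
        · rintro _ ⟨x, -, rfl⟩
          exact x.2
        · exact hC _ ⟨x, hx, rfl⟩
      refine ⟨⟨a, haZ⟩, fun i => ?_, rfl⟩
      have h2 := ha (MvPolynomial.X i) r (fun x hx => by
        rw [MvPolynomial.eval_X]
        exact hx i)
      rw [MvPolynomial.eval_X] at h2
      exact h2) I (by
      intro e he δ hδ
      obtain ⟨a, -, ha⟩ := hcl e he δ hδ
      exact ⟨a.1, a.2, ha⟩) hadd (fun e he h hh => hmul e he ⟨h, hh⟩) h0
      (fun x hx => hz x hx) ε hε
  exact ⟨e, he, h1⟩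

end Pool.Agent.MP_fe3720.BB
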