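import Mathlib

/-! # Module NullI: images of low dimensional spaces are null sets

* `null_image`: `E`, `F` finite dimensional real normed spaces, `finrank E < finrank F`, `Ω ⊆ E` open,
  `Ψ : E → F` of class `C¹` on `Ω`; then `Ψ '' Ω` has measure zero (`F` with an additive Haar measure `μ`). Proof:
  `Ω` is a countable union of balls (second countable, `Metric.isOpen_iff`), for a ball `B` (convex)
  `ContDiffOn.dimH_image_le` (see Mathlib.Topology.MetricSpace.HausdorffDimension) gives
  `dimH (Ψ '' B) ≤ dimH B ≤ dimH univ = finrank E` (`Real.dimH_univ_eq_finrank`), `< finrank F`; then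
  `measure_zero_of_dimH_lt` with `μH[finrank F]`; `μ` is absolutely continuous w.r.t. `μH[finrank F]`
  (`MeasureTheory.hausdorffMeasure…`: e.g. `hausdorffMeasure_pi_real`, `MeasureTheory.isAddHaarMeasure_hausdorffMeasure`,
  and uniqueness of Haar measures `Measure.absolutelyContinuous_isAddHaarMeasure`). Alternatively: extend `Ψ` to
  `E × (Fin k → ℝ)` (`k ≥ 1`, same dimension as `F`), the image of a null set (`Ω ×ˢ {0}`) by a `C¹` map is null:
  `MeasureTheory.addHaar_image_eq_zero_of_differentiableOn_of_addHaar_eq_zero`, after a linear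
  equivalence of `E × (Fin k → ℝ)` with `F`.
* `null_slices`: if `𝒵 ⊆ P × (Fin k → ℝ)` is a null set then for almost every `t` the slice `{ρ | (t, ρ) ∈ 𝒵}` is null:
  `Measure.ae_ae_of_ae_prod` or `Measure.measure_ae_null_of_prod_null` for sets of measure zero. -/

namespace Pool.Agent.MP_fe3720.BB

open Topology MeasureTheory

theorem null_image {E F : Type} [NormedAddCommGroup E] [NormedSpace ℝ E] [FiniteDimensional ℝ E]
    [NormedAddCommGroup F] [NormedSpace ℝ F] [FiniteDimensional ℝ F] [MeasurableSpace F]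
    [BorelSpace F] (μ : Measure F) [μ.IsAddHaarMeasure]
    (hdim : Module.finrank ℝ E < Module.finrank ℝ F) {Ω : Set E} (hΩ : IsOpen Ω) {Ψ : E → F}
    (hΨ : ContDiffOn ℝ 1 Ψ Ω) : μ (Ψ '' Ω) = 0 := by
  have h1 : dimH (Ψ '' Ω) ≤ dimH Ω := by
    refine dimH_image_le_of_locally_lipschitzOn fun x hx => ?_
    obtain ⟨C, t, ht, hl⟩ := (hΨ.contDiffAt (hΩ.mem_nhds hx)).exists_lipschitzOnWith
    exact ⟨C, t, mem_nhdsWithin_of_mem_nhds ht, hl⟩
  have h2 : dimH Ω ≤ Module.finrank ℝ E := by
    rw [← Real.dimH_univ_eq_finrank E]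
    exact dimH_mono (Set.subset_univ _)
  have h3 : dimH (Ψ '' Ω) < ((Module.finrank ℝ F : NNReal) : ENNReal) := by
    refine (h1.trans h2).trans_lt ?_
    exact_mod_cast hdim
  have h4 : μ ≪ (μH[((Module.finrank ℝ F : NNReal) : ℝ)] : Measure F) := by
    have : (((Module.finrank ℝ F : NNReal) : ℝ)) = (Module.finrank ℝ F : ℝ) := by simp
    rw [this]
    exact Measure.absolutelyContinuous_isAddHaarMeasure _ _
  exact measure_zero_of_dimH_lt h4 h3

theorem null_slices {P Q : Type} [MeasurableSpace P] [MeasurableSpace Q] (μ : Measure P)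
    (μ' : Measure Q) [SFinite μ] [SFinite μ'] {𝒵 : Set (P × Q)} (h : (μ.prod μ') 𝒵 = 0) :
    ∀ᵐ t ∂μ, μ' {ρ | (t, ρ) ∈ 𝒵} = 0 :=
  Measure.measure_ae_null_of_prod_null h

end Pool.Agent.MP_fe3720.BB
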