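import Pool.Agent.Work.MP_fe3720_an.B.Base
import Pool.Agent.Work.MP_fe3720_an.B.NullI

/-! # Module Generic: generic perturbations by polynomials in `b`

`J = 2 n + 1`. For `t : Fin n → Fin J → ℂ` let `β_i^t = β i + ∑ j, t i j * b ^ j`. `Bad t ξ c c'` (`c < c'`): for every
`ρ ∈ [c, c']` there is `x` with `U (b x) = ρ` and `β_i^t x = ξ i * g₀ x` for all `i`. Claim: for almost every `t` there
are no `ξ`, `c < c'` with `Bad t ξ c c'`.

Let `P = Fin n → Fin J → ℂ` and `𝒵 ⊆ P × (Fin J → ℝ)` the set of the `(t, ρ)` for which there are `ξ` and points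
`x_l` (`l : Fin J`) with `b (x_l)` pairwise distinct, `U (b (x_l)) = ρ l` and `β_i^t (x_l) = ξ i * g₀ (x_l)` for all `i`, `l`.

(1) `𝒵` is a null set. Cover `X` by countably many charts `(q_a, κ_a, V_a)`, `a : ℕ` (Lindelöf;
`TopologicalSpace.countable_cover_nhds` with the open sets `κ '' V`). For `a : Fin J → ℕ` let
`E = (Fin J → Fin m → ℂ) × (Fin n → ℂ)`, `Ω_a = {(y, ξ) | y l ∈ V_{a l}, the b (κ (y l)) pairwise distinct}` (open), and
`Ψ_a (y, ξ) = (t, ρ)` with `ρ l = U (b (κ (y l)))` and `t i = M⁻¹ (ξ i * g₀ (κ (y l)) - β i (κ (y l)))_l`, where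
`M = Matrix.vandermonde (fun l => b (κ (y l)))`, invertible (`Matrix.det_vandermonde_ne_zero_iff`). `Ψ_a` is `C¹` (real) on
`Ω_a`: all functions `f ∘ κ` are `C¹` (`IsChart.smooth`, restrict scalars), the inverse matrix is `det⁻¹ • adjugate`, a
rational function with nonzero denominator. If `(t, ρ) ∈ 𝒵` with points `x_l = κ_{a l} (y l)` then
`M t_i = (ξ i g₀ (x_l) - β i (x_l))_l`, so `(t, ρ) = Ψ_a (y, ξ)`. So `𝒵 ⊆ ⋃_a Ψ_a '' Ω_a`; real dimensions:
`2 m J + 2 n < 2 n J + J` as `m ≤ n`, `J = 2 n + 1`. Use `null_image`.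

(2) By `null_slices` for almost every `t` the slice `𝒵_t` is null. If `Bad t ξ c c'`: let `I l`, `l : Fin J`, be pairwise
disjoint subintervals of `[c, c']` of positive length (`I l = [c + l δ, c + l δ + δ/2]`, `δ = (c' - c)/J`); for
`ρ ∈ ∏ I l` choose `x_l` with `U (b x_l) = ρ l`; as the `ρ l` are distinct so are the `b (x_l)`; hence `(t, ρ) ∈ 𝒵`: the
slice contains the box `∏ I l`, of positive measure (`Real.volume_pi_Icc…`/`MeasureTheory.Measure.pi_pi`).
Contradiction. -/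

namespace Pool.Agent.MP_fe3720.BB

open Topology RR Filter MeasureTheory

variable {X : Type} [MetricSpace X] [ProperSpace X]
  {O : Subalgebra ℂ (X → ℂ)} {m N : ℕ} {G : Fin N → O}

/-- the perturbed functions -/
noncomputable def pert {n J : ℕ} (β : Fin n → O) (b : O) (t : Fin n → Fin J → ℂ) (i : Fin n) : O :=
  β i + ∑ j : Fin J, t i j • b ^ (j : ℕ)

/-- `U ∘ b` takes all the values of an interval on a level set of `β / g₀` -/
def Bad {n : ℕ} (β : Fin n → O) (b g₀ : O) (U : ℂ → ℝ) : Prop :=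
  ∃ (ξ : Fin n → ℂ) (c c' : ℝ), c < c' ∧ ∀ ρ ∈ Set.Icc c c', ∃ x : X, U (b x) = ρ ∧
    ∀ i, (β i) x = ξ i * g₀ x

private theorem gen_pert_apply {n J : ℕ} (β : Fin n → O) (b : O) (t : Fin n → Fin J → ℂ)
    (i : Fin n) (x : X) :
    (pert β b t i) x = (β i) x + ∑ j : Fin J, t i j * b x ^ (j : ℕ) := by
  have h : ∀ s : Finset (Fin J), (∑ j ∈ s, t i j • b ^ (j : ℕ) : O).1 x =
      ∑ j ∈ s, t i j * b x ^ (j : ℕ) := by
    classical
    intro s
    induction s using Finset.induction with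
    | empty => rfl
    | insert j s hj ih =>
      rw [Finset.sum_insert hj, Finset.sum_insert hj, ← ih]
      rfl
  exact congrArg ((β i) x + ·) (h Finset.univ)

private theorem det_contDiffOn {E : Type} [NormedAddCommGroup E] [NormedSpace ℝ E] {J : ℕ}
    {Ω : Set E} {A : E → Matrix (Fin J) (Fin J) ℂ}
    (hA : ∀ i j, ContDiffOn ℝ 1 (fun e => A e i j) Ω) : ContDiffOn ℝ 1 (fun e => (A e).det) Ω := by
  simp only [Matrix.det_apply]
  refine ContDiffOn.sum fun σ _ => ?_
  refine ContDiffOn.const_smul _ ?_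
  exact contDiffOn_prod fun i _ => hA _ _

private theorem adj_contDiffOn {E : Type} [NormedAddCommGroup E] [NormedSpace ℝ E] {J : ℕ}
    {Ω : Set E} {A : E → Matrix (Fin J) (Fin J) ℂ}
    (hA : ∀ i j, ContDiffOn ℝ 1 (fun e => A e i j) Ω) (i j : Fin J) :
    ContDiffOn ℝ 1 (fun e => (A e).adjugate i j) Ω := by
  simp only [Matrix.adjugate_apply]
  refine det_contDiffOn fun k l => ?_
  by_cases h : k = j
  · subst h
    simp only [Matrix.updateRow_self]
    exact contDiffOn_const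
  · simp only [Matrix.updateRow_ne h]
    exact hA k l

/-- the solution of the linear system -/
private noncomputable def sol {n J : ℕ} (β : Fin n → O) (b g₀ : O) (U : ℂ → ℝ)
    (κ : Fin J → (Fin m → ℂ) → X) (p : (Fin J → Fin m → ℂ) × (Fin n → ℂ)) :
    (Fin n → Fin J → ℂ) × (Fin J → ℝ) :=
  (fun i j => ((Matrix.vandermonde fun l => b (κ l (p.1 l))).det)⁻¹ *
    ∑ l, (Matrix.vandermonde fun l => b (κ l (p.1 l))).adjugate j l *
      (p.2 i * g₀ (κ l (p.1 l)) - (β i) (κ l (p.1 l))),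
   fun l => U (b (κ l (p.1 l))))

/-- the domain -/
private def dom {n J : ℕ} (b : O) (κ : Fin J → (Fin m → ℂ) → X) (V : Fin J → Set (Fin m → ℂ)) :
    Set ((Fin J → Fin m → ℂ) × (Fin n → ℂ)) :=
  {p | (∀ l, p.1 l ∈ V l) ∧ Function.Injective (fun l => b (κ l (p.1 l)))}

private theorem coord_contDiffOn {n J : ℕ} {κ : Fin J → (Fin m → ℂ) → X}
    {V : Fin J → Set (Fin m → ℂ)} {q : Fin J → Fin m → O} (hc : ∀ l, IsChart O (q l) (κ l) (V l))
    (f : O) (l : Fin J) : ContDiffOn ℝ 1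
      (fun p : (Fin J → Fin m → ℂ) × (Fin n → ℂ) => f (κ l (p.1 l))) {p | ∀ l, p.1 l ∈ V l} := by
  have h1 : ContDiffOn ℝ 1 (fun y => f (κ l y)) (V l) := ((hc l).smooth f).restrict_scalars ℝ
  have h2 : ContDiff ℝ 1 (fun p : (Fin J → Fin m → ℂ) × (Fin n → ℂ) => p.1 l) :=
    (contDiff_apply ℝ (Fin m → ℂ) l).comp contDiff_fst
  exact h1.comp h2.contDiffOn (fun p hp => hp l)

private theorem dom_open {n J : ℕ} (b : O) {κ : Fin J → (Fin m → ℂ) → X}
    {V : Fin J → Set (Fin m → ℂ)} {q : Fin J → Fin m → O} (hc : ∀ l, IsChart O (q l) (κ l) (V l)) :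
    IsOpen (dom (n := n) b κ V) := by
  have hV : IsOpen {p : (Fin J → Fin m → ℂ) × (Fin n → ℂ) | ∀ l, p.1 l ∈ V l} := by
    have : {p : (Fin J → Fin m → ℂ) × (Fin n → ℂ) | ∀ l, p.1 l ∈ V l} =
        ⋂ l, {p | p.1 l ∈ V l} := by ext p; simp
    rw [this]
    exact isOpen_iInter_of_finite fun l => (hc l).opn.preimage
      ((continuous_apply l).comp continuous_fst)
  have h1 : ∀ l l' : Fin J, IsOpen ({p : (Fin J → Fin m → ℂ) × (Fin n → ℂ) | ∀ l, p.1 l ∈ V l} ∩
      {p | l ≠ l' → b (κ l (p.1 l)) ≠ b (κ l' (p.1 l'))}) := by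
    intro l l'
    by_cases h : l = l'
    · have : {p : (Fin J → Fin m → ℂ) × (Fin n → ℂ) |
          l ≠ l' → b (κ l (p.1 l)) ≠ b (κ l' (p.1 l'))} = Set.univ := by
        ext p
        simp [h]
      rw [this, Set.inter_univ]
      exact hV
    · have h2 : ContinuousOn (fun p : (Fin J → Fin m → ℂ) × (Fin n → ℂ) =>
          b (κ l (p.1 l)) - b (κ l' (p.1 l'))) {p | ∀ l, p.1 l ∈ V l} :=
        (coord_contDiffOn hc b l).continuousOn.sub (coord_contDiffOn hc b l').continuousOn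
      have h3 := h2.isOpen_inter_preimage hV (isOpen_compl_singleton (x := (0 : ℂ)))
      convert h3 using 1
      ext p
      simp [h, sub_eq_zero]
  have h2 : dom (n := n) b κ V = {p : (Fin J → Fin m → ℂ) × (Fin n → ℂ) | ∀ l, p.1 l ∈ V l} ∩
      ⋂ l, ⋂ l', ({p : (Fin J → Fin m → ℂ) × (Fin n → ℂ) | ∀ l, p.1 l ∈ V l} ∩
      {p | l ≠ l' → b (κ l (p.1 l)) ≠ b (κ l' (p.1 l'))}) := by
    ext p
    simp only [dom, Set.mem_setOf_eq, Set.mem_inter_iff, Set.mem_iInter]
    constructor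
    · rintro ⟨h, hi⟩
      exact ⟨h, fun l l' => ⟨h, fun hl he => hl (hi he)⟩⟩
    · rintro ⟨h, hi⟩
      refine ⟨h, fun l l' he => ?_⟩
      by_contra hl
      exact (hi l l').2 hl he
  rw [h2]
  exact hV.inter (isOpen_iInter_of_finite fun l => isOpen_iInter_of_finite fun l' => h1 l l')

private theorem sol_contDiffOn {n J : ℕ} (β : Fin n → O) (b g₀ : O) {U : ℂ → ℝ}
    (hU : ContDiff ℝ 1 U) {κ : Fin J → (Fin m → ℂ) → X}
    {V : Fin J → Set (Fin m → ℂ)} {q : Fin J → Fin m → O} (hc : ∀ l, IsChart O (q l) (κ l) (V l)) :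
    ContDiffOn ℝ 1 (sol (m := m) β b g₀ U κ) (dom (n := n) b κ V) := by
  have hsub : dom (n := n) b κ V ⊆ {p | ∀ l, p.1 l ∈ V l} := fun p hp => hp.1
  have hco : ∀ (f : O) (l : Fin J), ContDiffOn ℝ 1
      (fun p : (Fin J → Fin m → ℂ) × (Fin n → ℂ) => f (κ l (p.1 l))) (dom (n := n) b κ V) :=
    fun f l => (coord_contDiffOn hc f l).mono hsub
  have hM : ∀ l j, ContDiffOn ℝ 1 (fun p : (Fin J → Fin m → ℂ) × (Fin n → ℂ) =>
      (Matrix.vandermonde fun l => b (κ l (p.1 l))) l j) (dom (n := n) b κ V) := by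
    intro l j
    simp only [Matrix.vandermonde_apply]
    exact (hco b l).pow _
  refine ContDiffOn.prodMk ?_ ?_
  · refine contDiffOn_pi.mpr fun i => contDiffOn_pi.mpr fun j => ?_
    refine ContDiffOn.mul ?_ ?_
    · refine (det_contDiffOn hM).inv fun p hp => ?_
      rw [Matrix.det_vandermonde_ne_zero_iff]
      exact hp.2
    · refine ContDiffOn.sum fun l _ => ?_
      refine (adj_contDiffOn hM j l).mul ?_
      refine ContDiffOn.sub (ContDiffOn.mul ?_ (hco g₀ l)) (hco (β i) l)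
      exact ((contDiff_apply ℝ ℂ i).comp contDiff_snd).contDiffOn
  · exact contDiffOn_pi.mpr fun l => hU.comp_contDiffOn (hco b l)

/-- the bad set -/
private def Zb {n J : ℕ} (β : Fin n → O) (b g₀ : O) (U : ℂ → ℝ) :
    Set ((Fin n → Fin J → ℂ) × (Fin J → ℝ)) :=
  {p | ∃ (ξ : Fin n → ℂ) (x : Fin J → X), Function.Injective (fun l => b (x l)) ∧
    (∀ l, U (b (x l)) = p.2 l) ∧ ∀ i l, (pert β b p.1 i) (x l) = ξ i * g₀ (x l)}

private theorem haar_nj (n J : ℕ) : (volume : Measure (Fin n → Fin J → ℂ)).IsAddHaarMeasure := by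
  rw [volume_pi]
  have : ∀ i : Fin n, ((fun _ : Fin n => (volume : Measure (Fin J → ℂ))) i).IsAddHaarMeasure :=
    fun i => inferInstance
  have : ∀ i : Fin n, MeasurableAdd ((fun _ : Fin n => (Fin J → ℂ)) i) := fun i => inferInstance
  exact @Measure.pi.isAddHaarMeasure (Fin n) (fun _ => Fin J → ℂ) _ _ (fun _ => volume) _ _ _ _ _

private theorem Zb_null (hS : SD0 m O G) {n : ℕ} (hmn : m ≤ n) (β : Fin n → O) (b g₀ : O)
    {U : ℂ → ℝ} (hU : ContDiff ℝ 1 U) :
    ((volume : Measure (Fin n → Fin (2 * n + 1) → ℂ)).prod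
      (volume : Measure (Fin (2 * n + 1) → ℝ))) (Zb β b g₀ U) = 0 := by
  choose q κ V hc hV hκ using hS.charts
  obtain ⟨s, hs, hcov⟩ := TopologicalSpace.countable_cover_nhds
    (f := fun x => κ x '' V x) (fun x => (hc x).img.mem_nhds ⟨_, hV x, hκ x⟩)
  have : Countable s := hs.to_subtype
  have hsub : Zb β b g₀ U ⊆ ⋃ a : Fin (2 * n + 1) → s,
      sol (m := m) β b g₀ U (fun l => κ (a l)) '' dom (n := n) b (fun l => κ (a l))
        (fun l => V (a l)) := by
    rintro ⟨t, ρ⟩ ⟨ξ, x, hinj, hρ, hx⟩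
    have h1 : ∀ l, ∃ a : s, ∃ y ∈ V a, κ a y = x l := by
      intro l
      have h2 : x l ∈ ⋃ x ∈ s, κ x '' V x := by rw [hcov]; trivial
      obtain ⟨a, ha, y, hy, hyx⟩ := Set.mem_iUnion₂.mp h2
      exact ⟨⟨a, ha⟩, y, hy, hyx⟩
    choose a y hy hyx using h1
    refine Set.mem_iUnion.mpr ⟨a, (y, ξ), ⟨hy, ?_⟩, ?_⟩
    · simp only [hyx]
      exact hinj
    · refine Prod.ext ?_ ?_
      · funext i j
        simp only [sol, hyx]
        set M := Matrix.vandermonde fun l => b (x l) with hM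
        have hdet : M.det ≠ 0 := by
          rw [hM, Matrix.det_vandermonde_ne_zero_iff]
          exact hinj
        have h2 : ∀ l, ξ i * g₀ (x l) - (β i) (x l) = (M.mulVec (t i)) l := by
          intro l
          have h3 := hx i l
          rw [gen_pert_apply] at h3
          rw [← h3, add_sub_cancel_left]
          simp only [Matrix.mulVec, dotProduct, hM, Matrix.vandermonde_apply]
          exact Finset.sum_congr rfl fun j _ => mul_comm _ _
        have h4 : ∑ l, M.adjugate j l * (ξ i * g₀ (x l) - (β i) (x l)) = M.det * t i j := by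
          have h5 : (M.adjugate.mulVec (M.mulVec (t i))) j = M.det * t i j := by
            rw [Matrix.mulVec_mulVec, Matrix.adjugate_mul, Matrix.smul_mulVec, Matrix.one_mulVec]
            rfl
          rw [← h5]
          simp only [Matrix.mulVec, dotProduct]
          refine Finset.sum_congr rfl fun l _ => ?_
          rw [h2 l]
          rfl
        rw [h4, inv_mul_cancel_left₀ hdet]
      · funext l
        simp only [sol, hyx]
        exact hρ l
  have := haar_nj n (2 * n + 1)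
  refine measure_mono_null hsub (measure_iUnion_null fun a => ?_)
  have : ((volume : Measure (Fin n → Fin (2 * n + 1) → ℂ)).prod
      (volume : Measure (Fin (2 * n + 1) → ℝ))).IsAddHaarMeasure :=
    Measure.prod.instIsAddHaarMeasure _ _
  refine null_image _ ?_ (dom_open b fun l => hc (a l)) (sol_contDiffOn β b g₀ hU fun l => hc (a l))
  have e1 : Module.finrank ℝ ((Fin (2 * n + 1) → Fin m → ℂ) × (Fin n → ℂ)) =
      (2 * n + 1) * (m * 2) + n * 2 := by
    rw [Module.finrank_prod, Module.finrank_pi_fintype, Module.finrank_pi_fintype]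
    simp [Module.finrank_pi_fintype, Complex.finrank_real_complex]
  have e2 : Module.finrank ℝ ((Fin n → Fin (2 * n + 1) → ℂ) × (Fin (2 * n + 1) → ℝ)) =
      n * ((2 * n + 1) * 2) + (2 * n + 1) := by
    rw [Module.finrank_prod, Module.finrank_pi_fintype]
    simp [Module.finrank_pi_fintype, Complex.finrank_real_complex]
  rw [e1, e2]
  have h3 : (2 * n + 1) * (m * 2) ≤ (2 * n + 1) * (n * 2) := by gcongr
  nlinarith

private theorem generic_core {n J : ℕ} (hJ : 0 < J) (β : Fin n → O) (b g₀ : O) (U : ℂ → ℝ)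
    (t : Fin n → Fin J → ℂ) (ht : (volume : Measure (Fin J → ℝ)) {ρ | (t, ρ) ∈ Zb β b g₀ U} = 0) :
    ¬ Bad (pert β b t) b g₀ U := by
  rintro ⟨ξ, c, c', hcc, hbad⟩
  have hJ0 : (0 : ℝ) < J := by exact_mod_cast hJ
  set δ : ℝ := (c' - c) / J with hδ
  have hδ0 : 0 < δ := div_pos (sub_pos.mpr hcc) hJ0
  set lo : Fin J → ℝ := fun l => c + l * δ with hlo
  set hi : Fin J → ℝ := fun l => c + l * δ + δ / 2 with hhi
  have hsub : Set.Icc lo hi ⊆ {ρ | (t, ρ) ∈ Zb β b g₀ U} := by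
    intro ρ hρ
    have hl1 : ∀ l, c + l * δ ≤ ρ l := fun l => hρ.1 l
    have hl2 : ∀ l, ρ l ≤ c + l * δ + δ / 2 := fun l => hρ.2 l
    have hmem : ∀ l, ρ l ∈ Set.Icc c c' := by
      intro l
      have h1 := hl1 l
      have h2 := hl2 l
      have h3 : (0 : ℝ) ≤ (l : ℕ) * δ := by positivity
      have h4 : ((l : ℕ) : ℝ) + 1 ≤ J := by exact_mod_cast l.2
      have h5 : (((l : ℕ) : ℝ) + 1) * δ ≤ c' - c := by
        calc (((l : ℕ) : ℝ) + 1) * δ ≤ J * δ := by gcongr
          _ = c' - c := by rw [hδ]; field_simp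
      constructor <;> nlinarith
    have hinj : Function.Injective ρ := by
      have hlt : ∀ l l' : Fin J, l < l' → ρ l < ρ l' := by
        intro l l' hll
        have h1 := hl2 l
        have h2 := hl1 l'
        have h3 : (((l : ℕ) : ℝ) + 1) * δ ≤ ((l' : ℕ) : ℝ) * δ := by
          have : ((l : ℕ) : ℝ) + 1 ≤ (l' : ℕ) := by exact_mod_cast hll
          gcongr
        nlinarith
      intro l l' he
      rcases lt_trichotomy l l' with h | h | h
      · exact absurd he (hlt _ _ h).ne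
      · exact h
      · exact absurd he (hlt _ _ h).ne'
    choose x hx1 hx2 using fun l => hbad (ρ l) (hmem l)
    refine ⟨ξ, x, fun l l' he => hinj ?_, hx1, fun i l => hx2 l i⟩
    rw [← hx1 l, ← hx1 l']
    exact congrArg U he
  have h1 := measure_mono_null hsub ht
  rw [Real.volume_Icc_pi, Finset.prod_eq_zero_iff] at h1
  obtain ⟨l, -, hl⟩ := h1
  rw [ENNReal.ofReal_eq_zero] at hl
  simp only [hlo, hhi] at hl
  linarith

theorem generic (hS : SD0 m O G) {n : ℕ} (hmn : m ≤ n) (β : Fin n → O) (b g₀ : O) {U : ℂ → ℝ}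
    (hU : ContDiff ℝ 1 U) :
    ∀ᵐ t : Fin n → Fin (2 * n + 1) → ℂ, ¬ Bad (pert β b t) b g₀ U := by
  filter_upwards [null_slices _ _ (Zb_null hS hmn β b g₀ hU)] with t ht
  exact generic_core (by omega) β b g₀ U t ht

/-- small perturbations with all properties -/
theorem generic_small (hS : SD0 m O G) {n : ℕ} (hmn : m ≤ n) (β : Fin n → O) (b g₀ : O)
    {δ : ℝ} (hδ : 0 < δ) :
    ∃ t : Fin n → Fin (2 * n + 1) → ℂ, (∀ i j, ‖t i j‖ < δ) ∧
      ¬ Bad (pert β b t) b g₀ Complex.re ∧ ¬ Bad (pert β b t) b g₀ Complex.im ∧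
      ¬ Bad (pert β b t) b g₀ (fun z => Complex.normSq z) := by
  have hre : ContDiff ℝ 1 Complex.re := Complex.reCLM.contDiff
  have him : ContDiff ℝ 1 Complex.im := Complex.imCLM.contDiff
  have hns : ContDiff ℝ 1 (fun z : ℂ => Complex.normSq z) := by
    have : (fun z : ℂ => Complex.normSq z) = fun z => z.re * z.re + z.im * z.im := by
      funext z
      exact Complex.normSq_apply z
    rw [this]
    exact (hre.mul hre).add (him.mul him)
  have h := (generic hS hmn β b g₀ hre).and ((generic hS hmn β b g₀ him).and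
    (generic hS hmn β b g₀ hns))
  have := haar_nj n (2 * n + 1)
  have hball : 0 < (volume : Measure (Fin n → Fin (2 * n + 1) → ℂ)) (Metric.ball 0 δ) :=
    Metric.measure_ball_pos _ _ hδ
  obtain ⟨t, ht, h1, h2, h3⟩ : ∃ t ∈ Metric.ball (0 : Fin n → Fin (2 * n + 1) → ℂ) δ,
      ¬ Bad (pert β b t) b g₀ Complex.re ∧ ¬ Bad (pert β b t) b g₀ Complex.im ∧
      ¬ Bad (pert β b t) b g₀ (fun z => Complex.normSq z) := by
    by_contra hcon
    push Not at hcon
    have h4 : Metric.ball (0 : Fin n → Fin (2 * n + 1) → ℂ) δ ⊆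
        {t | ¬ (¬ Bad (pert β b t) b g₀ Complex.re ∧ ¬ Bad (pert β b t) b g₀ Complex.im ∧
          ¬ Bad (pert β b t) b g₀ (fun z => Complex.normSq z))} := by
      intro t ht hc
      exact absurd (hcon t ht hc.1 hc.2.1) hc.2.2
    have h5 := measure_mono_null h4 h
    exact absurd h5 hball.ne'
  refine ⟨t, fun i j => ?_, h1, h2, h3⟩
  rw [mem_ball_zero_iff] at ht
  exact ((norm_le_pi_norm (t i) j).trans (norm_le_pi_norm t i)).trans_lt ht

end Pool.Agent.MP_fe3720.BB
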