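import Pool.Agent.Work.MP_fe3720_an.B.Ibp

/-! # Module LocTrA: the mollified trace is holomorphic

`hL : IsLoc V B g h y₀ R`, `ρ` of class `C²`, `ρ w = 0` if `‖w‖ ≥ R`. For `y ∈ ball y₀ R` and `ζ ∈ frontier B`:
`‖y - g ζ‖ > R`, so `y - g ζ ∉ tsupport ρ`.

`tauI B g h ρ y = ∫ ζ in B, h ζ ρ (y - g ζ) |det|²`; `h`, `g` and `det (Jac g)` are continuous and bounded on the compact
`closure B`; differentiate under the integral sign (`hasFDerivAt_integral_of_dominated_of_fderiv_le`, bounded integrand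
and derivatives, `B` has finite measure): `tauI` is real differentiable, with derivative
`w ↦ ∫ ζ in B, h ζ (fderiv ℝ ρ (y - g ζ) w) |det|²`. Its `dbar j` is
`∫ ζ in B, h ζ (dbar j ρ)(y - g ζ) |det|²`. With `θ x = ρ (y - x)` (complex valued), `dbar j θ x = - (dbar j ρ)(y - x)`, so by `ibp`
it is `0` (`tsupport θ ⊆ {x | ‖y - x‖ ≤ R}` does not contain `g ζ`, `ζ ∈ frontier B`). A real linear map
`L : (Fin m → ℂ) → ℂ` with `L (e_j) + i L (i e_j) = 0` for all `j` is complex linear, so `tauI` is complex differentiable on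
`ball y₀ R`. -/

namespace Pool.Agent.MP_fe3720.BB

open MeasureTheory

/-- the weight of the mollified trace is continuous -/
theorem IsLoc.weight_cont {m : ℕ} {V B : Set (Fin m → ℂ)} {g : (Fin m → ℂ) → (Fin m → ℂ)}
    {h : (Fin m → ℂ) → ℂ} {y₀ : Fin m → ℂ} {R : ℝ} (hL : IsLoc V B g h y₀ R) :
    ContinuousOn (fun ζ => h ζ * ((‖(Jac g ζ).det‖ ^ 2 : ℝ) : ℂ)) (closure B) := by
  have h1 : ContinuousOn h V := hL.hC.continuousOn
  have h2 : ContinuousOn (fun ζ => (Jac g ζ).det) V := fun ζ hζ =>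
    (contDiffAt_detJac hL.opnV hL.gC hζ).continuousAt.continuousWithinAt
  have h3 : ContinuousOn (fun ζ => h ζ * ((‖(Jac g ζ).det‖ ^ 2 : ℝ) : ℂ)) V :=
    h1.mul (Complex.continuous_ofReal.comp_continuousOn ((h2.norm).pow 2))
  exact h3.mono hL.sub

theorem IsLoc.g_cont {m : ℕ} {V B : Set (Fin m → ℂ)} {g : (Fin m → ℂ) → (Fin m → ℂ)}
    {h : (Fin m → ℂ) → ℂ} {y₀ : Fin m → ℂ} {R : ℝ} (hL : IsLoc V B g h y₀ R) :
    ContinuousOn g (closure B) := hL.gC.continuousOn.mono hL.sub

/-- a real linear functional annihilated by all `dbar` is complex linear -/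
private theorem complex_of_dbar {m : ℕ} (L : (Fin m → ℂ) →L[ℝ] ℂ)
    (hL : ∀ j, L (Pi.single j 1) + Complex.I * L (Pi.single j Complex.I) = 0) :
    ∃ L' : (Fin m → ℂ) →L[ℂ] ℂ, L'.restrictScalars ℝ = L := by
  refine ⟨∑ l, (L (Pi.single l 1)) • (ContinuousLinearMap.proj l : (Fin m → ℂ) →L[ℂ] ℂ), ?_⟩
  ext w
  rw [ContinuousLinearMap.coe_restrictScalars', ContinuousLinearMap.sum_apply, real_lin_basis L w]
  refine Finset.sum_congr rfl fun l _ => ?_
  have h1 : L (Pi.single l Complex.I) = Complex.I * L (Pi.single l 1) := by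
    linear_combination (-Complex.I) * hL l + L (Pi.single l Complex.I) * Complex.I_mul_I
  rw [h1, ContinuousLinearMap.smul_apply, ContinuousLinearMap.proj_apply, smul_eq_mul]
  conv_lhs => rw [← Complex.re_add_im (w l)]
  ring

theorem tauI_hol {m : ℕ} {V B : Set (Fin m → ℂ)} {g : (Fin m → ℂ) → (Fin m → ℂ)}
    {h : (Fin m → ℂ) → ℂ} {y₀ : Fin m → ℂ} {R : ℝ} (hL : IsLoc V B g h y₀ R)
    {ρ : (Fin m → ℂ) → ℝ} (hρ : ContDiff ℝ 2 ρ) (hρs : ∀ w, R ≤ ‖w‖ → ρ w = 0) :
    DifferentiableOn ℂ (tauI B g h ρ) (Metric.ball y₀ R) := by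
  set A : (Fin m → ℂ) → ℂ := fun ζ => h ζ * ((‖(Jac g ζ).det‖ ^ 2 : ℝ) : ℂ) with hA
  have hAc : ContinuousOn A (closure B) := hL.weight_cont
  have hgc : ContinuousOn g (closure B) := hL.g_cont
  obtain ⟨C, hC⟩ := hL.cptB.exists_bound_of_continuousOn hAc
  have hcs : HasCompactSupport ρ := by
    refine HasCompactSupport.intro (isCompact_closedBall (0 : Fin m → ℂ) R) fun w hw => ?_
    refine hρs w ?_
    rw [Metric.mem_closedBall, dist_zero_right, not_le] at hw
    exact hw.le
  have hρd : Differentiable ℝ ρ := hρ.differentiable (by norm_num)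
  have hfc : Continuous (fderiv ℝ ρ) := hρ.continuous_fderiv (by norm_num)
  obtain ⟨D, hD⟩ := (hcs.fderiv ℝ).exists_bound_of_continuous hfc
  -- integrability of functions which are continuous on the closure
  have hint : ∀ f : (Fin m → ℂ) → ℂ, ContinuousOn f (closure B) → IntegrableOn f B := fun f hf =>
    (hf.integrableOn_compact hL.cptB).mono_set subset_closure
  have hmeasB : MeasurableSet B := hL.opnB.measurableSet
  have hBfin : volume B ≠ ⊤ :=
    ((measure_mono subset_closure).trans_lt hL.cptB.measure_lt_top).ne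
  -- the integrand and its derivative
  set F : (Fin m → ℂ) → (Fin m → ℂ) → ℂ := fun y ζ =>
    h ζ * (ρ (y - g ζ) : ℂ) * ((‖(Jac g ζ).det‖ ^ 2 : ℝ) : ℂ) with hF
  set F' : (Fin m → ℂ) → (Fin m → ℂ) → ((Fin m → ℂ) →L[ℝ] ℂ) := fun y ζ =>
    A ζ • (Complex.ofRealCLM.comp (fderiv ℝ ρ (y - g ζ))) with hF'
  have hFA : ∀ y ζ, F y ζ = A ζ * (ρ (y - g ζ) : ℂ) := by
    intro y ζ
    rw [hF, hA]
    ring
  have hFc : ∀ y, ContinuousOn (F y) (closure B) := by
    intro y
    have h1 : ContinuousOn (fun ζ => A ζ * (ρ (y - g ζ) : ℂ)) (closure B) :=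
      hAc.mul (Complex.continuous_ofReal.comp_continuousOn
        (hρ.continuous.comp_continuousOn (continuousOn_const.sub hgc)))
    exact h1.congr fun ζ _ => hFA y ζ
  have hF'c : ∀ y, ContinuousOn (F' y) (closure B) := by
    intro y
    refine hAc.smul ?_
    exact (continuous_const.clm_comp continuous_id).comp_continuousOn
      (hfc.comp_continuousOn (continuousOn_const.sub hgc))
  have hder : ∀ y, HasFDerivAt (𝕜 := ℝ) (tauI B g h ρ) (∫ ζ in B, F' y ζ) y := by
    intro y
    refine hasFDerivAt_integral_of_dominated_of_fderiv_le (𝕜 := ℝ) (F := F) (F' := F')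
      (bound := fun _ => C * D) (s := Set.univ) Filter.univ_mem ?_ ?_ ?_ ?_ ?_ ?_
    · exact Filter.Eventually.of_forall fun x =>
        ((hFc x).mono subset_closure).aestronglyMeasurable hmeasB
    · exact hint _ (hFc y)
    · exact ((hF'c y).mono subset_closure).aestronglyMeasurable hmeasB
    · refine (ae_restrict_iff' hmeasB).mpr (Filter.Eventually.of_forall fun ζ hζ x _ => ?_)
      have h1 : ‖A ζ‖ ≤ C := hC ζ (subset_closure hζ)
      have h2 : ‖Complex.ofRealCLM.comp (fderiv ℝ ρ (x - g ζ))‖ ≤ D := by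
        refine (ContinuousLinearMap.opNorm_comp_le _ _).trans ?_
        rw [Complex.ofRealCLM_norm, one_mul]
        exact hD _
      rw [hF']
      simp only [norm_smul]
      exact mul_le_mul h1 h2 (norm_nonneg _) ((norm_nonneg _).trans h1)
    · exact integrableOn_const hBfin
    · refine Filter.Eventually.of_forall fun ζ x _ => ?_
      have h1 : HasFDerivAt (𝕜 := ℝ) (fun x => ρ (x - g ζ)) (fderiv ℝ ρ (x - g ζ)) x := by
        have h2 : HasFDerivAt (𝕜 := ℝ) (fun x => x - g ζ)
            (ContinuousLinearMap.id ℝ (Fin m → ℂ)) x := (hasFDerivAt_id x).sub_const _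
        have h3 := (hρd (x - g ζ)).hasFDerivAt.comp x h2
        exact h3
      have h4 : HasFDerivAt (𝕜 := ℝ) (fun x => (ρ (x - g ζ) : ℂ))
          (Complex.ofRealCLM.comp (fderiv ℝ ρ (x - g ζ))) x :=
        Complex.ofRealCLM.hasFDerivAt.comp x h1
      have h5 := h4.const_mul (A ζ)
      refine h5.congr_of_eventuallyEq (Filter.Eventually.of_forall fun w => ?_)
      exact hFA w ζ
  intro y hy
  have hF'i : Integrable (F' y) (volume.restrict B) :=
    ((hF'c y).integrableOn_compact hL.cptB).mono_set subset_closure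
  -- the Cauchy-Riemann equations
  have hCR : ∀ j, (∫ ζ in B, F' y ζ) (Pi.single j 1) +
      Complex.I * (∫ ζ in B, F' y ζ) (Pi.single j Complex.I) = 0 := by
    intro j
    set θ : (Fin m → ℂ) → ℂ := fun x => (ρ (y - x) : ℂ) with hθ
    have hθs : ContDiff ℝ 1 θ :=
      Complex.ofRealCLM.contDiff.comp ((hρ.of_le (by norm_num)).comp (contDiff_const.sub contDiff_id))
    have hθt : ∀ ζ ∈ frontier B, g ζ ∉ tsupport θ := by
      intro ζ hζ hmem
      have h1 : tsupport θ ⊆ {x | dist y x ≤ R} := by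
        refine closure_minimal ?_ (isClosed_le (continuous_const.dist continuous_id)
          continuous_const)
        intro x hx
        by_contra hcon
        simp only [Set.mem_ofPred_eq, not_le] at hcon
        refine hx ?_
        rw [hθ]
        simp only []
        rw [hρs (y - x) (by rw [← dist_eq_norm]; exact hcon.le), Complex.ofReal_zero]
      have h2 := h1 hmem
      have h3 := hL.front ζ hζ
      rw [Metric.mem_ball, not_lt] at h3
      rw [Metric.mem_ball] at hy
      simp only [Set.mem_ofPred_eq] at h2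
      have h4 : dist (g ζ) y₀ ≤ dist y (g ζ) + dist y y₀ := by
        rw [dist_comm y (g ζ)]
        exact dist_triangle _ _ _
      linarith
    have h1 := ibp hL.opnV hL.gC hL.hC hL.opnB hL.cptB hL.sub hθs hθt j
    have hθd : ∀ x v, fderiv ℝ θ x v = -((fderiv ℝ ρ (y - x) v : ℝ) : ℂ) := by
      intro x v
      have h2 : HasFDerivAt (𝕜 := ℝ) (fun x => y - x)
          (-(ContinuousLinearMap.id ℝ (Fin m → ℂ))) x := (hasFDerivAt_id x).const_sub y
      have h3 := (Complex.ofRealCLM.hasFDerivAt (x := ρ (y - x))).comp x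
        ((hρd (y - x)).hasFDerivAt.comp x h2)
      have h4 : fderiv ℝ θ x = _ := h3.fderiv
      rw [h4]
      simp
    have h2 : ∀ v, (∫ ζ in B, F' y ζ) v = ∫ ζ in B, A ζ * ((fderiv ℝ ρ (y - g ζ) v : ℝ) : ℂ) := by
      intro v
      rw [ContinuousLinearMap.integral_apply hF'i]
      rfl
    have hi : ∀ v, Integrable (fun ζ => A ζ * ((fderiv ℝ ρ (y - g ζ) v : ℝ) : ℂ))
        (volume.restrict B) := by
      intro v
      exact (ContinuousLinearMap.apply ℝ ℂ v).integrable_comp hF'i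
    rw [h2, h2, ← integral_const_mul, ← integral_add (hi _) ((hi _).const_mul _)]
    have h3 : ∫ ζ in B, (A ζ * ((fderiv ℝ ρ (y - g ζ) (Pi.single j 1) : ℝ) : ℂ) +
        Complex.I * (A ζ * ((fderiv ℝ ρ (y - g ζ) (Pi.single j Complex.I) : ℝ) : ℂ))) =
        ∫ ζ in B, (-2 : ℂ) * (h ζ * dbar j θ (g ζ) * ((‖(Jac g ζ).det‖ ^ 2 : ℝ) : ℂ)) := by
      refine integral_congr_ae (Filter.Eventually.of_forall fun ζ => ?_)
      simp only [dbar, hθd, hA]
      ring
    rw [h3, integral_const_mul, h1, mul_zero]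
  obtain ⟨L', hL'⟩ := complex_of_dbar _ hCR
  exact (hasFDerivAt_of_restrictScalars ℝ (hder y) hL').differentiableAt.differentiableWithinAt

end Pool.Agent.MP_fe3720.BB
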