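import Pool.Agent.Work.MP_fe3720_an.B.TrBase

/-! # Module Radial: radial mollifiers and the mean value property

* `exists_radial`: `ρ w = c * Real.smoothTransition (1 - (∑ i, ‖w i‖^2) / s^2)` (smooth as `‖w i‖^2 = normSq (w i)` is;
  it vanishes if `∑ ‖w i‖² ≥ s²`, in particular if `‖w‖ ≥ s` (sup norm: some `‖w i‖ = ‖w‖` if `m ≥ 1`; if `m = 0` then
  `‖w‖ = 0 < s`); it is positive near `0`; `c⁻¹` is the integral, positive as the function is continuous, nonnegative,
  nonzero with compact support.
* `radial_mean`: for `c` of modulus `1` the substitution `w ↦ c • w` preserves the volume, so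
  `∫ F (y - w) ρ w = ∫ F (y - c • w) ρ w`. Average over `c = exp (i α)`, `α ∈ [0, 2π]` (Fubini): for `‖w‖ < s < r` the
  function `z ↦ F (y - z • w)` is holomorphic near the closed unit disc, so its mean value over the unit circle is
  `F y` (`Complex.circleIntegral…`: the mean value property, e.g. `DiffContOnCl.circleAverage` or the Cauchy formula at the
  centre `circleIntegral_sub_center_inv_smul…`). So the integral is `F y * ∫ ρ = F y`. -/

namespace Pool.Agent.MP_fe3720.BB

open MeasureTheory

theorem exists_radial (m : ℕ) {s : ℝ} (hs : 0 < s) : ∃ ρ : (Fin m → ℂ) → ℝ, IsRad s ρ := by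
  set f : (Fin m → ℂ) → ℝ := fun w => Real.smoothTransition (1 - (∑ i, ‖w i‖ ^ 2) / s ^ 2) with hf
  have hsm : ContDiff ℝ 2 f := by
    have h1 : ContDiff ℝ 2 (fun w : Fin m → ℂ => ∑ i, ‖w i‖ ^ 2) :=
      ContDiff.sum fun i _ => (contDiff_apply ℝ ℂ i).norm_sq ℝ
    exact (Real.smoothTransition.contDiff (n := 2)).comp (contDiff_const.sub (h1.div_const _))
  have hsupp : ∀ w, s ≤ ‖w‖ → f w = 0 := by
    intro w hw
    have h1 : ∃ i, s ≤ ‖w i‖ := by
      by_contra hcon
      push Not at hcon
      exact absurd ((pi_norm_lt_iff hs).mpr hcon) (not_lt.mpr hw)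
    obtain ⟨i, hi⟩ := h1
    have h2 : s ^ 2 ≤ ∑ i, ‖w i‖ ^ 2 :=
      (pow_le_pow_left₀ hs.le hi 2).trans
        (Finset.single_le_sum (f := fun i => ‖w i‖ ^ 2) (fun i _ => by positivity)
          (Finset.mem_univ i))
    refine Real.smoothTransition.zero_of_nonpos ?_
    have h3 : 1 ≤ (∑ i, ‖w i‖ ^ 2) / s ^ 2 := (one_le_div (by positivity)).mpr h2
    linarith
  have hnn : ∀ w, 0 ≤ f w := fun w => Real.smoothTransition.nonneg _
  have hinv : ∀ c : ℂ, ‖c‖ = 1 → ∀ w, f (c • w) = f w := by
    intro c hc w
    rw [hf]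
    simp only [Pi.smul_apply, norm_smul, hc, one_mul]
  have hcs : HasCompactSupport f := by
    refine HasCompactSupport.intro (isCompact_closedBall (0 : Fin m → ℂ) s) fun w hw => ?_
    refine hsupp w ?_
    rw [Metric.mem_closedBall, dist_zero_right, not_le] at hw
    exact hw.le
  have hpos : 0 < ∫ w, f w := by
    refine hsm.continuous.integral_pos_of_hasCompactSupport_nonneg_nonzero hcs hnn (x := 0) ?_
    rw [hf]
    simp
  refine ⟨fun w => (∫ w, f w)⁻¹ * f w, contDiff_const.mul hsm, fun w hw => ?_, fun w => ?_,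
    fun c hc w => ?_, ?_⟩
  · rw [hsupp w hw, mul_zero]
  · exact mul_nonneg (inv_nonneg.mpr hpos.le) (hnn w)
  · rw [hinv c hc w]
  · rw [integral_const_mul, inv_mul_cancel₀ hpos.ne']

/-- multiplication by a number of modulus one preserves the volume -/
theorem measurePreserving_unit {m : ℕ} {c : ℂ} (hc : ‖c‖ = 1) :
    MeasurePreserving (fun w : Fin m → ℂ => c • w) := by
  have h1 : MeasurePreserving (fun z : ℂ => c * z) := by
    have h2 := (rotation ⟨c, by rw [Submonoid.unitSphere, ← SetLike.mem_coe]; simp [hc]⟩).measurePreserving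
    exact h2
  exact volume_preserving_pi fun _ => h1

theorem radial_mean {m : ℕ} {s r : ℝ} {ρ : (Fin m → ℂ) → ℝ} (hρ : IsRad s ρ) (hsr : s < r)
    {F : (Fin m → ℂ) → ℂ} {y : Fin m → ℂ} (hF : DifferentiableOn ℂ F (Metric.ball y r)) :
    ∫ w, F (y - w) * (ρ w : ℂ) = F y := by
  have hs : 0 < s := by
    by_contra hcon
    have h1 : ∀ w, ρ w = 0 := fun w => hρ.supp w ((not_lt.mp hcon).trans (norm_nonneg w))
    have h2 := hρ.int
    simp [h1] at h2
  have hmem : ∀ w : Fin m → ℂ, ‖w‖ < r → y - w ∈ Metric.ball y r := by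
    intro w hw
    rw [Metric.mem_ball, dist_eq_norm]
    simpa using hw
  set Φ : (Fin m → ℂ) → ℂ := fun w => F (y - w) * (ρ w : ℂ) with hΦ
  have hΦ0 : ∀ w, s ≤ ‖w‖ → Φ w = 0 := by
    intro w hw
    rw [hΦ]
    simp only [hρ.supp w hw, Complex.ofReal_zero, mul_zero]
  have hΦc : Continuous Φ := by
    rw [continuous_iff_continuousAt]
    intro w
    rcases lt_or_ge ‖w‖ r with hw | hw
    · have h1 : ContinuousAt F (y - w) :=
        (hF.differentiableAt (Metric.isOpen_ball.mem_nhds (hmem w hw))).continuousAt
      have h2 : ContinuousAt (fun w => F (y - w)) w :=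
        ContinuousAt.comp (f := fun w => y - w) h1 (by fun_prop)
      exact h2.mul (Complex.continuous_ofReal.continuousAt.comp hρ.smooth.continuous.continuousAt)
    · have h1 : Φ =ᶠ[nhds w] fun _ => 0 := by
        have h2 : ∀ᶠ x in nhds w, s < ‖x‖ :=
          continuous_norm.continuousAt.eventually_const_lt (hsr.trans_le hw)
        filter_upwards [h2] with x hx
        exact hΦ0 x hx.le
      exact continuousAt_const.congr h1.symm
  have hΦcs : HasCompactSupport Φ := by
    refine HasCompactSupport.intro (isCompact_closedBall (0 : Fin m → ℂ) s) fun w hw => ?_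
    refine hΦ0 w ?_
    rw [Metric.mem_closedBall, dist_zero_right, not_le] at hw
    exact hw.le
  obtain ⟨C, hC⟩ := hΦcs.exists_bound_of_continuous hΦc
  -- rotation invariance
  have hrot : ∀ θ : ℝ, ∫ w, Φ (circleMap 0 1 θ • w) = ∫ w, Φ w := by
    intro θ
    have hc : ‖circleMap 0 1 θ‖ = 1 := by simp
    have hne : circleMap 0 1 θ ≠ 0 := by
      intro h0
      rw [h0, norm_zero] at hc
      exact zero_ne_one hc
    have h1 := (measurePreserving_unit (m := m) hc).integral_comp
      (Homeomorph.smulOfNeZero (circleMap 0 1 θ) hne).measurableEmbedding Φ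
    exact h1
  -- mean value property on each circle
  have hmean : ∀ w : Fin m → ℂ, ∫ θ in (0 : ℝ)..2 * Real.pi, Φ (circleMap 0 1 θ • w) =
      (2 * Real.pi : ℝ) • (F y * (ρ w : ℂ)) := by
    intro w
    rcases le_or_gt s ‖w‖ with hw | hw
    · have h1 : ∀ θ : ℝ, Φ (circleMap 0 1 θ • w) = 0 := by
        intro θ
        refine hΦ0 _ ?_
        rw [norm_smul]
        simpa using hw
      simp only [h1, hρ.supp w hw]
      simp
    · have hd : DiffContOnCl ℂ (fun z : ℂ => F (y - z • w)) (Metric.ball 0 |1|) := by
        have h1 : DifferentiableOn ℂ (fun z : ℂ => F (y - z • w)) (Metric.closedBall 0 1) := by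
          intro z hz
          have hz1 : ‖z‖ ≤ 1 := by simpa using hz
          have h2 : ‖z • w‖ < r := by
            rw [norm_smul]
            calc ‖z‖ * ‖w‖ ≤ 1 * ‖w‖ := mul_le_mul_of_nonneg_right hz1 (norm_nonneg w)
              _ < r := by linarith
          have h3 : DifferentiableAt ℂ F (y - z • w) :=
            hF.differentiableAt (Metric.isOpen_ball.mem_nhds (hmem _ h2))
          have h4 : DifferentiableAt ℂ (fun z : ℂ => y - z • w) z := by fun_prop
          exact (DifferentiableAt.comp z (f := fun z : ℂ => y - z • w) h3 h4).differentiableWithinAt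
        rw [abs_one]
        exact h1.diffContOnCl_ball (subset_refl _)
      have h5 := hd.circleAverage
      rw [Real.circleAverage_def] at h5
      simp only [zero_smul, sub_zero] at h5
      have h6 : ∀ θ : ℝ, Φ (circleMap 0 1 θ • w) = F (y - circleMap 0 1 θ • w) * (ρ w : ℂ) := by
        intro θ
        rw [hΦ]
        simp only [hρ.inv (circleMap 0 1 θ) (by simp) w]
      simp only [h6]
      rw [intervalIntegral.integral_mul_const, ← h5, ← smul_mul_assoc, smul_smul,
        mul_inv_cancel₀ (by positivity), one_smul]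
  have hint : Integrable (Function.uncurry fun (θ : ℝ) (w : Fin m → ℂ) =>
      Φ (circleMap 0 1 θ • w)) ((volume.restrict (Set.uIoc 0 (2 * Real.pi))).prod volume) := by
    have hfin : IsFiniteMeasure (volume.restrict (Set.uIoc 0 (2 * Real.pi))) := by
      constructor
      rw [Measure.restrict_apply_univ]
      exact (measure_mono Set.uIoc_subset_uIcc).trans_lt isCompact_uIcc.measure_lt_top
    have hg : Integrable (fun w : Fin m → ℂ =>
        (Metric.closedBall (0 : Fin m → ℂ) s).indicator (fun _ => C) w) :=
      (integrable_indicator_iff Metric.isClosed_closedBall.measurableSet).mpr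
        (integrableOn_const (isCompact_closedBall _ _).measure_lt_top.ne)
    have hprod := (integrable_const (μ := volume.restrict (Set.uIoc 0 (2 * Real.pi)))
      (1 : ℝ)).mul_prod hg
    refine hprod.mono' ?_ ?_
    · refine Continuous.aestronglyMeasurable ?_
      unfold Function.uncurry
      exact hΦc.comp (((continuous_circleMap 0 1).comp continuous_fst).smul continuous_snd)
    · refine Filter.Eventually.of_forall fun p => ?_
      simp only [Function.uncurry, one_mul]
      by_cases hp : p.2 ∈ Metric.closedBall (0 : Fin m → ℂ) s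
      · rw [Set.indicator_of_mem hp]
        exact hC _
      · rw [Set.indicator_of_notMem hp]
        rw [Metric.mem_closedBall, dist_zero_right, not_le] at hp
        rw [hΦ0, norm_zero]
        rw [norm_smul]
        simpa using hp.le
  have hswap := intervalIntegral_integral_swap hint
  simp only [hrot, hmean] at hswap
  rw [intervalIntegral.integral_const, sub_zero, integral_smul, integral_const_mul] at hswap
  have h7 : ∫ w, (ρ w : ℂ) = 1 := by
    rw [integral_complex_ofReal, hρ.int, Complex.ofReal_one]
  rw [h7, mul_one] at hswap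
  have h8 : (2 * Real.pi : ℝ) ≠ 0 := by positivity
  exact smul_right_injective ℂ h8 hswap

end Pool.Agent.MP_fe3720.BB
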