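import Pool.Agent.Work.MP_fe3720_an.B.DetR
import Pool.Agent.Work.MP_fe3720_an.B.LocTrA
import Pool.Agent.Work.MP_fe3720_an.B.Radial
import Pool.Agent.Work.MP_fe3720_an.FrobCalc

/-! # Module LocTrC: the mollified trace at a regular value

Let `y ∈ ball y₀ R` be such that `det (Jac g ζ) ≠ 0` for all `ζ ∈ B` with `g ζ = y`. The set `F = {ζ ∈ B | g ζ = y}` is
compact (it is `{ζ ∈ closure B | g ζ = y}`, as `g ζ ∉ ball y₀ (2R)` on the frontier) and discrete (`g` is injective near each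
of its points, inverse function theorem `inverse_general` of FrobCalc.lean, `det_jac`), so finite.

For each `ζ ∈ F` choose an open `N_ζ ∋ ζ`, `N_ζ ⊆ B`, pairwise disjoint, such that `g` is injective on `N_ζ`, `g '' N_ζ` is open, and
the inverse `H_ζ : g '' N_ζ → N_ζ` is holomorphic. By compactness there is `s₁ > 0` with `ball y s₁ ⊆ g '' N_ζ` for all
`ζ ∈ F` and `g ξ ∉ ball y s₁` for `ξ ∈ closure B \ ⋃ N_ζ`. For a radial `ρ` of radius `s < s₁` the integrand of `tauI B g h ρ y`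
vanishes outside `⋃ N_ζ` (`ρ (y - g ξ) = 0` if `‖y - g ξ‖ ≥ s`), and on `N_ζ`, by the change of variables
(`integral_image_eq_integral_abs_det_fderiv_smul`, `det_real`, `det_jac`)
`∫ ξ in N_ζ, h ξ ρ (y - g ξ) |det|² = ∫ x in g '' N_ζ, h (H_ζ x) ρ (y - x) = ∫ w, (h ∘ H_ζ) (y - w) ρ w = h (H_ζ y) = h ζ`
by `radial_mean` on `ball y s₁`. Sum over `ζ ∈ F`. -/

namespace Pool.Agent.MP_fe3720.BB

open MeasureTheory

private theorem bij_of_det {m : ℕ} {g : (Fin m → ℂ) → (Fin m → ℂ)} {ζ : Fin m → ℂ}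
    (h : (Jac g ζ).det ≠ 0) : Function.Bijective (fderiv ℂ g ζ) := by
  have h1 : LinearMap.det (fderiv ℂ g ζ : (Fin m → ℂ) →ₗ[ℂ] (Fin m → ℂ)) ≠ 0 := by
    have h2 := det_jac g ζ
    unfold ContinuousLinearMap.det at h2
    rw [h2]
    exact h
  exact (LinearMap.equivOfDetNeZero _ h1).bijective

/-- the fibre is compact -/
private theorem fibre_compact {m : ℕ} {V B : Set (Fin m → ℂ)} {g : (Fin m → ℂ) → (Fin m → ℂ)}
    {h : (Fin m → ℂ) → ℂ} {y₀ : Fin m → ℂ} {R : ℝ} (hL : IsLoc V B g h y₀ R)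
    {y : Fin m → ℂ} (hy : y ∈ Metric.ball y₀ R) : IsCompact {ζ | ζ ∈ B ∧ g ζ = y} := by
  have h1 : {ζ | ζ ∈ B ∧ g ζ = y} = closure B ∩ g ⁻¹' {y} := by
    ext ζ
    constructor
    · rintro ⟨h2, h3⟩
      exact ⟨subset_closure h2, h3⟩
    · rintro ⟨h2, h3⟩
      refine ⟨?_, h3⟩
      by_contra hn
      refine hL.front ζ ?_ ?_
      · rw [frontier, hL.opnB.interior_eq]
        exact ⟨h2, hn⟩
      · have h4 : g ζ = y := h3
        rw [h4]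
        exact Metric.ball_subset_ball (by linarith [hL.Rpos]) hy
  rw [h1]
  exact hL.cptB.of_isClosed_subset
    (hL.g_cont.preimage_isClosed_of_isClosed isClosed_closure isClosed_singleton)
    Set.inter_subset_left

theorem fibre_finite_loc {m : ℕ} {V B : Set (Fin m → ℂ)} {g : (Fin m → ℂ) → (Fin m → ℂ)}
    {h : (Fin m → ℂ) → ℂ} {y₀ : Fin m → ℂ} {R : ℝ} (hL : IsLoc V B g h y₀ R)
    {y : Fin m → ℂ} (hy : y ∈ Metric.ball y₀ R)
    (hreg : ∀ ζ ∈ B, g ζ = y → (Jac g ζ).det ≠ 0) : {ζ | ζ ∈ B ∧ g ζ = y}.Finite := by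
  have hc := fibre_compact hL hy
  have h1 : ∀ ζ ∈ {ζ | ζ ∈ B ∧ g ζ = y}, ∃ N : Set (Fin m → ℂ), IsOpen N ∧ ζ ∈ N ∧
      ∀ ξ ∈ N, g ξ = g ζ → ξ = ζ := by
    rintro ζ ⟨hζ, hgζ⟩
    have hC : ContDiffAt ℂ 1 g ζ :=
      (hL.gC.contDiffAt (hL.opnV.mem_nhds (hL.sub (subset_closure hζ)))).of_le (by norm_num)
    obtain ⟨N, W, H, hN1, hN2, _, _, hN5, _⟩ :=
      inverse_general g ζ hC (bij_of_det (hreg ζ hζ hgζ)) Set.univ Filter.univ_mem
    refine ⟨N, hN1, hN2, fun ξ hξ hgξ => ?_⟩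
    rw [← (hN5 ξ hξ).2.1, hgξ, (hN5 ζ hN2).2.1]
  choose! N hN1 hN2 hN3 using h1
  obtain ⟨t, ht1, ht2⟩ := hc.elim_nhds_subcover N fun ζ hζ => (hN1 ζ hζ).mem_nhds (hN2 ζ hζ)
  refine t.finite_toSet.subset fun ζ hζ => ?_
  obtain ⟨ξ, hξ1, hξ2⟩ := Set.mem_iUnion₂.mp (ht2 hζ)
  have h2 := hN3 ξ (ht1 ξ hξ1) ζ hξ2 (hζ.2.trans (ht1 ξ hξ1).2.symm)
  rw [h2]
  exact hξ1

theorem tauI_regular {m : ℕ} {V B : Set (Fin m → ℂ)} {g : (Fin m → ℂ) → (Fin m → ℂ)}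
    {h : (Fin m → ℂ) → ℂ} {y₀ : Fin m → ℂ} {R : ℝ} (hL : IsLoc V B g h y₀ R)
    {y : Fin m → ℂ} (hy : y ∈ Metric.ball y₀ R)
    (hreg : ∀ ζ ∈ B, g ζ = y → (Jac g ζ).det ≠ 0) :
    ∃ s₁ > 0, ∀ (s : ℝ) (ρ : (Fin m → ℂ) → ℝ), IsRad s ρ → s < s₁ →
      tauI B g h ρ y = ∑ᶠ ζ ∈ {ζ | ζ ∈ B ∧ g ζ = y}, h ζ := by
  classical
  have hfin := fibre_finite_loc hL hy hreg
  obtain ⟨U, hU1, hU2⟩ := hfin.t2_separation
  have hBV : ∀ ζ ∈ B, ζ ∈ V := fun ζ hζ => hL.sub (subset_closure hζ)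
  -- local inverses
  have h1 : ∀ ζ ∈ {ζ | ζ ∈ B ∧ g ζ = y}, ∃ (N W : Set (Fin m → ℂ))
      (H : (Fin m → ℂ) → (Fin m → ℂ)), IsOpen N ∧ ζ ∈ N ∧ N ⊆ B ∩ U ζ ∧ IsOpen W ∧
      (∀ n ∈ N, g n ∈ W ∧ H (g n) = n ∧ ContDiffAt ℂ 1 g n ∧
        Function.Injective (fderiv ℂ g n)) ∧
      (∀ x ∈ W, H x ∈ N ∧ g (H x) = x ∧ ContDiffAt ℂ 1 H x ∧
        ∀ e, fderiv ℂ H x (fderiv ℂ g (H x) e) = e) := by
    rintro ζ ⟨hζ, hgζ⟩
    have hC : ContDiffAt ℂ 1 g ζ :=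
      (hL.gC.contDiffAt (hL.opnV.mem_nhds (hBV ζ hζ))).of_le (by norm_num)
    exact inverse_general g ζ hC (bij_of_det (hreg ζ hζ hgζ)) (B ∩ U ζ)
      (Filter.inter_mem (hL.opnB.mem_nhds hζ) ((hU1 ζ).2.mem_nhds (hU1 ζ).1))
  choose! N W H hNo hNm hNs hWo hNW hWN using h1
  -- a common radius in the images
  have h2 : ∃ r > 0, ∀ ζ ∈ {ζ | ζ ∈ B ∧ g ζ = y}, Metric.ball y r ⊆ W ζ := by
    have h3 : ∀ ζ ∈ {ζ | ζ ∈ B ∧ g ζ = y}, W ζ ∈ nhds y := by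
      intro ζ hζ
      refine (hWo ζ hζ).mem_nhds ?_
      have h4 := (hNW ζ hζ ζ (hNm ζ hζ)).1
      rwa [hζ.2] at h4
    have h5 : (⋂ ζ ∈ {ζ | ζ ∈ B ∧ g ζ = y}, W ζ) ∈ nhds y := (Filter.biInter_mem hfin).mpr h3
    obtain ⟨r, hr, hr2⟩ := Metric.mem_nhds_iff.mp h5
    refine ⟨r, hr, fun ζ hζ => hr2.trans ?_⟩
    exact Set.biInter_subset_of_mem hζ
  obtain ⟨r₁, hr₁, hball⟩ := h2
  -- away from the fibre
  have h3 : ∃ r > 0, ∀ ξ ∈ closure B, (∀ ζ ∈ {ζ | ζ ∈ B ∧ g ζ = y}, ξ ∉ N ζ) → r ≤ ‖y - g ξ‖ := by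
    set K : Set (Fin m → ℂ) := closure B \ ⋃ ζ ∈ {ζ | ζ ∈ B ∧ g ζ = y}, N ζ with hK
    have hKc : IsCompact K :=
      hL.cptB.diff (isOpen_biUnion fun ζ hζ => hNo ζ hζ)
    have hgK : IsCompact (g '' K) := hKc.image_of_continuousOn (hL.g_cont.mono Set.diff_subset)
    have hyK : y ∉ g '' K := by
      rintro ⟨ξ, hξ, hgξ⟩
      by_cases hξB : ξ ∈ B
      · exact hξ.2 (Set.mem_iUnion₂.mpr ⟨ξ, ⟨hξB, hgξ⟩, hNm ξ ⟨hξB, hgξ⟩⟩)
      · refine hL.front ξ ?_ ?_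
        · rw [frontier, hL.opnB.interior_eq]
          exact ⟨hξ.1, hξB⟩
        · rw [hgξ]
          exact Metric.ball_subset_ball (by linarith [hL.Rpos]) hy
    obtain ⟨r, hr, hr2⟩ := Metric.mem_nhds_iff.mp (hgK.isClosed.isOpen_compl.mem_nhds hyK)
    refine ⟨r, hr, fun ξ hξ hN => ?_⟩
    by_contra hcon
    rw [not_le] at hcon
    have h4 : g ξ ∈ Metric.ball y r := by
      rw [Metric.mem_ball, dist_eq_norm, norm_sub_rev]
      exact hcon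
    refine hr2 h4 ⟨ξ, ⟨hξ, ?_⟩, rfl⟩
    intro h5
    obtain ⟨ζ, hζ1, hζ2⟩ := Set.mem_iUnion₂.mp h5
    exact hN ζ hζ1 hζ2
  obtain ⟨r₂, hr₂, haway⟩ := h3
  refine ⟨min r₁ r₂, lt_min hr₁ hr₂, fun s ρ hρ hs => ?_⟩
  have hs1 : s < r₁ := hs.trans_le (min_le_left _ _)
  have hs2 : s < r₂ := hs.trans_le (min_le_right _ _)
  rw [finsum_mem_eq_finite_toFinset_sum _ hfin]
  set t := hfin.toFinset with ht
  have htm : ∀ ζ, ζ ∈ t ↔ ζ ∈ {ζ | ζ ∈ B ∧ g ζ = y} := fun ζ => hfin.mem_toFinset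
  set f : (Fin m → ℂ) → ℂ := fun ζ =>
    h ζ * (ρ (y - g ζ) : ℂ) * ((‖(Jac g ζ).det‖ ^ 2 : ℝ) : ℂ) with hf
  have hfc : ContinuousOn f (closure B) := by
    have h4 : ContinuousOn (fun ζ => (h ζ * ((‖(Jac g ζ).det‖ ^ 2 : ℝ) : ℂ)) *
        (ρ (y - g ζ) : ℂ)) (closure B) :=
      hL.weight_cont.mul (Complex.continuous_ofReal.comp_continuousOn
        (hρ.smooth.continuous.comp_continuousOn (continuousOn_const.sub hL.g_cont)))
    exact h4.congr fun ζ _ => by simp only [hf]; ring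
  have hmeasB : MeasurableSet B := hL.opnB.measurableSet
  have hsubB : (⋃ ζ ∈ t, N ζ) ⊆ B := by
    intro ξ hξ
    obtain ⟨ζ, hζ1, hζ2⟩ := Set.mem_iUnion₂.mp hξ
    exact (hNs ζ ((htm ζ).mp hζ1) hζ2).1
  have e1 : tauI B g h ρ y = ∫ ζ in ⋃ ζ ∈ t, N ζ, f ζ := by
    unfold tauI
    refine setIntegral_eq_of_subset_of_forall_sdiff_eq_zero hmeasB hsubB ?_
    rintro ξ ⟨hξB, hξN⟩
    have h5 : r₂ ≤ ‖y - g ξ‖ := by
      refine haway ξ (subset_closure hξB) fun ζ hζ hξζ => hξN ?_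
      exact Set.mem_iUnion₂.mpr ⟨ζ, (htm ζ).mpr hζ, hξζ⟩
    rw [hρ.supp (y - g ξ) (by linarith), Complex.ofReal_zero, mul_zero, zero_mul]
  rw [e1, integral_biUnion_finset]
  · refine Finset.sum_congr rfl fun ζ hζt => ?_
    have hζ := (htm ζ).mp hζt
    have hinj : Set.InjOn g (N ζ) := by
      intro a ha b hb hab
      rw [← (hNW ζ hζ a ha).2.1, hab, (hNW ζ hζ b hb).2.1]
    have himg : g '' (N ζ) = W ζ := by
      ext x
      constructor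
      · rintro ⟨a, ha, rfl⟩
        exact (hNW ζ hζ a ha).1
      · intro hx
        exact ⟨H ζ x, (hWN ζ hζ x hx).1, (hWN ζ hζ x hx).2.1⟩
    have hcv := integral_image_eq_integral_abs_det_fderiv_smul
      (volume : Measure (Fin m → ℂ)) (hNo ζ hζ).measurableSet
      (f' := fun x => (fderiv ℂ g x).restrictScalars ℝ)
      (fun x hx => (((hNW ζ hζ x hx).2.2.1.differentiableAt
        (by norm_num)).hasFDerivAt.restrictScalars ℝ).hasFDerivWithinAt) hinj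
      (fun x => h (H ζ x) * (ρ (y - x) : ℂ))
    have e2 : ∫ ξ in N ζ, f ξ = ∫ x in W ζ, h (H ζ x) * (ρ (y - x) : ℂ) := by
      rw [← himg, hcv]
      refine setIntegral_congr_fun (hNo ζ hζ).measurableSet fun ξ hξ => ?_
      simp only [hf]
      rw [det_real, det_jac, (hNW ζ hζ ξ hξ).2.1, Complex.real_smul]
      ring
    have e3 : ∫ x in W ζ, h (H ζ x) * (ρ (y - x) : ℂ) = ∫ x, h (H ζ x) * (ρ (y - x) : ℂ) := by
      refine setIntegral_eq_integral_of_forall_compl_eq_zero fun x hx => ?_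
      have h5 : r₁ ≤ ‖y - x‖ := by
        by_contra hcon
        rw [not_le] at hcon
        refine hx (hball ζ hζ ?_)
        rw [Metric.mem_ball, dist_eq_norm, norm_sub_rev]
        exact hcon
      rw [hρ.supp (y - x) (by linarith), Complex.ofReal_zero, mul_zero]
    have e4 : ∫ x, h (H ζ x) * (ρ (y - x) : ℂ) = ∫ w, h (H ζ (y - w)) * (ρ w : ℂ) := by
      have h5 := integral_sub_left_eq_self (fun x => h (H ζ x) * (ρ (y - x) : ℂ))
        (volume : Measure (Fin m → ℂ)) y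
      rw [← h5]
      refine integral_congr_ae (Filter.Eventually.of_forall fun w => ?_)
      simp only [sub_sub_cancel]
    have e5 : ∫ w, h (H ζ (y - w)) * (ρ w : ℂ) = h (H ζ y) := by
      refine radial_mean (F := fun x => h (H ζ x)) hρ hs1 ?_
      intro x hx
      have hxW := hball ζ hζ hx
      have h5 : DifferentiableAt ℂ h (H ζ x) :=
        (hL.hC.contDiffAt (hL.opnV.mem_nhds
          (hBV _ (hNs ζ hζ (hWN ζ hζ x hxW).1).1))).differentiableAt (by norm_num)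
      have h6 : DifferentiableAt ℂ (H ζ) x :=
        (hWN ζ hζ x hxW).2.2.1.differentiableAt (by norm_num)
      exact (DifferentiableAt.comp x h5 h6).differentiableWithinAt
    have e6 : H ζ y = ζ := by
      have h5 := (hNW ζ hζ ζ (hNm ζ hζ)).2.1
      rwa [hζ.2] at h5
    rw [e2, e3, e4, e5, e6]
  · intro ζ hζ
    exact (hNo ζ ((htm ζ).mp hζ)).measurableSet
  · intro a ha b hb hab
    have ha' := (htm a).mp ha
    have hb' := (htm b).mp hb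
    exact (hU2 ha' hb' hab).mono (fun x hx => (hNs a ha' hx).2) (fun x hx => (hNs b hb' hx).2)
  · intro ζ hζ
    have hζ' := (htm ζ).mp hζ
    exact (hfc.integrableOn_compact hL.cptB).mono_set
      fun x hx => subset_closure (hNs ζ hζ' hx).1

end Pool.Agent.MP_fe3720.BB
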