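import Pool.Agent.Work.MP_fe3720_an.B.LocTrB
import Pool.Agent.Work.MP_fe3720_an.B.LocTrC

/-! # Module LocTr: local traces

Take `τ = tauI B g h ρ` for a radial `ρ` of radius `R/4` (`exists_radial`): holomorphic on `ball y₀ R` (`tauI_hol`). At a
regular value `y ∈ ball y₀ (R/2)`: let `s₁` be from `tauI_regular` and `ρ'` radial of radius `min (s₁/2) (R/4)`; then
`tauI B g h ρ y = tauI B g h ρ' y` (`tauI_indep`), which is the sum over the fibre. -/

namespace Pool.Agent.MP_fe3720.BB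

theorem loc_trace {m : ℕ} {V B : Set (Fin m → ℂ)} {g : (Fin m → ℂ) → (Fin m → ℂ)}
    {h : (Fin m → ℂ) → ℂ} {y₀ : Fin m → ℂ} {R : ℝ} (hL : IsLoc V B g h y₀ R) :
    ∃ τ : (Fin m → ℂ) → ℂ, DifferentiableOn ℂ τ (Metric.ball y₀ (R / 2)) ∧
      ∀ y ∈ Metric.ball y₀ (R / 2), (∀ ζ ∈ B, g ζ = y → (Jac g ζ).det ≠ 0) →
        τ y = ∑ᶠ ζ ∈ {ζ | ζ ∈ B ∧ g ζ = y}, h ζ := by
  have hR := hL.Rpos
  obtain ⟨ρ, hρ⟩ := exists_radial m (s := R / 4) (by linarith)
  refine ⟨tauI B g h ρ, ?_, fun y hy hreg => ?_⟩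
  · exact (tauI_hol hL hρ.smooth fun w hw => hρ.supp w (by linarith)).mono
      (Metric.ball_subset_ball (by linarith))
  · have hy' : y ∈ Metric.ball y₀ R := Metric.ball_subset_ball (by linarith) hy
    obtain ⟨s₁, hs₁, H⟩ := tauI_regular hL hy' hreg
    obtain ⟨ρ', hρ'⟩ := exists_radial m (s := min (s₁ / 2) (R / 4))
      (lt_min (by linarith) (by linarith))
    have h1 : min (s₁ / 2) (R / 4) < s₁ := (min_le_left _ _).trans_lt (by linarith)
    have h2 : min (s₁ / 2) (R / 4) < R / 2 := (min_le_right _ _).trans_lt (by linarith)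
    rw [tauI_indep hL hρ hρ' (by linarith) h2 hy]
    exact H _ ρ' hρ' h1

end Pool.Agent.MP_fe3720.BB
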