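import Pool.Agent.Work.MP_fe3720_an.Wei

/-! # Module SmoothH: holomorphic `C¹` functions of several variables are `C²`

`F : (Fin m → ℂ) → ℂ`, `C¹` over `ℂ` on the open set `V`. For a fixed vector `w` the function `z ↦ fderiv ℂ F z w` is
`C¹` near each `z₀ ∈ V`: choose `r > 0` with `closedBall z₀ (2 r) ⊆ V` and (scaling `w`, `‖w‖ ≤ 1`); for `z` near `z₀`,
`t ↦ F (z + t w)` is holomorphic near the closed disc of radius `r`, so
`fderiv ℂ F z w = deriv (t ↦ F (z + t w)) 0 = (2 π i)⁻¹ ∮ t in C(0, r), F (z + t w) / t²`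
(`Complex.deriv_eq_smul_circleIntegral` or `two_pi_I_inv_smul_circleIntegral_…` / `circleIntegral` formula), and the right
hand side is `C¹` in `z` (differentiation under the integral sign of a continuously differentiable function of
parameters over a compact interval: `hasFDerivAt_integral_of_dominated_of_fderiv_le` /
`intervalIntegral.hasFDerivAt_integral_of_dominated_of_fderiv_le`, continuity of the derivative by
`intervalIntegral.continuous_parametric…` or `continuous_parametric_intervalIntegral_of_continuous`). Alternatively prove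
differentiability of `z ↦ fderiv ℂ F z w` and continuity of its derivative by Cauchy's estimates
(`cauchy_fderiv`, `wei` in Wei.lean: the difference quotients `(F (z + t w) - F z)/t` are `C¹` and converge locally
uniformly to `fderiv ℂ F z w` when `t → 0`; `wei` then gives that the limit is `C¹`. This is the shortest way: import
`Pool.Agent.Work.MP_fe3720_an.Wei`.) Then `fderiv ℂ F` is `C¹` (finite dimension: apply to the basis vectors), and
`contDiffOn_succ_iff_fderiv_of_isOpen`. -/

namespace Pool.Agent.MP_fe3720.BB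

open Topology

private theorem fderiv_c1 {m : ℕ} {V : Set (Fin m → ℂ)} (hV : IsOpen V)
    {F : (Fin m → ℂ) → ℂ} (hF : ContDiffOn ℂ 1 F V) (w : Fin m → ℂ) :
    ContDiffOn ℂ 1 (fun z => fderiv ℂ F z w) V := by
  intro z₀ hz₀
  obtain ⟨R, hR, hball⟩ := Metric.isOpen_iff.mp hV z₀ hz₀
  set r := R / 3 with hr
  have hrpos : 0 < r := by positivity
  have hsub : Metric.closedBall z₀ (2 * r) ⊆ V := fun y hy => hball (by
    rw [Metric.mem_closedBall] at hy
    rw [Metric.mem_ball]
    have : 2 * r < R := by rw [hr]; linarith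
    linarith)
  have hfc : ContinuousOn (fderiv ℂ F) V := hF.continuousOn_fderiv_of_isOpen hV le_rfl
  have hd : ∀ z ∈ V, DifferentiableAt ℂ F z := fun z hz =>
    (hF.contDiffAt (hV.mem_nhds hz)).differentiableAt (by norm_num)
  have huc := (isCompact_closedBall z₀ (2 * r)).uniformContinuousOn_of_continuous (hfc.mono hsub)
  rw [Metric.uniformContinuousOn_iff] at huc
  have hloc : ContDiffOn ℂ 1 (fun z => fderiv ℂ F z w) (Metric.ball z₀ r) := by
    refine wei Metric.isOpen_ball _ fun K hK _ ε hε => ?_
    obtain ⟨δ, hδ, h1⟩ := huc (ε / (2 * (‖w‖ + 1))) (by positivity)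
    set t : ℝ := min r (δ / 2) / (‖w‖ + 1) with ht
    have htpos : 0 < t := by positivity
    have htw : t * ‖w‖ ≤ min r (δ / 2) := by
      have h2 : t * (‖w‖ + 1) = min r (δ / 2) := by
        rw [ht]; field_simp
      nlinarith
    have htr : t * ‖w‖ ≤ r := htw.trans (min_le_left _ _)
    have htδ : t * ‖w‖ < δ := (htw.trans (min_le_right _ _)).trans_lt (by linarith)
    have hnt : ‖(t : ℂ) • w‖ = t * ‖w‖ := by
      rw [norm_smul, Complex.norm_of_nonneg htpos.le]
    have hmem : ∀ z ∈ Metric.ball z₀ r, ∀ y ∈ Metric.closedBall z (t * ‖w‖),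
        y ∈ Metric.closedBall z₀ (2 * r) := by
      intro z hz y hy
      rw [Metric.mem_ball] at hz
      rw [Metric.mem_closedBall] at hy ⊢
      have := dist_triangle y z z₀
      linarith
    refine ⟨fun z => (t : ℂ)⁻¹ * (F (z + (t : ℂ) • w) - F z), ?_, fun z hz => ?_⟩
    · have h3 : ContDiffOn ℂ 1 (fun z => F (z + (t : ℂ) • w)) (Metric.ball z₀ r) := by
        refine hF.comp (contDiff_id.add contDiff_const).contDiffOn fun z hz => ?_
        refine hsub (hmem z hz _ ?_)
        rw [Metric.mem_closedBall, dist_eq_norm]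
        simp only [id, add_sub_cancel_left]
        rw [hnt]
      refine contDiffOn_const.mul (h3.sub (hF.mono fun z hz => hsub ?_))
      exact hmem z hz z (Metric.mem_closedBall_self (by positivity))
    · have hzb := hK hz
      have h4 := Convex.norm_image_sub_le_of_norm_fderiv_le' (𝕜 := ℂ) (f := F)
        (C := ε / (2 * (‖w‖ + 1))) (s := Metric.closedBall z (t * ‖w‖)) (x := z)
        (y := z + (t : ℂ) • w) (φ := fderiv ℂ F z)
        (fun y hy => hd y (hsub (hmem z hzb y hy)))
        (fun y hy => by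
          have h5 := h1 y (hmem z hzb y hy) z
            (hmem z hzb z (Metric.mem_closedBall_self (by positivity)))
            (lt_of_le_of_lt (Metric.mem_closedBall.mp hy) htδ)
          rw [dist_eq_norm] at h5
          exact h5.le)
        (convex_closedBall _ _) (Metric.mem_closedBall_self (by positivity)) (by
          rw [Metric.mem_closedBall, dist_eq_norm, add_sub_cancel_left, hnt])
      rw [add_sub_cancel_left, hnt, map_smul] at h4
      have htne : (t : ℂ) ≠ 0 := by exact_mod_cast htpos.ne'
      have h6 : fderiv ℂ F z w - (t : ℂ)⁻¹ * (F (z + (t : ℂ) • w) - F z) =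
          -((t : ℂ)⁻¹ * (F (z + (t : ℂ) • w) - F z - (t : ℂ) • fderiv ℂ F z w)) := by
        rw [smul_eq_mul]
        field_simp
        ring
      rw [h6, norm_neg, norm_mul, norm_inv, Complex.norm_of_nonneg htpos.le]
      calc t⁻¹ * ‖F (z + (t : ℂ) • w) - F z - (t : ℂ) • fderiv ℂ F z w‖
          ≤ t⁻¹ * (ε / (2 * (‖w‖ + 1)) * (t * ‖w‖)) := by gcongr
        _ = ε / 2 * (‖w‖ / (‖w‖ + 1)) := by field_simp
        _ ≤ ε / 2 * 1 := by
            gcongr
            rw [div_le_one (by positivity)]
            linarith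
        _ < ε := by linarith
  exact (hloc.contDiffAt (Metric.ball_mem_nhds z₀ hrpos)).contDiffWithinAt

theorem contDiffOn_two {m k : ℕ} {V : Set (Fin m → ℂ)} (hV : IsOpen V)
    {F : (Fin m → ℂ) → (Fin k → ℂ)} (hF : ContDiffOn ℂ 1 F V) : ContDiffOn ℂ 2 F V := by
  rw [contDiffOn_pi] at hF ⊢
  intro i
  have h1 : ContDiffOn ℂ 1 (fderiv ℂ fun x => F x i) V := by
    rw [contDiffOn_clm_apply]
    exact fun w => fderiv_c1 hV (hF i) w
  rw [show (2 : WithTop ℕ∞) = 1 + 1 by norm_num, contDiffOn_succ_iff_fderiv_of_isOpen hV]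
  refine ⟨(hF i).differentiableOn (by norm_num), by simp, h1⟩

theorem contDiffOn_two' {m : ℕ} {V : Set (Fin m → ℂ)} (hV : IsOpen V)
    {F : (Fin m → ℂ) → ℂ} (hF : ContDiffOn ℂ 1 F V) : ContDiffOn ℂ 2 F V := by
  have h1 : ContDiffOn ℂ 1 (fun z (_ : Fin 1) => F z) V := contDiffOn_pi.mpr fun _ => hF
  exact (contDiffOn_pi.mp (contDiffOn_two hV h1)) 0

end Pool.Agent.MP_fe3720.BB
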