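import Mathlib

/-! # Module TdCov: covering a totally disconnected compact set by small disjoint open sets

`F` compact, all preconnected subsets of `F` are subsingletons, so the subspace `F` is a compact totally disconnected
space, and its clopen sets form a basis (`compact_t2_tot_disc_iff_tot_sep`, `isTopologicalBasis_isClopen` /
`compact_exists_isClopen_in_isOpen`). For each `x ∈ F` take a clopen subset `F_x ∋ x` of `F` contained in `N x`. Finitely
many `F_{x 1}, …, F_{x p}` cover `F`; disjointify: `F'_i = F_{x i} \ ⋃_{j<i} F_{x j}`, clopen in `F`, so compact, pairwise disjoint,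
`F'_i ⊆ N (x i)`. Pairwise disjoint compact sets have pairwise disjoint open neighbourhoods `B_i ⊇ F'_i` with compact closure
contained in `N (x i)`, of the form `thickening ε (F'_i)` with `ε` small (`IsCompact.exists_thickening_subset_open`,
`Disjoint.exists_thickenings`…). `frontier B_i ∩ F = ∅`: the points of `F ∩ closure B_i` are in `F'_i` if `ε` is small enough that the
closed thickenings are pairwise disjoint, and `F'_i ⊆ B_i` open. -/

namespace Pool.Agent.MP_fe3720.BB

open Topology

theorem td_cover {X : Type} [MetricSpace X] [ProperSpace X] {F : Set X} (hF : IsCompact F)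
    (htd : ∀ C ⊆ F, IsPreconnected C → C.Subsingleton) (N : X → Set X)
    (hN : ∀ x ∈ F, IsOpen (N x) ∧ x ∈ N x) :
    ∃ (p : ℕ) (B : Fin p → Set X) (x : Fin p → X), (∀ i, IsOpen (B i)) ∧ (∀ i, x i ∈ F) ∧
      (∀ i, IsCompact (closure (B i))) ∧ (∀ i, closure (B i) ⊆ N (x i)) ∧
      (∀ i, Disjoint (frontier (B i)) F) ∧ (F ⊆ ⋃ i, B i) ∧
      Pairwise (fun i j => Disjoint (B i) (B j)) := by
  classical
  have hcs : CompactSpace F := isCompact_iff_compactSpace.mp hF
  have htds : TotallyDisconnectedSpace F := totallyDisconnectedSpace_subtype_iff.mpr htd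
  -- clopen neighbourhoods
  have h1 : ∀ x : F, ∃ C : Set F, IsClopen C ∧ x ∈ C ∧ C ⊆ Subtype.val ⁻¹' (N x) := fun x =>
    compact_exists_isClopen_in_isOpen ((hN x x.2).1.preimage continuous_subtype_val) (hN x x.2).2
  choose C hC1 hC2 hC3 using h1
  obtain ⟨t, ht⟩ := isCompact_univ.elim_nhds_subcover C
    (fun x _ => (hC1 x).isOpen.mem_nhds (hC2 x))
  obtain ⟨e⟩ : Nonempty (Fin t.card ≃ t) :=
    ⟨(Fintype.equivFinOfCardEq (by simp)).symm⟩
  -- disjoint pieces
  set D : Fin t.card → Set F := fun i => C (e i) ∩ ⋂ j : Fin t.card, ⋂ _ : j < i, (C (e j))ᶜ with hD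
  have hDclosed : ∀ i, IsClosed (D i) := fun i =>
    (hC1 _).isClosed.inter (isClosed_iInter fun j => isClosed_iInter fun _ =>
      (hC1 _).isOpen.isClosed_compl)
  have hDcover : ∀ z : F, ∃ i, z ∈ D i := by
    intro z
    have h2 : ∃ i, z ∈ C (e i) := by
      obtain ⟨x, hx1, hx2⟩ := Set.mem_iUnion₂.mp (ht.2 (Set.mem_univ z))
      exact ⟨e.symm ⟨x, hx1⟩, by simpa using hx2⟩
    obtain ⟨i, hi, hmin⟩ := Finset.exists_min_image
      (Finset.univ.filter fun i => z ∈ C (e i)) (fun i => i)
      (by obtain ⟨i, hi⟩ := h2; exact ⟨i, by simpa using hi⟩)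
    refine ⟨i, (Finset.mem_filter.mp hi).2, ?_⟩
    rw [Set.mem_iInter₂]
    intro j hj hz
    exact absurd hj (not_lt.mpr (hmin j (by simpa using hz)))
  have hDdisj : ∀ i j, i ≠ j → Disjoint (D i) (D j) := by
    intro i j hij
    rw [Set.disjoint_left]
    intro z hi hj
    rcases lt_or_gt_of_ne hij with h2 | h2
    · exact (Set.mem_iInter₂.mp hj.2 i h2) hi.1
    · exact (Set.mem_iInter₂.mp hi.2 j h2) hj.1
  set K : Fin t.card → Set X := fun i => Subtype.val '' D i with hK
  have hKc : ∀ i, IsCompact (K i) := fun i =>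
    (hDclosed i).isCompact.image continuous_subtype_val
  have hKF : ∀ i, K i ⊆ F := by
    rintro i _ ⟨z, _, rfl⟩
    exact z.2
  have hKN : ∀ i, K i ⊆ N (e i : F) := by
    rintro i _ ⟨z, hz, rfl⟩
    exact hC3 _ hz.1
  have hKdisj : ∀ i j, i ≠ j → Disjoint (K i) (K j) := by
    intro i j hij
    rw [Set.disjoint_left]
    rintro _ ⟨z, hz, rfl⟩ ⟨z', hz', hzz⟩
    have h2 : z' = z := Subtype.ext hzz
    subst h2
    exact Set.disjoint_left.mp (hDdisj i j hij) hz hz'
  have hKcover : ∀ z ∈ F, ∃ i, z ∈ K i := by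
    intro z hz
    obtain ⟨i, hi⟩ := hDcover ⟨z, hz⟩
    exact ⟨i, ⟨z, hz⟩, hi, rfl⟩
  -- the radius
  have hε : ∃ ε : ℝ, 0 < ε ∧ (∀ i, Metric.cthickening ε (K i) ⊆ N (e i : F)) ∧
      ∀ i j, i ≠ j → Disjoint (Metric.cthickening ε (K i)) (Metric.cthickening ε (K j)) := by
    have a1 : ∀ i, ∀ᶠ ε in nhdsWithin (0 : ℝ) (Set.Ioi 0),
        Metric.cthickening ε (K i) ⊆ N (e i : F) := by
      intro i
      obtain ⟨δ, hδ, h2⟩ := (hKc i).exists_cthickening_subset_open (hN _ (e i : F).2).1 (hKN i)
      filter_upwards [Ioo_mem_nhdsGT hδ] with ε hε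
      exact (Metric.cthickening_mono hε.2.le _).trans h2
    have a2 : ∀ i j, i ≠ j → ∀ᶠ ε in nhdsWithin (0 : ℝ) (Set.Ioi 0),
        Disjoint (Metric.cthickening ε (K i)) (Metric.cthickening ε (K j)) := by
      intro i j hij
      obtain ⟨δ, hδ, h2⟩ := (hKdisj i j hij).exists_cthickenings (hKc i) (hKc j).isClosed
      filter_upwards [Ioo_mem_nhdsGT hδ] with ε hε
      exact h2.mono (Metric.cthickening_mono hε.2.le _) (Metric.cthickening_mono hε.2.le _)
    have a3 : ∀ᶠ ε in nhdsWithin (0 : ℝ) (Set.Ioi 0),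
        (∀ i, Metric.cthickening ε (K i) ⊆ N (e i : F)) ∧
        ∀ i j, i ≠ j → Disjoint (Metric.cthickening ε (K i)) (Metric.cthickening ε (K j)) := by
      refine (Filter.eventually_all.mpr a1).and ?_
      refine Filter.eventually_all.mpr fun i => Filter.eventually_all.mpr fun j => ?_
      by_cases hij : i = j
      · exact Filter.Eventually.of_forall fun ε h2 => absurd hij h2
      · filter_upwards [a2 i j hij] with ε h2 _ using h2
    obtain ⟨ε, h2, h3⟩ := (a3.and self_mem_nhdsWithin).exists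
    exact ⟨ε, h3, h2.1, h2.2⟩
  obtain ⟨ε, hεpos, hε1, hε2⟩ := hε
  have hcl : ∀ i, closure (Metric.thickening ε (K i)) ⊆ Metric.cthickening ε (K i) := fun i =>
    Metric.closure_thickening_subset_cthickening ε (K i)
  refine ⟨t.card, fun i => Metric.thickening ε (K i), fun i => ((e i : F) : X),
    fun i => Metric.isOpen_thickening, fun i => (e i : F).2, fun i => ?_, fun i => ?_,
    fun i => ?_, ?_, ?_⟩
  · exact ((hKc i).cthickening).of_isClosed_subset isClosed_closure (hcl i)
  · exact (hcl i).trans (hε1 i)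
  · rw [Set.disjoint_left]
    intro z hz hzF
    obtain ⟨j, hj⟩ := hKcover z hzF
    by_cases hij : i = j
    · subst hij
      have h2 : z ∈ Metric.thickening ε (K i) := Metric.self_subset_thickening hεpos _ hj
      rw [frontier, Metric.isOpen_thickening.interior_eq] at hz
      exact hz.2 h2
    · exact Set.disjoint_left.mp (hε2 i j hij) (hcl i (frontier_subset_closure hz))
        (Metric.self_subset_cthickening _ hj)
  · intro z hz
    obtain ⟨i, hi⟩ := hKcover z hz
    exact Set.mem_iUnion.mpr ⟨i, Metric.self_subset_thickening hεpos _ hi⟩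
  · intro i j hij
    exact (hε2 i j hij).mono (Metric.thickening_subset_cthickening _ _)
      (Metric.thickening_subset_cthickening _ _)

end Pool.Agent.MP_fe3720.BB
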