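import Pool.Agent.Work.MP_fe3720_an.B.FibC
import Pool.Agent.Work.MP_fe3720_an.B.LocTr
import Pool.Agent.Work.MP_fe3720_an.B.SmoothH
import Pool.Agent.Work.MP_fe3720_an.B.DetR
import Pool.Agent.Work.MP_fe3720_an.B.TdCov

/-! # Module GlobTr: the global trace

* `glue_hol`: let `D ⊆ ball 0 1` be such that every nonempty open subset of `ball 0 1` meets `D`, and `T` a function. If
  every `y₀ ∈ ball 0 1` has a ball on which there is a holomorphic function agreeing with `T` at the points of `D`, then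
  there is one holomorphic function on `ball 0 1` agreeing with `T` on `D`: for `y₀` let `(r, τ_{y₀})` be chosen, put
  `τ y = τ_y y`; for `y` near `y₀`, `τ_y` and `τ_{y₀}` are continuous near `y` and agree on `D`, dense near `y`, so
  `τ_y y = τ_{y₀} y`: `τ = τ_{y₀}` near `y₀`, differentiable.
* `trace_local`: let `y₀ ∈ ball 0 1`. For `x ∈ fib U β y₀` let `q_x, κ_x, V_x` be a chart and `N x = κ_x '' V_x ∩ U`. Let
  `B i, x i` be from `td_cover` (`F = fib U β y₀`). Put `g_i y = (β j (κ y))_j` (chart of `x i`),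
  `B'_i = {y ∈ V | κ y ∈ B i}`: it is the image of `B i` under `q` (a homeomorphism of `κ '' V` onto `V`), open, its closure is
  the image of `closure (B i)`, compact and contained in `V`; its frontier is mapped by `κ` into `frontier (B i)`, disjoint from
  `fib U β y₀`, so `g_i ≠ y₀` on the compact `frontier B'_i`: there is `R > 0` with `g_i ∉ ball y₀ (2R)` there (the same for
  all `i`). `IsLoc V B'_i g_i (h ∘ κ) y₀ R` (`contDiffOn_two` for `g_i`, from `IsChart.smooth`). `loc_trace` gives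
  `τ_i` on `ball y₀ (R/2)`. Let `r ≤ R/2` be such that `fib U β y ⊆ ⋃ B i` for `y ∈ ball y₀ r` (`fib_near`), and
  `ball y₀ r ⊆ ball 0 1`. For `y ∈ ball y₀ r`, `y ∉ crit U β`: the fibre is the disjoint union of the
  `fib U β y ∩ B i = κ '' {ζ ∈ B'_i | g_i ζ = y}`, all points regular (`reg_iff`, `det_jac`), so
  `∑ i, τ_i y = ∑ᶠ x ∈ fib U β y, h x`.
* `glob_trace`: `glue_hol` with `D = ball 0 1 \ crit U β` (`crit_null`: open sets have positive measure). -/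

namespace Pool.Agent.MP_fe3720.BB

open Topology RR Filter MeasureTheory

theorem glue_hol {m : ℕ} {D : Set (Fin m → ℂ)} (T : (Fin m → ℂ) → ℂ)
    (hD : ∀ W ⊆ Metric.ball (0 : Fin m → ℂ) 1, IsOpen W → W.Nonempty → ∃ y ∈ W, y ∈ D)
    (h : ∀ y₀ ∈ Metric.ball (0 : Fin m → ℂ) 1, ∃ r > 0, ∃ τ : (Fin m → ℂ) → ℂ,
      DifferentiableOn ℂ τ (Metric.ball y₀ r) ∧ ∀ y ∈ Metric.ball y₀ r, y ∈ D → τ y = T y) :
    ∃ τ : (Fin m → ℂ) → ℂ, DifferentiableOn ℂ τ (Metric.ball 0 1) ∧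
      ∀ y ∈ Metric.ball (0 : Fin m → ℂ) 1, y ∈ D → τ y = T y := by
  choose! r hr τ hτ1 hτ2 using h
  have key : ∀ y₀ ∈ Metric.ball (0 : Fin m → ℂ) 1, ∀ y ∈ Metric.ball (0 : Fin m → ℂ) 1,
      y ∈ Metric.ball y₀ (r y₀) → τ y y = τ y₀ y := by
    intro y₀ hy₀ y hy hyr
    by_contra hne
    set Ω := (Metric.ball y (r y) ∩ Metric.ball y₀ (r y₀)) ∩ Metric.ball (0 : Fin m → ℂ) 1 with hΩ
    have hΩo : IsOpen Ω := (Metric.isOpen_ball.inter Metric.isOpen_ball).inter Metric.isOpen_ball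
    have hc : ContinuousOn (fun z => τ y z - τ y₀ z) Ω :=
      ((hτ1 y hy).continuousOn.mono fun z hz => hz.1.1).sub
        ((hτ1 y₀ hy₀).continuousOn.mono fun z hz => hz.1.2)
    have hWo : IsOpen (Ω ∩ (fun z => τ y z - τ y₀ z) ⁻¹' {0}ᶜ) :=
      hc.isOpen_inter_preimage hΩo isOpen_compl_singleton
    obtain ⟨z, ⟨hzΩ, hz⟩, hzD⟩ := hD _ (fun z hz => hz.1.2) hWo
      ⟨y, ⟨⟨Metric.mem_ball_self (hr y hy), hyr⟩, hy⟩, fun h0 => hne (sub_eq_zero.mp h0)⟩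
    refine hz ?_
    show τ y z - τ y₀ z = 0
    rw [hτ2 y hy z hzΩ.1.1 hzD, hτ2 y₀ hy₀ z hzΩ.1.2 hzD, sub_self]
  refine ⟨fun y => τ y y, fun y₀ hy₀ => ?_, fun y hy hyD =>
    hτ2 y hy y (Metric.mem_ball_self (hr y hy)) hyD⟩
  have h1 : DifferentiableAt ℂ (τ y₀) y₀ :=
    (hτ1 y₀ hy₀).differentiableAt (Metric.ball_mem_nhds y₀ (hr y₀ hy₀))
  have h2 : (fun y => τ y y) =ᶠ[𝓝 y₀] τ y₀ := by
    filter_upwards [Metric.ball_mem_nhds y₀ (hr y₀ hy₀), Metric.isOpen_ball.mem_nhds hy₀] with y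
      h3 h4
    exact key y₀ hy₀ y h4 h3
  exact (h1.congr_of_eventuallyEq h2).differentiableWithinAt

variable {X : Type} [MetricSpace X] [ProperSpace X] [PreconnectedSpace X]
  {O : Subalgebra ℂ (X → ℂ)} {m N : ℕ} {G : Fin N → O}

/-- one piece of the fibre -/
theorem trace_piece (hS : SD0 m O G) {U : Set X} {β : Fin m → O} (h : O)
    {y₀ : Fin m → ℂ} {q : Fin m → O} {κ : (Fin m → ℂ) → X} {V : Set (Fin m → ℂ)}
    (hc : IsChart O q κ V) {B : Set X} (hBo : IsOpen B) (hBc : IsCompact (closure B))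
    (hBV : closure B ⊆ κ '' V ∩ U) (hfr : Disjoint (frontier B) (fib U β y₀)) :
    ∃ r > 0, ∃ τ : (Fin m → ℂ) → ℂ, DifferentiableOn ℂ τ (Metric.ball y₀ r) ∧
      ∀ y ∈ Metric.ball y₀ r, y ∉ crit U β → τ y = ∑ᶠ x ∈ fib U β y ∩ B, h x := by
  set g : (Fin m → ℂ) → (Fin m → ℂ) := fun y j => (β j) (κ y) with hg
  set B' : Set (Fin m → ℂ) := V ∩ κ ⁻¹' B with hB'
  have hB'o : IsOpen B' := hc.cont.isOpen_inter_preimage hc.opn hBo
  set C : Set (Fin m → ℂ) := (fun x j => (q j) x) '' closure B with hC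
  have hCc : IsCompact C := hBc.image (chart_q_cont hS.alg q)
  have hB'C : closure B' ⊆ C := by
    refine closure_minimal ?_ hCc.isClosed
    rintro y ⟨hyV, hyB⟩
    exact ⟨κ y, subset_closure hyB, chart_inv hc hyV⟩
  have hCV : C ⊆ V := by
    rintro _ ⟨x, hx, rfl⟩
    exact (chart_symm hc (hBV hx).1).1
  have hCκ : ∀ y ∈ C, κ y ∈ closure B := by
    rintro _ ⟨x, hx, rfl⟩
    have := (chart_symm hc (hBV hx).1).2
    rw [this]
    exact hx
  have hB'c : IsCompact (closure B') := hCc.of_isClosed_subset isClosed_closure hB'C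
  have hgC1 : ContDiffOn ℂ 1 g V := contDiffOn_pi.mpr fun j => hc.smooth (β j)
  have hfrne : ∀ ζ ∈ frontier B', g ζ ≠ y₀ := by
    intro ζ hζ heq
    rw [hB'o.frontier_eq] at hζ
    have h1 := hB'C hζ.1
    have h2 := hCκ ζ h1
    have h3 : κ ζ ∈ frontier B := by
      rw [hBo.frontier_eq]
      exact ⟨h2, fun h4 => hζ.2 ⟨hCV h1, h4⟩⟩
    exact (Set.disjoint_left.mp hfr h3) ⟨(hBV h2).2, fun i => congrFun heq i⟩
  have hKc : IsCompact (g '' frontier B') :=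
    (hB'c.of_isClosed_subset isClosed_frontier frontier_subset_closure).image_of_continuousOn
      (hgC1.continuousOn.mono fun ζ hζ => hCV (hB'C (frontier_subset_closure hζ)))
  obtain ⟨R, hR, hball⟩ := Metric.isOpen_iff.mp hKc.isClosed.isOpen_compl y₀ (by
    rintro ⟨ζ, hζ, heq⟩
    exact hfrne ζ hζ heq)
  have hloc : IsLoc V B' g (fun y => h (κ y)) y₀ (R / 2) :=
    { opnV := hc.opn
      gC := contDiffOn_two hc.opn hgC1
      hC := hc.smooth h
      opnB := hB'o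
      cptB := hB'c
      sub := hB'C.trans hCV
      Rpos := by positivity
      front := fun ζ hζ hmem => hball (by
        have : 2 * (R / 2) = R := by ring
        rwa [this] at hmem) ⟨ζ, hζ, rfl⟩ }
  obtain ⟨τ, hτ1, hτ2⟩ := loc_trace hloc
  refine ⟨R / 2 / 2, by positivity, τ, hτ1, fun y hy hyc => ?_⟩
  have hBsub : ∀ ζ ∈ B', κ ζ ∈ U := fun ζ hζ => (hBV (subset_closure hζ.2)).2
  rw [hτ2 y hy (fun ζ hζ heq => by
    rw [← det_jac]
    refine (reg_iff hS hc hζ.1 β).mp ?_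
    by_contra hreg
    exact hyc ⟨κ ζ, hBsub ζ hζ, fun i => congrFun heq i, hreg⟩)]
  have himg : fib U β y ∩ B = κ '' {ζ | ζ ∈ B' ∧ g ζ = y} := by
    ext x
    constructor
    · rintro ⟨hx1, hx2⟩
      obtain ⟨h3, h4⟩ := chart_symm hc (hBV (subset_closure hx2)).1
      refine ⟨fun j => (q j) x, ⟨⟨h3, ?_⟩, ?_⟩, h4⟩
      · show κ (fun j => (q j) x) ∈ B
        rw [h4]
        exact hx2
      · funext i
        show (β i) (κ fun j => (q j) x) = y i
        rw [h4]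
        exact hx1.2 i
    · rintro ⟨ζ, ⟨h3, h4⟩, rfl⟩
      exact ⟨⟨hBsub ζ h3, fun i => congrFun h4 i⟩, h3.2⟩
  rw [himg, finsum_mem_image]
  exact (chart_injOn hc).mono fun ζ hζ => hζ.1.1

theorem trace_local (hS : SD0 m O G) {U : Set X} {β : Fin m → O} (hP : SpecPoly U β) (h : O)
    {y₀ : Fin m → ℂ} (hy₀ : y₀ ∈ Metric.ball 0 1) :
    ∃ r > 0, ∃ τ : (Fin m → ℂ) → ℂ, DifferentiableOn ℂ τ (Metric.ball y₀ r) ∧
      ∀ y ∈ Metric.ball y₀ r, y ∉ crit U β → τ y = ∑ᶠ x ∈ fib U β y, h x := by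
  choose q κ V hc hV hκ using hS.charts
  obtain ⟨p, B, x, hBo, hxF, hBc, hBN, hBfr, hcov, hdisj⟩ := td_cover (fib_compact hS hP hy₀)
    (fib_td hP y₀) (fun x => κ x '' V x ∩ U) (fun x hx =>
      ⟨(hc x).img.inter hP.opn, ⟨_, hV x, hκ x⟩, hx.1⟩)
  choose r hr τ hτ1 hτ2 using fun i => trace_piece hS h (hc (x i)) (hBo i) (hBc i) (hBN i) (hBfr i)
  obtain ⟨r₁, hr₁, hnear⟩ := fib_near hS hP hy₀ (isOpen_iUnion hBo) hcov
  obtain ⟨r₂, hr₂, hball⟩ := Metric.isOpen_iff.mp (Metric.isOpen_ball (x := (0 : Fin m → ℂ))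
    (ε := 1)) y₀ hy₀
  obtain ⟨r₀, hr₀, hle1, hle2, hlei⟩ : ∃ r₀ > 0, r₀ ≤ r₁ ∧ r₀ ≤ r₂ ∧ ∀ i, r₀ ≤ r i := by
    have h1 : ∀ c : ℝ, 0 < c → ∀ᶠ s in 𝓝[>] (0 : ℝ), s ≤ c := fun c hc =>
      mem_nhdsWithin_of_mem_nhds (Iic_mem_nhds hc)
    have h2 : ∀ᶠ s in 𝓝[>] (0 : ℝ), ∀ i, s ≤ r i := eventually_all.mpr fun i => h1 _ (hr i)
    obtain ⟨s, ⟨⟨h3, h4⟩, h5⟩, h6⟩ := (((h1 r₁ hr₁).and (h1 r₂ hr₂)).and h2 |>.and
      self_mem_nhdsWithin).exists
    exact ⟨s, h6, h3, h4, h5⟩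
  refine ⟨r₀, hr₀, fun y => ∑ i, τ i y, ?_, fun y hy hyc => ?_⟩
  · refine DifferentiableOn.fun_sum fun i _ => ?_
    exact (hτ1 i).mono (Metric.ball_subset_ball (hlei i))
  · have hyb : y ∈ Metric.ball (0 : Fin m → ℂ) 1 := hball (Metric.ball_subset_ball hle2 hy)
    have hfin : (fib U β y).Finite := fib_finite hS hP hyb hyc
    have hsub := hnear y (Metric.ball_subset_ball hle1 hy)
    have h1 : fib U β y = ⋃ i, (fib U β y ∩ B i) := by
      rw [← Set.inter_iUnion, Set.inter_eq_left.mpr hsub]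
    have h2 : ∑ᶠ x ∈ fib U β y, h x = ∑ᶠ x ∈ ⋃ i, (fib U β y ∩ B i), h x := by
      rw [← h1]
    rw [h2, finsum_mem_iUnion, finsum_eq_sum_of_fintype]
    · exact Finset.sum_congr rfl fun i _ =>
        hτ2 i y (Metric.ball_subset_ball (hlei i) hy) hyc
    · intro i j hij
      exact (hdisj hij).mono Set.inter_subset_right Set.inter_subset_right
    · exact fun i => hfin.subset Set.inter_subset_left

theorem crit_dense (hS : SD0 m O G) (U : Set X) (β : Fin m → O) {W : Set (Fin m → ℂ)}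
    (hW : IsOpen W) (hne : W.Nonempty) : ∃ y ∈ W, y ∉ crit U β := by
  by_contra hcon
  push Not at hcon
  exact (hW.measure_pos volume hne).ne' (measure_mono_null hcon (crit_null hS U β))

theorem glob_trace (hS : SD0 m O G) {U : Set X} {β : Fin m → O} (hP : SpecPoly U β) (h : O) :
    ∃ τ : (Fin m → ℂ) → ℂ, DifferentiableOn ℂ τ (Metric.ball 0 1) ∧
      ∀ y ∈ Metric.ball 0 1, y ∉ crit U β → τ y = ∑ᶠ x ∈ fib U β y, h x := by
  exact glue_hol (D := (crit U β)ᶜ) (fun y => ∑ᶠ x ∈ fib U β y, h x)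
    (fun W _ hW hne => crit_dense hS U β hW hne) (fun y₀ hy₀ => trace_local hS hP h hy₀)

end Pool.Agent.MP_fe3720.BB
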