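import Mathlib

/-! # Module PolyAp: polynomial approximation on polydiscs, identity theorem

`Metric.ball (0 : Fin m → ℂ) 1` is the polydisc `‖y i‖ < 1`.

* `poly_approx`: `τ` holomorphic on the unit polydisc, `r < 1`, `ε > 0`: there is a polynomial `Q` with
  `‖τ y - Q y‖ < ε` for `‖y‖ ≤ r`. Possible proofs: (a) `τ` is analytic on the ball and has a power series… ;
  (b) induction on `m` with the one variable Taylor expansion with coefficients holomorphic in the other variables: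
  for `m = m' + 1`, `r < R < 1`, `τ (z, y') = ∑ k, z^k c_k(y')`, `c_k y' = (2πi)⁻¹ ∮ ζ in C(0,R), τ (ζ, y') / ζ^(k+1)`,
  holomorphic in `y'` on the polydisc (differentiation under the integral sign), `‖c_k‖ ≤ C / R^k` for `‖y'‖ ≤ r`, so
  the partial sums converge uniformly on `‖(z, y')‖ ≤ r`; approximate each `c_k` by a polynomial in `y'`
  (induction; rescale if needed: the statement for `ball 0 1` and all `r < 1`). Use `Fin.cons`/`Fin.tail`,
  `MvPolynomial.rename Fin.succ`. (c) Fejér means: average over rotations of the coordinates.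
* `ident_poly`: `τ` holomorphic on the unit ball and zero on a nonempty open subset `W ⊆ ball 0 1` is zero on the ball: restrict
  to complex lines through a point `y ∈ W`: for `z ∈ ball 0 1`, `l ↦ τ (y + l (z - y))` is holomorphic on the convex open set
  `{l | y + l (z - y) ∈ ball 0 1} ∋ 0, 1` and zero near `0` (`AnalyticOnNhd.eqOn_zero_of_preconnected_of_eventuallyEq_zero`; see
  the private lemma `ident_ball` in R/Ident.lean).
* `int_const`: `τ` continuous on the unit ball and a natural number at the points of a dense subset is constant on the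
  ball: the values are natural numbers everywhere (closedness of `ℕ` in `ℂ`), the ball is connected
  (`IsPreconnected.constant` …). -/

namespace Pool.Agent.MP_fe3720.BB

open Topology Finset

/-! ### one variable: interpolation at roots of unity -/

/-- the nodes -/
private noncomputable def nd (n : ℕ) (R : ℝ) (j : ℕ) : ℂ :=
  (R : ℂ) * Complex.exp (2 * Real.pi * Complex.I / n) ^ j

private theorem nd_norm {n : ℕ} {R : ℝ} (hR : 0 < R) (j : ℕ) : ‖nd n R j‖ = R := by
  have h1 : ‖Complex.exp (2 * Real.pi * Complex.I / n)‖ = 1 := by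
    have : (2 * Real.pi * Complex.I / n : ℂ) = ((2 * Real.pi / n : ℝ) : ℂ) * Complex.I := by
      push_cast
      ring
    rw [this, Complex.norm_exp_ofReal_mul_I]
  rw [nd, norm_mul, norm_pow, h1, one_pow, mul_one, Complex.norm_of_nonneg hR.le]

private theorem nd_sum {n : ℕ} (hn : 0 < n) {R : ℝ} (hR : 0 < R) {k l : ℕ} (hk : k < n)
    (hl : l < n) : ∑ j ∈ range n, nd n R j ^ k * (nd n R j)⁻¹ ^ l = if k = l then (n : ℂ) else 0 := by
  set ζ : ℂ := Complex.exp (2 * Real.pi * Complex.I / n) with hζ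
  have hp : IsPrimitiveRoot ζ n := Complex.isPrimitiveRoot_exp n hn.ne'
  have hRne : (R : ℂ) ≠ 0 := by exact_mod_cast hR.ne'
  have hζne : ζ ≠ 0 := hp.ne_zero hn.ne'
  split_ifs with h
  · subst h
    have : ∀ j ∈ range n, nd n R j ^ k * (nd n R j)⁻¹ ^ k = 1 := by
      intro j _
      have hne : nd n R j ≠ 0 := by
        rw [← norm_pos_iff, nd_norm hR]
        exact hR
      rw [← mul_pow, mul_inv_cancel₀ hne, one_pow]
    rw [sum_congr rfl this]
    simp
  · have h1 : ∀ j ∈ range n, nd n R j ^ k * (nd n R j)⁻¹ ^ l =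
        ((R : ℂ) ^ k * (R : ℂ)⁻¹ ^ l) * (ζ ^ k * ζ⁻¹ ^ l) ^ j := by
      intro j _
      simp only [nd, ← hζ, mul_inv, mul_pow, inv_pow, ← pow_mul]
      rw [mul_comm j k, mul_comm j l]
      ring
    rw [sum_congr rfl h1, ← mul_sum]
    have hx : ζ ^ k * ζ⁻¹ ^ l ≠ 1 := by
      intro hx
      rw [inv_pow, mul_inv_eq_one₀ (pow_ne_zero _ hζne)] at hx
      exact h (hp.pow_inj hk hl hx)
    rw [geom_sum_eq hx]
    have hxn : (ζ ^ k * ζ⁻¹ ^ l) ^ n = 1 := by
      rw [mul_pow, ← pow_mul, ← pow_mul, mul_comm k n, mul_comm l n, pow_mul, pow_mul, hp.pow_eq_one,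
        inv_pow, hp.pow_eq_one]
      simp
    rw [hxn]
    simp

/-- the kernel -/
private noncomputable def ker (n : ℕ) (R : ℝ) (j : ℕ) (z : ℂ) : ℂ :=
  ∑ l ∈ range n, z ^ l * (nd n R j)⁻¹ ^ l

private theorem ker_norm {n : ℕ} {r R : ℝ} (hr : 0 ≤ r) (hrR : r < R) (j : ℕ) {z : ℂ}
    (hz : ‖z‖ ≤ r) : ‖ker n R j z‖ ≤ R / (R - r) := by
  have hR : 0 < R := by linarith
  have h1 : r / R < 1 := (div_lt_one hR).mpr hrR
  have h2 : 0 ≤ r / R := by positivity
  calc ‖ker n R j z‖ ≤ ∑ l ∈ range n, (r / R) ^ l := by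
        refine (norm_sum_le _ _).trans (sum_le_sum fun l _ => ?_)
        rw [norm_mul, norm_pow, norm_pow, norm_inv, nd_norm hR, div_pow, inv_pow, div_eq_mul_inv]
        gcongr
    _ ≤ ∑' l : ℕ, (r / R) ^ l :=
        (summable_geometric_of_lt_one h2 h1).sum_le_tsum _ fun l _ => by positivity
    _ = (1 - r / R)⁻¹ := tsum_geometric_of_lt_one h2 h1
    _ = R / (R - r) := by
        have : R - r ≠ 0 := by linarith
        field_simp

/-- the interpolation operator reproduces polynomials -/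
private theorem interp_poly {n : ℕ} (hn : 0 < n) {R : ℝ} (hR : 0 < R) (c : ℕ → ℂ) (z : ℂ) :
    ∑ j ∈ range n, (n : ℂ)⁻¹ * (∑ k ∈ range n, c k * nd n R j ^ k) * ker n R j z =
      ∑ k ∈ range n, c k * z ^ k := by
  have hnne : (n : ℂ) ≠ 0 := by exact_mod_cast hn.ne'
  have h1 : ∀ j ∈ range n, (n : ℂ)⁻¹ * (∑ k ∈ range n, c k * nd n R j ^ k) * ker n R j z =
      ∑ k ∈ range n, ∑ l ∈ range n,
        ((n : ℂ)⁻¹ * c k * z ^ l) * (nd n R j ^ k * (nd n R j)⁻¹ ^ l) := by
    intro j _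
    rw [ker, mul_assoc, sum_mul_sum, mul_sum]
    refine sum_congr rfl fun k _ => ?_
    rw [mul_sum]
    refine sum_congr rfl fun l _ => ?_
    ring
  rw [sum_congr rfl h1, sum_comm]
  refine sum_congr rfl fun k hk => ?_
  rw [sum_comm]
  have h2 : ∀ l ∈ range n, ∑ j ∈ range n,
      ((n : ℂ)⁻¹ * c k * z ^ l) * (nd n R j ^ k * (nd n R j)⁻¹ ^ l) =
      ((n : ℂ)⁻¹ * c k * z ^ l) * (if k = l then (n : ℂ) else 0) := by
    intro l hl
    rw [← mul_sum, nd_sum hn hR (mem_range.mp hk) (mem_range.mp hl)]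
  rw [sum_congr rfl h2]
  simp only [mul_ite, mul_zero, sum_ite_eq, if_pos hk]
  field_simp

private theorem dft {r R ρ : ℝ} (hr : 0 ≤ r) (hrR : r < R) (hRρ : R < ρ) (hρ : ρ < 1) {M : ℝ}
    {G : ℂ → ℂ} (hG : DifferentiableOn ℂ G (Metric.ball 0 1)) (hM : ∀ w, ‖w‖ ≤ ρ → ‖G w‖ ≤ M)
    {n : ℕ} (hn : 0 < n) {z : ℂ} (hz : ‖z‖ ≤ r) :
    ‖G z - ∑ j ∈ range n, (n : ℂ)⁻¹ * G (nd n R j) * ker n R j z‖ ≤
      M * (R / ρ) ^ n / (1 - R / ρ) * (1 + R / (R - r)) := by
  have hR : 0 < R := by linarith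
  have hρ0 : 0 < ρ := by linarith
  have hM0 : 0 ≤ M := (norm_nonneg _).trans (hM 0 (by simpa using hρ0.le))
  set c : ℕ → ℂ := fun k => (k.factorial : ℂ)⁻¹ * iteratedDeriv k G 0 with hc
  have hcb : ∀ k, ‖c k‖ ≤ M / ρ ^ k := by
    intro k
    have h1 := Complex.norm_iteratedDeriv_le_of_forall_mem_sphere_norm_le (c := 0) (R := ρ)
      (C := M) (f := G) k hρ0 ?_ (fun w hw => hM w (by
        rw [mem_sphere_zero_iff_norm] at hw
        exact hw.le))
    · have hf : (0 : ℝ) < k.factorial := by exact_mod_cast k.factorial_pos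
      rw [hc]
      simp only [norm_mul, norm_inv, Complex.norm_natCast]
      rw [inv_mul_le_iff₀ hf]
      refine h1.trans (le_of_eq ?_)
      ring
    · refine DifferentiableOn.diffContOnCl_ball (U := Metric.ball 0 1) hG ?_
      intro w hw
      rw [Metric.mem_closedBall, dist_zero_right] at hw
      rw [Metric.mem_ball, dist_zero_right]
      linarith
  have hsum : ∀ w : ℂ, ‖w‖ < 1 → HasSum (fun k => c k * w ^ k) (G w) := by
    intro w hw
    have h1 := Complex.hasSum_taylorSeries_on_ball (r := 1) (c := 0) (f := G) (z := w)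
      (by simpa using hG) (by simpa using hw)
    refine h1.congr_fun fun k => ?_
    simp only [hc, smul_eq_mul, sub_zero]
    ring
  set P : ℂ → ℂ := fun w => ∑ k ∈ range n, c k * w ^ k with hP
  have hq : R / ρ < 1 := (div_lt_one hρ0).mpr hRρ
  have hE : ∀ w : ℂ, ‖w‖ ≤ R → ‖P w - G w‖ ≤ M * (R / ρ) ^ n / (1 - R / ρ) := by
    intro w hw
    refine norm_sub_le_of_geometric_bound_of_hasSum hq (fun k => ?_) (hsum w (by linarith)) n
    rw [norm_mul, norm_pow]
    calc ‖c k‖ * ‖w‖ ^ k ≤ M / ρ ^ k * R ^ k := by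
          gcongr
          exact hcb k
      _ = M * (R / ρ) ^ k := by rw [div_pow]; ring
  have hT := interp_poly hn hR c z
  have h1 : G z - ∑ j ∈ range n, (n : ℂ)⁻¹ * G (nd n R j) * ker n R j z =
      -(P z - G z) + ∑ j ∈ range n, (n : ℂ)⁻¹ * (P (nd n R j) - G (nd n R j)) * ker n R j z := by
    have h2 : ∑ j ∈ range n, (n : ℂ)⁻¹ * (P (nd n R j) - G (nd n R j)) * ker n R j z =
        ∑ j ∈ range n, (n : ℂ)⁻¹ * P (nd n R j) * ker n R j z -
        ∑ j ∈ range n, (n : ℂ)⁻¹ * G (nd n R j) * ker n R j z := by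
      rw [← sum_sub_distrib]
      exact sum_congr rfl fun j _ => by ring
    rw [h2, show ∑ j ∈ range n, (n : ℂ)⁻¹ * P (nd n R j) * ker n R j z = P z from hT]
    ring
  set A := M * (R / ρ) ^ n / (1 - R / ρ) with hA
  have hA0 : 0 ≤ A := by
    have : 0 < 1 - R / ρ := by linarith
    positivity
  have h3 : ‖∑ j ∈ range n, (n : ℂ)⁻¹ * (P (nd n R j) - G (nd n R j)) * ker n R j z‖ ≤
      A * (R / (R - r)) := by
    have hnpos : (0 : ℝ) < n := by exact_mod_cast hn
    have hk0 : 0 ≤ R / (R - r) := div_nonneg hR.le (by linarith)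
    calc ‖∑ j ∈ range n, (n : ℂ)⁻¹ * (P (nd n R j) - G (nd n R j)) * ker n R j z‖
        ≤ ∑ j ∈ range n, (n : ℝ)⁻¹ * A * (R / (R - r)) := by
          refine (norm_sum_le _ _).trans (sum_le_sum fun j _ => ?_)
          rw [norm_mul, norm_mul, norm_inv, Complex.norm_natCast]
          gcongr
          · exact hE _ (nd_norm hR j).le
          · exact ker_norm hr hrR j hz
      _ = A * (R / (R - r)) := by
          rw [sum_const, card_range, nsmul_eq_mul]
          field_simp
  rw [h1]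
  calc ‖-(P z - G z) + ∑ j ∈ range n, (n : ℂ)⁻¹ * (P (nd n R j) - G (nd n R j)) * ker n R j z‖
      ≤ ‖P z - G z‖ + ‖∑ j ∈ range n, (n : ℂ)⁻¹ * (P (nd n R j) - G (nd n R j)) * ker n R j z‖ := by
        rw [← norm_neg (P z - G z)]
        exact norm_add_le _ _
    _ ≤ A + A * (R / (R - r)) := add_le_add (hE z (by linarith)) h3
    _ = A * (1 + R / (R - r)) := by ring

private theorem cons_norm_lt {m : ℕ} {w : ℂ} {y : Fin m → ℂ} {s : ℝ} (hw : ‖w‖ < s)
    (hy : ‖y‖ < s) : ‖(Fin.cons w y : Fin (m + 1) → ℂ)‖ < s := by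
  have hs : 0 < s := lt_of_le_of_lt (norm_nonneg _) hw
  rw [pi_norm_lt_iff hs]
  refine Fin.cases hw fun i => ?_
  exact (norm_le_pi_norm y i).trans_lt hy

private theorem cons_norm_le {m : ℕ} {w : ℂ} {y : Fin m → ℂ} {s : ℝ} (hw : ‖w‖ ≤ s)
    (hy : ‖y‖ ≤ s) : ‖(Fin.cons w y : Fin (m + 1) → ℂ)‖ ≤ s := by
  have hs : 0 ≤ s := (norm_nonneg _).trans hw
  rw [pi_norm_le_iff_of_nonneg hs]
  refine Fin.cases hw fun i => ?_
  exact (norm_le_pi_norm y i).trans hy

theorem poly_approx {m : ℕ} {τ : (Fin m → ℂ) → ℂ} (hτ : DifferentiableOn ℂ τ (Metric.ball 0 1))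
    {r : ℝ} (hr : r < 1) {ε : ℝ} (hε : 0 < ε) :
    ∃ Q : MvPolynomial (Fin m) ℂ, ∀ y : Fin m → ℂ, ‖y‖ ≤ r → ‖τ y - MvPolynomial.eval y Q‖ < ε := by
  induction m generalizing ε with
  | zero =>
    refine ⟨MvPolynomial.C (τ 0), fun y _ => ?_⟩
    rw [Subsingleton.elim y 0, MvPolynomial.eval_C, sub_self, norm_zero]
    exact hε
  | succ m ih =>
    rcases lt_or_ge r 0 with hr0 | hr0
    · exact ⟨0, fun y hy => absurd hy (not_le.mpr (hr0.trans_le (norm_nonneg y)))⟩
    set R : ℝ := (r + 1) / 2 with hR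
    set ρ : ℝ := (R + 1) / 2 with hρ
    have hrR : r < R := by rw [hR]; linarith
    have hR1 : R < 1 := by rw [hR]; linarith
    have hRρ : R < ρ := by rw [hρ]; linarith
    have hρ1 : ρ < 1 := by rw [hρ]; linarith
    have hR0 : 0 < R := by linarith
    have hρ0 : 0 < ρ := by linarith
    obtain ⟨M, hM⟩ := (isCompact_closedBall (0 : Fin (m + 1) → ℂ) ρ).exists_bound_of_continuousOn
      (f := τ) (hτ.continuousOn.mono (Metric.closedBall_subset_ball hρ1))
    have hM' : ∀ w (y : Fin m → ℂ), ‖w‖ ≤ ρ → ‖y‖ ≤ ρ → ‖τ (Fin.cons w y)‖ ≤ M := fun w y hw hy =>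
      hM _ (by rw [mem_closedBall_zero_iff]; exact cons_norm_le hw hy)
    have hM0 : 0 ≤ M := (norm_nonneg _).trans (hM 0 (Metric.mem_closedBall_self hρ0.le))
    -- choice of `n`
    set C₁ : ℝ := M / (1 - R / ρ) * (1 + R / (R - r)) with hC₁
    have hq1 : R / ρ < 1 := (div_lt_one hρ0).mpr hRρ
    have hq0 : 0 ≤ R / ρ := by positivity
    have hC₁0 : 0 ≤ C₁ := by
      have h1 : 0 < 1 - R / ρ := by linarith
      have h2 : 0 < R - r := by linarith
      positivity
    obtain ⟨n₀, hn₀⟩ := exists_pow_lt_of_lt_one (show (0 : ℝ) < ε / 2 / (C₁ + 1) by positivity) hq1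
    set n := n₀ + 1 with hn
    have hnpos : 0 < n := Nat.succ_pos _
    have hCn : C₁ * (R / ρ) ^ n < ε / 2 := by
      have h1 : (R / ρ) ^ n ≤ (R / ρ) ^ n₀ := pow_le_pow_of_le_one hq0 hq1.le (Nat.le_succ _)
      rw [lt_div_iff₀ (by positivity)] at hn₀
      have h2 : 0 ≤ (R / ρ) ^ n := by positivity
      nlinarith
    -- the polynomials at the nodes
    have hslice : ∀ j, DifferentiableOn ℂ (fun y : Fin m → ℂ => τ (Fin.cons (nd n R j) y))
        (Metric.ball 0 1) := by
      intro j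
      refine hτ.comp ?_ fun y hy => ?_
      · refine Differentiable.differentiableOn ?_
        rw [differentiable_pi]
        refine Fin.cases ?_ fun i => ?_
        · exact differentiable_const _
        · exact differentiable_apply i
      · rw [mem_ball_zero_iff] at hy ⊢
        exact cons_norm_lt (by rw [nd_norm hR0]; exact hR1) hy
    have hk0 : 0 < R / (R - r) := div_pos hR0 (by linarith)
    choose Q hQ using fun j => ih (hslice j) (ε := ε / 2 / (R / (R - r))) (by positivity)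
    refine ⟨∑ j ∈ range n, MvPolynomial.C ((n : ℂ)⁻¹) * MvPolynomial.rename Fin.succ (Q j) *
      ∑ l ∈ range n, MvPolynomial.X 0 ^ l * MvPolynomial.C ((nd n R j)⁻¹ ^ l), fun y hy => ?_⟩
    have hev : MvPolynomial.eval y (∑ j ∈ range n, MvPolynomial.C ((n : ℂ)⁻¹) *
        MvPolynomial.rename Fin.succ (Q j) *
        ∑ l ∈ range n, MvPolynomial.X 0 ^ l * MvPolynomial.C ((nd n R j)⁻¹ ^ l)) =
        ∑ j ∈ range n, (n : ℂ)⁻¹ * MvPolynomial.eval (Fin.tail y) (Q j) * ker n R j (y 0) := by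
      rw [map_sum]
      refine sum_congr rfl fun j _ => ?_
      rw [map_mul, map_mul, MvPolynomial.eval_C, MvPolynomial.eval_rename, map_sum, ker]
      congr 1
      refine sum_congr rfl fun l _ => ?_
      rw [map_mul, map_pow, MvPolynomial.eval_X, MvPolynomial.eval_C]
    rw [hev]
    have hy0 : ‖y 0‖ ≤ r := (norm_le_pi_norm y 0).trans hy
    have hyt : ‖Fin.tail y‖ ≤ r := by
      rw [pi_norm_le_iff_of_nonneg hr0]
      exact fun i => (norm_le_pi_norm y i.succ).trans hy
    have hcons : (Fin.cons (y 0) (Fin.tail y) : Fin (m + 1) → ℂ) = y := Fin.cons_self_tail y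
    have hG : DifferentiableOn ℂ (fun w : ℂ => τ (Fin.cons w (Fin.tail y))) (Metric.ball 0 1) := by
      refine hτ.comp ?_ fun w hw => ?_
      · refine Differentiable.differentiableOn ?_
        rw [differentiable_pi]
        refine Fin.cases ?_ fun i => ?_
        · exact differentiable_id
        · exact differentiable_const _
      · rw [mem_ball_zero_iff] at hw ⊢
        exact cons_norm_lt hw (by linarith)
    have h1 := dft hr0 hrR hRρ hρ1 hG (M := M) (fun w hw => hM' w _ hw (by linarith)) hnpos hy0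
    simp only [hcons] at h1
    have h2 : τ y - ∑ j ∈ range n, (n : ℂ)⁻¹ * MvPolynomial.eval (Fin.tail y) (Q j) *
        ker n R j (y 0) =
        (τ y - ∑ j ∈ range n, (n : ℂ)⁻¹ * τ (Fin.cons (nd n R j) (Fin.tail y)) *
          ker n R j (y 0)) +
        ∑ j ∈ range n, (n : ℂ)⁻¹ * (τ (Fin.cons (nd n R j) (Fin.tail y)) -
          MvPolynomial.eval (Fin.tail y) (Q j)) * ker n R j (y 0) := by
      have h3 : ∑ j ∈ range n, (n : ℂ)⁻¹ * (τ (Fin.cons (nd n R j) (Fin.tail y)) -
          MvPolynomial.eval (Fin.tail y) (Q j)) * ker n R j (y 0) =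
          ∑ j ∈ range n, (n : ℂ)⁻¹ * τ (Fin.cons (nd n R j) (Fin.tail y)) * ker n R j (y 0) -
          ∑ j ∈ range n, (n : ℂ)⁻¹ * MvPolynomial.eval (Fin.tail y) (Q j) *
            ker n R j (y 0) := by
        rw [← sum_sub_distrib]
        exact sum_congr rfl fun j _ => by ring
      rw [h3]
      ring
    have h4 : ‖∑ j ∈ range n, (n : ℂ)⁻¹ * (τ (Fin.cons (nd n R j) (Fin.tail y)) -
        MvPolynomial.eval (Fin.tail y) (Q j)) * ker n R j (y 0)‖ ≤ ε / 2 := by
      have hnp : (0 : ℝ) < n := by exact_mod_cast hnpos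
      calc _ ≤ ∑ j ∈ range n, (n : ℝ)⁻¹ * (ε / 2 / (R / (R - r))) * (R / (R - r)) := by
            refine (norm_sum_le _ _).trans (sum_le_sum fun j _ => ?_)
            rw [norm_mul, norm_mul, norm_inv, Complex.norm_natCast]
            gcongr
            · exact (hQ j _ hyt).le
            · exact ker_norm hr0 hrR j hy0
        _ = ε / 2 := by
            rw [sum_const, card_range, nsmul_eq_mul]
            have h5 : R - r ≠ 0 := by linarith
            field_simp
    rw [h2]
    have h5 : M * (R / ρ) ^ n / (1 - R / ρ) * (1 + R / (R - r)) = C₁ * (R / ρ) ^ n := by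
      rw [hC₁]; ring
    rw [h5] at h1
    refine (norm_add_le _ _).trans_lt ?_
    linarith

theorem ident_poly {m : ℕ} {τ : (Fin m → ℂ) → ℂ} (hτ : DifferentiableOn ℂ τ (Metric.ball 0 1))
    {W : Set (Fin m → ℂ)} (hW : IsOpen W) (hne : W.Nonempty) (hsub : W ⊆ Metric.ball 0 1)
    (h0 : ∀ y ∈ W, τ y = 0) : ∀ y ∈ Metric.ball (0 : Fin m → ℂ) 1, τ y = 0 := by
  intro z hz
  obtain ⟨y, hyW⟩ := hne
  have hy := hsub hyW
  let L : ℂ → (Fin m → ℂ) := fun l => y + l • (z - y)
  have hLd : Differentiable ℂ L := by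
    intro l
    exact (differentiableAt_const y).add ((differentiableAt_id).smul_const (z - y))
  have hLc : Continuous L := hLd.continuous
  set S : Set ℂ := L ⁻¹' Metric.ball 0 1 with hS
  have hSo : IsOpen S := Metric.isOpen_ball.preimage hLc
  have hSc : Convex ℝ S := by
    intro a ha b hb s t hs ht hst
    have h1 : L (s • a + t • b) = s • L a + t • L b := by
      funext j
      simp only [L, Pi.add_apply, Pi.smul_apply, smul_eq_mul, Pi.sub_apply, Complex.real_smul]
      have : ((s : ℂ)) + t = 1 := by exact_mod_cast hst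
      linear_combination (-(y j)) * this
    change L (s • a + t • b) ∈ Metric.ball 0 1
    rw [h1]
    exact convex_ball 0 1 ha hb hs ht hst
  have h0S : (0 : ℂ) ∈ S := by
    change L 0 ∈ Metric.ball 0 1
    have : L 0 = y := by simp [L]
    rw [this]
    exact hy
  have h1S : (1 : ℂ) ∈ S := by
    change L 1 ∈ Metric.ball 0 1
    have : L 1 = z := by simp [L]
    rw [this]
    exact hz
  have hD : DifferentiableOn ℂ (fun l => τ (L l)) S :=
    hτ.comp hLd.differentiableOn fun l hl => hl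
  have hA : AnalyticOnNhd ℂ (fun l => τ (L l)) S := hD.analyticOnNhd hSo
  have hev : (fun l => τ (L l)) =ᶠ[𝓝 (0 : ℂ)] 0 := by
    have h2 : Filter.Tendsto L (𝓝 0) (𝓝 y) := by
      have := hLc.tendsto 0
      simpa [L] using this
    have h3 : ∀ᶠ z in 𝓝 y, τ z = 0 := by
      filter_upwards [hW.mem_nhds hyW] with z hz
      exact h0 z hz
    exact h2 h3
  have := hA.eqOn_zero_of_preconnected_of_eventuallyEq_zero hSc.isPreconnected h0S hev h1S
  simpa [L] using this

theorem int_const {m : ℕ} {τ : (Fin m → ℂ) → ℂ} (hτ : ContinuousOn τ (Metric.ball 0 1))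
    {D : Set (Fin m → ℂ)}
    (hD : ∀ W ⊆ Metric.ball (0 : Fin m → ℂ) 1, IsOpen W → W.Nonempty → ∃ y ∈ W, y ∈ D)
    (hint : ∀ y ∈ Metric.ball (0 : Fin m → ℂ) 1, y ∈ D → ∃ n : ℕ, τ y = n) :
    ∃ n : ℕ, ∀ y ∈ Metric.ball (0 : Fin m → ℂ) 1, τ y = n := by
  classical
  -- near each point `τ` is a constant natural number
  have hloc : ∀ y ∈ Metric.ball (0 : Fin m → ℂ) 1, ∃ n : ℕ, τ y = n := by
    intro y hy
    by_contra hcon
    push Not at hcon
    have hcl : IsClosed (Set.range (Nat.cast : ℕ → ℂ)) := Nat.isClosedEmbedding_coe_real.isClosed_range |> fun h => by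
      have h1 : Set.range (Nat.cast : ℕ → ℂ) = Complex.ofReal '' Set.range (Nat.cast : ℕ → ℝ) := by
        rw [← Set.range_comp]
        congr 1
      rw [h1]
      exact Complex.isometry_ofReal.isClosedEmbedding.isClosedMap _ h
    have hU : (Set.range (Nat.cast : ℕ → ℂ))ᶜ ∈ 𝓝 (τ y) :=
      hcl.isOpen_compl.mem_nhds (by rintro ⟨n, hn⟩; exact hcon n hn.symm)
    have hW : IsOpen (Metric.ball (0 : Fin m → ℂ) 1 ∩ τ ⁻¹' (Set.range (Nat.cast : ℕ → ℂ))ᶜ) :=
      hτ.isOpen_inter_preimage Metric.isOpen_ball hcl.isOpen_compl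
    obtain ⟨z, hz, hzD⟩ := hD _ Set.inter_subset_left hW
      ⟨y, hy, by rintro ⟨n, hn⟩; exact hcon n hn.symm⟩
    obtain ⟨n, hn⟩ := hint z hz.1 hzD
    exact hz.2 ⟨n, hn.symm⟩
  choose! k hk using hloc
  have hkc : ContinuousOn k (Metric.ball (0 : Fin m → ℂ) 1) := by
    intro y hy
    have h1 : ContinuousWithinAt τ (Metric.ball 0 1) y := hτ y hy
    have h2 : ∀ᶠ z in 𝓝[Metric.ball 0 1] y, dist (τ z) (τ y) < 1 :=
      h1 (Metric.ball_mem_nhds _ one_pos)
    refine (continuousWithinAt_const (b := k y)).congr_of_eventuallyEq ?_ rfl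
    filter_upwards [h2, self_mem_nhdsWithin] with z hz hzb
    rw [hk z hzb, hk y hy, dist_eq_norm] at hz
    have h3 : ((k z : ℂ) - (k y : ℂ)) = (((k z : ℤ) - (k y : ℤ) : ℤ) : ℂ) := by push_cast; ring
    rw [h3, Complex.norm_intCast] at hz
    have h4 : |((k z : ℤ) - (k y : ℤ))| < 1 := by exact_mod_cast hz
    rw [Int.abs_lt_one_iff] at h4
    omega
  refine ⟨k 0, fun y hy => ?_⟩
  rw [hk y hy]
  congr 1
  exact (convex_ball (0 : Fin m → ℂ) 1).isPreconnected.constant hkc hy
    (Metric.mem_ball_self one_pos)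

end Pool.Agent.MP_fe3720.BB
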