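import Pool.Agent.Work.MP_fe3720_an.B.StepA

/-! # Module StepB: from `n + 1` to `n` functions

`poly_step`: let `U, (f_0, …, f_n)` be from `PolyData v K (n+1)` (`K` compact), write `f₀ = b 0`, `f_i = b i.succ`.

(A) First perturbation: `f_i ↦ f_i^t = pert f f₀ t i` with `t` small (`generic_small` with `b = g₀ = f₀`), so that: still
`‖f_i^t‖ < 1` on the compact `K`; still for every `x ∈ frontier U` one of `‖f₀ x‖`, `‖f_i^t x‖` is `> 1` (by compactness of
`frontier U` the maximum of the norms is `≥ 1 + η` there; `‖f_i^t - f_i‖ ≤ δ ∑ ‖f₀‖^j` is small on `closure U`); `TDL` for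
`(f₀, f^t)` on `closure U`: if `f₀` and the `f_i^t` are constant on `C` then so are the `f_i`; the functions are in `alB v`
(a subalgebra). And `¬ Bad f^t f₀ f₀ normSq`.

(B) Let `c₁ < 1` bound the norms of all the `f₀, f_i` on `K` (compact; `c₁ > 0`), `c₁ < c < c₃ < c₄ < 1`. For `ν` large:
`2 (c₁/c)^ν < 1`, `c ^ ν + c₄ ^ ν < 1`, `ν ≥ 1`, and `stepA` (with `S₀ = closure U`) gives `Q`. Put
`g_i = (1/c^ν) (f_i ^ ν - f₀ ^ ν) ∈ alB v`; `S_ν = {x ∈ closure U | ∀ i, ‖g_i x‖ ≤ 1}`. On `K`: `‖g_i‖ ≤ 2 (c₁/c)^ν < 1`, and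
`K ⊆ Q` as `‖f₀‖ ≤ c₁ < c₃`. `Q ∩ frontier U = ∅`: for `x ∈ Q ∩ frontier U`, `‖f₀ x‖ ≤ c₄ < 1` so some `‖f_i x‖ > 1`, and
`‖f₀ x‖^ν ≥ ‖f_i x‖^ν - c^ν > 1 - c^ν > c₄^ν`, contradiction. So `Q ⊆ U` is compact, `Q' = S_ν \ Q` is compact, disjoint from
`Q`. Choose `U'` open with `Q ⊆ U'`, `closure U' ⊆ U`, `closure U' ∩ Q' = ∅` (`closure U'` compact;
`exists_open_between_and_isCompact_closure` for `Q ⊆ U ∩ Q'ᶜ`). For `x ∈ frontier U'`: `x ∉ U'` (open) so `x ∉ Q`, `x ∉ Q'`, so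
`x ∉ S_ν`: some `‖g_i x‖ > 1`. `TDL` for `(g, f₀)` on `closure U'`: if `g` and `f₀` are constant on a preconnected
`C ⊆ closure U'`, then `f_i ^ ν` is constant on `C`, so `f_i` takes finitely many values on `C`, so is constant
(a preconnected finite subset of `ℂ` is a subsingleton: `IsPreconnected.image`, `Set.Finite.isTotallyDisconnected`…).

(C) Second perturbation: `g_i^τ = pert g f₀ τ i`, `τ` small (`generic_small` with `b = f₀`, `g₀ = 1`): the conditions on `K` and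
on `frontier U'` still hold. `TDL` for `g^τ` on `closure U'`: let `C` be preconnected with `g^τ = ξ` constant on `C`. `re ∘ f₀`
is constant on `C`: otherwise its image contains an interval `[r, r']`, `r < r'` (`IsPreconnected.image`,
`IsPreconnected.Icc_subset`), and `Bad g^τ f₀ 1 re`. Same for `im`. So `f₀` is constant on `C`, hence `g`, hence `C` is a
subsingleton.

`poly_m`: from `PolyData v K n` for some `n`: pad to `n ≥ m` (`polyData_pad`) and go down to `m`. -/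

namespace Pool.Agent.MP_fe3720.BB

open Topology RR Filter

variable {X : Type} [MetricSpace X] [ProperSpace X] [PreconnectedSpace X]
  {O : Subalgebra ℂ (X → ℂ)} {m N : ℕ} {G : Fin N → O}

theorem pert_apply {n J : ℕ} (β : Fin n → O) (b : O) (t : Fin n → Fin J → ℂ) (i : Fin n)
    (x : X) : (pert β b t i) x = (β i) x + ∑ j : Fin J, t i j * b x ^ (j : ℕ) := by
  have h : ∀ s : Finset (Fin J), (∑ j ∈ s, t i j • b ^ (j : ℕ) : O).1 x =
      ∑ j ∈ s, t i j * b x ^ (j : ℕ) := by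
    classical
    intro s
    induction s using Finset.induction with
    | empty => rfl
    | insert j s hj ih =>
      rw [Finset.sum_insert hj, Finset.sum_insert hj, ← ih]
      rfl
  exact congrArg ((β i) x + ·) (h Finset.univ)

theorem pert_mem {n J : ℕ} {A : Subalgebra ℂ O} {β : Fin n → O} {b : O} (hβ : ∀ i, β i ∈ A)
    (hb : b ∈ A) (t : Fin n → Fin J → ℂ) (i : Fin n) : pert β b t i ∈ A :=
  A.add_mem (hβ i) (A.sum_mem fun j _ => A.smul_mem (A.pow_mem hb _) _)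

/-- size of a small perturbation on a compact set -/
theorem pert_small (hO : IsClosedAlg O) {S₀ : Set X} (hS₀ : IsCompact S₀) (n J : ℕ) (b : O)
    {η : ℝ} (hη : 0 < η) : ∃ δ > 0, ∀ (β : Fin n → O) (t : Fin n → Fin J → ℂ),
      (∀ i j, ‖t i j‖ < δ) → ∀ x ∈ S₀, ∀ i, ‖(pert β b t i) x - (β i) x‖ < η := by
  obtain ⟨C, hC⟩ := hS₀.exists_bound_of_continuousOn (hO.cont _ b.2).continuousOn
  set A : ℝ := ∑ j : Fin J, (|C| + 1) ^ (j : ℕ) with hA
  have hA0 : 0 ≤ A := Finset.sum_nonneg fun j _ => by positivity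
  refine ⟨η / (A + 1), by positivity, fun β t ht x hx i => ?_⟩
  rw [pert_apply, add_sub_cancel_left]
  calc ‖∑ j : Fin J, t i j * b x ^ (j : ℕ)‖ ≤ ∑ j : Fin J, ‖t i j * b x ^ (j : ℕ)‖ :=
        norm_sum_le _ _
    _ ≤ ∑ j : Fin J, η / (A + 1) * (|C| + 1) ^ (j : ℕ) := by
        refine Finset.sum_le_sum fun j _ => ?_
        rw [norm_mul, norm_pow]
        have h1 : ‖b x‖ ≤ |C| + 1 := by
          have := hC x hx
          have := le_abs_self C
          linarith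
        have := (ht i j).le
        gcongr
    _ = η / (A + 1) * A := by rw [← Finset.mul_sum]
    _ < η := by
        rw [div_mul_eq_mul_div, div_lt_iff₀ (by positivity)]
        nlinarith

/-- a finite family of continuous functions on a compact set with `1 < max` -/
private theorem margin_front (hO : IsClosedAlg O) {S₀ : Set X} (hS₀ : IsCompact S₀) {n : ℕ}
    (b : Fin n → O) (h : ∀ x ∈ S₀, ∃ i, 1 < ‖(b i) x‖) :
    ∃ η > 0, ∀ x ∈ S₀, ∃ i, 1 + η < ‖(b i) x‖ := by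
  by_cases hne : S₀.Nonempty
  · have hn : Nonempty (Fin n) := by
      obtain ⟨x, hx⟩ := hne
      obtain ⟨i, -⟩ := h x hx
      exact ⟨i⟩
    have hcont : Continuous (fun x : X => fun i => (b i) x) :=
      continuous_pi fun i => hO.cont _ (b i).2
    obtain ⟨x₀, hx₀, hmin⟩ := hS₀.exists_isMinOn hne hcont.norm.continuousOn
    have h1 : 1 < ‖(fun i => (b i) x₀ : Fin n → ℂ)‖ := by
      obtain ⟨i, hi⟩ := h x₀ hx₀
      exact hi.trans_le (norm_le_pi_norm (fun i => (b i) x₀ : Fin n → ℂ) i)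
    refine ⟨(‖(fun i => (b i) x₀ : Fin n → ℂ)‖ - 1) / 2, by linarith, fun x hx => ?_⟩
    by_contra hcon
    push Not at hcon
    have h2 : ‖(fun i => (b i) x : Fin n → ℂ)‖ ≤
        1 + (‖(fun i => (b i) x₀ : Fin n → ℂ)‖ - 1) / 2 :=
      (pi_norm_le_iff_of_nonneg (by linarith)).mpr hcon
    have h3 := hmin hx
    simp only [Set.mem_setOf_eq] at h3
    linarith
  · rw [Set.not_nonempty_iff_eq_empty] at hne
    exact ⟨1, one_pos, fun x hx => by rw [hne] at hx; exact absurd hx (Set.notMem_empty x)⟩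

private theorem margin_K (hO : IsClosedAlg O) {K : Set X} (hK : IsCompact K) {n : ℕ}
    (b : Fin n → O) (h : ∀ i, ∀ x ∈ K, ‖(b i) x‖ < 1) :
    ∃ c, 1 / 2 ≤ c ∧ c < 1 ∧ ∀ i, ∀ x ∈ K, ‖(b i) x‖ ≤ c := by
  have h1 : ∀ i, ∃ c, 1 / 2 ≤ c ∧ c < 1 ∧ ∀ x ∈ K, ‖(b i) x‖ ≤ c := by
    intro i
    by_cases hne : K.Nonempty
    · obtain ⟨x₀, hx₀, hmax⟩ := hK.exists_isMaxOn hne (hO.cont _ (b i).2).norm.continuousOn
      refine ⟨max (1 / 2) ‖(b i) x₀‖, le_max_left _ _, max_lt (by norm_num) (h i x₀ hx₀),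
        fun x hx => (hmax hx).trans (le_max_right _ _)⟩
    · rw [Set.not_nonempty_iff_eq_empty] at hne
      exact ⟨1 / 2, le_rfl, by norm_num, fun x hx => by
        rw [hne] at hx; exact absurd hx (Set.notMem_empty x)⟩
  choose c hc1 hc2 hc3 using h1
  by_cases hn : Nonempty (Fin n)
  · refine ⟨Finset.univ.sup' Finset.univ_nonempty c, ?_, ?_, fun i x hx => ?_⟩
    · obtain ⟨i⟩ := hn
      exact (hc1 i).trans (Finset.le_sup' c (Finset.mem_univ i))
    · rw [Finset.sup'_lt_iff]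
      exact fun i _ => hc2 i
    · exact (hc3 i x hx).trans (Finset.le_sup' c (Finset.mem_univ i))
  · exact ⟨1 / 2, le_rfl, by norm_num, fun i => absurd ⟨i⟩ hn⟩

/-- a function with finitely many values on a preconnected set is constant -/
private theorem const_of_pow {C : Set X} (hC : IsPreconnected C) {F : X → ℂ}
    (hF : Continuous F) {ν : ℕ} (hν : 1 ≤ ν) (h : ∀ x ∈ C, ∀ y ∈ C, F x ^ ν = F y ^ ν) :
    ∀ x ∈ C, ∀ y ∈ C, F x = F y := by
  intro x hx y hy
  have hfin : (F '' C).Finite := by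
    have h1 : {w : ℂ | w ^ ν = F x ^ ν}.Finite := by
      have h2 : {w : ℂ | w ^ ν = F x ^ ν} ⊆ ((Polynomial.nthRoots ν (F x ^ ν)).toFinset : Set ℂ) := by
        intro w hw
        rw [Finset.mem_coe, Multiset.mem_toFinset, Polynomial.mem_nthRoots (by omega)]
        exact hw
      exact (Finset.finite_toSet _).subset h2
    refine h1.subset ?_
    rintro _ ⟨z, hz, rfl⟩
    exact h z hz x hx
  by_contra hne
  exact (hC.image F hF.continuousOn).infinite_of_nontrivial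
    ⟨F x, ⟨x, hx, rfl⟩, F y, ⟨y, hy, rfl⟩, hne⟩ hfin

theorem poly_step (hS : SD0 m O G) {v : Derivation ℂ O O} {K : Set X} (hK : IsCompact K) {n : ℕ}
    (hmn : m ≤ n) (h : PolyData v K (n + 1)) : PolyData v K n := by
  have hO := hS.alg
  obtain ⟨U, b, hU, hKU, hUc, hbA, hbK, hbF, hT⟩ := h
  have hfr : IsCompact (frontier U) := hUc.of_isClosed_subset isClosed_frontier frontier_subset_closure
  set f₀ := b 0 with hf₀
  -- margins
  obtain ⟨c₀, hc₀, hc₀1, hc₀K⟩ := margin_K hO hK b hbK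
  obtain ⟨η, hη, hηF⟩ := margin_front hO hfr b hbF
  -- first perturbation
  obtain ⟨δ, hδ, hδp⟩ := pert_small hO hUc n (2 * n + 1) f₀
    (η := min η ((1 - c₀) / 2)) (lt_min hη (by linarith))
  obtain ⟨t, ht, -, -, hbad⟩ := generic_small hS hmn (fun i => b i.succ) f₀ f₀ hδ
  set f : Fin n → O := pert (fun i => b i.succ) f₀ t with hf
  have hfd : ∀ x ∈ closure U, ∀ i, ‖(f i) x - (b i.succ) x‖ < min η ((1 - c₀) / 2) :=
    hδp _ t ht
  have hfA : ∀ i, f i ∈ alB v := pert_mem (fun i => hbA _) (hbA 0) t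
  set c₁ : ℝ := (1 + c₀) / 2 with hc₁
  have hc₁1 : c₁ < 1 := by rw [hc₁]; linarith
  have hc₁0 : 0 < c₁ := by rw [hc₁]; linarith
  have hf₀K : ∀ x ∈ K, ‖f₀ x‖ ≤ c₁ := fun x hx => (hc₀K 0 x hx).trans (by rw [hc₁]; linarith)
  have hfK : ∀ i, ∀ x ∈ K, ‖(f i) x‖ ≤ c₁ := by
    intro i x hx
    have h1 := (hfd x (subset_closure (hKU hx)) i).le.trans (min_le_right _ _)
    have h2 := hc₀K i.succ x hx
    have h3 : ‖(f i) x‖ ≤ ‖(f i) x - (b i.succ) x‖ + ‖(b i.succ) x‖ := by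
      have := norm_add_le ((f i) x - (b i.succ) x) ((b i.succ) x)
      rwa [sub_add_cancel] at this
    rw [hc₁]
    linarith
  have hfF : ∀ x ∈ frontier U, 1 < ‖f₀ x‖ ∨ ∃ i, 1 < ‖(f i) x‖ := by
    intro x hx
    obtain ⟨i, hi⟩ := hηF x hx
    refine Fin.cases (fun hi => Or.inl (by linarith)) (fun i hi => Or.inr ⟨i, ?_⟩) i hi
    have h1 := (hfd x (frontier_subset_closure hx) i).le.trans (min_le_left _ _)
    have h3 : ‖(b i.succ) x‖ ≤ ‖(f i) x - (b i.succ) x‖ + ‖(f i) x‖ := by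
      have := norm_sub_le ((f i) x) ((f i) x - (b i.succ) x)
      rw [sub_sub_cancel] at this
      linarith
    linarith
  -- constants
  set c : ℝ := (3 * c₁ + 1) / 4 with hc
  set c₃ : ℝ := (c₁ + 1) / 2 with hc₃
  set c₄ : ℝ := (c₁ + 3) / 4 with hc₄
  have e1 : c₁ < c := by rw [hc]; linarith
  have e2 : c < c₃ := by rw [hc, hc₃]; linarith
  have e3 : c₃ < c₄ := by rw [hc₃, hc₄]; linarith
  have e4 : c₄ < 1 := by rw [hc₄]; linarith
  have e0 : 0 < c := hc₁0.trans e1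
  obtain ⟨ν₀, hν₀⟩ := stepA hO f f₀ hbad hUc e0 e2 e3
  -- large exponent
  have l1 : Tendsto (fun ν : ℕ => 2 * (c₁ / c) ^ ν) atTop (𝓝 (2 * 0)) :=
    (tendsto_pow_atTop_nhds_zero_of_lt_one (by positivity) ((div_lt_one e0).mpr e1)).const_mul 2
  have l2 : Tendsto (fun ν : ℕ => c ^ ν + c₄ ^ ν) atTop (𝓝 (0 + 0)) :=
    (tendsto_pow_atTop_nhds_zero_of_lt_one e0.le (by linarith)).add
      (tendsto_pow_atTop_nhds_zero_of_lt_one (by linarith) e4)
  rw [mul_zero] at l1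
  rw [add_zero] at l2
  obtain ⟨ν, ⟨hν1, hν2⟩, hν3, hν4⟩ := (((l1.eventually_lt_const one_pos).and
    (l2.eventually_lt_const one_pos)).and ((eventually_ge_atTop ν₀).and
      (eventually_ge_atTop 1))).exists
  obtain ⟨Q, hQS, hQc, hQ'c, hQ1, hQ2⟩ := hν₀ ν hν3
  set S : Set X := {x | x ∈ closure U ∧ ∀ i, ‖(f i) x ^ ν - f₀ x ^ ν‖ ≤ c ^ ν} with hSdef
  have hcν : 0 < c ^ ν := pow_pos e0 ν
  have hKS : K ⊆ Q := by
    intro x hx
    refine hQ1 x (subset_closure (hKU hx)) (fun i => ?_) ((hf₀K x hx).trans_lt (e1.trans e2))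
    have h1 : ‖(f i) x ^ ν - f₀ x ^ ν‖ ≤ c₁ ^ ν + c₁ ^ ν := by
      refine (norm_sub_le _ _).trans ?_
      rw [norm_pow, norm_pow]
      have := hfK i x hx
      have := hf₀K x hx
      gcongr
    have h2 : c₁ ^ ν + c₁ ^ ν ≤ c ^ ν := by
      rw [div_pow] at hν1
      have h3 : 2 * c₁ ^ ν < c ^ ν := by
        have := (mul_lt_mul_of_pos_right hν1 hcν)
        rw [one_mul, mul_assoc, div_mul_cancel₀ _ hcν.ne'] at this
        exact this
      linarith
    exact h1.trans h2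
  have hQfr : ∀ x ∈ Q, x ∉ frontier U := by
    intro x hx hxf
    have h1 := hQ2 x hx
    rcases hfF x hxf with h2 | ⟨i, hi⟩
    · linarith
    · have h3 := (hQS hx).2 i
      have h4 : 1 < ‖(f i) x‖ ^ ν := one_lt_pow₀ hi (by omega)
      have h5 : ‖(f i) x‖ ^ ν ≤ ‖(f i) x ^ ν - f₀ x ^ ν‖ + ‖f₀ x‖ ^ ν := by
        have := norm_add_le ((f i) x ^ ν - f₀ x ^ ν) (f₀ x ^ ν)
        rwa [sub_add_cancel, norm_pow, norm_pow] at this
      have h6 : ‖f₀ x‖ ^ ν ≤ c₄ ^ ν := by gcongr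
      linarith
  have hQU : Q ⊆ U := by
    intro x hx
    by_contra hxU
    refine hQfr x hx ⟨(hQS hx).1, ?_⟩
    rw [hU.interior_eq]
    exact hxU
  have hQcpt : IsCompact Q := hUc.of_isClosed_subset hQc fun x hx => (hQS hx).1
  -- the new open set
  obtain ⟨U', hU', hQU', hclU', hU'c⟩ := exists_open_between_and_isCompact_closure hQcpt
    (hU.inter hQ'c.isOpen_compl) (fun x hx => ⟨hQU hx, fun h => h.2 hx⟩)
  have hU'U : closure U' ⊆ closure U := fun x hx => subset_closure (hclU' hx).1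
  -- the new functions
  let g : Fin n → O := fun i => ((c ^ ν : ℝ) : ℂ)⁻¹ • (f i ^ ν - f₀ ^ ν)
  have hg : ∀ i x, (g i) x = ((c ^ ν : ℝ) : ℂ)⁻¹ * ((f i) x ^ ν - f₀ x ^ ν) := fun i x => rfl
  have hgn : ∀ i x, ‖(g i) x‖ = ‖(f i) x ^ ν - f₀ x ^ ν‖ / c ^ ν := by
    intro i x
    rw [hg, norm_mul, norm_inv, Complex.norm_real, Real.norm_of_nonneg hcν.le]
    field_simp
  have hgA : ∀ i, g i ∈ alB v := fun i =>
    (alB v).smul_mem ((alB v).sub_mem ((alB v).pow_mem (hfA i) ν) ((alB v).pow_mem (hbA 0) ν)) _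
  have hgK : ∀ i, ∀ x ∈ K, ‖(g i) x‖ < 1 := by
    intro i x hx
    rw [hgn, div_lt_one hcν]
    have h1 : ‖(f i) x ^ ν - f₀ x ^ ν‖ ≤ c₁ ^ ν + c₁ ^ ν := by
      refine (norm_sub_le _ _).trans ?_
      rw [norm_pow, norm_pow]
      have := hfK i x hx
      have := hf₀K x hx
      gcongr
    rw [div_pow] at hν1
    have h3 : 2 * c₁ ^ ν < c ^ ν := by
      have := (mul_lt_mul_of_pos_right hν1 hcν)
      rw [one_mul, mul_assoc, div_mul_cancel₀ _ hcν.ne'] at this
      exact this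
    linarith
  have hgF : ∀ x ∈ frontier U', ∃ i, 1 < ‖(g i) x‖ := by
    intro x hx
    have hxcl : x ∈ closure U' := frontier_subset_closure hx
    have hxU' : x ∉ U' := by
      intro h
      rw [hU'.frontier_eq] at hx
      exact hx.2 h
    have hxQ : x ∉ Q := fun h => hxU' (hQU' h)
    have hxS : x ∉ S := fun h => (hclU' hxcl).2 ⟨h, hxQ⟩
    have h2 : ¬ ∀ i, ‖(f i) x ^ ν - f₀ x ^ ν‖ ≤ c ^ ν := fun h => hxS ⟨hU'U hxcl, h⟩
    push Not at h2
    obtain ⟨i, hi⟩ := h2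
    exact ⟨i, by rw [hgn, one_lt_div hcν]; exact hi⟩
  have hgT : ∀ C ⊆ closure U', IsPreconnected C →
      (∀ x ∈ C, ∀ y ∈ C, f₀ x = f₀ y) → (∀ i, ∀ x ∈ C, ∀ y ∈ C, (g i) x = (g i) y) →
      C.Subsingleton := by
    intro C hCU hC h0 hgC
    have h1 : ∀ i, ∀ x ∈ C, ∀ y ∈ C, (f i) x = (f i) y := by
      intro i
      refine const_of_pow hC (cont hS (f i)) hν4 fun x hx y hy => ?_
      have h2 := hgC i x hx y hy
      rw [hg, hg] at h2
      have h3 : (((c ^ ν : ℝ) : ℂ)⁻¹) ≠ 0 := inv_ne_zero (by exact_mod_cast hcν.ne')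
      have h4 := mul_left_cancel₀ h3 h2
      rw [h0 x hx y hy] at h4
      linear_combination h4
    refine hT C (hCU.trans hU'U) hC fun i => ?_
    refine Fin.cases h0 (fun i x hx y hy => ?_) i
    have h2 := h1 i x hx y hy
    rw [hf, pert_apply, pert_apply, h0 x hx y hy] at h2
    exact add_right_cancel h2
  -- second perturbation
  have hfr' : IsCompact (frontier U') :=
    hU'c.of_isClosed_subset isClosed_frontier frontier_subset_closure
  obtain ⟨d₀, hd₀, hd₀1, hd₀K⟩ := margin_K hO hK g hgK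
  obtain ⟨η', hη', hη'F⟩ := margin_front hO hfr' g hgF
  obtain ⟨δ', hδ', hδ'p⟩ := pert_small hO hU'c n (2 * n + 1) f₀
    (η := min η' (1 - d₀)) (lt_min hη' (by linarith))
  obtain ⟨τ, hτ, hre, him, -⟩ := generic_small hS hmn g f₀ 1 hδ'
  have hgd : ∀ x ∈ closure U', ∀ i, ‖(pert g f₀ τ i) x - (g i) x‖ < min η' (1 - d₀) :=
    hδ'p _ τ hτ
  refine ⟨U', pert g f₀ τ, hU', hKS.trans hQU', hU'c, pert_mem hgA (hbA 0) τ, fun i x hx => ?_,
    fun x hx => ?_, fun C hCU hC hgC => ?_⟩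
  · have h1 := (hgd x (subset_closure (hQU' (hKS hx))) i).trans_le (min_le_right _ _)
    have h2 := hd₀K i x hx
    have h3 : ‖(pert g f₀ τ i) x‖ ≤ ‖(pert g f₀ τ i) x - (g i) x‖ + ‖(g i) x‖ := by
      have := norm_add_le ((pert g f₀ τ i) x - (g i) x) ((g i) x)
      rwa [sub_add_cancel] at this
    linarith
  · obtain ⟨i, hi⟩ := hη'F x hx
    refine ⟨i, ?_⟩
    have h1 := (hgd x (frontier_subset_closure hx) i).le.trans (min_le_left _ _)
    have h3 : ‖(g i) x‖ ≤ ‖(pert g f₀ τ i) x - (g i) x‖ + ‖(pert g f₀ τ i) x‖ := by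
      have := norm_sub_le ((pert g f₀ τ i) x) ((pert g f₀ τ i) x - (g i) x)
      rw [sub_sub_cancel] at this
      linarith
    linarith
  · -- real and imaginary parts of `f₀` are constant on `C`
    have hpart : ∀ W : ℂ → ℝ, Continuous W → ¬ Bad (pert g f₀ τ) f₀ 1 W →
        ∀ x ∈ C, ∀ y ∈ C, W (f₀ x) ≤ W (f₀ y) := by
      intro W hW hWb x hx y hy
      by_contra hlt
      push Not at hlt
      refine hWb ⟨fun i => (pert g f₀ τ i) x, W (f₀ y), W (f₀ x), hlt, fun ρ hρ => ?_⟩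
      have hcon : ContinuousOn (fun x => W (f₀ x)) C := (hW.comp (cont hS f₀)).continuousOn
      obtain ⟨z, hz, hzρ⟩ := hC.intermediate_value hy hx hcon hρ
      refine ⟨z, hzρ, fun i => ?_⟩
      rw [hgC i z hz x hx]
      show _ = _ * (1 : ℂ)
      rw [mul_one]
    have h0 : ∀ x ∈ C, ∀ y ∈ C, f₀ x = f₀ y := by
      intro x hx y hy
      refine Complex.ext (le_antisymm ?_ ?_) (le_antisymm ?_ ?_)
      · exact hpart _ Complex.continuous_re hre x hx y hy
      · exact hpart _ Complex.continuous_re hre y hy x hx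
      · exact hpart _ Complex.continuous_im him x hx y hy
      · exact hpart _ Complex.continuous_im him y hy x hx
    refine hgT C hCU hC h0 fun i x hx y hy => ?_
    have h2 := hgC i x hx y hy
    rw [pert_apply, pert_apply, h0 x hx y hy] at h2
    exact add_right_cancel h2

theorem poly_down (hS : SD0 m O G) {v : Derivation ℂ O O} {K : Set X} (hK : IsCompact K)
    (n : ℕ) (h : PolyData v K (m + n)) : PolyData v K m := by
  induction n with
  | zero => exact h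
  | succ n ih => exact ih (poly_step hS hK (Nat.le_add_right m n) h)

end Pool.Agent.MP_fe3720.BB
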