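import Pool.Agent.Work.MP_fe3720_an.B.HullB
import Pool.Agent.Work.MP_fe3720_an.B.StepB
import Pool.Agent.Work.MP_fe3720_an.B.FibC

/-! # Module SpecP: special polyhedra around compact sets; separating the points of a fibre

* `exists_specPoly`: `PolyData v K m` from `polyData_base`, `polyData_pad`, `poly_down` (from `PolyData v K n` get
  `PolyData v K (m + n)` by padding `m` times). `U` is nonempty as `K` is. `SpecPoly.reg`: it is enough (`reg_dense`) that
  some point `x ∈ U` has `Reg β x`. Otherwise apply `level_curve` with `𝓢 = range β`, `W = U`: the hypothesis holds: if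
  `Reg g x` with all `g i ∈ range β`, `g i = β (σ i)`: `σ` is injective (otherwise two columns of the matrix are
  equal), so a permutation of `Fin m`, and `Reg β x` (determinant with permuted columns, `Matrix.det_permute'`). We get a
  preconnected `C ⊆ U` with two points on which all `β i` are constant, contradiction to `TDL`.
* `sep_finite`: `F` finite; there is `b ∈ alB v` injective on `F`. By `sep_pts` for every pair `x ≠ y` of `F` there is `ψ` with
  `f (ψ x) ≠ f (ψ y)`; `ψ.pull f ∈ alB v`. Let `b_1, …, b_p` be these functions (finitely many). For generic `t ∈ ℂ`,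
  `b = ∑ t^l b_l` is injective on `F`: for each pair the polynomial `∑ t^l (b_l x - b_l y)` is not zero, finitely many bad
  `t`. (Or induction on the finite set `F` / on the finset of pairs.) -/

namespace Pool.Agent.MP_fe3720.BB

open Topology RR Filter

variable {X : Type} [MetricSpace X] [ProperSpace X] [PreconnectedSpace X]
  {O : Subalgebra ℂ (X → ℂ)} {m N : ℕ} {G : Fin N → O}

/-- regularity of a permutation -/
private theorem reg_perm {β : Fin m → O} {σ : Fin m → Fin m} {x : X}
    (h : Reg (fun i => β (σ i)) x) : Reg β x := by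
  classical
  obtain ⟨E, hE, hdet⟩ := h
  have hinj : Function.Injective σ := by
    intro i j hij
    by_contra hne
    refine hdet (Matrix.det_zero_of_column_eq hne fun k => ?_)
    show (E k (β (σ i))) x = (E k (β (σ j))) x
    rw [hij]
  let e : Equiv.Perm (Fin m) := Equiv.ofBijective σ (Finite.injective_iff_bijective.mp hinj)
  refine ⟨E, hE, fun h0 => hdet ?_⟩
  have h1 : (Matrix.of fun i j => (E i (β (σ j))) x) =
      (Matrix.of fun i j => (E i (β j)) x).submatrix id e := by
    ext i j
    rfl
  rw [h1, Matrix.det_permute', h0, mul_zero]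

theorem exists_specPoly (hS : SD0 m O G) (hI : Interp O) (hKT : KTrans O)
    {v : Derivation ℂ O O} (hv : IsCompleteVF v) (hv0 : v ≠ 0) {f : O} (hf : v f = 0)
    (hfc : ∃ x y, f x ≠ f y) {K : Set X} (hK : IsCompact K) (hne : K.Nonempty) :
    ∃ (U : Set X) (β : Fin m → O), SpecPoly U β ∧ (∀ i, β i ∈ alB v) ∧ K ⊆ U ∧
      ∀ i, ∀ x ∈ K, ‖(β i) x‖ < 1 := by
  obtain ⟨n, hn⟩ := polyData_base hS hI hKT hv hv0 hf hfc hK
  have hpad : ∀ k, PolyData v K (n + k) := by
    intro k
    induction k with
    | zero => exact hn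
    | succ k ih => exact polyData_pad ih
  have h1 : PolyData v K (m + n) := by
    rw [add_comm]
    exact hpad m
  obtain ⟨U, β, hUo, hKU, hUc, hβ, hβK, hfr, htd⟩ := poly_down hS hK n h1
  obtain ⟨x₀, hx₀⟩ := hne
  have hreg : ∃ x ∈ U, Reg β x := by
    by_contra hcon
    push Not at hcon
    obtain ⟨C, hCU, hCp, ⟨x, hx, y, hy, hxy⟩, hC⟩ := level_curve hS (Set.range β) hUo
      ⟨x₀, hKU hx₀⟩ (by
        intro x hx g hg hreg
        choose σ hσ using hg
        have : g = fun i => β (σ i) := funext fun i => (hσ i).symm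
        rw [this] at hreg
        exact hcon x hx (reg_perm hreg))
    exact hxy (htd C (hCU.trans subset_closure) hCp (fun i x hx y hy =>
      hC (β i) ⟨i, rfl⟩ x hx y hy) hx hy)
  obtain ⟨x, -, hx⟩ := hreg
  exact ⟨U, β, ⟨hUo, hUc, hfr, htd, reg_dense hS β hx⟩, hβ, hKU, hβK⟩

theorem sep_finite (hKT : KTrans O) {v : Derivation ℂ O O} {f : O} (hf : v f = 0)
    (hfc : ∃ x y, f x ≠ f y) {F : Set X} (hF : F.Finite) :
    ∃ b ∈ alB v, Set.InjOn b.1 F := by
  classical
  -- the pairs
  set P : Finset (X × X) := (hF.toFinset ×ˢ hF.toFinset).filter fun p => p.1 ≠ p.2 with hP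
  have key : ∀ s : Finset (X × X), (∀ p ∈ s, p.1 ≠ p.2) →
      ∃ b ∈ alB v, ∀ p ∈ s, b p.1 ≠ b p.2 := by
    intro s
    induction s using Finset.induction with
    | empty => exact fun _ => ⟨0, Subalgebra.zero_mem _, fun p hp => absurd hp (Finset.notMem_empty p)⟩
    | insert p s hp ih =>
      intro hs
      obtain ⟨b, hb, hbs⟩ := ih fun q hq => hs q (Finset.mem_insert_of_mem hq)
      obtain ⟨ψ, hψ⟩ := sep_pts hKT hfc (hs p (Finset.mem_insert_self p s))
      -- bad parameters
      have hfin' : ((((insert p s).image fun q => -((b q.1 - b q.2) /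
          ((ψ.pull f) q.1 - (ψ.pull f) q.2)) : Finset ℂ) : Set ℂ) ∪ {0}).Finite :=
        (Finset.finite_toSet _).union (Set.finite_singleton 0)
      obtain ⟨t, ht⟩ := hfin'.infinite_compl.nonempty
      rw [Set.mem_compl_iff, Set.mem_union, not_or] at ht
      obtain ⟨ht2, ht0⟩ := ht
      rw [Set.mem_singleton_iff] at ht0
      refine ⟨b + t • ψ.pull f, Subalgebra.add_mem _ hb
        (Subalgebra.smul_mem _ (pull_mem_alB hf ψ) _), fun q hq heq => ?_⟩
      have h1 : b q.1 + t * (ψ.pull f) q.1 = b q.2 + t * (ψ.pull f) q.2 := heq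
      by_cases hd : (ψ.pull f) q.1 - (ψ.pull f) q.2 = 0
      · have h2 : b q.1 = b q.2 := by linear_combination h1 - t * hd
        rcases Finset.mem_insert.mp hq with rfl | hqs
        · exact hψ (sub_eq_zero.mp hd)
        · exact hbs q hqs h2
      · refine ht2 (Finset.mem_coe.mpr (Finset.mem_image.mpr ⟨q, hq, ?_⟩))
        field_simp
        linear_combination -h1
  obtain ⟨b, hb, hbP⟩ := key P fun p hp => (Finset.mem_filter.mp hp).2
  refine ⟨b, hb, fun x hx y hy hxy => ?_⟩
  by_contra hne
  refine hbP (x, y) (Finset.mem_filter.mpr ⟨?_, hne⟩) hxy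
  exact Finset.mem_product.mpr ⟨hF.mem_toFinset.mpr hx, hF.mem_toFinset.mpr hy⟩

end Pool.Agent.MP_fe3720.BB
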