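import Mathlib

/-! # Module TrAlg: linear algebra of the traces

`s` a finite set with `λ` elements, `b, h : X → ℂ`. `M j k = ∑_{x ∈ s} b x ^ (j + k)`, `τ j = ∑_{x ∈ s} h x * b x ^ j`
(`j, k : Fin λ`). Enumerate `s = {x_i}` (`i : Fin λ`, `Finset.equivFin`), `V i k = b (x_i) ^ k` the Vandermonde matrix
(`Matrix.vandermonde`). Then `M = Vᵀ * V`, `τ = Vᵀ h`, so (with `adj (Vᵀ V) = adj V * adj (Vᵀ)`: `Matrix.adjugate_mul_distrib`)
`V * adj M * τ = V * adj V * adj (Vᵀ) * Vᵀ * h = det V * det Vᵀ * h = det M * h`. The row `i` is the claim. And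
`det M = (det V)² ≠ 0` iff `b` is injective on `s` (`Matrix.det_vandermonde_ne_zero_iff`). -/

namespace Pool.Agent.MP_fe3720.BB

theorem tr_alg {X : Type} (s : Finset X) (b h : X → ℂ) {l : ℕ} (hl : s.card = l)
    (M : Matrix (Fin l) (Fin l) ℂ) (hM : ∀ j k, M j k = ∑ x ∈ s, b x ^ ((j : ℕ) + (k : ℕ)))
    (τ : Fin l → ℂ) (hτ : ∀ j, τ j = ∑ x ∈ s, h x * b x ^ (j : ℕ)) {x : X} (hx : x ∈ s) :
    M.det * h x = ∑ k : Fin l, ∑ j : Fin l, b x ^ (k : ℕ) * M.adjugate k j * τ j := by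
  classical
  obtain ⟨e⟩ : Nonempty (Fin l ≃ s) := ⟨(Fintype.equivFinOfCardEq (by simpa using hl)).symm⟩
  have hsum : ∀ f : X → ℂ, ∑ x ∈ s, f x = ∑ i : Fin l, f (e i) := by
    intro f
    rw [← Finset.sum_coe_sort s f]
    exact (Equiv.sum_comp e (fun y : s => f y)).symm
  set V : Matrix (Fin l) (Fin l) ℂ := Matrix.vandermonde (fun i => b (e i)) with hV
  set H : Fin l → ℂ := fun i => h (e i) with hH
  have hMV : M = V.transpose * V := by
    ext j k
    rw [hM, hsum, Matrix.mul_apply]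
    refine Finset.sum_congr rfl fun i _ => ?_
    rw [Matrix.transpose_apply, hV, Matrix.vandermonde_apply, Matrix.vandermonde_apply, pow_add]
  have hτV : τ = V.transpose.mulVec H := by
    ext j
    rw [hτ, hsum, Matrix.mulVec, dotProduct]
    refine Finset.sum_congr rfl fun i _ => ?_
    rw [Matrix.transpose_apply, hV, Matrix.vandermonde_apply, mul_comm]
  have key : (V * M.adjugate).mulVec τ = M.det • H := by
    rw [hMV, Matrix.adjugate_mul_distrib, hτV, Matrix.mulVec_mulVec, ← Matrix.mul_assoc,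
      Matrix.mul_adjugate, Matrix.mul_assoc, Matrix.adjugate_mul, Matrix.smul_mul, Matrix.one_mul,
      smul_smul, Matrix.smul_mulVec, Matrix.one_mulVec, Matrix.det_mul, mul_comm]
  obtain ⟨i, hi⟩ : ∃ i, (e i : X) = x := ⟨e.symm ⟨x, hx⟩, by simp⟩
  have h1 := congrFun key i
  rw [Pi.smul_apply, smul_eq_mul, hH] at h1
  simp only [hi] at h1
  rw [← h1, Matrix.mulVec, dotProduct]
  simp only [Matrix.mul_apply, Finset.sum_mul]
  rw [Finset.sum_comm]
  refine Finset.sum_congr rfl fun k _ => Finset.sum_congr rfl fun j _ => ?_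
  rw [hV, Matrix.vandermonde_apply, hi]

theorem tr_det {X : Type} (s : Finset X) (b : X → ℂ) {l : ℕ} (hl : s.card = l)
    (M : Matrix (Fin l) (Fin l) ℂ) (hM : ∀ j k, M j k = ∑ x ∈ s, b x ^ ((j : ℕ) + (k : ℕ)))
    (hb : Set.InjOn b s) : M.det ≠ 0 := by
  classical
  obtain ⟨e⟩ : Nonempty (Fin l ≃ s) := ⟨(Fintype.equivFinOfCardEq (by simpa using hl)).symm⟩
  have hsum : ∀ f : X → ℂ, ∑ x ∈ s, f x = ∑ i : Fin l, f (e i) := by
    intro f
    rw [← Finset.sum_coe_sort s f]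
    exact (Equiv.sum_comp e (fun y : s => f y)).symm
  set V : Matrix (Fin l) (Fin l) ℂ := Matrix.vandermonde (fun i => b (e i)) with hV
  have hMV : M = V.transpose * V := by
    ext j k
    rw [hM, hsum, Matrix.mul_apply]
    refine Finset.sum_congr rfl fun i _ => ?_
    rw [Matrix.transpose_apply, hV, Matrix.vandermonde_apply, Matrix.vandermonde_apply, pow_add]
  have hdet : V.det ≠ 0 := by
    rw [hV, Matrix.det_vandermonde_ne_zero_iff]
    intro i j hij
    exact e.injective (Subtype.ext (hb (e i).2 (e j).2 hij))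
  rw [hMV, Matrix.det_mul, Matrix.det_transpose]
  exact mul_ne_zero hdet hdet

end Pool.Agent.MP_fe3720.BB
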