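import Pool.Agent.Work.MP_fe3720_an.B.Links
import Pool.Agent.Work.MP_fe3720_an.B.SpecP
import Pool.Agent.Work.MP_fe3720_an.B.GlobTr
import Pool.Agent.Work.MP_fe3720_an.B.TrAlg
import Pool.Agent.Work.MP_fe3720_an.B.PolyAp
import Pool.Agent.Work.MP_fe3720_an.B.ClKM
import Pool.Agent.Work.MP_fe3720_an.B.ChainC

/-! # Module MultM: the trace identity, and the multiplier

`trace_mult`: `hP : SpecPoly U β`, `P = {x ∈ U | ∀ i, ‖β i x‖ < 1}`, nonempty. `b₀ : O` is injective on `fib U β y₁`, where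
`y₁ ∈ ball 0 1`, `y₁ ∉ crit U β`. Let `τ(h)` be the function of `glob_trace` for `h`. `τ(1) y` is the number of points of
`fib U β y` for `y ∉ crit U β` (finite: `fib_finite`), so `τ(1)` is a constant `l ∈ ℕ` by `int_const` (the complement of `crit` in
the ball is dense: `crit_null`). Put `M y j k = τ(b₀^(j+k)) y` (`j, k : Fin l`) and `D y = det (M y)`, holomorphic on the
ball (`Matrix.det_apply`). `D y₁ ≠ 0` by `tr_det`. For `y ∉ crit`, `x ∈ fib U β y`, `h ∈ O`, by `tr_alg`: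
`D y * h x = ∑_k ∑_j b₀ x ^ k * (adj (M y)) k j * τ(h b₀^j) y`. So for `x ∈ P` with `β x ∉ crit U β`:
`D (β x) * h x = ∑_k b₀ x ^ k * H_k (β x)`, `H_k = ∑_j (adj M) k j * τ(h b₀^j)` holomorphic on the ball. The set of these `x` is
dense in `P` (`dense_reg`), both sides are continuous on `P`: the identity holds on `P`.

Conclusion on a compact `K ⊆ P`: `β '' K ⊆ closedBall 0 r`, `r < 1` (compactness; `‖β x‖ < 1` sup norm). By `poly_approx`
`H ∘ β ∈ ClK K (adjoin (range β))` for `H` holomorphic on the ball (`MvPolynomial.eval (β x) Q` is the value at `x` of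
`MvPolynomial.aeval β Q ∈ adjoin (range β)`). So with `B = Fin.cons b₀ β : Fin (m+1) → O`:
`D ∘ β ∈ ClK K (adjoin (range B))` and `(D ∘ β) * h ∈ ClK K (adjoin (range B))` for all `h : O`.

`mult`: if `K` is empty take `e = 0`. Otherwise `exists_specPoly` gives `U, β`. By `dense_reg` (with `W = P`, open and
nonempty) there is `x₁ ∈ P` with `y₁ = β x₁ ∉ crit U β`; `sep_finite` for `fib U β y₁` gives `b₀ ∈ alB v`. `alB_coef` for
`B = Fin.cons b₀ β` gives `q ≠ 0` with `q * P' ∈ Coef v` for `P' ∈ adjoin (range B)`. `e = q * (D ∘ β)`. Then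
`e ∈ ClK K univ`, `e h ∈ ClK K (Coef v)` (`q` is bounded on `K`). For `W ⊆ K` open, nonempty: the open set
`W' = {x ∈ W | q x ≠ 0}` is nonempty (`ident`); if `D ∘ β = 0` on `W'`: take a regular `x ∈ W'` (`hP.reg`), `reg_local` gives
`W'' ⊆ W'` with `β '' W''` open nonempty in the ball, so `D = 0` on the ball by `ident_poly`, contradiction to
`D y₁ ≠ 0`. -/

namespace Pool.Agent.MP_fe3720.BB

open Topology RR Filter

variable {X : Type} [MetricSpace X] [ProperSpace X] [PreconnectedSpace X]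
  {O : Subalgebra ℂ (X → ℂ)} {m N : ℕ} {G : Fin N → O}

private theorem prod_do {E : Type} [NormedAddCommGroup E] [NormedSpace ℂ E] {ι : Type}
    {S : Set E} (s : Finset ι) (f : ι → E → ℂ) (h : ∀ i ∈ s, DifferentiableOn ℂ (f i) S) :
    DifferentiableOn ℂ (fun e => ∏ i ∈ s, f i e) S := by
  classical
  induction s using Finset.induction with
  | empty =>
    simp only [Finset.prod_empty]
    exact differentiableOn_const _
  | insert i s hi ih =>
    simp only [Finset.prod_insert hi]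
    exact (h i (Finset.mem_insert_self i s)).mul
      (ih fun j hj => h j (Finset.mem_insert_of_mem hj))

private theorem det_do {E : Type} [NormedAddCommGroup E] [NormedSpace ℂ E] {J : ℕ}
    {S : Set E} {A : E → Matrix (Fin J) (Fin J) ℂ}
    (hA : ∀ i j, DifferentiableOn ℂ (fun e => A e i j) S) :
    DifferentiableOn ℂ (fun e => (A e).det) S := by
  simp only [Matrix.det_apply]
  refine DifferentiableOn.fun_sum fun σ _ => ?_
  refine DifferentiableOn.const_smul ?_ _
  exact prod_do _ (fun i e => A e (σ i) i) fun i _ => hA _ _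

private theorem adj_do {E : Type} [NormedAddCommGroup E] [NormedSpace ℂ E] {J : ℕ}
    {S : Set E} {A : E → Matrix (Fin J) (Fin J) ℂ}
    (hA : ∀ i j, DifferentiableOn ℂ (fun e => A e i j) S) (i j : Fin J) :
    DifferentiableOn ℂ (fun e => (A e).adjugate i j) S := by
  simp only [Matrix.adjugate_apply]
  refine det_do fun k l => ?_
  by_cases h : k = j
  · subst h
    simp only [Matrix.updateRow_self]
    exact differentiableOn_const _
  · simp only [Matrix.updateRow_ne h]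
    exact hA k l

theorem trace_mult (hS : SD0 m O G) {U : Set X} {β : Fin m → O} (hP : SpecPoly U β)
    {y₁ : Fin m → ℂ} (hy₁ : y₁ ∈ Metric.ball 0 1) (hy₁c : y₁ ∉ crit U β) {b₀ : O}
    (hb₀ : Set.InjOn b₀.1 (fib U β y₁)) :
    ∃ D : (Fin m → ℂ) → ℂ, DifferentiableOn ℂ D (Metric.ball 0 1) ∧ D y₁ ≠ 0 ∧
      ∀ h : O, ∃ (l : ℕ) (H : Fin l → (Fin m → ℂ) → ℂ),
        (∀ k, DifferentiableOn ℂ (H k) (Metric.ball 0 1)) ∧
        ∀ x ∈ U, (∀ i, ‖(β i) x‖ < 1) →
          D (fun i => (β i) x) * h x = ∑ k : Fin l, b₀ x ^ (k : ℕ) * H k (fun i => (β i) x) := by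
  classical
  choose τ hτ1 hτ2 using fun h : O => glob_trace hS hP h
  have hfin : ∀ y ∈ Metric.ball (0 : Fin m → ℂ) 1, y ∉ crit U β → (fib U β y).Finite :=
    fun y hy hyc => fib_finite hS hP hy hyc
  have hsum : ∀ (h : O) (y : Fin m → ℂ) (hy : y ∈ Metric.ball (0 : Fin m → ℂ) 1)
      (hyc : y ∉ crit U β), τ h y = ∑ x ∈ (hfin y hy hyc).toFinset, h x := by
    intro h y hy hyc
    rw [hτ2 h y hy hyc, finsum_mem_eq_finite_toFinset_sum _ (hfin y hy hyc)]
  obtain ⟨l, hl⟩ := int_const (τ := τ 1) (hτ1 1).continuousOn (D := (crit U β)ᶜ)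
    (fun W _ hW hne => crit_dense hS U β hW hne) (fun y hy hyc => by
      refine ⟨(hfin y hy hyc).toFinset.card, ?_⟩
      rw [hsum 1 y hy hyc]
      have : ∀ x : X, (1 : O) x = 1 := fun x => rfl
      simp [this])
  have hcard : ∀ (y : Fin m → ℂ) (hy : y ∈ Metric.ball (0 : Fin m → ℂ) 1)
      (hyc : y ∉ crit U β), (hfin y hy hyc).toFinset.card = l := by
    intro y hy hyc
    have h1 := hl y hy
    rw [hsum 1 y hy hyc] at h1
    have h2 : ∀ x : X, (1 : O) x = 1 := fun x => rfl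
    simp only [h2, Finset.sum_const, nsmul_eq_mul, mul_one] at h1
    exact_mod_cast h1
  let M : (Fin m → ℂ) → Matrix (Fin l) (Fin l) ℂ := fun y =>
    Matrix.of fun j k => τ (b₀ ^ ((j : ℕ) + (k : ℕ))) y
  have hMd : ∀ i j, DifferentiableOn ℂ (fun y => M y i j) (Metric.ball 0 1) := fun i j => hτ1 _
  have hpow : ∀ (n : ℕ) (x : X), (b₀ ^ n : O) x = b₀ x ^ n := by
    intro n x
    rfl
  have hM : ∀ (y : Fin m → ℂ) (hy : y ∈ Metric.ball (0 : Fin m → ℂ) 1)
      (hyc : y ∉ crit U β), ∀ j k, M y j k =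
        ∑ x ∈ (hfin y hy hyc).toFinset, b₀ x ^ ((j : ℕ) + (k : ℕ)) := by
    intro y hy hyc j k
    show τ _ y = _
    rw [hsum _ y hy hyc]
    exact Finset.sum_congr rfl fun x _ => hpow _ x
  refine ⟨fun y => (M y).det, det_do hMd, ?_, fun h => ?_⟩
  · refine tr_det (hfin y₁ hy₁ hy₁c).toFinset b₀.1 (hcard y₁ hy₁ hy₁c) (M y₁) (hM y₁ hy₁ hy₁c) ?_
    rw [Set.Finite.coe_toFinset]
    exact hb₀
  · let H : Fin l → (Fin m → ℂ) → ℂ := fun k y =>
      ∑ j : Fin l, (M y).adjugate k j * τ (h * b₀ ^ (j : ℕ)) y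
    have hHd : ∀ k, DifferentiableOn ℂ (H k) (Metric.ball 0 1) := fun k =>
      DifferentiableOn.fun_sum fun j _ => (adj_do hMd k j).mul (hτ1 _)
    refine ⟨l, H, hHd, ?_⟩
    have hβc : Continuous (fun (x : X) (i : Fin m) => (β i) x) := cont_beta hS β
    set P : Set X := {x | x ∈ U ∧ (fun i => (β i) x) ∈ Metric.ball (0 : Fin m → ℂ) 1} with hPdef
    have hPo : IsOpen P := hP.opn.inter (Metric.isOpen_ball.preimage hβc)
    have hmaps : Set.MapsTo (fun (x : X) (i : Fin m) => (β i) x) P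
        (Metric.ball (0 : Fin m → ℂ) 1) := fun x hx => hx.2
    have hc : ContinuousOn (fun x => (M (fun i => (β i) x)).det * h x -
        ∑ k : Fin l, b₀ x ^ (k : ℕ) * H k (fun i => (β i) x)) P := by
      refine ContinuousOn.sub (ContinuousOn.mul ?_ (cont hS h).continuousOn) ?_
      · exact (det_do hMd).continuousOn.comp hβc.continuousOn hmaps
      · refine continuousOn_finsetSum _ fun k _ => ContinuousOn.mul
          ((cont hS b₀).pow _).continuousOn ?_
        exact (hHd k).continuousOn.comp hβc.continuousOn hmaps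
    have hzero : ∀ x ∈ P, (M (fun i => (β i) x)).det * h x -
        ∑ k : Fin l, b₀ x ^ (k : ℕ) * H k (fun i => (β i) x) = 0 := by
      intro x hx
      by_contra hne
      have hWo := hc.isOpen_inter_preimage hPo (isOpen_compl_singleton (x := (0 : ℂ)))
      obtain ⟨z, ⟨hzP, hz⟩, -, hzc⟩ := dense_reg hS hP hWo ⟨x, hx, hne⟩
      refine hz ?_
      set y : Fin m → ℂ := fun i => (β i) z with hy
      have hyb : y ∈ Metric.ball (0 : Fin m → ℂ) 1 := hzP.2
      have hzf : z ∈ (hfin y hyb hzc).toFinset := by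
        rw [Set.Finite.mem_toFinset]
        exact ⟨hzP.1, fun i => rfl⟩
      have h1 := tr_alg (hfin y hyb hzc).toFinset b₀.1 h.1 (hcard y hyb hzc) (M y)
        (hM y hyb hzc) (fun j => τ (h * b₀ ^ (j : ℕ)) y) (fun j => by
          rw [hsum _ y hyb hzc]
          exact Finset.sum_congr rfl fun x _ => rfl) hzf
      show (M y).det * h z - ∑ k : Fin l, b₀ z ^ (k : ℕ) * H k y = 0
      rw [h1, sub_eq_zero]
      refine Finset.sum_congr rfl fun k _ => ?_
      rw [Finset.mul_sum]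
      exact Finset.sum_congr rfl fun j _ => by ring
    intro x hxU hx
    have := hzero x ⟨hxU, by rw [mem_ball_zero_iff, pi_norm_lt_iff one_pos]; exact hx⟩
    exact sub_eq_zero.mp this

theorem aeval_apply {n : ℕ} (β : Fin n → O) (Q : MvPolynomial (Fin n) ℂ) (x : X) :
    (MvPolynomial.aeval β Q : O) x = MvPolynomial.eval (fun i => (β i) x) Q := by
  let ev : O →ₐ[ℂ] ℂ := (Pi.evalAlgHom ℂ (fun _ : X => ℂ) x).comp O.val
  have h1 := congrArg (fun f => f Q) (MvPolynomial.comp_aeval (f := β) ev)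
  exact h1

theorem hol_clK (hO : IsClosedAlg O) {β : Fin m → O} {K : Set X} (hK : IsCompact K)
    (hβ : ∀ i, ∀ x ∈ K, ‖(β i) x‖ < 1) {H : (Fin m → ℂ) → ℂ}
    (hH : DifferentiableOn ℂ H (Metric.ball 0 1)) :
    (fun x => H (fun i => (β i) x)) ∈ ClK K (Algebra.adjoin ℂ (Set.range β) : Set O) := by
  intro ε hε
  obtain ⟨r, hr, hrK⟩ : ∃ r : ℝ, r < 1 ∧ ∀ x ∈ K, ‖(fun i => (β i) x : Fin m → ℂ)‖ ≤ r := by
    rcases K.eq_empty_or_nonempty with rfl | hne
    · exact ⟨0, one_pos, fun x hx => absurd hx (Set.notMem_empty x)⟩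
    · have hc : Continuous (fun x => ‖(fun i => (β i) x : Fin m → ℂ)‖) :=
        (continuous_pi fun i => hO.cont _ (β i).2).norm
      obtain ⟨x₀, hx₀, hmax⟩ := hK.exists_isMaxOn hne hc.continuousOn
      refine ⟨_, ?_, fun x hx => hmax hx⟩
      rw [pi_norm_lt_iff one_pos]
      exact fun i => hβ i x₀ hx₀
  obtain ⟨Q, hQ⟩ := poly_approx hH hr hε
  refine ⟨MvPolynomial.aeval β Q, ?_, fun x hx => ?_⟩
  · rw [Algebra.adjoin_range_eq_range_aeval]
    exact ⟨Q, rfl⟩
  · rw [aeval_apply]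
    exact hQ _ (hrK x hx)

theorem mult (hS : SD0 m O G) (hI : Interp O) (hKT : KTrans O) {v : Derivation ℂ O O} {f s : O}
    (hsl : IsSlice v f s) {K : Set X} (hK : IsCompact K) :
    ∃ e : X → ℂ, e ∈ ClK K (Set.univ : Set O) ∧
      (∀ h : O, (fun x => e x * h x) ∈ ClK K (Coef v)) ∧
      ∀ W ⊆ K, IsOpen W → W.Nonempty → ∃ x ∈ W, e x ≠ 0 := by
  have hv0 : v ≠ 0 := by
    intro h0
    have := hsl.ne
    rw [h0] at this
    exact this rfl
  rcases K.eq_empty_or_nonempty with rfl | hne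
  · refine ⟨0, clK_of_mem (a := 0) trivial, fun h ε hε => ⟨0, ?_, fun x hx =>
      absurd hx (Set.notMem_empty x)⟩, fun W hW _ hne => ?_⟩
    · show (0 : O) • v ∈ clLie O
      rw [zero_smul]
      exact clLie_zero
    · obtain ⟨x, hx⟩ := hne
      exact absurd (hW hx) (Set.notMem_empty x)
  obtain ⟨U, β, hP, hβ, hKU, hβK⟩ := exists_specPoly hS hI hKT hsl.complete hv0 hsl.first
    hsl.nonconst hK hne
  obtain ⟨x₀, hx₀⟩ := hne
  have hβc : Continuous (fun (x : X) (i : Fin m) => (β i) x) := cont_beta hS β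
  have hball : ∀ x, (∀ i, ‖(β i) x‖ < 1) →
      (fun i => (β i) x) ∈ Metric.ball (0 : Fin m → ℂ) 1 := fun x hx => by
    rw [mem_ball_zero_iff, pi_norm_lt_iff one_pos]
    exact hx
  set P : Set X := {x | x ∈ U ∧ (fun i => (β i) x) ∈ Metric.ball (0 : Fin m → ℂ) 1} with hPdef
  have hPo : IsOpen P := hP.opn.inter (Metric.isOpen_ball.preimage hβc)
  have hKP : K ⊆ P := fun x hx => ⟨hKU hx, hball x fun i => hβK i x hx⟩
  obtain ⟨x₁, hx₁P, -, hx₁c⟩ := dense_reg hS hP hPo ⟨x₀, hKP hx₀⟩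
  obtain ⟨b₀, hb₀, hinj⟩ := sep_finite hKT hsl.first hsl.nonconst
    (fib_finite hS hP hx₁P.2 hx₁c)
  obtain ⟨D, hD, hD0, hDh⟩ := trace_mult hS hP hx₁P.2 hx₁c hinj
  set B : Fin (m + 1) → O := Fin.cons b₀ β with hB
  obtain ⟨q, hq0, hq⟩ := alB_coef hS hsl.complete hsl.slice hsl.ne
    (fun φ θ => link_mid hS hI hKT hsl.complete hv0 hsl.first hsl.nonconst φ θ) B (by
      intro i
      refine Fin.cases ?_ (fun i => ?_) i
      · exact hb₀
      · exact hβ i)
  have hO := hS.alg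
  have hsubB : Algebra.adjoin ℂ (Set.range β) ≤ Algebra.adjoin ℂ (Set.range B) := by
    refine Algebra.adjoin_mono ?_
    rintro _ ⟨i, rfl⟩
    exact ⟨i.succ, rfl⟩
  have hb₀B : b₀ ∈ Algebra.adjoin ℂ (Set.range B) := Algebra.subset_adjoin ⟨0, rfl⟩
  refine ⟨fun x => q x * D (fun i => (β i) x), ?_, fun h => ?_, fun W hWK hWo hWne => ?_⟩
  · have h1 : q.1 ∈ ClK K ((⊤ : Subalgebra ℂ O) : Set O) := clK_of_mem trivial
    have h2 : (fun x => D (fun i => (β i) x)) ∈ ClK K ((⊤ : Subalgebra ℂ O) : Set O) :=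
      clK_mono (fun _ _ => trivial) (hol_clK hO hK hβK hD)
    exact clK_mono (fun _ _ => trivial) (clK_mul hO hK h1 h2)
  · obtain ⟨l, H, hH, hid⟩ := hDh h
    have hF : (∑ k : Fin l, fun x : X => b₀ x ^ (k : ℕ) * H k (fun i => (β i) x)) ∈
        ClK K (Algebra.adjoin ℂ (Set.range B) : Set O) := by
      refine clK_sum _ _ fun k _ => ?_
      have h1 : (b₀ ^ (k : ℕ) : O).1 ∈ ClK K (Algebra.adjoin ℂ (Set.range B) : Set O) :=
        clK_of_mem (Subalgebra.pow_mem _ hb₀B _)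
      exact clK_mul hO hK h1 (clK_mono hsubB (hol_clK hO hK hβK (hH k)))
    obtain ⟨C, hC0, hC⟩ := clK_bounded hO hK (clK_of_mem (K := K) (A := Set.univ) (a := q) trivial)
    intro ε hε
    obtain ⟨a, ha, h1⟩ := hF (ε / (C + 1)) (by positivity)
    refine ⟨q * a, hq a ha, fun x hx => ?_⟩
    have h2 := h1 x hx
    rw [Finset.sum_apply] at h2
    rw [← hid x (hKU hx) fun i => hβK i x hx] at h2
    have h3 : q x * D (fun i => (β i) x) * h x - (q * a : O) x =
        q x * (D (fun i => (β i) x) * h x - a x) := by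
      show q x * D (fun i => (β i) x) * h x - q x * a x = _
      ring
    show ‖q x * D (fun i => (β i) x) * h x - (q * a : O) x‖ < ε
    rw [h3, norm_mul]
    have h4 := hC x hx
    calc ‖q x‖ * ‖D (fun i => (β i) x) * h x - a x‖
        ≤ C * ‖D (fun i => (β i) x) * h x - a x‖ := by gcongr
      _ ≤ C * (ε / (C + 1)) := by gcongr
      _ < (C + 1) * (ε / (C + 1)) := by
          have : 0 < ε / (C + 1) := by positivity
          nlinarith
      _ = ε := by field_simp
  · by_contra hcon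
    push Not at hcon
    have hW'o : IsOpen (W ∩ {x | q x ≠ 0}) :=
      hWo.inter (isOpen_ne_fun (cont hS q) continuous_const)
    have hW'ne : (W ∩ {x | q x ≠ 0}).Nonempty := by
      by_contra hemp
      refine hq0 (ident hS hWo hWne fun x hx => ?_)
      by_contra hqx
      exact hemp ⟨x, hx, hqx⟩
    obtain ⟨x, ⟨hxW, hxq⟩, hreg⟩ := hP.reg.inter_open_nonempty _ hW'o hW'ne
    obtain ⟨W'', hW''sub, hW''o, hxW'', -, himg, -, -⟩ := reg_local hS β hreg
      (hW'o.mem_nhds ⟨hxW, hxq⟩)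
    have h0 := ident_poly hD himg ⟨_, x, hxW'', rfl⟩ (by
      rintro _ ⟨z, hz, rfl⟩
      exact (hKP (hWK (hW''sub hz).1)).2) (by
      rintro _ ⟨z, hz, rfl⟩
      have h1 := hcon z (hW''sub hz).1
      exact (mul_eq_zero.mp h1).resolve_left (hW''sub hz).2)
    exact hD0 (h0 _ hx₁P.2)

end Pool.Agent.MP_fe3720.BB
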