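import Pool.Agent.Work.MP_fe3720_an.B.PertA
import Pool.Agent.Work.MP_fe3720_an.B.MultM

/-! # Module GoodF: spanning fields with multipliers

By `span_everywhere` at `x₀`: `φ i`, `f j` with `det ((φ i).push v (f j)) x₀ ≠ 0`. Put `θ i = (φ i).symm`. Let `K₁` be compact with
`θ i '' K ⊆ interior K₁` for all `i` (`exists_compact_superset`, finite union). Let `e` be from `mult` for `K₁`. For each `i`,
`pert_aut` with `S = {f j}` and `ε` small gives `θ' i` with `(θ' i).symm.push v (f j) x₀` close to `(φ i).push v (f j) x₀`, so that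
the determinant is still `≠ 0` (continuity of the determinant of matrices), `θ' i` maps `K` into `K₁` and
`e (θ' i x₀) ≠ 0`. Put `u i = (θ' i).symm.push v`, `e' i = e ∘ θ' i`: `clK_comp`, `clK_coef_push`. -/

namespace Pool.Agent.MP_fe3720.BB

open Topology RR Filter

variable {X : Type} [MetricSpace X] [ProperSpace X] [PreconnectedSpace X]
  {O : Subalgebra ℂ (X → ℂ)} {m N : ℕ} {G : Fin N → O}

theorem good_fields (hS : SD0 m O G) (hI : Interp O) (hKT : KTrans O) {v : Derivation ℂ O O}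
    {f s : O} (hsl : IsSlice v f s) {K : Set X} (hK : IsCompact K) {x₀ : X} (hx₀ : x₀ ∈ K) :
    ∃ (u : Fin m → Derivation ℂ O O) (e : Fin m → X → ℂ) (g : Fin m → O), (∀ i, IsVF (u i)) ∧
      (∀ i, e i ∈ ClK K (Set.univ : Set O)) ∧
      (∀ i, ∀ h : O, (fun x => e i x * h x) ∈ ClK K (Coef (u i))) ∧ (∀ i, e i x₀ ≠ 0) ∧
      (Matrix.of fun i j => (u i (g j)) x₀).det ≠ 0 := by
  classical
  have hv0 : v ≠ 0 := by
    intro h0
    have := hsl.ne
    rw [h0] at this
    exact this rfl
  obtain ⟨Φ, hΦ⟩ := exists_flow hS hsl.complete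
  have hnz := exists_nz hv0
  obtain ⟨φ, g, hdet⟩ := span_everywhere hS hKT hsl.complete.1 hΦ hnz x₀
  have hUc : IsCompact (⋃ i, (fun x => (φ i).symm x) '' K) :=
    isCompact_iUnion fun i => hK.image (φ i).symm.toHomeo.continuous
  obtain ⟨K₁, hK₁, hsub⟩ := exists_compact_superset hUc
  obtain ⟨e, he, heC, heN⟩ := mult hS hI hKT hsl hK₁
  -- continuity of the determinant
  have hc : Continuous (fun M : Fin m → Fin m → ℂ => (Matrix.of M).det) := by
    refine Continuous.matrix_det ?_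
    exact continuous_id
  have hopen : IsOpen {M : Fin m → Fin m → ℂ | (Matrix.of M).det ≠ 0} :=
    isOpen_ne_fun hc continuous_const
  obtain ⟨ε, hε, hball⟩ := Metric.isOpen_iff.mp hopen
    (fun i j => ((φ i).push v (g j)) x₀) hdet
  choose θ' hθ1 hθ2 hθ3 using fun i => pert_aut hS hKT hsl.complete.1 hΦ hnz hK heN
    (φ i).symm (fun x hx => hsub (Set.mem_iUnion.mpr ⟨i, x, hx, rfl⟩)) hx₀
    (Finset.univ.image g) hε
  refine ⟨fun i => (θ' i).symm.push v, fun i x => e (θ' i x), g,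
    fun i => (θ' i).symm.isVF_push hsl.complete.1, fun i => clK_comp he (θ' i) (hθ1 i),
    fun i h => clK_coef_push heC (θ' i) (hθ1 i) h, hθ2, ?_⟩
  refine hball (a := fun i j => ((θ' i).symm.push v (g j)) x₀) ?_
  rw [Metric.mem_ball, dist_pi_lt_iff hε]
  intro i
  rw [dist_pi_lt_iff hε]
  intro j
  rw [dist_eq_norm]
  exact hθ3 i (g j) (Finset.mem_image_of_mem g (Finset.mem_univ j))

end Pool.Agent.MP_fe3720.BB
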