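import Pool.Agent.Work.MP_fe3720_an.B.RRI

/-! # Module NZEv: every point is moved by a conjugate of `v`; `f` is unbounded

* `nonCompact`: there is `p` with `NZ v p` (as `v ≠ 0`); its orbit leaves every compact set (`orbit_unbounded`).
* `nz_dense`: `{x | NZ v x}` meets every nonempty open set: otherwise all `v h` vanish on an open set, so
  `v h = 0` by `ident`, so `v = 0`.
* `nz_orbit`: let `K` be from `far_tuple` for `k = 1`. For `x ∉ K` take `x' ∉ K` with `NZ v x'` (`nz_dense`,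
  `Kᶜ` is open and nonempty) and `φ` with `φ x = x'`. For `x ∈ K`: suppose `¬ NZ v (φ x)` for all `φ`. Let `w` be
  complete with `NZ w x` (hypothesis `hT`), `Ψ` its flow (`exists_flow`); for some `t`, `Ψ t x ∉ K`
  (`orbit_unbounded`); by the first case there is `φ` with `NZ v (φ (Ψ t x))`; `φ.comp (Ψ t)` contradicts
  the assumption.
* `unbounded_B`: for every `M` there is `a` with `M < ‖f a‖` and `NZ v a`. Suppose `‖f‖ ≤ M` on `{NZ v}`, so
  everywhere (density, continuity). Let `K` be from `far_tuple` for `k = 2`, `p` with `NZ v p`, `Φ` the flow of `v`. Choose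
  `t` with `p' = Φ t p ∉ K`, and `t'` with `p'' = Φ t' p ∉ K ∪ {p'}` (`orbit_unbounded`). Choose `y', y'' ∉ K` with
  `f y' ≠ f y''` (otherwise `f` is constant on the nonempty open set `Kᶜ`, so constant by `ident`;
  contradiction to `hfc`). Take `φ` with `φ p' = y'`, `φ p'' = y''`. `s ↦ f (φ (Φ s p))` is entire
  (`IsFlow.deriv` for `φ.pull f`) and bounded by `M`, so constant by Liouville
  (`Differentiable.apply_eq_apply_of_bounded`), but it takes the values `f y' ≠ f y''`. Contradiction.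
* `exists_seqB`: recursively by `unbounded_B` (`‖f (a n)‖ > n`, larger than the previous ones, and larger than
  the maximum of `‖f‖` on `K n`).
* `exists_seqC`: take `p` with `NZ v p`; the points of the orbit `Φ t p` have `f = f p`. Choose recursively
  `c n = Φ (t n) p` outside `K n ∪ {previous points}`. -/

namespace Pool.Agent.MP_fe3720.BB

open Topology RR Filter

variable {X : Type} [MetricSpace X] [ProperSpace X] [PreconnectedSpace X]
  {O : Subalgebra ℂ (X → ℂ)} {m N : ℕ} {G : Fin N → O}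

theorem exists_nz {v : Derivation ℂ O O} (hv0 : v ≠ 0) : ∃ p, NZ v p := by
  by_contra hcon
  push Not at hcon
  refine hv0 (Derivation.ext fun g => ?_)
  apply Subtype.ext
  funext x
  by_contra h
  exact hcon x ⟨g, h⟩

theorem nonCompact (hS : SD0 m O G) {v : Derivation ℂ O O} (hv : IsCompleteVF v) (hv0 : v ≠ 0)
    {K : Set X} (hK : IsCompact K) : ∃ x, x ∉ K := by
  obtain ⟨p, hp⟩ := exists_nz hv0
  obtain ⟨Φ, hΦ⟩ := exists_flow hS hv
  obtain ⟨t, ht⟩ := orbit_unbounded hS hΦ hp hK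
  exact ⟨_, ht⟩

theorem nz_dense (hS : SD0 m O G) {v : Derivation ℂ O O} (hv0 : v ≠ 0) {U : Set X}
    (hU : IsOpen U) (hne : U.Nonempty) : ∃ x ∈ U, NZ v x := by
  by_contra hcon
  push Not at hcon
  refine hv0 (Derivation.ext fun g => ?_)
  refine ident hS hU hne fun x hx => ?_
  by_contra h
  exact hcon x hx ⟨g, h⟩

theorem nz_orbit (hS : SD0 m O G) (hI : Interp O) {v : Derivation ℂ O O} (hv : IsCompleteVF v)
    (hv0 : v ≠ 0) (hT : ∀ x : X, ∃ w : Derivation ℂ O O, IsCompleteVF w ∧ NZ w x) (x : X) :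
    ∃ φ : HolAut O, NZ v (φ x) := by
  have hnc : ∀ K : Set X, IsCompact K → ∃ x, x ∉ K := fun K hK => nonCompact hS hv hv0 hK
  obtain ⟨K, hK, hfar⟩ := far_tuple hI hnc 1
  have key : ∀ x, x ∉ K → ∃ φ : HolAut O, NZ v (φ x) := by
    intro x hx
    obtain ⟨x', hx', hnz⟩ := nz_dense hS hv0 hK.isClosed.isOpen_compl ⟨x, hx⟩
    obtain ⟨φ, hφ⟩ := hfar (fun _ => x) (fun _ => x')
      (fun a b _ => Subsingleton.elim a b) (fun a b _ => Subsingleton.elim a b)
      (fun _ => hx) (fun _ => hx')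
    refine ⟨φ, ?_⟩
    rw [hφ 0]
    exact hnz
  obtain ⟨w, hw, hwx⟩ := hT x
  obtain ⟨Ψ, hΨ⟩ := exists_flow hS hw
  obtain ⟨t, ht⟩ := orbit_unbounded hS hΨ hwx hK
  obtain ⟨φ, hφ⟩ := key _ ht
  exact ⟨φ.comp (Ψ t), hφ⟩

theorem unbounded_B (hS : SD0 m O G) (hI : Interp O) {v : Derivation ℂ O O}
    (hv : IsCompleteVF v) (hv0 : v ≠ 0) {f : O} (hfc : ∃ x y, f x ≠ f y) (M : ℝ) :
    ∃ a, M < ‖f a‖ ∧ NZ v a := by
  by_contra hcon
  push Not at hcon
  have hbd : ∀ x, ‖f x‖ ≤ M := by
    intro x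
    by_contra h
    push Not at h
    have hopen : IsOpen {x | M < ‖f x‖} := isOpen_lt continuous_const (cont hS f).norm
    obtain ⟨a, ha, hnz⟩ := nz_dense hS hv0 hopen ⟨x, h⟩
    exact hcon a ha hnz
  have hnc : ∀ K : Set X, IsCompact K → ∃ x, x ∉ K := fun K hK => nonCompact hS hv hv0 hK
  obtain ⟨K, hK, hfar⟩ := far_tuple hI hnc 2
  obtain ⟨p, hp⟩ := exists_nz hv0
  obtain ⟨Φ, hΦ⟩ := exists_flow hS hv
  obtain ⟨t, ht⟩ := orbit_unbounded hS hΦ hp hK
  obtain ⟨t', ht'⟩ := orbit_unbounded hS hΦ hp (hK.insert (Φ t p))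
  have ht'K : Φ t' p ∉ K := fun h => ht' (Or.inr h)
  have ht'n : Φ t p ≠ Φ t' p := fun h => ht' (Or.inl h.symm)
  obtain ⟨y', hy', y'', hy'', hne⟩ : ∃ y' ∉ K, ∃ y'' ∉ K, f y' ≠ f y'' := by
    by_contra hc
    push Not at hc
    obtain ⟨a, b, hab⟩ := hfc
    have h0 : f - algebraMap ℂ O (f (Φ t p)) = 0 := by
      refine ident hS hK.isClosed.isOpen_compl ⟨_, ht⟩ fun x hx => ?_
      show f x - f (Φ t p) = 0
      rw [hc x hx _ ht, sub_self]
    have h1 : ∀ x, f x = f (Φ t p) := by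
      intro x
      have h2 := congrFun (congrArg Subtype.val h0) x
      exact sub_eq_zero.mp h2
    exact hab (by rw [h1 a, h1 b])
  have hyn : y' ≠ y'' := fun h => hne (by rw [h])
  obtain ⟨φ, hφ⟩ := hfar ![Φ t p, Φ t' p] ![y', y'']
    (by
      intro i j hij
      fin_cases i <;> fin_cases j <;> simp_all)
    (by
      intro i j hij
      fin_cases i <;> fin_cases j <;> simp_all)
    (by
      intro i
      fin_cases i <;> simp [ht, ht'K])
    (by
      intro i
      fin_cases i <;> simp [hy', hy''])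
  have hφ0 : φ (Φ t p) = y' := hφ 0
  have hφ1 : φ (Φ t' p) = y'' := hφ 1
  have hdiff : Differentiable ℂ (fun s => f (φ (Φ s p))) := fun s =>
    (hΦ.deriv (φ.pull f) p s).differentiableAt
  have hb : Bornology.IsBounded (Set.range (fun s => f (φ (Φ s p)))) := by
    rw [isBounded_iff_forall_norm_le]
    refine ⟨M, ?_⟩
    rintro _ ⟨s, rfl⟩
    exact hbd _
  have h1 := hdiff.apply_eq_apply_of_bounded hb t t'
  simp only [hφ0, hφ1] at h1
  exact hne h1

theorem exists_seqB (hS : SD0 m O G) (hI : Interp O) {v : Derivation ℂ O O}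
    (hv : IsCompleteVF v) (hv0 : v ≠ 0) {f : O} (hfc : ∃ x y, f x ≠ f y) :
    ∃ a : ℕ → X, Function.Injective (fun n => f (a n)) ∧
      Tendsto (fun n => ‖f (a n)‖) atTop atTop ∧ (∀ n, NZ v (a n)) ∧
      Tendsto a atTop (cocompact X) := by
  choose c hc1 hc2 using fun M : ℝ => unbounded_B hS hI hv hv0 hfc M
  let a : ℕ → X := fun n => Nat.rec (c 0) (fun n x => c (max (n + 1) ‖f x‖)) n
  have hstep : ∀ n : ℕ, max ((n : ℝ) + 1) ‖f (a n)‖ < ‖f (a (n + 1))‖ := fun n => hc1 _
  have hmono : StrictMono (fun n => ‖f (a n)‖) :=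
    strictMono_nat_of_lt_succ fun n => (le_max_right _ _).trans_lt (hstep n)
  have hlarge : ∀ n : ℕ, (n : ℝ) ≤ ‖f (a n)‖ := by
    intro n
    cases n with
    | zero => simp
    | succ n =>
      push_cast
      exact ((le_max_left _ _).trans_lt (hstep n)).le
  have htend : Tendsto (fun n => ‖f (a n)‖) atTop atTop :=
    tendsto_atTop_mono hlarge tendsto_natCast_atTop_atTop
  refine ⟨a, fun i j hij => hmono.injective (congrArg norm hij), htend, fun n => ?_, ?_⟩
  · cases n with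
    | zero => exact hc2 _
    | succ n => exact hc2 _
  · rw [(hasBasis_cocompact).tendsto_right_iff]
    intro K hK
    obtain ⟨B, hB⟩ := hK.exists_bound_of_continuousOn (cont hS f).continuousOn
    filter_upwards [htend.eventually_gt_atTop B] with n hn hmem
    exact absurd (hB _ hmem) (not_le.mpr hn)

theorem exists_seqC (hS : SD0 m O G) {v : Derivation ℂ O O} (hv : IsCompleteVF v)
    (hv0 : v ≠ 0) {f : O} (hf : v f = 0) :
    ∃ c : ℕ → X, Function.Injective c ∧ (∃ C : ℝ, ∀ n, ‖f (c n)‖ ≤ C) ∧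
      Tendsto c atTop (cocompact X) := by
  obtain ⟨p, hp⟩ := exists_nz hv0
  obtain ⟨Φ, hΦ⟩ := exists_flow hS hv
  choose t ht using fun r : ℝ => orbit_unbounded hS hΦ hp (isCompact_closedBall p r)
  let s : ℕ → ℂ := fun n => Nat.rec (t 0) (fun n x => t (max (n + 1) (dist (Φ x p) p))) n
  have hstep : ∀ n : ℕ, max ((n : ℝ) + 1) (dist (Φ (s n) p) p) < dist (Φ (s (n + 1)) p) p := by
    intro n
    have h := ht (max ((n : ℝ) + 1) (dist (Φ (s n) p) p))
    rw [Metric.mem_closedBall, not_le] at h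
    exact h
  have hmono : StrictMono (fun n => dist (Φ (s n) p) p) :=
    strictMono_nat_of_lt_succ fun n => (le_max_right _ _).trans_lt (hstep n)
  have hlarge : ∀ n : ℕ, (n : ℝ) ≤ dist (Φ (s n) p) p := by
    intro n
    cases n with
    | zero => simp
    | succ n =>
      push_cast
      exact ((le_max_left _ _).trans_lt (hstep n)).le
  have htend : Tendsto (fun n => dist (Φ (s n) p) p) atTop atTop :=
    tendsto_atTop_mono hlarge tendsto_natCast_atTop_atTop
  refine ⟨fun n => Φ (s n) p, fun i j hij => hmono.injective (by simp only [] at hij ⊢; rw [hij]),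
    ⟨‖f p‖, fun n => by rw [hΦ.inv hf]⟩, ?_⟩
  rw [(hasBasis_cocompact).tendsto_right_iff]
  intro K hK
  obtain ⟨B, hB⟩ := hK.isBounded.subset_closedBall p
  filter_upwards [htend.eventually_gt_atTop B] with n hn hmem
  exact absurd (Metric.mem_closedBall.mp (hB hmem)) (not_le.mpr hn)

end Pool.Agent.MP_fe3720.BB
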