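import Pool.Agent.Work.MP_fe3720_an.B.CoSpan
import Pool.Agent.Work.MP_fe3720_an.B.NZEv

/-! # Module HullB: polyhedra given by finitely many functions of `alB v`

* `pull_mem_alB`: `ψ.pull f ∈ alB v`: `ψ.symm.push v (ψ.pull f) = ψ.pull (v (ψ.symm.pull (ψ.pull f))) = ψ.pull (v f) = 0`
  (`push_eq`, `pull_symm_pull`).
* `hull_B`: let `K` be compact. There is a compact `L ⊇ K` such that for every `x ∉ L` there is `b ∈ alB v` with
  `‖b‖ < 1` on `K` and `‖b x‖ > 1`. Let `H = {x | ∀ b ∈ alB v, ∀ C, (∀ y ∈ K, ‖b y‖ ≤ C) → ‖b x‖ ≤ C}`. `H` is closed and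
  contains `K`. Claim: `H` is bounded. If not, there is an injective sequence `x n ∈ H` tending to `cocompact X`, and
  by `exists_seqB` a sequence `a n`; by `interp_multi` (with `ι = Unit`) there are `σ, τ, ψ` with `ψ (x (σ j)) = a (τ j)`;
  `b = ψ.pull f ∈ alB v` is bounded on `K` by some `C`, but `‖b (x (σ j))‖ = ‖f (a (τ j))‖ → ∞`; contradiction. So `L = H` is
  compact (`Metric.isCompact_of_isClosed_isBounded`). If `x ∉ H` there are `b, C` with `‖b‖ ≤ C` on `K`, `‖b x‖ > C`;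
  (`C ≥ 0` if `K` is nonempty; if `K` is empty take constants); divide by a number strictly between (`C < c < ‖b x‖`,
  `c > 0`).
* `tdl_of_local`: if every point of `S` has a neighbourhood where `b` is injective then `TDL b S`: on a
  preconnected `C ⊆ S` with `b` constant every point of `C` is isolated in `C`, so `C` is discrete and preconnected:
  subsingleton (`IsPreconnected.subsingleton` with a discrete topology or directly: for `x ∈ C` the set `{x}` is
  clopen in `C`: `isPreconnected_iff_subset_of_disjoint`…).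
* `tdl_mono`, `tdl_append`: adding functions keeps `TDL`.
* `polyData_base`: Let `L` be from `hull_B`, `U` open with compact closure, `L ⊆ U` (e.g. a ball or a thickening). For each
  `x ∈ frontier U` (compact) there is `b ∈ alB v` with `‖b‖ < 1` on `K`, `‖b x‖ > 1`, so also near `x`: finitely many
  `b 1, …, b n` suffice. For each `x ∈ closure U` take `ψ, W` from `co_local`; finitely many `W` cover `closure U`; add
  the functions `ε • (ψ i).pull f`, with `ε > 0` so small that they are `< 1` in norm on `K`. All of them together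
  satisfy `TDL` on `closure U` (injectivity near each point is not changed by the factor `ε`).
* `polyData_pad`: add the function `0`. -/

namespace Pool.Agent.MP_fe3720.BB

open Topology RR Filter

variable {X : Type} [MetricSpace X] [ProperSpace X] [PreconnectedSpace X]
  {O : Subalgebra ℂ (X → ℂ)} {m N : ℕ} {G : Fin N → O}

theorem pull_mem_alB {v : Derivation ℂ O O} {f : O} (hf : v f = 0) (ψ : HolAut O) :
    ψ.pull f ∈ alB v := by
  refine Algebra.subset_adjoin ⟨ψ.symm, ?_⟩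
  rw [HolAut.push_eq, HolAut.pull_symm_pull, hf, map_zero]

/-- a sequence leaving every compact set in an unbounded set -/
theorem exists_seq_unbounded (p : X) {H : Set X} (hH : ¬ Bornology.IsBounded H) :
    ∃ c : ℕ → X, Function.Injective c ∧ (∀ n, c n ∈ H) ∧ Tendsto c atTop (cocompact X) := by
  have h1 : ∀ r : ℝ, ∃ x ∈ H, r < dist x p := by
    intro r
    by_contra hcon
    push Not at hcon
    exact hH ((Metric.isBounded_iff_subset_closedBall p).mpr ⟨r, fun x hx => hcon x hx⟩)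
  choose c hcH hc using h1
  let s : ℕ → X := fun n => Nat.rec (c 0) (fun n x => c (max (n + 1) (dist x p))) n
  have hstep : ∀ n : ℕ, max ((n : ℝ) + 1) (dist (s n) p) < dist (s (n + 1)) p := fun n => hc _
  have hmono : StrictMono (fun n => dist (s n) p) :=
    strictMono_nat_of_lt_succ fun n => (le_max_right _ _).trans_lt (hstep n)
  have hlarge : ∀ n : ℕ, (n : ℝ) ≤ dist (s n) p := by
    intro n
    cases n with
    | zero => simp
    | succ n =>
      push_cast
      exact ((le_max_left _ _).trans_lt (hstep n)).le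
  have htend : Tendsto (fun n => dist (s n) p) atTop atTop :=
    tendsto_atTop_mono hlarge tendsto_natCast_atTop_atTop
  refine ⟨s, fun i j hij => hmono.injective (congrArg (fun z => dist z p) hij), fun n => ?_, ?_⟩
  · cases n with
    | zero => exact hcH _
    | succ n => exact hcH _
  rw [(hasBasis_cocompact).tendsto_right_iff]
  intro K hK
  obtain ⟨B, hB⟩ := hK.isBounded.subset_closedBall p
  filter_upwards [htend.eventually_gt_atTop B] with n hn hmem
  exact absurd (Metric.mem_closedBall.mp (hB hmem)) (not_le.mpr hn)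

theorem hull_B (hS : SD0 m O G) (hI : Interp O) {v : Derivation ℂ O O} (hv : IsCompleteVF v)
    (hv0 : v ≠ 0) {f : O} (hf : v f = 0) (hfc : ∃ x y, f x ≠ f y) {K : Set X}
    (hK : IsCompact K) : ∃ L : Set X, IsCompact L ∧ K ⊆ L ∧
      ∀ x ∉ L, ∃ b ∈ alB v, (∀ y ∈ K, ‖b y‖ < 1) ∧ 1 < ‖b x‖ := by
  set H : Set X := {x | ∀ b ∈ alB v, ∀ C : ℝ, (∀ y ∈ K, ‖b y‖ ≤ C) → ‖b x‖ ≤ C} with hH
  have hclosed : IsClosed H := by
    have : H = ⋂ b : O, ⋂ (_ : b ∈ alB v), ⋂ C : ℝ, ⋂ (_ : ∀ y ∈ K, ‖b y‖ ≤ C),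
        {x | ‖b x‖ ≤ C} := by
      ext x
      simp only [Set.mem_iInter]
      exact Iff.rfl
    rw [this]
    exact isClosed_iInter fun b => isClosed_iInter fun _ => isClosed_iInter fun C =>
      isClosed_iInter fun _ => isClosed_le (cont hS b).norm continuous_const
  have hbdd : Bornology.IsBounded H := by
    by_contra hcon
    obtain ⟨x₀, y₀, hxy⟩ := hfc
    obtain ⟨c, hcinj, hcH, hct⟩ := exists_seq_unbounded x₀ hcon
    obtain ⟨a, hainj, hat, -, hac⟩ := exists_seqB hS hI hv hv0 ⟨x₀, y₀, hxy⟩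
    obtain ⟨σ, τ, ψ, hσ, hτ, hψ⟩ := interp_multi hI (ι := Unit) (fun _ => c) (fun _ => a)
      (fun n i j _ => Subsingleton.elim i j) (fun _ => hct)
      (fun n i j _ => Subsingleton.elim i j) (fun _ => hac)
    obtain ⟨B, hB⟩ := hK.exists_bound_of_continuousOn (cont hS (ψ.pull f)).continuousOn
    have h1 : ∀ j, ‖f (a (τ j))‖ ≤ B := by
      intro j
      have h2 := hcH (σ j) (ψ.pull f) (pull_mem_alB hf ψ) B hB
      rw [← hψ () j]
      exact h2
    obtain ⟨j, hj⟩ := ((hat.comp hτ.tendsto_atTop).eventually_gt_atTop B).exists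
    exact absurd (h1 j) (not_le.mpr hj)
  refine ⟨H, Metric.isCompact_of_isClosed_isBounded hclosed hbdd,
    fun x hx b _ C hC => hC x hx, fun x hx => ?_⟩
  have h1 : ∃ b ∈ alB v, ∃ C : ℝ, (∀ y ∈ K, ‖b y‖ ≤ C) ∧ C < ‖b x‖ := by
    by_contra hcon
    push Not at hcon
    exact hx fun b hb C hC => hcon b hb C hC
  obtain ⟨b, hb, C, hC, hCx⟩ := h1
  obtain ⟨c, hc0, hCc, hcx⟩ : ∃ c : ℝ, 0 < c ∧ C < c ∧ c < ‖b x‖ ∨ (‖b x‖ = 0) := by
    rcases eq_or_lt_of_le (norm_nonneg (b x)) with h | h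
    · exact ⟨0, Or.inr h.symm⟩
    · obtain ⟨c, hc1, hc2⟩ := exists_between (max_lt h hCx)
      exact ⟨c, Or.inl ⟨(le_max_left _ _).trans_lt hc1, (le_max_right _ _).trans_lt hc1, hc2⟩⟩
  · refine ⟨(c : ℂ)⁻¹ • b, Subalgebra.smul_mem _ hb _, fun y hy => ?_, ?_⟩
    · show ‖(c : ℂ)⁻¹ * b y‖ < 1
      rw [norm_mul, norm_inv, Complex.norm_of_nonneg hc0.le, inv_mul_lt_iff₀ hc0, mul_one]
      exact (hC y hy).trans_lt hCc
    · show 1 < ‖(c : ℂ)⁻¹ * b x‖
      rw [norm_mul, norm_inv, Complex.norm_of_nonneg hc0.le, lt_inv_mul_iff₀ hc0, mul_one]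
      exact hcx
  · -- then `C < 0`, so `K` is empty
    rename_i h0
    have hK0 : ∀ y, y ∉ K := fun y hy => by
      have := (norm_nonneg (b y)).trans (hC y hy)
      linarith
    refine ⟨algebraMap ℂ O 2, Subalgebra.algebraMap_mem _ _, fun y hy => absurd hy (hK0 y), ?_⟩
    show 1 < ‖(2 : ℂ)‖
    simp

theorem tdl_of_local {n : ℕ} (b : Fin n → O) (S : Set X)
    (h : ∀ x ∈ S, ∃ W ∈ 𝓝 x, Set.InjOn (fun z i => (b i) z) W) : TDL b S := by
  classical
  intro C hCS hC hconst x hx y hy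
  have hcont : ContinuousOn (fun z => decide (z = x)) C := by
    intro z hz
    obtain ⟨W, hW, hinj⟩ := h z (hCS hz)
    refine (continuousWithinAt_const (b := decide (z = x))).congr_of_eventuallyEq ?_ rfl
    filter_upwards [self_mem_nhdsWithin, mem_nhdsWithin_of_mem_nhds hW] with z' hz' hzW
    have : z' = z := hinj hzW (mem_of_mem_nhds hW) (funext fun i => hconst i z' hz' z hz)
    rw [this]
  have h1 := hC.constant hcont hx hy
  have h2 : y = x := by simpa using h1
  exact h2.symm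

theorem polyData_base (hS : SD0 m O G) (hI : Interp O) (hKT : KTrans O)
    {v : Derivation ℂ O O} (hv : IsCompleteVF v) (hv0 : v ≠ 0) {f : O} (hf : v f = 0)
    (hfc : ∃ x y, f x ≠ f y) {K : Set X} (hK : IsCompact K) : ∃ n, PolyData v K n := by
  classical
  obtain ⟨L, hLc, hKL, hL⟩ := hull_B hS hI hv hv0 hf hfc hK
  obtain ⟨x₀, y₀, hxy⟩ := id hfc
  obtain ⟨R, hR⟩ := hLc.isBounded.subset_ball x₀
  set U := Metric.ball x₀ R with hU
  have hUo : IsOpen U := Metric.isOpen_ball
  have hUc : IsCompact (closure U) :=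
    (isCompact_closedBall x₀ R).of_isClosed_subset isClosed_closure
      (Metric.closure_ball_subset_closedBall)
  have hFc : IsCompact (frontier U) := hUc.of_isClosed_subset isClosed_frontier
    frontier_subset_closure
  have hF : ∀ x ∈ frontier U, x ∉ L := by
    intro x hx hxL
    rw [hUo.frontier_eq] at hx
    exact hx.2 (hR hxL)
  choose! β hβ1 hβ2 hβ3 using fun x (hx : x ∈ frontier U) => hL x (hF x hx)
  obtain ⟨t, ht1, ht2⟩ := hFc.elim_nhds_subcover (fun x => {y | 1 < ‖(β x) y‖}) (fun x hx =>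
    (isOpen_lt continuous_const (cont hS (β x)).norm).mem_nhds (hβ3 x hx))
  choose ψ W hWo hxW hinj using fun x => co_local hS hKT hfc x
  obtain ⟨t', ht1', ht2'⟩ := hUc.elim_nhds_subcover W (fun x _ => (hWo x).mem_nhds (hxW x))
  have hbd : ∀ (x : X) (i : Fin m), ∃ B : ℝ, ∀ y ∈ K, ‖((ψ x i).pull f) y‖ ≤ B := fun x i =>
    hK.exists_bound_of_continuousOn (cont hS ((ψ x i).pull f)).continuousOn
  choose B hB using hbd
  set Bs : ℝ := 1 + ∑ x ∈ t', ∑ i, |B x i| with hBs
  have hBs0 : 0 < Bs := by positivity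
  have hBle : ∀ x ∈ t', ∀ i, B x i < Bs := by
    intro x hx i
    have h1 : |B x i| ≤ ∑ i, |B x i| :=
      Finset.single_le_sum (f := fun i => |B x i|) (fun j _ => abs_nonneg _) (Finset.mem_univ i)
    have h2 : ∑ i, |B x i| ≤ ∑ x ∈ t', ∑ i, |B x i| :=
      Finset.single_le_sum (f := fun x => ∑ i, |B x i|)
        (fun j _ => Finset.sum_nonneg fun _ _ => abs_nonneg _) hx
    have h3 := le_abs_self (B x i)
    linarith
  let ι : Type := t ⊕ (t' × Fin m)
  let b' : ι → O := Sum.elim (fun x => β x.1) (fun p => ((Bs : ℂ)⁻¹) • (ψ p.1.1 p.2).pull f)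
  let e : ι ≃ Fin (Fintype.card ι) := Fintype.equivFin ι
  refine ⟨Fintype.card ι, U, fun i => b' (e.symm i), hUo, hKL.trans hR, hUc, ?_, ?_, ?_, ?_⟩
  · intro i
    show b' (e.symm i) ∈ alB v
    rcases e.symm i with x | p
    · exact hβ1 x.1 (ht1 x.1 x.2)
    · exact Subalgebra.smul_mem _ (pull_mem_alB hf _) _
  · intro i y hy
    show ‖(b' (e.symm i)) y‖ < 1
    rcases e.symm i with x | p
    · exact hβ2 x.1 (ht1 x.1 x.2) y hy
    · show ‖(Bs : ℂ)⁻¹ * ((ψ p.1.1 p.2).pull f) y‖ < 1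
      rw [norm_mul, norm_inv, Complex.norm_of_nonneg hBs0.le, inv_mul_lt_iff₀ hBs0, mul_one]
      exact (hB _ _ y hy).trans_lt (hBle _ p.1.2 _)
  · intro y hy
    obtain ⟨x, hx, hxy⟩ := Set.mem_iUnion₂.mp (ht2 hy)
    refine ⟨e (Sum.inl ⟨x, hx⟩), ?_⟩
    simp only [Equiv.symm_apply_apply]
    exact hxy
  · refine tdl_of_local _ _ fun y hy => ?_
    obtain ⟨x, hx, hxy⟩ := Set.mem_iUnion₂.mp (ht2' hy)
    refine ⟨W x, (hWo x).mem_nhds hxy, fun z hz z' hz' heq => hinj x hz hz' ?_⟩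
    funext i
    have h1 := congrFun heq (e (Sum.inr (⟨x, hx⟩, i)))
    simp only [Equiv.symm_apply_apply] at h1
    have h2 : (Bs : ℂ)⁻¹ * ((ψ x i).pull f) z = (Bs : ℂ)⁻¹ * ((ψ x i).pull f) z' := h1
    have h3 : ((Bs : ℂ)⁻¹) ≠ 0 := inv_ne_zero (by exact_mod_cast hBs0.ne')
    exact mul_left_cancel₀ h3 h2

theorem polyData_pad {v : Derivation ℂ O O} {K : Set X} {n : ℕ} (h : PolyData v K n) :
    PolyData v K (n + 1) := by
  obtain ⟨U, b, hUo, hKU, hUc, h1, h2, h3, h4⟩ := h
  refine ⟨U, Fin.cons 0 b, hUo, hKU, hUc, fun i => ?_, fun i x hx => ?_, fun x hx => ?_, ?_⟩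
  · refine Fin.cases ?_ (fun i => ?_) i
    · exact Subalgebra.zero_mem _
    · exact h1 i
  · refine Fin.cases ?_ (fun i => ?_) i
    · show ‖(0 : ℂ)‖ < 1
      simp
    · exact h2 i x hx
  · obtain ⟨i, hi⟩ := h3 x hx
    exact ⟨i.succ, hi⟩
  · intro C hC hCp hconst
    exact h4 C hC hCp fun i => hconst i.succ

end Pool.Agent.MP_fe3720.BB
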