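import Pool.Agent.Work.MP_fe3720_an.B.Piola

/-! # Module Ibp: integration by parts

* `int_dbar`: for `F : (Fin m → ℂ) → ℂ` real `C¹` with compact support, `∫ dbar k F = 0` (the integral of a directional
  derivative of a compactly supported `C¹` function vanishes: e.g.
  `integral_bilinear_hasLineDerivAt_right_eq_neg_left_of_integrable` of
  Mathlib.Analysis.Calculus.LineDeriv.IntegrationByParts with a bump function equal to `1` near the support, or
  `integral_mul_fderiv_eq_neg_fderiv_mul_of_integrable`).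
* `ibp`: let `F_k ζ = h ζ * det (Jac g ζ) * conj (adj (Jac g ζ) k j) * θ (g ζ)` for `ζ ∈ B`, `0` outside. The set
  `closure B ∩ g⁻¹ (tsupport θ)` is compact and, as it does not meet the frontier, contained in `B`; so `F_k` is `C¹`
  (real) on `Fin m → ℂ`, with compact support in `B` (near a point outside this compact set it is `0`). On `B`:
  `dbar k` of the holomorphic functions `h`, `det (Jac g)` is `0`; `dbar k (conj u) = conj (∂_k u)` for `u` holomorphic;
  `dbar k (θ ∘ g) = ∑_l (dbar l θ)(g ζ) * conj ((Jac g ζ) l k)` (chain rule; `g` holomorphic). So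
  `∑_k dbar k F_k = h det * (∑_k conj (∂_k adj_{kj})) * θ(g) + h det * ∑_l (dbar l θ)(g) conj (∑_k Jac_{lk} adj_{kj})`,
  the first sum is `0` by `piola`, and `∑_k Jac_{lk} adj_{kj} = δ_{lj} det` (`Matrix.mul_adjugate`). So
  `∑_k dbar k F_k = h * |det|² * (dbar j θ)(g)` on `B` (and `0` outside). Integrate and use `int_dbar`. -/

namespace Pool.Agent.MP_fe3720.BB

open MeasureTheory

theorem int_dbar {m : ℕ} {F : (Fin m → ℂ) → ℂ} (hF : ContDiff ℝ 1 F) (hc : HasCompactSupport F)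
    (k : Fin m) : ∫ z, dbar k F z = 0 := by
  have hcont : Continuous (fderiv ℝ F) := hF.continuous_fderiv (by norm_num)
  have hint : ∀ v : Fin m → ℂ, Integrable (fun z => fderiv ℝ F z v) := fun v =>
    (hcont.clm_apply continuous_const).integrable_of_hasCompactSupport (hc.fderiv_apply ℝ v)
  have h0 : ∀ v : Fin m → ℂ, ∫ z, fderiv ℝ F z v = 0 := by
    intro v
    have h := integral_bilinear_hasLineDerivAt_right_eq_neg_left_of_integrable
      (μ := (volume : Measure (Fin m → ℂ)))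
      (f := fun _ : Fin m → ℂ => (1 : ℝ)) (f' := fun _ => (0 : ℝ)) (g := F)
      (g' := fun z => fderiv ℝ F z v) (v := v) (B := ContinuousLinearMap.lsmul ℝ ℝ)
      (by simp) (by simpa using hint v)
      (by simpa using hF.continuous.integrable_of_hasCompactSupport hc)
      (fun x _ => by
        have := (hasFDerivAt_const (1 : ℝ) x : HasFDerivAt (𝕜 := ℝ) _ _ _).hasLineDerivAt v
        simpa using this)
      (fun x _ => ((hF.differentiable (by norm_num)) x).hasFDerivAt.hasLineDerivAt v)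
    simpa using h
  unfold dbar
  rw [integral_const_mul, integral_add (hint _) ((hint _).const_mul _), integral_const_mul, h0, h0]
  simp

/-- product rule for `dbar` -/
theorem dbar_mul {m : ℕ} (k : Fin m) {u v : (Fin m → ℂ) → ℂ} {ζ : Fin m → ℂ}
    (hu : DifferentiableAt ℝ u ζ) (hv : DifferentiableAt ℝ v ζ) :
    dbar k (fun z => u z * v z) ζ = dbar k u ζ * v ζ + u ζ * dbar k v ζ := by
  unfold dbar
  rw [fderiv_fun_mul hu hv]
  simp only [ContinuousLinearMap.add_apply, ContinuousLinearMap.smul_apply, smul_eq_mul]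
  ring

theorem fderiv_real_of_hol {m : ℕ} {u : (Fin m → ℂ) → ℂ} {ζ : Fin m → ℂ}
    (hu : DifferentiableAt ℂ u ζ) (v : Fin m → ℂ) : fderiv ℝ u ζ v = fderiv ℂ u ζ v := by
  have h := (hu.hasFDerivAt.restrictScalars ℝ).fderiv
  rw [h]
  rfl

theorem single_I {m : ℕ} (k : Fin m) :
    (Pi.single k Complex.I : Fin m → ℂ) = Complex.I • (Pi.single k 1 : Fin m → ℂ) := by
  rw [← Pi.single_smul, smul_eq_mul, mul_one]

/-- `dbar` of a holomorphic function -/
theorem dbar_hol {m : ℕ} (k : Fin m) {u : (Fin m → ℂ) → ℂ} {ζ : Fin m → ℂ}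
    (hu : DifferentiableAt ℂ u ζ) : dbar k u ζ = 0 := by
  unfold dbar
  rw [fderiv_real_of_hol hu, fderiv_real_of_hol hu, single_I, map_smul, smul_eq_mul, ← mul_assoc,
    Complex.I_mul_I]
  ring

/-- `dbar` of the conjugate of a holomorphic function -/
theorem dbar_conj {m : ℕ} (k : Fin m) {u : (Fin m → ℂ) → ℂ} {ζ : Fin m → ℂ}
    (hu : DifferentiableAt ℂ u ζ) :
    dbar k (fun z => (starRingEnd ℂ) (u z)) ζ = (starRingEnd ℂ) (fderiv ℂ u ζ (Pi.single k 1)) := by
  have h1 : HasFDerivAt (𝕜 := ℝ) (fun z => (starRingEnd ℂ) (u z))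
      ((Complex.conjCLE : ℂ →L[ℝ] ℂ).comp ((fderiv ℂ u ζ).restrictScalars ℝ)) ζ :=
    (Complex.conjCLE : ℂ →L[ℝ] ℂ).hasFDerivAt.comp ζ (hu.hasFDerivAt.restrictScalars ℝ)
  have h2 : ∀ v, fderiv ℝ (fun z => (starRingEnd ℂ) (u z)) ζ v =
      (starRingEnd ℂ) (fderiv ℂ u ζ v) := by
    intro v
    rw [h1.fderiv]
    rfl
  unfold dbar
  rw [h2, h2, single_I, map_smul, smul_eq_mul, map_mul, Complex.conj_I]
  linear_combination (-1 / 2 : ℂ) * (starRingEnd ℂ) (fderiv ℂ u ζ (Pi.single k 1)) * Complex.I_mul_I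

/-- a real linear map in terms of its values at the basis vectors -/
theorem real_lin_basis {m : ℕ} (T : (Fin m → ℂ) →L[ℝ] ℂ) (w : Fin m → ℂ) :
    T w = ∑ l, (((w l).re : ℂ) * T (Pi.single l 1) + ((w l).im : ℂ) * T (Pi.single l Complex.I)) := by
  have h1 : w = ∑ l, ((w l).re • (Pi.single l 1 : Fin m → ℂ) +
      (w l).im • (Pi.single l Complex.I : Fin m → ℂ)) := by
    funext q
    rw [Finset.sum_apply]
    simp only [Pi.add_apply, Pi.smul_apply, Pi.single_apply, Complex.real_smul, mul_ite, mul_one,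
      mul_zero]
    rw [Finset.sum_add_distrib, Finset.sum_ite_eq Finset.univ q, Finset.sum_ite_eq Finset.univ q]
    simp only [Finset.mem_univ, if_true]
    exact (Complex.re_add_im (w q)).symm
  conv_lhs => rw [h1]
  rw [map_sum]
  refine Finset.sum_congr rfl fun l _ => ?_
  rw [map_add, map_smul, map_smul, Complex.real_smul, Complex.real_smul]

/-- chain rule for `dbar` of a composition with a holomorphic map -/
theorem dbar_comp {m : ℕ} (k : Fin m) {g : (Fin m → ℂ) → (Fin m → ℂ)} {θ : (Fin m → ℂ) → ℂ}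
    {ζ : Fin m → ℂ} (hg : DifferentiableAt ℂ g ζ) (hθ : DifferentiableAt ℝ θ (g ζ)) :
    dbar k (fun z => θ (g z)) ζ = ∑ l, dbar l θ (g ζ) * (starRingEnd ℂ) ((Jac g ζ) l k) := by
  have h1 : HasFDerivAt (𝕜 := ℝ) (fun z => θ (g z))
      ((fderiv ℝ θ (g ζ)).comp ((fderiv ℂ g ζ).restrictScalars ℝ)) ζ :=
    hθ.hasFDerivAt.comp ζ (hg.hasFDerivAt.restrictScalars ℝ)
  have h2 : ∀ v, fderiv ℝ (fun z => θ (g z)) ζ v = fderiv ℝ θ (g ζ) (fderiv ℂ g ζ v) := by
    intro v
    rw [h1.fderiv]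
    rfl
  set T := fderiv ℝ θ (g ζ) with hT
  set w := fderiv ℂ g ζ (Pi.single k 1) with hw
  have h3 : ∀ l, (Jac g ζ) l k = w l := fun l => rfl
  unfold dbar
  rw [h2, h2, single_I, map_smul, ← hw, real_lin_basis T w, real_lin_basis T (Complex.I • w),
    Finset.mul_sum,
    ← Finset.sum_add_distrib, Finset.mul_sum]
  refine Finset.sum_congr rfl fun l _ => ?_
  rw [h3 l]
  have hre : ((Complex.I • w) l).re = -(w l).im := by simp
  have him : ((Complex.I • w) l).im = (w l).re := by simp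
  rw [hre, him]
  have hc : (starRingEnd ℂ) (w l) = ((w l).re : ℂ) - ((w l).im : ℂ) * Complex.I := by
    apply Complex.ext <;> simp
  rw [hc]
  push_cast
  linear_combination (1 / 2 : ℂ) * ((w l).im : ℂ) * (T (Pi.single l Complex.I)) * Complex.I_mul_I

/-! ### smoothness -/

theorem contDiffAt_det {m : ℕ} {M : (Fin m → ℂ) → Matrix (Fin m) (Fin m) ℂ} {z : Fin m → ℂ}
    (h : ∀ i j, ContDiffAt ℂ 1 (fun x => M x i j) z) : ContDiffAt ℂ 1 (fun x => (M x).det) z := by
  simp only [Matrix.det_apply]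
  refine ContDiffAt.sum fun σ _ => ?_
  exact (contDiffAt_prod fun i _ => h _ _).const_smul _

theorem contDiffAt_jac {m : ℕ} {V : Set (Fin m → ℂ)} (hV : IsOpen V)
    {g : (Fin m → ℂ) → (Fin m → ℂ)} (hg : ContDiffOn ℂ 2 g V) {z : Fin m → ℂ} (hz : z ∈ V)
    (l k : Fin m) : ContDiffAt ℂ 1 (fun x => (Jac g x) l k) z := by
  have h1 : ContDiffAt ℂ 1 (fderiv ℂ g) z :=
    (hg.fderiv_of_isOpen hV (by norm_num)).contDiffAt (hV.mem_nhds hz)
  have h2 : ContDiffAt ℂ 1 (fun x => fderiv ℂ g x (Pi.single k (1 : ℂ) : Fin m → ℂ)) z :=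
    h1.clm_apply contDiffAt_const
  exact contDiffAt_pi.mp h2 l

theorem contDiffAt_detJac {m : ℕ} {V : Set (Fin m → ℂ)} (hV : IsOpen V)
    {g : (Fin m → ℂ) → (Fin m → ℂ)} (hg : ContDiffOn ℂ 2 g V) {z : Fin m → ℂ} (hz : z ∈ V) :
    ContDiffAt ℂ 1 (fun x => (Jac g x).det) z :=
  contDiffAt_det fun i j => contDiffAt_jac hV hg hz i j

theorem contDiffAt_adjJac {m : ℕ} {V : Set (Fin m → ℂ)} (hV : IsOpen V)
    {g : (Fin m → ℂ) → (Fin m → ℂ)} (hg : ContDiffOn ℂ 2 g V) {z : Fin m → ℂ} (hz : z ∈ V)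
    (k j : Fin m) : ContDiffAt ℂ 1 (fun x => (Jac g x).adjugate k j) z := by
  simp only [Matrix.adjugate_apply]
  refine contDiffAt_det fun a b => ?_
  by_cases ha : a = j
  · subst ha
    simp only [Matrix.updateRow_self]
    exact contDiffAt_const
  · simp only [Matrix.updateRow_ne ha]
    exact contDiffAt_jac hV hg hz a b

theorem ibp {m : ℕ} {V B : Set (Fin m → ℂ)} {g : (Fin m → ℂ) → (Fin m → ℂ)}
    {h : (Fin m → ℂ) → ℂ} (hV : IsOpen V) (hg : ContDiffOn ℂ 2 g V) (hh : ContDiffOn ℂ 1 h V)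
    (hB : IsOpen B) (hBc : IsCompact (closure B)) (hBV : closure B ⊆ V)
    {θ : (Fin m → ℂ) → ℂ} (hθ : ContDiff ℝ 1 θ) (hs : ∀ ζ ∈ frontier B, g ζ ∉ tsupport θ)
    (j : Fin m) :
    ∫ ζ in B, h ζ * dbar j θ (g ζ) * ((‖(Jac g ζ).det‖ ^ 2 : ℝ) : ℂ) = 0 := by
  classical
  have hBV' : ∀ ζ ∈ B, ζ ∈ V := fun ζ hζ => hBV (subset_closure hζ)
  -- the compact set
  set K : Set (Fin m → ℂ) := {ζ | ζ ∈ closure B ∧ g ζ ∈ tsupport θ} with hK
  have hKc : IsCompact K := by
    have h1 : IsClosed (closure B ∩ g ⁻¹' (tsupport θ)) :=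
      (hg.continuousOn.mono hBV).preimage_isClosed_of_isClosed isClosed_closure
        (isClosed_tsupport θ)
    exact hBc.of_isClosed_subset h1 fun ζ hζ => hζ.1
  have hKB : K ⊆ B := by
    intro ζ hζ
    by_contra hnB
    refine hs ζ ?_ hζ.2
    rw [frontier, hB.interior_eq]
    exact ⟨hζ.1, hnB⟩
  have hKo : IsOpen Kᶜ := hKc.isClosed.isOpen_compl
  set G : Fin m → (Fin m → ℂ) → ℂ := fun k ζ =>
    ((h ζ * (Jac g ζ).det) * (starRingEnd ℂ) ((Jac g ζ).adjugate k j)) * θ (g ζ) with hG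
  set F : Fin m → (Fin m → ℂ) → ℂ := fun k => B.indicator (G k) with hF
  have hF0 : ∀ k, ∀ ζ ∈ Kᶜ, F k ζ = 0 := by
    intro k ζ hζ
    by_cases hζB : ζ ∈ B
    · rw [hF]
      simp only [Set.indicator_of_mem hζB]
      have h1 : g ζ ∉ tsupport θ := fun h2 => hζ ⟨subset_closure hζB, h2⟩
      have h2 : θ (g ζ) = 0 := image_eq_zero_of_notMem_tsupport h1
      rw [hG]
      simp only [h2, mul_zero]
    · rw [hF]
      simp only [Set.indicator_of_notMem hζB]
  have hFeq : ∀ k, ∀ ζ ∈ B, F k =ᶠ[nhds ζ] G k := by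
    intro k ζ hζ
    filter_upwards [hB.mem_nhds hζ] with x hx
    rw [hF]
    simp only [Set.indicator_of_mem hx]
  have hFz : ∀ k, ∀ ζ ∈ Kᶜ, F k =ᶠ[nhds ζ] fun _ => 0 := by
    intro k ζ hζ
    filter_upwards [hKo.mem_nhds hζ] with x hx
    exact hF0 k x hx
  -- differentiability
  have hgd : ∀ ζ ∈ B, ContDiffAt ℂ 2 g ζ := fun ζ hζ => hg.contDiffAt (hV.mem_nhds (hBV' ζ hζ))
  have hhd : ∀ ζ ∈ B, ContDiffAt ℂ 1 h ζ := fun ζ hζ => hh.contDiffAt (hV.mem_nhds (hBV' ζ hζ))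
  have hdd : ∀ ζ ∈ B, ContDiffAt ℂ 1 (fun x => (Jac g x).det) ζ := fun ζ hζ =>
    contDiffAt_detJac hV hg (hBV' ζ hζ)
  have had : ∀ k, ∀ ζ ∈ B, ContDiffAt ℂ 1 (fun x => (Jac g x).adjugate k j) ζ := fun k ζ hζ =>
    contDiffAt_adjJac hV hg (hBV' ζ hζ) k j
  have hac : ∀ k, ∀ ζ ∈ B, ContDiffAt ℝ 1
      (fun x => (starRingEnd ℂ) ((Jac g x).adjugate k j)) ζ := fun k ζ hζ =>
    (Complex.conjCLE.contDiff.contDiffAt).comp ζ ((had k ζ hζ).restrict_scalars ℝ)
  have hθg : ∀ ζ ∈ B, ContDiffAt ℝ 1 (fun x => θ (g x)) ζ := fun ζ hζ =>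
    (hθ.contDiffAt).comp ζ (((hgd ζ hζ).of_le (by norm_num)).restrict_scalars ℝ)
  have hGs : ∀ k, ∀ ζ ∈ B, ContDiffAt ℝ 1 (G k) ζ := fun k ζ hζ =>
    ((((hhd ζ hζ).mul (hdd ζ hζ)).restrict_scalars ℝ).mul (hac k ζ hζ)).mul (hθg ζ hζ)
  have hFs : ∀ k, ContDiff ℝ 1 (F k) := by
    intro k
    rw [contDiff_iff_contDiffAt]
    intro ζ
    by_cases hζ : ζ ∈ K
    · exact (hGs k ζ (hKB hζ)).congr_of_eventuallyEq (hFeq k ζ (hKB hζ))
    · exact contDiffAt_const.congr_of_eventuallyEq (hFz k ζ hζ)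
  have hFc : ∀ k, HasCompactSupport (F k) := fun k =>
    HasCompactSupport.intro hKc fun ζ hζ => hF0 k ζ hζ
  have hcongr : ∀ k ζ, ∀ F' : (Fin m → ℂ) → ℂ, F k =ᶠ[nhds ζ] F' → dbar k (F k) ζ = dbar k F' ζ := by
    intro k ζ F' hFF
    unfold dbar
    rw [hFF.fderiv_eq]
  -- the sum of the derivatives
  have hsum : ∀ ζ ∈ B, ∑ k, dbar k (F k) ζ =
      h ζ * dbar j θ (g ζ) * ((‖(Jac g ζ).det‖ ^ 2 : ℝ) : ℂ) := by
    intro ζ hζ
    have hgD : DifferentiableAt ℂ g ζ := (hgd ζ hζ).differentiableAt (by norm_num)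
    have e1 : ∀ k, dbar k (F k) ζ = (h ζ * (Jac g ζ).det) *
        ((starRingEnd ℂ) (fderiv ℂ (fun x => (Jac g x).adjugate k j) ζ (Pi.single k 1)) * θ (g ζ) +
        ∑ l, dbar l θ (g ζ) * (starRingEnd ℂ) ((Jac g ζ) l k * (Jac g ζ).adjugate k j)) := by
      intro k
      have hu1 : DifferentiableAt ℂ (fun z => h z * (Jac g z).det) ζ :=
        ((hhd ζ hζ).mul (hdd ζ hζ)).differentiableAt (by norm_num)
      have hu1r : DifferentiableAt ℝ (fun z => h z * (Jac g z).det) ζ := hu1.restrictScalars ℝ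
      have hu2 : DifferentiableAt ℝ (fun x => (starRingEnd ℂ) ((Jac g x).adjugate k j)) ζ :=
        (hac k ζ hζ).differentiableAt (by norm_num)
      have hu3 : DifferentiableAt ℝ (fun x => θ (g x)) ζ :=
        (hθg ζ hζ).differentiableAt (by norm_num)
      rw [hcongr k ζ (G k) (hFeq k ζ hζ), hG]
      simp only []
      rw [dbar_mul k (hu1r.fun_mul hu2) hu3, dbar_mul k hu1r hu2, dbar_hol k hu1,
        dbar_conj k ((had k ζ hζ).differentiableAt (by norm_num)),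
        dbar_comp k hgD (hθ.differentiable (by norm_num) _)]
      have e2 : ∑ l, dbar l θ (g ζ) * (starRingEnd ℂ) ((Jac g ζ) l k * (Jac g ζ).adjugate k j) =
          (starRingEnd ℂ) ((Jac g ζ).adjugate k j) *
            ∑ l, dbar l θ (g ζ) * (starRingEnd ℂ) ((Jac g ζ) l k) := by
        rw [Finset.mul_sum]
        refine Finset.sum_congr rfl fun l _ => ?_
        rw [map_mul]
        ring
      rw [e2]
      ring
    simp only [e1]
    rw [← Finset.mul_sum, Finset.sum_add_distrib, ← Finset.sum_mul, ← map_sum,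
      piola hV hg (hBV' ζ hζ) j, map_zero, zero_mul, zero_add, Finset.sum_comm]
    have e3 : ∀ l, ∑ k, dbar l θ (g ζ) * (starRingEnd ℂ) ((Jac g ζ) l k * (Jac g ζ).adjugate k j) =
        if l = j then dbar l θ (g ζ) * (starRingEnd ℂ) (Jac g ζ).det else 0 := by
      intro l
      rw [← Finset.mul_sum, ← map_sum, ← Matrix.mul_apply, Matrix.mul_adjugate, Matrix.smul_apply,
        Matrix.one_apply]
      by_cases hlj : l = j
      · rw [if_pos hlj, if_pos hlj, smul_eq_mul, mul_one]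
      · rw [if_neg hlj, if_neg hlj, smul_zero, map_zero, mul_zero]
    simp only [e3]
    rw [Finset.sum_ite_eq' Finset.univ j, if_pos (Finset.mem_univ j)]
    have e4 : ((‖(Jac g ζ).det‖ ^ 2 : ℝ) : ℂ) = (Jac g ζ).det * (starRingEnd ℂ) (Jac g ζ).det := by
      rw [Complex.mul_conj, Complex.normSq_eq_norm_sq]
    rw [e4]
    ring
  have hsum0 : ∀ ζ ∉ B, ∑ k, dbar k (F k) ζ = 0 := by
    intro ζ hζ
    refine Finset.sum_eq_zero fun k _ => ?_
    have hζK : ζ ∈ Kᶜ := fun h1 => hζ (hKB h1)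
    rw [hcongr k ζ _ (hFz k ζ hζK)]
    exact dbar_hol k (differentiableAt_const _)
  have hintF : ∀ k, Integrable (fun z => dbar k (F k) z) := by
    intro k
    have hcont : Continuous (fderiv ℝ (F k)) := (hFs k).continuous_fderiv (by norm_num)
    have hint : ∀ v : Fin m → ℂ, Integrable (fun z => fderiv ℝ (F k) z v) := fun v =>
      (hcont.clm_apply continuous_const).integrable_of_hasCompactSupport
        ((hFc k).fderiv_apply ℝ v)
    unfold dbar
    exact ((hint _).add ((hint _).const_mul _)).const_mul _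
  have h1 : ∫ ζ, ∑ k, dbar k (F k) ζ = 0 := by
    rw [integral_finsetSum _ fun k _ => hintF k]
    exact Finset.sum_eq_zero fun k _ => int_dbar (hFs k) (hFc k) k
  have h2 : ∫ ζ in B, h ζ * dbar j θ (g ζ) * ((‖(Jac g ζ).det‖ ^ 2 : ℝ) : ℂ) =
      ∫ ζ in B, ∑ k, dbar k (F k) ζ :=
    setIntegral_congr_fun hB.measurableSet fun ζ hζ => (hsum ζ hζ).symm
  rw [h2, ← h1]
  exact setIntegral_eq_integral_of_forall_compl_eq_zero fun ζ hζ => hsum0 ζ hζ

end Pool.Agent.MP_fe3720.BB
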