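import Pool.Agent.Work.MP_fe3720_an.B.SpanA
import Pool.Agent.Work.MP_fe3720_an.Leaf

/-! # Module LeafB: a countability argument (port of module Leaf)

The same proof as in `Pool/Agent/Work/MP_fe3720_an/Leaf.lean` (there `X = Y × ℂ`), with `flowMap φ s x` replaced by
`pushFlow Φ φ s x` and `Psi φ t` by `RR.Psi (fun i => pushFlow Φ (φ i)) t`. `sep_loc_const` of that file is general
(imported here). Use `Psi_cont` (R/Word, with `isFlow_push`), `Psi_update_push` (PushF), and the second countability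
of `X` (from `ProperSpace`). -/

namespace Pool.Agent.MP_fe3720.BB

open Topology RR Filter

variable {X : Type} [MetricSpace X] [ProperSpace X] {O : Subalgebra ℂ (X → ℂ)}

theorem plaque_countableB {v : Derivation ℂ O O} {Φ : ℂ → HolAut O} (hΦ : IsFlow v Φ) {r : ℕ} {W : Type} {U U' : Set X}
    {p p' : X → W} (h : IsBoxB Φ r U p) (h' : IsBoxB Φ r U' p') (c : W) :
    (p' '' {x | x ∈ U ∧ p x = c ∧ x ∈ U'}).Countable := by
  obtain ⟨-, -, -, h4⟩ := h
  obtain ⟨hU', -, h3', -⟩ := h'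
  obtain ⟨φ, y, hsub⟩ := h4 c
  have hcont : Continuous (fun t : Fin r → ℂ => RR.Psi (fun i => pushFlow Φ (φ i)) t y) :=
    (RR.Psi_cont fun i => isFlow_push hΦ (φ i)).comp (by fun_prop : Continuous fun t : Fin r → ℂ => (t, y))
  have hc := sep_loc_const {t : Fin r → ℂ | RR.Psi (fun i => pushFlow Φ (φ i)) t y ∈ U'} (hU'.preimage hcont)
    (fun t => p' (RR.Psi (fun i => pushFlow Φ (φ i)) t y)) (by
      intro t ht i
      obtain ⟨α, hα⟩ := Psi_update_push hΦ φ t i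
      filter_upwards [h3' _ ht α] with s hs
      rw [hα, hs])
  refine hc.mono ?_
  rintro _ ⟨x, ⟨hx1, hx2, hx3⟩, rfl⟩
  obtain ⟨t, rfl⟩ := hsub ⟨hx1, hx2⟩
  exact ⟨t, hx3, rfl⟩

/-- the pairs (chart, value) of the plaques reached after `n` steps -/
def reachB {W : Type} (s : Set X) (U : X → Set X) (p : X → X → W)
    (x₀ : X) : ℕ → Set (X × W)
  | 0 => {jc | jc.1 ∈ s ∧ x₀ ∈ U jc.1 ∧ p jc.1 x₀ = jc.2}
  | n + 1 => {jc | jc.1 ∈ s ∧ ∃ jc' ∈ reachB s U p x₀ n, ∃ x, x ∈ U jc'.1 ∧ p jc'.1 x = jc'.2 ∧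
      x ∈ U jc.1 ∧ p jc.1 x = jc.2}

theorem no_boxesB {v : Derivation ℂ O O} {Φ : ℂ → HolAut O} (hΦ : IsFlow v Φ) {r : ℕ} {W : Type}
    (hbox : ∀ x₀ : X, ∃ (U : Set X) (p : X → W), x₀ ∈ U ∧ IsBoxB Φ r U p)
    (x₀ : X) (horb : ∀ y : X, y ≠ x₀ → ∃ (φ : HolAut O) (s : ℂ), y = pushFlow Φ φ s x₀) :
    False := by
  choose U p hxU hB using hbox
  obtain ⟨s, hs, hcov⟩ := TopologicalSpace.countable_cover_nhds
    (fun x => (hB x).1.mem_nhds (hxU x))
  have hcov' : ∀ x, ∃ j ∈ s, x ∈ U j := by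
    intro x
    have : x ∈ ⋃ j ∈ s, U j := by rw [hcov]; trivial
    simpa using this
  -- countability
  have hcount : ∀ n, (reachB s U p x₀ n).Countable := by
    intro n
    induction n with
    | zero =>
      refine (hs.image (fun j => (j, p j x₀))).mono ?_
      rintro ⟨j, c⟩ ⟨h1, h2, h3⟩
      exact ⟨j, h1, Prod.ext rfl h3⟩
    | succ n ih =>
      refine (ih.biUnion (fun jc' _ => hs.biUnion (fun j _ =>
        (plaque_countableB hΦ (hB jc'.1) (hB j) jc'.2).image (fun c => (j, c))))).mono ?_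
      rintro ⟨j, c⟩ ⟨h1, jc', h2, x, h3, h4, h5, h6⟩
      simp only [Set.mem_iUnion]
      exact ⟨jc', h2, j, h1, c, ⟨x, ⟨h3, h4, h5⟩, h6⟩, rfl⟩
  set E : Set X := {x | ∃ n, ∃ jc ∈ reachB s U p x₀ n, x ∈ U jc.1 ∧ p jc.1 x = jc.2}
    with hE
  have hx₀E : x₀ ∈ E := by
    obtain ⟨j, hj, hxj⟩ := hcov' x₀
    exact ⟨0, (j, p j x₀), ⟨hj, hxj, rfl⟩, hxj, rfl⟩
  have hstar : ∀ x ∈ E, ∀ j ∈ s, x ∈ U j → ∀ x' ∈ U j, p j x' = p j x → x' ∈ E := by
    rintro x ⟨n, jc, h1, h2, h3⟩ j hj hxj x' hx' hp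
    exact ⟨n + 1, (j, p j x), ⟨hj, jc, h1, x, h2, h3, hxj, rfl⟩, hx', hp⟩
  have hinv : ∀ x ∈ E, ∀ (φ : HolAut O) (t : ℂ), pushFlow Φ φ t x ∈ E := by
    intro x hx φ
    have hloc : ∀ t₀ : ℂ, ∀ᶠ t in 𝓝 t₀, (pushFlow Φ φ t x ∈ E ↔ pushFlow Φ φ t₀ x ∈ E) := by
      intro t₀
      obtain ⟨j, hj, hyj⟩ := hcov' (pushFlow Φ φ t₀ x)
      have h1 := (hB j).2.2.1 _ hyj φ
      have h2 : Filter.Tendsto (fun t : ℂ => t - t₀) (𝓝 t₀) (𝓝 0) := by
        have : Filter.Tendsto (fun t : ℂ => t - t₀) (𝓝 t₀) (𝓝 (t₀ - t₀)) :=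
          (continuous_id.sub continuous_const).tendsto t₀
        rwa [sub_self] at this
      have hcont : Continuous (fun t : ℂ => pushFlow Φ φ t x) :=
        (isFlow_push hΦ φ).cont.comp (by fun_prop : Continuous fun t : ℂ => (t, x))
      have h3 : ∀ᶠ t in 𝓝 t₀, pushFlow Φ φ t x ∈ U j :=
        hcont.continuousAt.preimage_mem_nhds ((hB j).1.mem_nhds hyj)
      filter_upwards [h2.eventually h1, h3] with t h4 h5
      rw [← (isFlow_push hΦ φ).add, sub_add_cancel] at h4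
      exact ⟨fun h => hstar _ h j hj h5 _ hyj h4.symm, fun h => hstar _ h j hj hyj _ h5 h4⟩
    have hclopen : IsClopen {t : ℂ | pushFlow Φ φ t x ∈ E} := by
      constructor
      · rw [← isOpen_compl_iff, isOpen_iff_mem_nhds]
        intro t₀ ht₀
        filter_upwards [hloc t₀] with t ht hmem
        exact ht₀ (ht.mp hmem)
      · rw [isOpen_iff_mem_nhds]
        intro t₀ ht₀
        filter_upwards [hloc t₀] with t ht
        exact ht.mpr ht₀
    have huniv := hclopen.eq_univ ⟨0, by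
      show pushFlow Φ φ 0 x ∈ E
      rw [(isFlow_push hΦ φ).zero]; exact hx⟩
    intro t
    have : t ∈ {t : ℂ | pushFlow Φ φ t x ∈ E} := by rw [huniv]; trivial
    exact this
  have hall : ∀ y, y ∈ E := by
    intro y
    by_cases hy : y = x₀
    · rw [hy]; exact hx₀E
    · obtain ⟨φ, t, rfl⟩ := horb y hy
      exact hinv x₀ hx₀E φ t
  obtain ⟨j, hj, hxj⟩ := hcov' x₀
  refine (hB j).2.1 ?_
  refine (Set.countable_iUnion (fun n => (hcount n).biUnion (fun jc _ =>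
    plaque_countableB hΦ (hB jc.1) (hB j) jc.2))).mono ?_
  rintro _ ⟨x, hx, rfl⟩
  obtain ⟨n, jc, h1, h2, h3⟩ := hall x
  simp only [Set.mem_iUnion]
  exact ⟨n, jc, h1, x, ⟨h2, h3, hx⟩, rfl⟩

end Pool.Agent.MP_fe3720.BB
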