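import Pool.Agent.Work.MP_fe3720_an.B.RegB
import Pool.Agent.Work.MP_fe3720_an.Implicit

/-! # Module LevelC: level curves when the differentials do not span

Let `x₁ ∈ W` and a chart `q, κ, V` at `x₁`; `V' = {y ∈ V | κ y ∈ W}` is open (`hc.cont`), nonempty. For `y ∈ V'` let `S y` be
the span in the dual of `Fin m → ℂ` (`(Fin m → ℂ) →L[ℂ] ℂ`) of the `fderiv ℂ (g ∘ κ) y`, `g ∈ 𝓢`, and `r y` its
finrank. If `r y = m` for some `y ∈ V'` there are `g : Fin m → O` in `𝓢` with linearly independent differentials,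
i.e. `Reg g (κ y)` (`reg_iff`; the matrix of the differentials has independent rows), contradiction. So `r y < m`
on `V'`. Choose `y₀ ∈ V'` with `r y₀ = r` maximal and `g : Fin r → O` in `𝓢` with `fderiv (g i ∘ κ) y₀` independent. These
stay independent for `y` near `y₀` (`g i ∘ κ` is `C¹`: independence of `r` vectors depending continuously on `y` is
an open condition: `isOpen_setOf_linearIndependent`), so for `y` near `y₀` they span `S y` by maximality.
Complete: `complete_coords` (Implicit.lean) gives `ℓ : Fin (m - r) → dual` such that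
`Θ y = ((g i (κ y))_i, (ℓ j y)_j)` has bijective derivative at `y₀`; inverse function theorem (`inverse_general`): `H`
inverse of `Θ` near `Θ y₀`. As `r < m` the curve `γ τ = H ((g i (κ y₀))_i, (ℓ y₀ + τ e_0))`, `τ` real (or complex) small, is
`C¹`, injective, with `g i (κ (γ τ))` constant. For `g' ∈ 𝓢`: the derivative of `g' (κ (γ τ))` is
`fderiv (g' ∘ κ) (γ τ) (γ' τ)`, a combination of the `fderiv (g i ∘ κ) (γ τ) (γ' τ) = 0`. So `g'` is constant on
`C = κ '' (γ '' (-ε, ε))`, which is preconnected (image of a preconnected set by a continuous map), contained in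
`W`, and has two points (`κ` is injective on `V`). -/

namespace Pool.Agent.MP_fe3720.BB

open Topology RR Filter

variable {X : Type} [MetricSpace X] [ProperSpace X] [PreconnectedSpace X]
  {O : Subalgebra ℂ (X → ℂ)} {m N : ℕ} {G : Fin N → O}

theorem level_curve (hS : SD0 m O G) (𝓢 : Set O) {W : Set X} (hW : IsOpen W) (hne : W.Nonempty)
    (h : ∀ x ∈ W, ∀ g : Fin m → O, (∀ i, g i ∈ 𝓢) → ¬ Reg g x) :
    ∃ C ⊆ W, IsPreconnected C ∧ (∃ x ∈ C, ∃ y ∈ C, x ≠ y) ∧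
      ∀ g ∈ 𝓢, ∀ x ∈ C, ∀ y ∈ C, g x = g y := by
  classical
  obtain ⟨x₁, hx₁⟩ := hne
  obtain ⟨q, κ, V, hc, hV, hκ⟩ := hS.charts x₁
  set y₁ := fun j => (q j) x₁ with hy₁
  have hV'o : IsOpen (V ∩ κ ⁻¹' W) := hc.cont.isOpen_inter_preimage hc.opn hW
  have hy₁' : y₁ ∈ V ∩ κ ⁻¹' W := ⟨hV, by show κ y₁ ∈ W; rw [hκ]; exact hx₁⟩
  set P : (Fin m → ℂ) → ℕ → Prop := fun y r => ∃ g : Fin r → O, (∀ i, g i ∈ 𝓢) ∧
    LinearIndependent ℂ (fun i => fderiv ℂ (fun y => (g i) (κ y)) y) with hP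
  have hfr : Module.finrank ℂ ((Fin m → ℂ) →L[ℂ] ℂ) = m := by
    rw [← (LinearMap.toContinuousLinearMap (𝕜 := ℂ) (E := Fin m → ℂ) (F' := ℂ)).finrank_eq,
      Module.finrank_linearMap]
    simp
  have hPlt : ∀ y ∈ V ∩ κ ⁻¹' W, ∀ r, P y r → r < m := by
    rintro y ⟨hyV, hyW⟩ r ⟨g, hg, hli⟩
    have hle : r ≤ m := by
      have := hli.fintype_card_le_finrank
      rwa [Fintype.card_fin, hfr] at this
    refine lt_of_le_of_ne hle fun he => ?_
    subst he
    refine h (κ y) hyW g hg ?_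
    rw [reg_iff hS hc hyV, det_ne_zero_iff_injective]
    obtain ⟨ℓ, hb⟩ := complete_coords (E := Fin r → ℂ) 0 r (by simp) _ hli
    obtain ⟨-, hA⟩ := chart_map_fderiv hc g hyV
    intro w w' hww
    apply hb.1
    refine Prod.ext ?_ (Subsingleton.elim _ _)
    funext i
    show fderiv ℂ (fun y => (g i) (κ y)) y w = fderiv ℂ (fun y => (g i) (κ y)) y w'
    rw [← hA, ← hA, hww]
  -- the maximal rank
  obtain ⟨r, ⟨y₀, hy₀, hPr⟩, hmax⟩ : ∃ r, (∃ y ∈ V ∩ κ ⁻¹' W, P y r) ∧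
      ∀ r', (∃ y ∈ V ∩ κ ⁻¹' W, P y r') → r' ≤ r := by
    have h0 : ∃ y ∈ V ∩ κ ⁻¹' W, P y 0 :=
      ⟨y₁, hy₁', fun i => i.elim0, fun i => i.elim0, linearIndependent_empty_type⟩
    refine ⟨Nat.findGreatest (fun r => ∃ y ∈ V ∩ κ ⁻¹' W, P y r) m,
      Nat.findGreatest_spec (P := fun r => ∃ y ∈ V ∩ κ ⁻¹' W, P y r) (Nat.zero_le m) h0,
      fun r' hr' => ?_⟩
    refine Nat.le_findGreatest ?_ hr'
    obtain ⟨y, hy, hr'⟩ := hr'
    exact (hPlt y hy r' hr').le
  have hrm : r < m := hPlt y₀ hy₀ r hPr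
  obtain ⟨g, hg, hli⟩ := hPr
  obtain ⟨ℓ, hbij⟩ := complete_coords (E := Fin m → ℂ) (m - r) r (by simp; omega) _ hli
  set Θ : (Fin m → ℂ) → (Fin r → ℂ) × (Fin (m - r) → ℂ) :=
    fun y => (fun i => (g i) (κ y), fun j => ℓ j y) with hΘdef
  have hΘ : ∀ y ∈ V, ContDiffAt ℂ 1 Θ y ∧ ∀ w, fderiv ℂ Θ y w =
      (fun i => fderiv ℂ (fun y => (g i) (κ y)) y w, fun j => ℓ j w) := by
    intro y hy
    have h1 : ∀ j, ContDiffAt ℂ 1 (fun y => (g j) (κ y)) y := fun j =>
      (hc.smooth (g j)).contDiffAt (hc.opn.mem_nhds hy)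
    refine ⟨ContDiffAt.prodMk (contDiffAt_pi.mpr h1)
      (contDiffAt_pi.mpr fun j => (ℓ j).contDiff.contDiffAt), fun w => ?_⟩
    have h2 : HasFDerivAt Θ ((ContinuousLinearMap.pi fun i =>
        fderiv ℂ (fun y => (g i) (κ y)) y).prod (ContinuousLinearMap.pi fun j => ℓ j)) y := by
      refine HasFDerivAt.prodMk ?_ ?_
      · exact hasFDerivAt_pi.mpr fun i => ((h1 i).differentiableAt (by norm_num)).hasFDerivAt
      · exact hasFDerivAt_pi.mpr fun j => (ℓ j).hasFDerivAt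
    rw [h2.fderiv]
    rfl
  have hbij' : Function.Bijective (fderiv ℂ Θ y₀) := by
    have : (fderiv ℂ Θ y₀ : (Fin m → ℂ) → (Fin r → ℂ) × (Fin (m - r) → ℂ)) =
        fun w => (fun i => fderiv ℂ (fun y => (g i) (κ y)) y₀ w, fun j => ℓ j w) :=
      funext (hΘ y₀ hy₀.1).2
    rw [this]
    exact hbij
  obtain ⟨𝒩, 𝒱, H, hNo, hN0, hNS, hVo, hGN, hHV⟩ := inverse_general Θ y₀ (hΘ y₀ hy₀.1).1 hbij' _
    (hV'o.mem_nhds hy₀)
  have hsurj : ∀ n ∈ 𝒩, Function.Surjective (fderiv ℂ Θ n) := by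
    intro n hn
    refine (LinearMap.injective_iff_surjective_of_finrank_eq_finrank
      (f := (fderiv ℂ Θ n).toLinearMap) ?_).mp (hGN n hn).2.2.2
    rw [Module.finrank_prod, Module.finrank_fin_fun, Module.finrank_fin_fun,
      Module.finrank_fin_fun]
    omega
  -- the differentials of `g` are independent on `𝒩` and span all differentials
  have hspan : ∀ n ∈ 𝒩, ∀ g' ∈ 𝓢, fderiv ℂ (fun y => g' (κ y)) n ∈
      Submodule.span ℂ (Set.range fun i => fderiv ℂ (fun y => (g i) (κ y)) n) := by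
    intro n hn g' hg'
    by_contra hcon
    have hnV := (hNS hn).1
    have hlin : LinearIndependent ℂ (fun i => fderiv ℂ (fun y => (g i) (κ y)) n) := by
      rw [Fintype.linearIndependent_iff]
      intro c hc0 i
      obtain ⟨w, hw⟩ := hsurj n hn (Pi.single i 1, 0)
      rw [(hΘ n hnV).2] at hw
      have h1 := congrFun (congrArg Prod.fst hw)
      have h2 := congrArg (fun L : (Fin m → ℂ) →L[ℂ] ℂ => L w) hc0
      simp only [ContinuousLinearMap.sum_apply, ContinuousLinearMap.smul_apply,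
        ContinuousLinearMap.zero_apply, smul_eq_mul] at h2
      rw [Finset.sum_eq_single i] at h2
      · have h3 := h1 i
        simp only [Pi.single_eq_same] at h3
        rwa [h3, mul_one] at h2
      · intro j _ hj
        have h3 := h1 j
        simp only [Pi.single_eq_of_ne hj] at h3
        rw [h3, mul_zero]
      · intro hi
        exact absurd (Finset.mem_univ i) hi
    have h3 : P n (r + 1) := by
      refine ⟨Fin.cons g' g, fun i => ?_, ?_⟩
      · refine Fin.cases ?_ (fun i => ?_) i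
        · exact hg'
        · exact hg i
      · have h4 : (fun i => fderiv ℂ (fun y => ((Fin.cons g' g : Fin (r + 1) → O) i) (κ y)) n) =
            Fin.cons (fderiv ℂ (fun y => g' (κ y)) n)
              (fun i => fderiv ℂ (fun y => (g i) (κ y)) n) := by
          funext i
          refine Fin.cases ?_ (fun i => ?_) i
          · rfl
          · rfl
        rw [h4, linearIndependent_finCons]
        exact ⟨hlin, hcon⟩
    have := hmax (r + 1) ⟨n, hNS hn, h3⟩
    omega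
  -- the curve
  set j₀ : Fin (m - r) := ⟨0, by omega⟩ with hj₀
  set e : (Fin r → ℂ) × (Fin (m - r) → ℂ) := (0, Pi.single j₀ 1) with he
  have hline : Continuous (fun τ : ℂ => Θ y₀ + τ • e) := by fun_prop
  have hDo : IsOpen {τ : ℂ | Θ y₀ + τ • e ∈ 𝒱} := hVo.preimage hline
  have h0D : (0 : ℂ) ∈ {τ : ℂ | Θ y₀ + τ • e ∈ 𝒱} := by
    show Θ y₀ + (0 : ℂ) • e ∈ 𝒱
    rw [zero_smul, add_zero]
    exact (hGN y₀ hN0).1
  obtain ⟨ε, hε, hball⟩ := Metric.isOpen_iff.mp hDo 0 h0D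
  have hD : ∀ τ ∈ Metric.ball (0 : ℂ) ε, Θ y₀ + τ • e ∈ 𝒱 := fun τ hτ => hball hτ
  set γ : ℂ → (Fin m → ℂ) := fun τ => H (Θ y₀ + τ • e) with hγ
  have hγd : ∀ τ ∈ Metric.ball (0 : ℂ) ε, HasDerivAt γ (fderiv ℂ H (Θ y₀ + τ • e) e) τ := by
    intro τ hτ
    have h1 := ((hHV _ (hD τ hτ)).2.2.1.differentiableAt (by norm_num)).hasFDerivAt
    have h2 : HasDerivAt (fun τ : ℂ => Θ y₀ + τ • e) e τ := by
      have := ((hasDerivAt_id τ).smul_const e).const_add (Θ y₀)
      simpa using this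
    exact h1.comp_hasDerivAt τ h2
  have hγN : ∀ τ ∈ Metric.ball (0 : ℂ) ε, γ τ ∈ 𝒩 := fun τ hτ => (hHV _ (hD τ hτ)).1
  have hγinj : ∀ τ ∈ Metric.ball (0 : ℂ) ε, Θ (γ τ) = Θ y₀ + τ • e := fun τ hτ =>
    (hHV _ (hD τ hτ)).2.1
  have hγc : ContinuousOn γ (Metric.ball (0 : ℂ) ε) := fun τ hτ =>
    (hγd τ hτ).continuousAt.continuousWithinAt
  have hκc : ContinuousOn κ (γ '' Metric.ball (0 : ℂ) ε) := hc.cont.mono (by
    rintro _ ⟨τ, hτ, rfl⟩
    exact (hNS (hγN τ hτ)).1)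
  refine ⟨κ '' (γ '' Metric.ball (0 : ℂ) ε), ?_, ?_, ?_, ?_⟩
  · rintro _ ⟨_, ⟨τ, hτ, rfl⟩, rfl⟩
    exact (hNS (hγN τ hτ)).2
  · exact (((convex_ball (0 : ℂ) ε).isPreconnected).image γ hγc).image κ hκc
  · have h0 : (0 : ℂ) ∈ Metric.ball (0 : ℂ) ε := Metric.mem_ball_self hε
    have h1 : ((ε / 2 : ℝ) : ℂ) ∈ Metric.ball (0 : ℂ) ε := by
      rw [mem_ball_zero_iff, Complex.norm_real, Real.norm_of_nonneg (by positivity)]
      linarith
    refine ⟨_, ⟨_, ⟨0, h0, rfl⟩, rfl⟩, _, ⟨_, ⟨_, h1, rfl⟩, rfl⟩, fun heq => ?_⟩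
    have h2 := chart_injOn hc (hNS (hγN _ h0)).1 (hNS (hγN _ h1)).1 heq
    have h3 := hγinj _ h0
    rw [h2, hγinj _ h1] at h3
    have h4 := congrFun (congrArg Prod.snd (add_left_cancel h3)) j₀
    simp [he] at h4
    linarith
  · intro g' hg'
    have hder : ∀ τ ∈ Metric.ball (0 : ℂ) ε, HasDerivAt (fun τ => g' (κ (γ τ))) 0 τ := by
      intro τ hτ
      have hn := hγN τ hτ
      have hnV := (hNS hn).1
      have h1 : HasFDerivAt (fun y => g' (κ y)) (fderiv ℂ (fun y => g' (κ y)) (γ τ)) (γ τ) :=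
        (((hc.smooth g').contDiffAt (hc.opn.mem_nhds hnV)).differentiableAt
          (by norm_num)).hasFDerivAt
      have h2 := h1.comp_hasDerivAt τ (hγd τ hτ)
      have h3 : fderiv ℂ (fun y => g' (κ y)) (γ τ) (fderiv ℂ H (Θ y₀ + τ • e) e) = 0 := by
        obtain ⟨w, hw⟩ := hsurj _ hn e
        have h4 := (hHV _ (hD τ hτ)).2.2.2 w
        have h5 : fderiv ℂ Θ (H (Θ y₀ + τ • e)) w = e := hw
        rw [h5] at h4
        rw [h4]
        rw [(hΘ _ hnV).2] at hw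
        have h6 : ∀ i, fderiv ℂ (fun y => (g i) (κ y)) (γ τ) w = 0 := fun i =>
          congrFun (congrArg Prod.fst hw) i
        have h7 := hspan _ hn g' hg'
        obtain ⟨c, hcs⟩ := (Submodule.mem_span_range_iff_exists_fun ℂ).mp h7
        rw [← hcs, ContinuousLinearMap.sum_apply]
        refine Finset.sum_eq_zero fun i _ => ?_
        rw [ContinuousLinearMap.smul_apply, h6 i, smul_zero]
      rw [h3] at h2
      exact h2
    rintro _ ⟨_, ⟨τ, hτ, rfl⟩, rfl⟩ _ ⟨_, ⟨τ', hτ', rfl⟩, rfl⟩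
    exact Metric.isOpen_ball.is_const_of_deriv_eq_zero (convex_ball (0 : ℂ) ε).isPreconnected
      (f := fun τ => g' (κ (γ τ)))
      (fun s hs => (hder s hs).differentiableAt.differentiableWithinAt)
      (fun s hs => (hder s hs).deriv) hτ hτ'

end Pool.Agent.MP_fe3720.BB
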