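import Pool.Agent.Work.MP_fe3720_an.B.LocTrA
import Pool.Agent.Work.MP_fe3720_an.B.Radial

/-! # Module LocTrB: the mollified trace does not depend on the mollifier

Let `ρ, ρ'` be radial mollifiers of radii `s, s' < R/2` and `y ∈ ball y₀ (R/2)`. By `tauI_hol`, `tauI B g h ρ` is holomorphic
on `ball y₀ R ⊇ ball y (R/2)`, so `∫ w, tauI B g h ρ (y - w) * ρ' w = tauI B g h ρ y` (`radial_mean`). The left hand side is
`∫∫ h ζ ρ (y - w - g ζ) ρ' w |det|² dζ dw` (Fubini: bounded integrand with compact support in `w`, `B` of finite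
measure). For fixed `ζ` the substitution `w ↦ (y - g ζ) - w` gives `∫ ρ (y - g ζ - w) ρ' w dw = ∫ ρ w ρ' (y - g ζ - w) dw`
(`integral_sub_left_eq_self`), so the double integral is symmetric in `(ρ, ρ')`, and equals `tauI B g h ρ' y` as well. -/

namespace Pool.Agent.MP_fe3720.BB

open MeasureTheory

/-- the mollified trace of a mollified trace, with the integrals exchanged -/
private theorem tauI_double {m : ℕ} {V B : Set (Fin m → ℂ)} {g : (Fin m → ℂ) → (Fin m → ℂ)}
    {h : (Fin m → ℂ) → ℂ} {y₀ : Fin m → ℂ} {R : ℝ} (hL : IsLoc V B g h y₀ R)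
    {ρ ρ' : (Fin m → ℂ) → ℝ} (hρ : Continuous ρ) (hc : HasCompactSupport ρ)
    (hρ' : Continuous ρ') (hc' : HasCompactSupport ρ') (y : Fin m → ℂ) :
    ∫ w, tauI B g h ρ (y - w) * (ρ' w : ℂ) =
      ∫ ζ in B, (h ζ * ((‖(Jac g ζ).det‖ ^ 2 : ℝ) : ℂ)) *
        ∫ w, (ρ (y - g ζ - w) : ℂ) * (ρ' w : ℂ) := by
  set A : (Fin m → ℂ) → ℂ := fun ζ => h ζ * ((‖(Jac g ζ).det‖ ^ 2 : ℝ) : ℂ) with hA
  have hAc : ContinuousOn A (closure B) := hL.weight_cont
  have hgc : ContinuousOn g (closure B) := hL.g_cont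
  obtain ⟨C, hC⟩ := hL.cptB.exists_bound_of_continuousOn hAc
  obtain ⟨M, hM⟩ := hc.exists_bound_of_continuous hρ
  have hmeasB : MeasurableSet B := hL.opnB.measurableSet
  have hBfin : volume B ≠ ⊤ :=
    ((measure_mono subset_closure).trans_lt hL.cptB.measure_lt_top).ne
  have hfin : IsFiniteMeasure (volume.restrict B) := by
    constructor
    rw [Measure.restrict_apply_univ]
    exact hBfin.lt_top
  have hi' : Integrable ρ' := hρ'.integrable_of_hasCompactSupport hc'
  have hint : Integrable (Function.uncurry fun (w ζ : Fin m → ℂ) =>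
      A ζ * ((ρ (y - w - g ζ) : ℂ) * (ρ' w : ℂ))) (volume.prod (volume.restrict B)) := by
    have hprod := hi'.norm.mul_prod (integrable_const (μ := volume.restrict B) (C * M))
    refine hprod.mono' ?_ ?_
    · have h1 : (volume : Measure (Fin m → ℂ)).prod (volume.restrict B) =
          ((volume : Measure (Fin m → ℂ)).prod volume).restrict (Set.univ ×ˢ B) := by
        rw [← Measure.prod_restrict, Measure.restrict_univ]
      rw [h1]
      refine ContinuousOn.aestronglyMeasurable ?_ (MeasurableSet.univ.prod hmeasB)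
      have hmap : Set.MapsTo (fun p : (Fin m → ℂ) × (Fin m → ℂ) => p.2) (Set.univ ×ˢ B)
          (closure B) := fun p hp => subset_closure hp.2
      have hA2 : ContinuousOn (fun p : (Fin m → ℂ) × (Fin m → ℂ) => A p.2) (Set.univ ×ˢ B) :=
        hAc.comp continuous_snd.continuousOn hmap
      have hg2 : ContinuousOn (fun p : (Fin m → ℂ) × (Fin m → ℂ) => g p.2) (Set.univ ×ˢ B) :=
        hgc.comp continuous_snd.continuousOn hmap
      refine hA2.mul (ContinuousOn.mul ?_ ?_)
      · exact Complex.continuous_ofReal.comp_continuousOn (hρ.comp_continuousOn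
          ((continuousOn_const.sub continuous_fst.continuousOn).sub hg2))
      · exact (Complex.continuous_ofReal.comp (hρ'.comp continuous_fst)).continuousOn
    · have h1 : (volume : Measure (Fin m → ℂ)).prod (volume.restrict B) =
          ((volume : Measure (Fin m → ℂ)).prod volume).restrict (Set.univ ×ˢ B) := by
        rw [← Measure.prod_restrict, Measure.restrict_univ]
      rw [h1]
      refine (ae_restrict_iff' (MeasurableSet.univ.prod hmeasB)).mpr
        (Filter.Eventually.of_forall fun p hp => ?_)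
      simp only [Function.uncurry, norm_mul, Complex.norm_real]
      have h2 : ‖A p.2‖ ≤ C := hC _ (subset_closure hp.2)
      have h3 : ‖ρ (y - p.1 - g p.2)‖ ≤ M := hM _
      have h4 : ‖A p.2‖ * ‖ρ (y - p.1 - g p.2)‖ ≤ C * M :=
        mul_le_mul h2 h3 (norm_nonneg _) ((norm_nonneg _).trans h2)
      calc ‖A p.2‖ * (‖ρ (y - p.1 - g p.2)‖ * ‖ρ' p.1‖)
          = (‖A p.2‖ * ‖ρ (y - p.1 - g p.2)‖) * ‖ρ' p.1‖ := by ring
        _ ≤ (C * M) * ‖ρ' p.1‖ := mul_le_mul_of_nonneg_right h4 (norm_nonneg _)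
        _ = ‖ρ' p.1‖ * (C * M) := by ring
  have hswap := integral_integral_swap hint
  have e1 : ∀ w, tauI B g h ρ (y - w) * (ρ' w : ℂ) =
      ∫ ζ in B, A ζ * ((ρ (y - w - g ζ) : ℂ) * (ρ' w : ℂ)) := by
    intro w
    unfold tauI
    rw [← integral_mul_const]
    refine integral_congr_ae (Filter.Eventually.of_forall fun ζ => ?_)
    simp only [hA]
    ring
  simp only [e1]
  rw [hswap]
  refine integral_congr_ae (Filter.Eventually.of_forall fun ζ => ?_)
  simp only []
  rw [integral_const_mul]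
  congr 1
  refine integral_congr_ae (Filter.Eventually.of_forall fun w => ?_)
  simp only []
  rw [sub_right_comm]

theorem tauI_indep {m : ℕ} {V B : Set (Fin m → ℂ)} {g : (Fin m → ℂ) → (Fin m → ℂ)}
    {h : (Fin m → ℂ) → ℂ} {y₀ : Fin m → ℂ} {R : ℝ} (hL : IsLoc V B g h y₀ R) {s s' : ℝ}
    {ρ ρ' : (Fin m → ℂ) → ℝ} (hρ : IsRad s ρ) (hρ' : IsRad s' ρ') (hs : s < R / 2)
    (hs' : s' < R / 2) {y : Fin m → ℂ} (hy : y ∈ Metric.ball y₀ (R / 2)) :
    tauI B g h ρ y = tauI B g h ρ' y := by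
  have hR := hL.Rpos
  have hcs : ∀ (t : ℝ) (σ : (Fin m → ℂ) → ℝ), IsRad t σ → HasCompactSupport σ := by
    intro t σ hσ
    refine HasCompactSupport.intro (isCompact_closedBall (0 : Fin m → ℂ) t) fun w hw => ?_
    refine hσ.supp w ?_
    rw [Metric.mem_closedBall, dist_zero_right, not_le] at hw
    exact hw.le
  have hsub : Metric.ball y (R / 2) ⊆ Metric.ball y₀ R := by
    refine Metric.ball_subset_ball' ?_
    rw [Metric.mem_ball] at hy
    linarith
  have key : ∀ (t t' : ℝ) (σ σ' : (Fin m → ℂ) → ℝ), IsRad t σ → IsRad t' σ' → t < R / 2 →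
      t' < R / 2 → ∫ w, tauI B g h σ (y - w) * (σ' w : ℂ) = tauI B g h σ y := by
    intro t t' σ σ' hσ hσ' ht ht'
    have h1 : DifferentiableOn ℂ (tauI B g h σ) (Metric.ball y₀ R) :=
      tauI_hol hL hσ.smooth fun w hw => hσ.supp w (by linarith)
    exact radial_mean hσ' ht' (h1.mono hsub)
  have k1 := key s s' ρ ρ' hρ hρ' hs hs'
  have k2 := key s' s ρ' ρ hρ' hρ hs' hs
  rw [tauI_double hL hρ.smooth.continuous (hcs s ρ hρ) hρ'.smooth.continuous (hcs s' ρ' hρ')] at k1
  rw [tauI_double hL hρ'.smooth.continuous (hcs s' ρ' hρ') hρ.smooth.continuous (hcs s ρ hρ)] at k2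
  rw [← k1, ← k2]
  refine integral_congr_ae (Filter.Eventually.of_forall fun ζ => ?_)
  simp only []
  congr 1
  have h3 := integral_sub_left_eq_self
    (fun w => (ρ (y - g ζ - w) : ℂ) * (ρ' w : ℂ)) volume (y - g ζ)
  rw [← h3]
  refine integral_congr_ae (Filter.Eventually.of_forall fun w => ?_)
  simp only [sub_sub_cancel]
  ring

end Pool.Agent.MP_fe3720.BB
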