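import Pool.Agent.Work.MP_fe3720_an.B.FinalB
import Pool.Agent.Work.MP_fe3720_an.B.GelB
import Pool.Agent.Work.MP_fe3720_an.R.MainR
import Pool.Agent.Work.MP_fe3720_an.Bridge

/-! # Module MainB: connected Stein submanifolds of `ℂ^N`

* `nonvanishing_of_density`: if `O` has the density property, `m ≥ 1` and `SD0`, then every point `x` has a complete field `w`
  with `NZ w x`: otherwise all complete fields vanish at `x`; `{D | ∀ g, (D g) x = 0}` is (the carrier of) a Lie subalgebra,
  so all `U ∈ completeLie O` satisfy `(U g) x = 0`; but `hS.fields x` gives a vector field `E` with `(E g) x ≠ 0` for some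
  `g`, and the density property for `S = {g}`, `K = {x}` gives a contradiction.
* `mainB`: as in `mainR` (R/MainR.lean): `sd0_hol`, `gelK_hol`, `density_B`; translate with `DensityRR.rr_iff`,
  `DensityRR.density_iff`. -/

namespace Pool.Agent.MP_fe3720.BB

open Topology RR Filter

/-- the fields vanishing at a point -/
private def vanish {X : Type} {O : Subalgebra ℂ (X → ℂ)} (x : X) :
    LieSubalgebra ℂ (Derivation ℂ O O) where
  carrier := {D | ∀ g : O, (D g) x = 0}
  add_mem' := by
    intro D E hD hE g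
    show (D g) x + (E g) x = 0
    rw [hD g, hE g, add_zero]
  zero_mem' := fun g => rfl
  smul_mem' := by
    intro c D hD g
    show c * (D g) x = 0
    rw [hD g, mul_zero]
  lie_mem' := by
    intro D E hD hE g
    rw [Derivation.commutator_apply]
    show (D (E g)) x - (E (D g)) x = 0
    rw [hD (E g), hE (D g), sub_zero]

theorem nonvanishing_of_density {X : Type} [MetricSpace X] {O : Subalgebra ℂ (X → ℂ)}
    {m N : ℕ} {G : Fin N → O} (hS : SD0 m O G) (hm : 1 ≤ m) (hDP : DensityProperty O) (x : X) :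
    ∃ w : Derivation ℂ O O, IsCompleteVF w ∧ NZ w x := by
  by_contra hcon
  push Not at hcon
  have hle : completeLie O ≤ vanish x := by
    refine LieSubalgebra.lieSpan_le.mpr ?_
    intro D hD g
    by_contra h
    exact hcon D hD ⟨g, h⟩
  obtain ⟨E, hE, hli⟩ := hS.fields x
  have hne := hli.ne_zero (⟨0, hm⟩ : Fin m)
  obtain ⟨g, hg⟩ := Function.ne_iff.mp hne
  obtain ⟨U, hU, h1⟩ := hDP (E ⟨0, hm⟩) (hE _) {g} {x} isCompact_singleton
    ‖(E ⟨0, hm⟩ g) x‖ (norm_pos_iff.mpr hg)
  have h2 := h1 g (Finset.mem_singleton_self g) x (Set.mem_singleton x)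
  have h3 : (U g) x = 0 := hle hU g
  rw [h3, sub_zero] at h2
  exact lt_irrefl _ h2

variable {N d : ℕ} {Z : Set (Fin N → ℂ)}

theorem mainB (hZ : IsSteinSubmanifold N d Z) (hconn : IsConnected Z)
    (hs : ∃ (v : Derivation ℂ (hol Z) (hol Z)) (f s : hol Z), IsSlice v f s) :
    DensityProperty (hol Z) ↔ (IsRR (hol Z) ∧
      ∀ x : Z, ∃ w : Derivation ℂ (hol Z) (hol Z), IsCompleteVF w ∧ NZ w x) := by
  obtain ⟨v, f, s, hsl⟩ := hs
  have hcl := isClosed_of_submanifold hZ
  have : ProperSpace Z := ProperSpace.of_isClosed hcl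
  have : PreconnectedSpace Z := Subtype.preconnectedSpace hconn.isPreconnected
  have hS0 := sd0_hol hZ
  have hv0 : v ≠ 0 := by
    intro h0
    have := hsl.ne
    rw [h0] at this
    exact this rfl
  have hm : 2 ≤ d := dim_two hS0 hsl.complete.1 hv0 hsl.first hsl.nonconst
  constructor
  · intro hDP
    refine ⟨?_, fun x => nonvanishing_of_density hS0 (by omega) hDP x⟩
    have hS : SD d (hol Z) (coord Z) := ⟨hS0, ends_of hS0 (immersive_hol hZ) hm⟩
    exact isRR_of_density hS hDP hsl.complete hv0 hsl.first hsl.nonconst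
  · rintro ⟨hRR, hT⟩
    exact density_B hS0 (gelK_hol hZ) hRR hsl hT

end Pool.Agent.MP_fe3720.BB
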