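import Pool.Agent.Work.MP_fe3720_an.B.SliceC

/-! # Module SliceF: a slice gives a nonconstant first integral

Let `v` be complete, `v (v s) = 0`, `v s ≠ 0`, and let the dimension be `m ≥ 2`. Then `v` has a nonconstant first integral:
`v s`, if it is not constant. If `v s = c` is constant then for every `g : O` the function `r g`, given by
`x ↦ g (Φ (-s x / c) x)`, is a first integral. If all of them are constant then `X` is one orbit `{Φ (s x / c) p}`,
`g x = g (Φ (s x / c) p)` for all `x` and all `g`, and all tangent vectors at a point are proportional. -/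

namespace Pool.Agent.MP_fe3720.BB

open Topology RR Filter

variable {X : Type} [MetricSpace X] [ProperSpace X] {O : Subalgebra ℂ (X → ℂ)} {m N : ℕ}
  {G : Fin N → O}

omit [ProperSpace X] in
theorem flow_comp_mem (hS : SD0 m O G) {v : Derivation ℂ O O} {Φ : ℂ → HolAut O}
    (hΦ : IsFlow v Φ) (g h : O) : (fun x => g (Φ (h x) x)) ∈ O := by
  refine hS.alg.closed _ fun K hK ε hε => ?_
  obtain ⟨n, a, ha⟩ := hΦ.approx g ((fun x => (h x, x)) '' K)
    (hK.image ((cont hS h).prodMk continuous_id)) ε hε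
  refine ⟨((∑ k ∈ Finset.range n, h ^ k * a k : O) : X → ℂ), Subtype.prop _, fun x hx => ?_⟩
  have h1 := ha (h x, x) ⟨x, hx, rfl⟩
  have h2 : ((∑ k ∈ Finset.range n, h ^ k * a k : O) : X → ℂ) x =
      ∑ k ∈ Finset.range n, (h x) ^ k * (a k) x := by
    rw [AddSubmonoidClass.coe_finsetSum, Finset.sum_apply]
    rfl
  rw [h2]
  exact h1

theorem exists_first (hS : SD0 m O G) (hm : 2 ≤ m) {v : Derivation ℂ O O} (hv : IsCompleteVF v)
    {s : O} (hs : v (v s) = 0) (hne : v s ≠ 0) :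
    ∃ f : O, v f = 0 ∧ ∃ x y, f x ≠ f y := by
  by_cases hc : ∃ x y, (v s) x ≠ (v s) y
  · exact ⟨v s, hs, hc⟩
  push Not at hc
  obtain ⟨x₀, hx₀⟩ : ∃ x, (v s) x ≠ 0 := by
    by_contra hcon
    push Not at hcon
    exact hne (Subtype.ext (funext hcon))
  obtain ⟨c, hc0⟩ : ∃ c, c = (v s) x₀ := ⟨_, rfl⟩
  have hcv : ∀ x, (v s) x = c := fun x => by rw [hc0]; exact hc x x₀
  rw [← hc0] at hx₀
  obtain ⟨Φ, hΦ⟩ := exists_flow hS hv
  let h : O := (-c⁻¹) • s
  have hh : ∀ x, h x = -c⁻¹ * s x := fun x => rfl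
  let r : O → O := fun g => ⟨fun x => g (Φ (h x) x), flow_comp_mem hS hΦ g h⟩
  have hr : ∀ g x, (r g) x = g (Φ (h x) x) := fun g x => rfl
  have hrΦ : ∀ g t x, (r g) (Φ t x) = (r g) x := by
    intro g t x
    have e : -c⁻¹ * (s x + c * t) + t = -c⁻¹ * s x := by
      field_simp
      ring
    rw [hr, ← hΦ.add, hh, slice_flow hΦ hs, hcv, e]
    rfl
  have hr0 : ∀ g, v (r g) = 0 := by
    intro g
    refine Subtype.ext (funext fun x => ?_)
    have h1 := hΦ.deriv (r g) x 0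
    rw [hΦ.zero] at h1
    have h2 : (fun t => (r g) (Φ t x)) = fun _ => (r g) x := funext fun t => hrΦ g t x
    rw [h2] at h1
    exact h1.unique (hasDerivAt_const _ _)
  by_contra hcon
  push Not at hcon
  have hconst : ∀ g x y, (r g) x = (r g) y := fun g => hcon (r g) (hr0 g)
  obtain ⟨p, hp⟩ : ∃ p, p = Φ (h x₀) x₀ := ⟨_, rfl⟩
  have hpx : ∀ x, Φ (h x) x = p := by
    intro x
    refine eq_of_G hS fun i => ?_
    rw [hp]
    exact hconst (G i) x x₀
  have hx : ∀ x, Φ (c⁻¹ * s x) p = x := by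
    intro x
    rw [← hpx x, ← hΦ.add, hh]
    have : c⁻¹ * s x + -c⁻¹ * s x = 0 := by ring
    rw [this, hΦ.zero]
  -- all the values of vector fields at `x₀` are proportional
  have key : ∀ E : Derivation ℂ O O, IsVF E → ∀ g : O,
      (E g) x₀ = (E s) x₀ * (c⁻¹ * (v g) x₀) := by
    intro E hE g
    obtain ⟨q, κ, V, hcT, hV, hκ⟩ := hS.charts x₀
    have hd : DifferentiableAt ℂ (fun y => s (κ y)) (fun j => (q j) x₀) :=
      ((hcT.smooth s).contDiffAt (hcT.opn.mem_nhds hV)).differentiableAt (by norm_num)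
    have h1 := hcT.tan E hE g _ hV
    have h2 := hcT.tan E hE s _ hV
    rw [hκ] at h1 h2
    have h3 : HasDerivAt (fun z : ℂ => g (Φ (c⁻¹ * z) p)) (c⁻¹ * (v g) x₀) (s x₀) := by
      have h4 := hΦ.deriv g p (c⁻¹ * s x₀)
      have h5 : HasDerivAt (fun z : ℂ => c⁻¹ * z) c⁻¹ (s x₀) := by
        simpa using (hasDerivAt_id (s x₀)).const_mul c⁻¹
      have h6 := h4.comp (s x₀) h5
      rw [hx, mul_comm] at h6
      exact h6
    have h4 : (fun y => g (κ y)) = fun y => (fun z : ℂ => g (Φ (c⁻¹ * z) p)) (s (κ y)) := by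
      funext y
      show g (κ y) = g (Φ (c⁻¹ * s (κ y)) p)
      rw [hx]
    have h5 : HasFDerivAt (fun y => g (κ y)) ((c⁻¹ * (v g) x₀) • fderiv ℂ (fun y => s (κ y))
        (fun j => (q j) x₀)) (fun j => (q j) x₀) := by
      have h6 : HasDerivAt (fun z : ℂ => g (Φ (c⁻¹ * z) p)) (c⁻¹ * (v g) x₀)
          ((fun y => s (κ y)) (fun j => (q j) x₀)) := by
        show HasDerivAt _ _ (s (κ fun j => (q j) x₀))
        rw [hκ]
        exact h3
      rw [h4]
      exact h6.comp_hasFDerivAt (fun j => (q j) x₀) hd.hasFDerivAt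
    rw [h1, h5.fderiv, h2]
    rw [smul_apply, smul_eq_mul, mul_comm]
  obtain ⟨E, hE, hli⟩ := hS.fields x₀
  have h0 : (0 : ℕ) < m := by omega
  have h1 : (1 : ℕ) < m := by omega
  rw [Fintype.linearIndependent_iff] at hli
  have h2 := hli (fun i => if i = ⟨0, h0⟩ then (E ⟨1, h1⟩ s) x₀ else
    if i = ⟨1, h1⟩ then -(E ⟨0, h0⟩ s) x₀ else 0) (by
      funext g
      rw [Finset.sum_apply]
      show ∑ i, (if i = (⟨0, h0⟩ : Fin m) then (E ⟨1, h1⟩ s) x₀ else
        if i = ⟨1, h1⟩ then -(E ⟨0, h0⟩ s) x₀ else 0) * (E i g) x₀ = 0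
      have h01 : (⟨1, h1⟩ : Fin m) ≠ ⟨0, h0⟩ := by
        intro h
        exact absurd (congrArg Fin.val h) (by norm_num)
      rw [Finset.sum_eq_add (⟨0, h0⟩ : Fin m) ⟨1, h1⟩ h01.symm]
      · rw [if_pos rfl, if_neg h01, if_pos rfl, key _ (hE _) g, key _ (hE ⟨1, h1⟩) g]
        ring
      · rintro i - ⟨hi0, hi1⟩
        rw [if_neg hi0, if_neg hi1, zero_mul]
      · intro h
        exact absurd (Finset.mem_univ _) h
      · intro h
        exact absurd (Finset.mem_univ _) h)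
  have h3 := h2 ⟨0, h0⟩
  rw [if_pos rfl] at h3
  have h4 := hli (fun i => if i = ⟨1, h1⟩ then 1 else 0) (by
    funext g
    rw [Finset.sum_apply]
    show ∑ i, (if i = (⟨1, h1⟩ : Fin m) then (1 : ℂ) else 0) * (E i g) x₀ = 0
    rw [Finset.sum_eq_single (⟨1, h1⟩ : Fin m)]
    · rw [if_pos rfl, key _ (hE _) g, h3]
      ring
    · intro i _ hi
      rw [if_neg hi, zero_mul]
    · intro h
      exact absurd (Finset.mem_univ _) h)
  have h5 := h4 ⟨1, h1⟩
  rw [if_pos rfl] at h5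
  exact one_ne_zero h5

end Pool.Agent.MP_fe3720.BB
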