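import Pool.Agent.Work.MP_fe3720_an.B.RRPos
import Pool.Agent.Work.MP_fe3720_an.B.SliceF
import Pool.Agent.Work.MP_fe3720_an.PubS

/-! # Module MainS: the main theorem in the public definitions -/

namespace Pool.Agent.MP_fe3720.BB

open Topology RR Filter

variable {X : Type} [TopologicalSpace X]

theorem rrp_bridge (O : Subalgebra ℂ (X → ℂ)) : DensityRR.IsRRPos O ↔ IsRRP O := by
  constructor
  · rintro ⟨T, h1, h2, h3, h4, v, hv, hv0, f, hf, hvf⟩
    exact ⟨T, h1, h2, h3, h4, v, hv, hv0, f, hf, Subtype.ext hvf⟩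
  · rintro ⟨T, h1, h2, h3, h4, v, hv, hv0, f, hf, hvf⟩
    exact ⟨T, h1, h2, h3, h4, v, hv, hv0, f, hf, congrArg Subtype.val hvf⟩

theorem nz_bridge (O : Subalgebra ℂ (X → ℂ)) : DensityRR.NoCommonZero O ↔
    ∀ x : X, ∃ w : Derivation ℂ O O, IsCompleteVF w ∧ ∃ g : O, (w g) x ≠ 0 := Iff.rfl

variable {N d : ℕ} {Z : Set (Fin N → ℂ)}

theorem mainS (hZ : IsSteinSubmanifold N d Z) (hconn : IsConnected Z) (hd : 2 ≤ d)
    (hs : DensityRR.HasSlice (hol Z)) :
    (DensityRR.DensityProperty (hol Z) ↔ DensityRR.IsRRPos (hol Z)) ∧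
      (DensityRR.DensityProperty (hol Z) ↔
        DensityRR.IsRR (hol Z) ∧ DensityRR.NoCommonZero (hol Z)) := by
  obtain ⟨v, s, t, hv, h1, h2, h3⟩ := hs
  obtain ⟨v', hv'⟩ : ∃ v' : Derivation ℂ (hol Z) (hol Z), v' = v := ⟨_, rfl⟩
  have hvc : IsCompleteVF v' := by rw [hv']; exact hv
  have h1' : v' s = t := by rw [hv']; exact Subtype.ext h1
  have h2' : v' t = 0 := by rw [hv']; exact Subtype.ext h2
  have hcl := isClosed_of_submanifold hZ
  have : ProperSpace Z := ProperSpace.of_isClosed hcl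
  have : PreconnectedSpace Z := Subtype.preconnectedSpace hconn.isPreconnected
  have hS0 := sd0_hol hZ
  have h4 : v' (v' s) = 0 := by rw [h1', h2']
  have h5 : v' s ≠ 0 := by rw [h1']; exact h3
  obtain ⟨f, hf, hfc⟩ := exists_first hS0 hd hvc h4 h5
  have key := mainB hZ hconn ⟨v', f, s, ⟨hvc, hf, hfc, h4, h5⟩⟩
  have hrr := rrp_iff hS0
  rw [rrp_bridge, nz_bridge, DensityRR.rr_iff, DensityRR.density_iff]
  exact ⟨key.trans hrr.symm, key⟩

/-- the density property and (RR4) imply the stronger form of the axioms -/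
theorem mainR' (hZ : IsSteinSubmanifold N d Z) (hconn : IsConnected Z)
    (h4 : DensityRR.RR4 (hol Z)) (hDP : DensityRR.DensityProperty (hol Z)) :
    DensityRR.IsRR (hol Z) ∧ DensityRR.IsRRPos (hol Z) := by
  have hRR := mainR hZ hconn h4 hDP
  refine ⟨hRR, ?_⟩
  obtain ⟨v, hv, hv0, f, hfc, hvf⟩ := h4
  have hcl := isClosed_of_submanifold hZ
  have : ProperSpace Z := ProperSpace.of_isClosed hcl
  have : PreconnectedSpace Z := Subtype.preconnectedSpace hconn.isPreconnected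
  have hS0 := sd0_hol hZ
  have hvf' : (show Derivation ℂ (hol Z) (hol Z) from v) f = 0 := Subtype.ext hvf
  have hm : 2 ≤ d := dim_two hS0 (v := v) hv.1 hv0 hvf' hfc
  rw [DensityRR.density_iff] at hDP
  rw [DensityRR.rr_iff] at hRR
  rw [rrp_bridge]
  exact (rrp_iff hS0).mpr ⟨hRR, fun x => nonvanishing_of_density hS0 (by omega) hDP x⟩

end Pool.Agent.MP_fe3720.BB
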