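import Pool.Agent.Work.MP_fe3720_an.B.Base

/-! # Module PushF: flows of the conjugate fields

`pushFlow Φ φ t x = φ (Φ t (φ.symm x))`.
* `isFlow_push`: `IsFlow (φ.push v) (pushFlow Φ φ)`: all fields of the structure follow from those of
  `IsFlow v Φ` applied to `φ.pull f` and the point `φ.symm x`; for `approx` take the coefficients
  `φ.symm.pull (a k)` and the compact set `(id × φ.symm) '' K`.
* `pushFlow_comp`: `A (pushFlow Φ φ t x) = pushFlow Φ (A.comp φ) t (A x)`.
* `Psi_update_push`: changing one parameter of a composition of flows `Psi (fun i => pushFlow Φ (φ i)) t` is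
  composition with the flow of a conjugate field: for `i`, `t`, there is `α : HolAut O` with
  `Psi … (update t i (t i + s)) x = pushFlow Φ α s (Psi … t x)` for all `s`, where `α` does not depend on `s` (nor
  on `x`). Induction on `r` as in module ParA (`Psi_update`): for `i = 0` use `IsFlow.add`, `α = φ 0`; for
  `i = i'.succ` by induction there is `α'` for the tail; apply `A = pushFlow Φ (φ 0) (t 0)` and
  `pushFlow_comp`, `α = A.comp α'`. -/

namespace Pool.Agent.MP_fe3720.BB

open Topology RR Filter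

variable {X : Type} [MetricSpace X] {O : Subalgebra ℂ (X → ℂ)} {m N : ℕ} {G : Fin N → O}

theorem pushFlow_apply (Φ : ℂ → HolAut O) (φ : HolAut O) (t : ℂ) (x : X) :
    pushFlow Φ φ t x = φ (Φ t (φ.symm x)) := rfl

theorem isFlow_push {v : Derivation ℂ O O} {Φ : ℂ → HolAut O} (hΦ : IsFlow v Φ)
    (φ : HolAut O) : IsFlow (φ.push v) (pushFlow Φ φ) where
  cont := by
    have h1 : Continuous (fun p : ℂ × X => Φ p.1 (φ.symm p.2)) :=
      hΦ.cont.comp (continuous_fst.prodMk (φ.toHomeo.symm.continuous.comp continuous_snd))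
    exact φ.toHomeo.continuous.comp h1
  zero x := by
    rw [pushFlow_apply, hΦ.zero, HolAut.apply_symm]
  add s t x := by
    rw [pushFlow_apply, pushFlow_apply, pushFlow_apply, HolAut.symm_apply_self, hΦ.add]
  deriv f x t := by
    have h := hΦ.deriv (φ.pull f) (φ.symm x) t
    have e : ((φ.push v) f) (pushFlow Φ φ t x) = (v (φ.pull f)) (Φ t (φ.symm x)) := by
      rw [pushFlow_apply, HolAut.push_apply]
    rw [e]
    exact h
  approx f K hK ε hε := by
    obtain ⟨n, a, ha⟩ := hΦ.approx (φ.pull f) ((fun p : ℂ × X => (p.1, φ.symm p.2)) '' K)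
      (hK.image (continuous_fst.prodMk (φ.toHomeo.symm.continuous.comp continuous_snd))) ε hε
    refine ⟨n, fun k => φ.symm.pull (a k), fun p hp => ?_⟩
    exact ha _ ⟨p, hp, rfl⟩

theorem pushFlow_comp (Φ : ℂ → HolAut O) (A φ : HolAut O) (t : ℂ) (x : X) :
    A (pushFlow Φ φ t x) = pushFlow Φ (A.comp φ) t (A x) := by
  rw [pushFlow_apply, pushFlow_apply, HolAut.comp_apply]
  have h : (A.comp φ).symm (A x) = φ.symm x := by
    show φ.symm (A.symm (A x)) = φ.symm x
    rw [HolAut.symm_apply_self]
  rw [h]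

theorem Psi_update_push {v : Derivation ℂ O O} {Φ : ℂ → HolAut O} (hΦ : IsFlow v Φ) {r : ℕ}
    (φ : Fin r → HolAut O) (t : Fin r → ℂ) (i : Fin r) :
    ∃ α : HolAut O, ∀ (s : ℂ) (x : X),
      RR.Psi (fun i => pushFlow Φ (φ i)) (Function.update t i (t i + s)) x =
        pushFlow Φ α s (RR.Psi (fun i => pushFlow Φ (φ i)) t x) := by
  induction r with
  | zero => exact i.elim0
  | succ r ih =>
    refine Fin.cases ?_ (fun i => ?_) i
    · refine ⟨φ 0, fun s x => ?_⟩
      rw [Psi_succ_apply, Psi_succ_apply, Function.update_self, Fin.tail_update_zero,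
        add_comm (t 0) s, (isFlow_push hΦ (φ 0)).add]
    · obtain ⟨α, hα⟩ := ih (Fin.tail φ) (Fin.tail t) i
      refine ⟨(pushFlow Φ (φ 0) (t 0)).comp α, fun s x => ?_⟩
      rw [Psi_succ_apply, Psi_succ_apply, ← pushFlow_comp, Fin.tail_update_succ]
      have h0 : Function.update t i.succ (t i.succ + s) 0 = t 0 := by
        rw [Function.update_of_ne (Fin.succ_ne_zero i).symm]
      rw [h0]
      exact congrArg (pushFlow Φ (φ 0) (t 0)) (hα s x)

end Pool.Agent.MP_fe3720.BB
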