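import Pool.Agent.Work.MP_fe3720_an.B.SpanB
import Pool.Agent.Work.MP_fe3720_an.B.PushF
import Pool.Agent.Work.MP_fe3720_an.B.RegB

/-! # Module PertA: perturbing an automorphism

Let `z₀ = θ x₀`. By `span_everywhere` there are `φ : Fin m → HolAut O` and `f` with `det ((φ i).push v (f j)) z₀ ≠ 0`, i.e. the
fields `W i = (φ i).push v` span at `z₀`. Put `η t = RR.Psi (fun i => pushFlow Φ (φ i)) t`, `t : Fin m → ℂ`, and `θ' = (η t).comp θ`.

(1) For small `t`, `θ'` maps `K` into `K₁`: `(t, x) ↦ η t x` is continuous (`Psi_cont`), `η 0 = id`, `θ '' K` is compact and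
contained in the open set `interior K₁` (tube lemma).
(2) There are arbitrarily small `t` with `e (η t z₀) ≠ 0`: in a chart `q, κ, V` at `z₀` the map `t ↦ (q j (η t z₀))_j` is `C¹`
(`Psi_entire`) with derivative at `0` given by the matrix `((W i) (q j)) z₀` (`Psi_deriv`), which is invertible
(`(W i f_j)(z₀) = fderiv (f_j ∘ κ) y₀ ((W i) q)`, so if the matrix `(W i (q j)) z₀` were singular, so would be
`(W i f_j) z₀`). So its image of every neighbourhood of `0` contains a neighbourhood of `y₀` (`inverse_general` or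
`HasStrictFDerivAt.map_nhds_eq_of_surj`), and `η t z₀ = κ (q (η t z₀))` for `t` small: the points `η t z₀` fill a
neighbourhood of `z₀`, in which `e` does not vanish identically on open subsets (`he`; intersect with
`interior K₁`).
(3) `(θ'.symm.push v g) x₀ = (v (θ'.symm.pull g)) (θ' x₀)` and `θ'.symm.pull g = (η t).symm.pull (θ.symm.pull g)`. With
`g' = θ.symm.pull g`: `(η t).symm.pull g' → g'` uniformly on compact sets when `t → 0` (`Psi_symm_cont`), `v` is continuous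
(`IsVF`), so `v ((η t).symm.pull g') → v g'` uniformly on a compact neighbourhood of `z₀`, and
`(v g') (η t z₀) → (v g') z₀ = (θ.symm.push v g) x₀`. Finitely many `g ∈ S`. -/

namespace Pool.Agent.MP_fe3720.BB

open Topology RR Filter

variable {X : Type} [MetricSpace X] [ProperSpace X] [PreconnectedSpace X]
  {O : Subalgebra ℂ (X → ℂ)} {m N : ℕ} {G : Fin N → O}

omit [ProperSpace X] [PreconnectedSpace X] in
/-- flows of spanning fields fill neighbourhoods -/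
theorem psi_fill (hS : SD0 m O G) {W : Fin m → Derivation ℂ O O} (hW : ∀ i, IsVF (W i))
    {Ψ : Fin m → ℂ → HolAut O} (hΨ : ∀ i, IsFlow (W i) (Ψ i)) {z₀ : X} {f : Fin m → O}
    (hdet : (Matrix.of fun i j => (W i (f j)) z₀).det ≠ 0) {T : Set (Fin m → ℂ)}
    (hT : T ∈ 𝓝 (0 : Fin m → ℂ)) : (fun t => RR.Psi Ψ t z₀) '' T ∈ 𝓝 z₀ := by
  classical
  obtain ⟨q, κ, V, hc, hV, hκ⟩ := hS.charts z₀
  set y₀ := fun j => (q j) z₀ with hy₀
  set A : Matrix (Fin m) (Fin m) ℂ := Matrix.of fun i j => (W i (q j)) z₀ with hA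
  have hAdet : A.det ≠ 0 := by
    have h1 : (Matrix.of fun i j => (W i (f j)) z₀) = A * Matrix.of fun l j =>
        fderiv ℂ (fun y => (f j) (κ y)) y₀ (Pi.single l 1) := by
      ext i j
      have h2 := hc.tan (W i) (hW i) (f j) y₀ hV
      rw [hκ] at h2
      rw [Matrix.of_apply, h2, Matrix.mul_apply]
      have h3 : (fun l => (W i (q l)) z₀) = ∑ l, A i l • (Pi.single l 1 : Fin m → ℂ) := by
        funext l
        simp [Finset.sum_apply, Pi.single_apply, hA]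
      rw [h3, map_sum]
      refine Finset.sum_congr rfl fun l _ => ?_
      rw [map_smul, smul_eq_mul]
      rfl
    rw [h1, Matrix.det_mul] at hdet
    exact left_ne_zero_of_mul hdet
  set p : (Fin m → ℂ) → (Fin m → ℂ) := fun t j => (q j) (RR.Psi Ψ t z₀) with hp
  have hpc : ContDiff ℂ 1 p := contDiff_pi.mpr fun j => Psi_entire hS.alg hΨ (q j) z₀
  have hpd : HasFDerivAt p (ContinuousLinearMap.pi fun j => ∑ i, ((W i (q j)) z₀) •
      (ContinuousLinearMap.proj i : (Fin m → ℂ) →L[ℂ] ℂ)) 0 :=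
    hasFDerivAt_pi.mpr fun j => Psi_deriv hS.alg hΨ (q j) z₀
  have hps := (hpc.contDiffAt (x := 0)).hasStrictFDerivAt' hpd (by norm_num)
  have hsurj : LinearMap.range (ContinuousLinearMap.pi fun j => ∑ i, ((W i (q j)) z₀) •
      (ContinuousLinearMap.proj i : (Fin m → ℂ) →L[ℂ] ℂ)).toLinearMap = ⊤ := by
    rw [LinearMap.range_eq_top]
    intro w
    have hu : IsUnit A.det := isUnit_iff_ne_zero.mpr hAdet
    refine ⟨Matrix.vecMul w A⁻¹, ?_⟩
    have h1 : Matrix.vecMul (Matrix.vecMul w A⁻¹) A = w := by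
      rw [Matrix.vecMul_vecMul, Matrix.nonsing_inv_mul A hu, Matrix.vecMul_one]
    funext j
    have h2 := congrFun h1 j
    rw [Matrix.vecMul, dotProduct] at h2
    rw [← h2]
    show (∑ i, ((W i (q j)) z₀) • (ContinuousLinearMap.proj i : (Fin m → ℂ) →L[ℂ] ℂ))
      (Matrix.vecMul w A⁻¹) = _
    rw [sum_apply]
    refine Finset.sum_congr rfl fun i _ => ?_
    show (W i (q j)) z₀ * (Matrix.vecMul w A⁻¹) i = (Matrix.vecMul w A⁻¹) i * A i j
    rw [mul_comm]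
    rfl
  have hmap := hps.map_nhds_eq_of_surj hsurj
  have hΨ0 : RR.Psi Ψ 0 z₀ = z₀ := RR.Psi_zero hΨ z₀
  have hp0 : p 0 = y₀ := by
    funext j
    show (q j) (RR.Psi Ψ 0 z₀) = (q j) z₀
    rw [hΨ0]
  rw [hp0] at hmap
  have hcont : ContinuousAt (fun t => RR.Psi Ψ t z₀) 0 :=
    ((RR.Psi_cont hΨ).comp (continuous_id.prodMk continuous_const)).continuousAt
  have hz₀V : z₀ ∈ κ '' V := ⟨y₀, hV, hκ⟩
  have hT' : T ∩ (fun t => RR.Psi Ψ t z₀) ⁻¹' (κ '' V) ∈ 𝓝 (0 : Fin m → ℂ) := by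
    refine inter_mem hT (hcont.preimage_mem_nhds ?_)
    simp only [hΨ0]
    exact hc.img.mem_nhds hz₀V
  have h1 : p '' (T ∩ (fun t => RR.Psi Ψ t z₀) ⁻¹' (κ '' V)) ∈ 𝓝 y₀ := by
    rw [← hmap]
    exact image_mem_map hT'
  have hqc : ContinuousAt (fun (x : X) (j : Fin m) => (q j) x) z₀ :=
    (chart_q_cont hS.alg q).continuousAt
  filter_upwards [hqc.preimage_mem_nhds h1, hc.img.mem_nhds hz₀V] with x hx hxV
  obtain ⟨t, ⟨htT, htV⟩, ht⟩ := hx
  refine ⟨t, htT, ?_⟩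
  have h2 := (chart_symm hc hxV).2
  have h3 := (chart_symm hc (x := RR.Psi Ψ t z₀) htV).2
  have h4 : (fun j => (q j) (RR.Psi Ψ t z₀)) = fun j => (q j) x := ht
  rw [← h2, ← h4]
  exact h3.symm

theorem pert_aut (hS : SD0 m O G) (hK : KTrans O) {v : Derivation ℂ O O} {Φ : ℂ → HolAut O}
    (hv : IsVF v) (hΦ : IsFlow v Φ) (hnz : ∃ p, NZ v p) {e : X → ℂ} {K K₁ : Set X}
    (hKc : IsCompact K) (he : ∀ W ⊆ K₁, IsOpen W → W.Nonempty → ∃ x ∈ W, e x ≠ 0)
    (θ : HolAut O) (hθ : ∀ x ∈ K, θ x ∈ interior K₁) {x₀ : X} (hx₀ : x₀ ∈ K) (S : Finset O)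
    {ε : ℝ} (hε : 0 < ε) :
    ∃ θ' : HolAut O, (∀ x ∈ K, θ' x ∈ K₁) ∧ e (θ' x₀) ≠ 0 ∧
      ∀ g ∈ S, ‖(θ'.symm.push v g) x₀ - (θ.symm.push v g) x₀‖ < ε := by
  classical
  set z₀ := θ x₀ with hz₀
  obtain ⟨φ, f, hdet⟩ := span_everywhere hS hK hv hΦ hnz z₀
  have hfl : ∀ i, IsFlow ((φ i).push v) (pushFlow Φ (φ i)) := fun i => isFlow_push hΦ (φ i)
  set Ψ : (Fin m → ℂ) → HolAut O := fun t => RR.Psi (fun i => pushFlow Φ (φ i)) t with hΨ
  have hΨc : Continuous (fun p : (Fin m → ℂ) × X => Ψ p.1 p.2) := RR.Psi_cont hfl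
  have hΨsc : Continuous (fun p : (Fin m → ℂ) × X => (Ψ p.1).symm p.2) := RR.Psi_symm_cont hfl
  have hΨ0 : ∀ x, Ψ 0 x = x := RR.Psi_zero hfl
  have hΨs0 : ∀ x, (Ψ 0).symm x = x := fun x => by
    have h := (Ψ 0).symm_apply_self x
    rwa [hΨ0] at h
  have hθc : Continuous (fun x => θ x) := θ.toHomeo.continuous
  -- (1)
  have hA : ∀ᶠ t in 𝓝 (0 : Fin m → ℂ), ∀ x ∈ K, Ψ t (θ x) ∈ interior K₁ := by
    refine hKc.eventually_forall_of_forall_eventually fun x hx => ?_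
    have h1 : Continuous (fun p : (Fin m → ℂ) × X => Ψ p.1 (θ p.2)) :=
      hΨc.comp (continuous_fst.prodMk (hθc.comp continuous_snd))
    refine h1.continuousAt.eventually_mem (isOpen_interior.mem_nhds ?_)
    show Ψ 0 (θ x) ∈ interior K₁
    rw [hΨ0]
    exact hθ x hx
  -- (3)
  have hC : ∀ g : O, ∀ᶠ t in 𝓝 (0 : Fin m → ℂ),
      ‖(((Ψ t).comp θ).symm.push v g) x₀ - (θ.symm.push v g) x₀‖ < ε := by
    intro g
    set g' : O := θ.symm.pull g with hg'
    have e1 : (θ.symm.push v g) x₀ = (v g') z₀ := rfl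
    have e2 : ∀ t, (((Ψ t).comp θ).symm.push v g) x₀ = (v ((Ψ t).symm.pull g')) (Ψ t z₀) :=
      fun t => rfl
    obtain ⟨K₂, hK₂, hK₂n⟩ := exists_compact_mem_nhds z₀
    obtain ⟨K', hK', δ, hδ, hvδ⟩ := hv K₂ hK₂ (ε / 2) (by positivity)
    have h1 : ∀ᶠ t in 𝓝 (0 : Fin m → ℂ), ∀ x ∈ K', ‖g' ((Ψ t).symm x) - g' x‖ < δ := by
      refine hK'.eventually_forall_of_forall_eventually fun x hx => ?_
      have h2 : Continuous (fun p : (Fin m → ℂ) × X => ‖g' ((Ψ p.1).symm p.2) - g' p.2‖) :=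
        (((cont hS g').comp hΨsc).sub ((cont hS g').comp continuous_snd)).norm
      refine h2.continuousAt.eventually_lt_const ?_
      show ‖g' ((Ψ 0).symm x) - g' x‖ < δ
      rw [hΨs0, sub_self, norm_zero]
      exact hδ
    have h3 : Continuous (fun t => Ψ t z₀) := hΨc.comp (continuous_id.prodMk continuous_const)
    have h4 : ∀ᶠ t in 𝓝 (0 : Fin m → ℂ), Ψ t z₀ ∈ K₂ :=
      h3.continuousAt.eventually_mem (by rw [hΨ0]; exact hK₂n)
    have h5 : ∀ᶠ t in 𝓝 (0 : Fin m → ℂ), ‖(v g') (Ψ t z₀) - (v g') z₀‖ < ε / 2 := by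
      have h6 : Continuous (fun t => ‖(v g') (Ψ t z₀) - (v g') z₀‖) :=
        (((cont hS (v g')).comp h3).sub continuous_const).norm
      refine h6.continuousAt.eventually_lt_const ?_
      show ‖(v g') (Ψ 0 z₀) - (v g') z₀‖ < ε / 2
      rw [hΨ0, sub_self, norm_zero]
      positivity
    filter_upwards [h1, h4, h5] with t h1 h4 h5
    rw [e1, e2]
    have h7 := hvδ ((Ψ t).symm.pull g' - g') (fun x hx => h1 x hx) _ h4
    have h8 : (v ((Ψ t).symm.pull g' - g')) (Ψ t z₀) =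
        (v ((Ψ t).symm.pull g')) (Ψ t z₀) - (v g') (Ψ t z₀) := by
      rw [map_sub]
      rfl
    rw [h8] at h7
    have h9 : (v ((Ψ t).symm.pull g')) (Ψ t z₀) - (v g') z₀ =
        ((v ((Ψ t).symm.pull g')) (Ψ t z₀) - (v g') (Ψ t z₀)) +
        ((v g') (Ψ t z₀) - (v g') z₀) := by ring
    rw [h9]
    refine (norm_add_le _ _).trans_lt ?_
    linarith
  have hC' : ∀ᶠ t in 𝓝 (0 : Fin m → ℂ), ∀ g ∈ S,
      ‖(((Ψ t).comp θ).symm.push v g) x₀ - (θ.symm.push v g) x₀‖ < ε :=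
    (Filter.eventually_all_finset S).mpr fun g _ => hC g
  -- (2)
  have hfill := psi_fill hS (fun i => (φ i).isVF_push hv) hfl hdet (inter_mem hA hC')
  obtain ⟨W, hWsub, hWo, hzW⟩ := mem_nhds_iff.mp hfill
  obtain ⟨x, ⟨hxW, -⟩, hxe⟩ := he (W ∩ interior K₁) (fun x hx => interior_subset hx.2)
    (hWo.inter isOpen_interior) ⟨z₀, hzW, hθ x₀ hx₀⟩
  obtain ⟨t, ⟨ht1, ht2⟩, htx⟩ := hWsub hxW
  refine ⟨(Ψ t).comp θ, fun x hx => interior_subset (ht1 x hx), ?_, ht2⟩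
  have : ((Ψ t).comp θ) x₀ = x := htx
  rw [this]
  exact hxe

end Pool.Agent.MP_fe3720.BB
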