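import Pool.Agent.Work.MP_fe3720_an.B.TrBase

/-! # Module Piola: the Piola identity

`∑_k ∂_k (adj (Dg))_{k j} = 0` for a `C²` (holomorphic) map `g`.

`(adjugate A) k j = det (A.updateRow j (Pi.single k 1))` (`Matrix.adjugate_apply`; or with `updateCol` of the transpose).
Here `A = Jac g z`, row `l` of `A` is `(∂_k g_l)_k`. So `adj (Jac g z) k j` is the determinant of the rows
`∇g_l (z)` (`l ≠ j`) and `e_k` (`l = j`). The derivative in the direction `e_k` is (the determinant is multilinear:
`HasFDerivAt` of `Matrix.detRowAlternating`; `ContinuousMultilinearMap.hasFDerivAt`, or expand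
`Matrix.det_apply` as a sum of products and use the product rule `HasDerivAt.finsetProd`)
`∑_{l ≠ j} det (rows: ∇g_i (i ≠ j, l), ∂_k ∇g_l at the place l, e_k at the place j)`. Now for fixed `l ≠ j`:
`∂_k ∇g_l = ∑_p (∂_k ∂_p g_l) e_p`, so `∑_k det (…) = ∑_k ∑_p (∂_k ∂_p g_l) det (…, e_p at l, e_k at j)`, which is `0`: the
coefficient is symmetric in `(k, p)` (`second_derivative_symmetric`, `ContDiffAt.isSymmSndFDerivAt`), the determinant is
antisymmetric (exchange of two rows, `Matrix.det_permute`/`AlternatingMap.map_swap`), so the sum equals its negative. -/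

namespace Pool.Agent.MP_fe3720.BB

/-- the determinant as a continuous multilinear map of the rows -/
noncomputable def detCM (m : ℕ) : ContinuousMultilinearMap ℂ (fun _ : Fin m => (Fin m → ℂ)) ℂ :=
  { (Matrix.detRowAlternating (n := Fin m) (R := ℂ)).toMultilinearMap with
    cont := by
      change Continuous (fun M : Matrix (Fin m) (Fin m) ℂ => M.det)
      exact continuous_id.matrix_det }

theorem detCM_apply {m : ℕ} (M : Fin m → Fin m → ℂ) : detCM m M = Matrix.det (Matrix.of M) := rfl

/-- exchanging two rows -/
private theorem det_upd_swap {m : ℕ} (J : Fin m → Fin m → ℂ) {i j : Fin m} (hij : i ≠ j)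
    (a b : Fin m → ℂ) :
    detCM m (Function.update (Function.update J j a) i b) =
      - detCM m (Function.update (Function.update J j b) i a) := by
  have h := (Matrix.detRowAlternating (n := Fin m) (R := ℂ)).map_swap
    (Function.update (Function.update J j b) i a) hij
  have h2 : (Function.update (Function.update J j b) i a) ∘ (Equiv.swap i j) =
      Function.update (Function.update J j a) i b := by
    funext r
    simp only [Function.comp]
    by_cases hi : r = i
    · subst hi
      rw [Equiv.swap_apply_left, Function.update_of_ne hij.symm, Function.update_self,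
        Function.update_self]
    · by_cases hj : r = j
      · subst hj
        rw [Equiv.swap_apply_right, Function.update_self, Function.update_of_ne hi,
          Function.update_self]
      · rw [Equiv.swap_apply_of_ne_of_ne hi hj, Function.update_of_ne hi, Function.update_of_ne hj,
          Function.update_of_ne hi, Function.update_of_ne hj]
  rw [h2] at h
  exact h

/-- a symmetric coefficient against an antisymmetric one -/
private theorem sum_antisymm {m : ℕ} (H D : Fin m → Fin m → ℂ) (hH : ∀ k p, H k p = H p k)
    (hD : ∀ k p, D k p = - D p k) : ∑ k, ∑ p, H k p * D k p = 0 := by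
  have h1 : ∑ k, ∑ p, H k p * D k p = - ∑ k, ∑ p, H k p * D k p := by
    conv_lhs => rw [Finset.sum_comm]
    rw [← Finset.sum_neg_distrib]
    refine Finset.sum_congr rfl fun k _ => ?_
    rw [← Finset.sum_neg_distrib]
    refine Finset.sum_congr rfl fun p _ => ?_
    rw [hH p k, hD p k]
    ring
  have h2 : (2 : ℂ) * ∑ k, ∑ p, H k p * D k p = 0 := by
    linear_combination h1
  exact (mul_eq_zero.mp h2).resolve_left two_ne_zero

/-- the derivative of the rows of the Jacobian matrix -/
theorem jac_row_deriv {m : ℕ} {g : (Fin m → ℂ) → (Fin m → ℂ)} {z : Fin m → ℂ}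
    (hd : DifferentiableAt ℂ (fderiv ℂ g) z) (l : Fin m) :
    HasFDerivAt (fun z => (Jac g z) l)
      (ContinuousLinearMap.pi (fun k => ((ContinuousLinearMap.proj l).comp
        (ContinuousLinearMap.apply ℂ (Fin m → ℂ) (Pi.single k (1 : ℂ) : Fin m → ℂ))).comp
          (fderiv ℂ (fderiv ℂ g) z))) z := by
  rw [hasFDerivAt_pi]
  intro k
  exact ((ContinuousLinearMap.proj l).comp
        (ContinuousLinearMap.apply ℂ (Fin m → ℂ)
          (Pi.single k (1 : ℂ) : Fin m → ℂ))).hasFDerivAt.comp z hd.hasFDerivAt

theorem piola {m : ℕ} {V : Set (Fin m → ℂ)} (hV : IsOpen V) {g : (Fin m → ℂ) → (Fin m → ℂ)}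
    (hg : ContDiffOn ℂ 2 g V) {z : Fin m → ℂ} (hz : z ∈ V) (j : Fin m) :
    ∑ k, fderiv ℂ (fun z => (Jac g z).adjugate k j) z (Pi.single k 1) = 0 := by
  have hgz : ContDiffAt ℂ 2 g z := hg.contDiffAt (hV.mem_nhds hz)
  have hd : DifferentiableAt ℂ (fderiv ℂ g) z :=
    (hgz.fderiv_right (m := 1) (by norm_num)).differentiableAt (by norm_num)
  have hsym : ∀ a b, fderiv ℂ (fderiv ℂ g) z a b = fderiv ℂ (fderiv ℂ g) z b a := by
    have h := hgz.isSymmSndFDerivAt (by simp)
    exact fun a b => h a b
  set J : Fin m → Fin m → ℂ := fun l => (Jac g z) l with hJ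
  set G2 := fderiv ℂ (fderiv ℂ g) z with hG2
  set L : Fin m → ((Fin m → ℂ) →L[ℂ] (Fin m → ℂ)) := fun l =>
    ContinuousLinearMap.pi (fun k => ((ContinuousLinearMap.proj l).comp
        (ContinuousLinearMap.apply ℂ (Fin m → ℂ) (Pi.single k (1 : ℂ) : Fin m → ℂ))).comp
          (fderiv ℂ (fderiv ℂ g) z)) with hL
  have hLapp : ∀ l v k, L l v k = G2 v (Pi.single k 1) l := fun l v k => rfl
  have hder : ∀ k, HasFDerivAt (fun z => (Jac g z).adjugate k j)
      (∑ i, ((detCM m).toContinuousLinearMap (Function.update J j (Pi.single k 1)) i).comp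
        (if i = j then 0 else L i)) z := by
    intro k
    have h1 : ∀ i, HasFDerivAt (fun z => Function.update (fun l => (Jac g z) l) j
        (Pi.single k (1 : ℂ)) i) (if i = j then (0 : (Fin m → ℂ) →L[ℂ] (Fin m → ℂ)) else L i) z := by
      intro i
      by_cases hij : i = j
      · subst hij
        simp only [Function.update_self, if_true]
        exact hasFDerivAt_const _ _
      · rw [if_neg hij]
        have h2 := jac_row_deriv hd i
        refine h2.congr_of_eventuallyEq (Filter.Eventually.of_forall fun w => ?_)
        simp only [Function.update_of_ne hij]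
    have h2 := HasFDerivAt.multilinear_comp (detCM m) h1
    refine (h2.congr_of_eventuallyEq (Filter.Eventually.of_forall fun w => ?_))
    simp only [Matrix.adjugate_apply]
    rfl
  have hval : ∀ k, fderiv ℂ (fun z => (Jac g z).adjugate k j) z (Pi.single k 1) =
      ∑ i, if i = j then 0 else ∑ p, G2 (Pi.single k 1) (Pi.single p 1) i *
        detCM m (Function.update (Function.update J j (Pi.single k 1)) i (Pi.single p 1)) := by
    intro k
    rw [(hder k).fderiv, ContinuousLinearMap.sum_apply]
    refine Finset.sum_congr rfl fun i _ => ?_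
    by_cases hij : i = j
    · rw [if_pos hij, if_pos hij, ContinuousLinearMap.comp_zero, ContinuousLinearMap.zero_apply]
    · rw [if_neg hij, if_neg hij, ContinuousLinearMap.comp_apply]
      have h3 : L i (Pi.single k 1) = ∑ p, G2 (Pi.single k 1) (Pi.single p 1) i •
          (Pi.single p (1 : ℂ) : Fin m → ℂ) := by
        funext q
        rw [hLapp, Finset.sum_apply]
        simp only [Pi.smul_apply, smul_eq_mul, Pi.single_apply, mul_ite, mul_one, mul_zero]
        rw [Finset.sum_ite_eq Finset.univ q]
        simp
      rw [h3, map_sum]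
      refine Finset.sum_congr rfl fun p _ => ?_
      rw [map_smul, smul_eq_mul]
      rfl
  simp only [hval]
  rw [Finset.sum_comm]
  refine Finset.sum_eq_zero fun i _ => ?_
  by_cases hij : i = j
  · simp only [if_pos hij, Finset.sum_const_zero]
  · simp only [if_neg hij]
    refine sum_antisymm (fun k p => G2 (Pi.single k 1) (Pi.single p 1) i) (fun k p =>
      detCM m (Function.update (Function.update J j (Pi.single k 1)) i (Pi.single p 1))) ?_ ?_
    · intro k p
      exact congrFun (hsym _ _) i
    · intro k p
      exact det_upd_swap J hij _ _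

end Pool.Agent.MP_fe3720.BB
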