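import Pool.Agent.Work.MP_fe3720_an.B.Base

/-! # Module RRI: RR-spaces have the interpolation property

* `interp_of_RR`: let `T, ρ, R` be from `IsRR O`. Put `K n = {x | ρ x ≤ max_{j ≤ n} R j}` (e.g. with
  `(Finset.range (n+1)).sup' _ R` or `⋃ j ∈ range (n+1), {x | ρ x ≤ R j}`, a finite union of compact sets). If
  `x : ℕ → X` is injective with `x n ∉ K n` then `D = range x` is infinite and
  `{z ∈ D | ρ z ≤ R n} ⊆ x '' {j | j < n}` (if `j ≥ n` then `x j ∉ K j`, so `R n < ρ (x j)`), of cardinality `≤ n`: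
  `D ∈ T`. Apply (RR1) to `ι = Function.extend x y id`.
* `far_tuple`: the compact set is `K k`. Extend the `k`-tuples to injective sequences with `x n ∉ K n`:
  choose recursively a point outside `K n ∪ {the previous points}`, compact (`hnc`).
* `interp_multi`: `ι` finite and nonempty, say `ι ≃ Fin p`, `p ≥ 1`. Choose recursively `σ 0 < σ 1 < ⋯` such that for
  all `i`: `y i (σ j) ∉ K ((j+1) p) ∪ {all the y i' (σ j'), j' < j}` (eventually true as `y i → ∞`), and
  similarly `τ`. Then the sequence `n = j p + l ↦ y l (σ j)` is injective and leaves `K n` (monotone). -/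

namespace Pool.Agent.MP_fe3720.BB

open Topology RR Filter

variable {X : Type} [TopologicalSpace X] {O : Subalgebra ℂ (X → ℂ)}

theorem interp_of_RR (h : IsRR O) : Interp O := by
  obtain ⟨T, hT0, hT1, ⟨ρ, hρ, -, hρc, R, -, hRu, hT2⟩, -, -⟩ := h
  let K : ℕ → Set X := fun n => ⋃ j ∈ Finset.range (n + 1), {x | ρ x ≤ R j}
  have hKmem : ∀ n x, x ∉ K n → ∀ j ≤ n, R j < ρ x := by
    intro n x hx j hj
    by_contra hc
    push Not at hc
    exact hx (Set.mem_biUnion (Finset.mem_coe.mpr (Finset.mem_range.mpr (Nat.lt_succ_of_le hj))) hc)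
  have key : ∀ x : ℕ → X, Function.Injective x → (∀ n, x n ∉ K n) → Set.range x ∈ T := by
    intro x hx hxK
    refine hT2 _ (Set.infinite_range_of_injective hx) fun n => ?_
    have hsub : {z ∈ Set.range x | ρ z ≤ R n} ⊆ x '' (Finset.range n : Set ℕ) := by
      rintro z ⟨⟨j, rfl⟩, hz⟩
      refine ⟨j, ?_, rfl⟩
      rw [Finset.mem_coe, Finset.mem_range]
      by_contra hj
      push Not at hj
      exact absurd hz (not_le.mpr (hKmem j _ (hxK j) n hj))
    refine (Set.encard_le_encard hsub).trans ?_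
    refine (Set.encard_image_le _ _).trans ?_
    rw [Set.encard_coe_eq_coe_finsetCard, Finset.card_range]
  refine ⟨K, fun n => ?_, fun n n' hn => ?_, fun x y hx hy hxK hyK => ?_⟩
  · exact (Finset.range (n + 1)).isCompact_biUnion fun j _ => hρc (R j)
  · refine Set.biUnion_subset_biUnion_left fun j hj => ?_
    rw [Finset.mem_coe, Finset.mem_range] at hj ⊢
    omega
  · obtain ⟨φ, hφ⟩ := hT1 _ (key x hx hxK) _ (key y hy hyK) (Function.extend x y id)
      (by
        rintro _ ⟨n, rfl⟩
        rw [hx.extend_apply]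
        exact ⟨n, rfl⟩)
      (by
        rintro _ ⟨n, rfl⟩ _ ⟨n', rfl⟩ hnn
        rw [hx.extend_apply, hx.extend_apply] at hnn
        rw [hy hnn])
    exact ⟨φ, fun n => by rw [hφ _ ⟨n, rfl⟩, hx.extend_apply]⟩

/-- extension of a tuple to an injective sequence avoiding compact sets -/
private theorem extend_tuple (K : ℕ → Set X) (hK : ∀ n, IsCompact (K n)) (hm : Monotone K)
    (hnc : ∀ K : Set X, IsCompact K → ∃ x, x ∉ K) {k : ℕ} (x : Fin k → X)
    (hx : Function.Injective x) (hxK : ∀ i, x i ∉ K k) :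
    ∃ u : ℕ → X, Function.Injective u ∧ (∀ n, u n ∉ K n) ∧ ∀ i : Fin k, u i = x i := by
  classical
  -- choose points outside a compact set and a finite list
  choose p hp using fun (n : ℕ) (F : Finset X) => hnc (K n ∪ F) ((hK n).union F.finite_toSet.isCompact)
  -- strong recursion through the list of the previous points
  let step : ℕ → Finset X → X := fun n F => if h : n < k then x ⟨n, h⟩ else
    p n (F ∪ Finset.univ.image x)
  let S : ℕ → Finset X := fun n => Nat.rec ∅ (fun n F => insert (step n F) F) n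
  let u : ℕ → X := fun n => step n (S n)
  have hSsucc : ∀ n, S (n + 1) = insert (u n) (S n) := fun n => rfl
  have hSmem : ∀ n j, j < n → u j ∈ S n := by
    intro n
    induction n with
    | zero => intro j hj; omega
    | succ n ih =>
      intro j hj
      rw [hSsucc]
      rcases Nat.lt_succ_iff_lt_or_eq.mp hj with h | h
      · exact Finset.mem_insert_of_mem (ih j h)
      · rw [h]; exact Finset.mem_insert_self _ _
  have hul : ∀ n (h : n < k), u n = x ⟨n, h⟩ := by
    intro n h
    simp only [u, step, dif_pos h]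
  have hug : ∀ n, ¬ n < k → u n = p n (S n ∪ Finset.univ.image x) := by
    intro n h
    simp only [u, step, dif_neg h]
  have hlt : ∀ i j, i < j → u i ≠ u j := by
    intro i j hij h
    by_cases hj : j < k
    · have hi : i < k := hij.trans hj
      rw [hul i hi, hul j hj] at h
      have := hx h
      simp only [Fin.mk.injEq] at this
      omega
    · have h1 := hp j (S j ∪ Finset.univ.image x)
      rw [← hug j hj] at h1
      refine h1 (Or.inr ?_)
      rw [← h]
      exact Finset.mem_coe.mpr (Finset.mem_union_left _ (hSmem j i hij))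
  refine ⟨u, fun i j hij => ?_, fun n => ?_, fun i => hul i i.2⟩
  · rcases lt_trichotomy i j with h | h | h
    · exact absurd hij (hlt i j h)
    · exact h
    · exact absurd hij.symm (hlt j i h)
  · by_cases hn : n < k
    · rw [hul n hn]
      exact fun h => hxK ⟨n, hn⟩ (hm hn.le h)
    · have h1 := hp n (S n ∪ Finset.univ.image x)
      rw [← hug n hn] at h1
      exact fun h => h1 (Or.inl h)

theorem far_tuple [T1Space X] (hI : Interp O) (hnc : ∀ K : Set X, IsCompact K → ∃ x, x ∉ K)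
    (k : ℕ) : ∃ K : Set X, IsCompact K ∧ ∀ x y : Fin k → X, Function.Injective x →
      Function.Injective y → (∀ i, x i ∉ K) → (∀ i, y i ∉ K) → ∃ φ : HolAut O, ∀ i, φ (x i) = y i := by
  obtain ⟨K, hK, hm, hI⟩ := hI
  refine ⟨K k, hK k, fun x y hx hy hxK hyK => ?_⟩
  obtain ⟨u, hu, huK, hux⟩ := extend_tuple K hK hm hnc x hx hxK
  obtain ⟨w, hw, hwK, hwy⟩ := extend_tuple K hK hm hnc y hy hyK
  obtain ⟨φ, hφ⟩ := hI u w hu hw huK hwK
  exact ⟨φ, fun i => by rw [← hux i, hφ, hwy i]⟩

/-- choice of a subsequence along which finitely many sequences avoid compact sets and the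
previous points -/
private theorem multi_choice {p : ℕ} (K : ℕ → Set X)
    (hK : ∀ n, IsCompact (K n)) (y : Fin p → ℕ → X)
    (hyi : ∀ i, Tendsto (y i) atTop (cocompact X)) :
    ∃ σ : ℕ → ℕ, StrictMono σ ∧ (∀ j i, y i (σ j) ∉ K ((j + 1) * p)) ∧
      ∀ j j', j' < j → ∀ i i', y i (σ j) ≠ y i' (σ j') := by
  classical
  have hev : ∀ (C : Set X), IsCompact C → ∀ n₀ : ℕ, ∃ n, n₀ < n ∧ ∀ i, y i n ∉ C := by
    intro C hC n₀
    have h1 : ∀ i, ∀ᶠ n in atTop, y i n ∉ C := fun i => (hyi i).eventually hC.compl_mem_cocompact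
    have h2 : ∀ᶠ n in atTop, ∀ i, y i n ∉ C := eventually_all.mpr h1
    obtain ⟨n, hn1, hn2⟩ := (h2.and (eventually_gt_atTop n₀)).exists
    exact ⟨n, hn2, hn1⟩
  -- the previous points up to index `n₀`
  let F : ℕ → Finset X := fun n₀ => (Finset.range (n₀ + 1)).biUnion fun n => Finset.univ.image
    fun i => y i n
  have hF : ∀ n₀ n i, n ≤ n₀ → y i n ∈ F n₀ := by
    intro n₀ n i hn
    refine Finset.mem_biUnion.mpr ⟨n, Finset.mem_range.mpr (Nat.lt_succ_of_le hn), ?_⟩
    exact Finset.mem_image.mpr ⟨i, Finset.mem_univ i, rfl⟩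
  choose c hc1 hc2 using fun (j n₀ : ℕ) => hev (K ((j + 1) * p) ∪ F n₀)
    ((hK _).union (F n₀).finite_toSet.isCompact) n₀
  let σ : ℕ → ℕ := fun j => Nat.rec (c 0 0) (fun j n => c (j + 1) n) j
  have hσs : ∀ j, σ (j + 1) = c (j + 1) (σ j) := fun j => rfl
  have hmono : StrictMono σ := strictMono_nat_of_lt_succ fun j => by
    rw [hσs]; exact hc1 _ _
  refine ⟨σ, hmono, fun j i => ?_, fun j j' hj i i' => ?_⟩
  · cases j with
    | zero => exact fun h => hc2 0 0 i (Or.inl h)
    | succ j =>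
      rw [hσs]
      exact fun h => hc2 (j + 1) (σ j) i (Or.inl h)
  · obtain ⟨j, rfl⟩ : ∃ l, j = l + 1 := ⟨j - 1, by omega⟩
    intro h
    have h1 := hc2 (j + 1) (σ j) i
    rw [← hσs, h] at h1
    exact h1 (Or.inr (Finset.mem_coe.mpr (hF _ _ _ (hmono.monotone (by omega)))))

theorem interp_multi [T1Space X] (hI : Interp O) {ι : Type} [Fintype ι] [Nonempty ι]
    (y z : ι → ℕ → X)
    (hy : ∀ n, Function.Injective (fun i => y i n)) (hyi : ∀ i, Tendsto (y i) atTop (cocompact X))
    (hz : ∀ n, Function.Injective (fun i => z i n)) (hzi : ∀ i, Tendsto (z i) atTop (cocompact X)) :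
    ∃ (σ τ : ℕ → ℕ) (ψ : HolAut O), StrictMono σ ∧ StrictMono τ ∧
      ∀ i j, ψ (y i (σ j)) = z i (τ j) := by
  classical
  obtain ⟨K, hK, hm, hI⟩ := hI
  set p := Fintype.card ι with hp
  have hp0 : 0 < p := Fintype.card_pos
  let e : ι ≃ Fin p := Fintype.equivFin ι
  obtain ⟨σ, hσ, hσK, hσd⟩ := multi_choice K hK (fun i => y (e.symm i)) (fun i => hyi _)
  obtain ⟨τ, hτ, hτK, hτd⟩ := multi_choice K hK (fun i => z (e.symm i)) (fun i => hzi _)
  -- the sequences
  have hmod : ∀ n, n % p < p := fun n => Nat.mod_lt _ hp0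
  have build : ∀ (w : ι → ℕ → X) (ρ : ℕ → ℕ), (∀ n, Function.Injective (fun i => w i n)) →
      (∀ j i, w (e.symm i) (ρ j) ∉ K ((j + 1) * p)) →
      (∀ j j', j' < j → ∀ i i', w (e.symm i) (ρ j) ≠ w (e.symm i') (ρ j')) →
      Function.Injective (fun n : ℕ => w (e.symm ⟨n % p, hmod n⟩) (ρ (n / p))) ∧
      ∀ n, w (e.symm ⟨n % p, hmod n⟩) (ρ (n / p)) ∉ K n := by
    intro w ρ hw hwK hwd
    constructor
    · intro a b hab
      rcases lt_trichotomy (a / p) (b / p) with h | h | h
      · exact absurd hab.symm (hwd _ _ h _ _)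
      · have hab' : w (e.symm ⟨a % p, hmod a⟩) (ρ (a / p)) =
            w (e.symm ⟨b % p, hmod b⟩) (ρ (a / p)) := by
          have := hab
          simp only at this
          rw [this, h]
        have h1 := e.symm.injective (hw _ hab')
        simp only [Fin.mk.injEq] at h1
        rw [← Nat.div_add_mod a p, ← Nat.div_add_mod b p, h, h1]
      · exact absurd hab (hwd _ _ h _ _)
    · intro n h
      refine hwK (n / p) ⟨n % p, hmod n⟩ (hm ?_ h)
      have := Nat.div_add_mod n p
      have h2 := hmod n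
      nlinarith [Nat.div_add_mod n p]
  obtain ⟨hy1, hy2⟩ := build y σ hy hσK hσd
  obtain ⟨hz1, hz2⟩ := build z τ hz hτK hτd
  obtain ⟨ψ, hψ⟩ := hI _ _ hy1 hz1 hy2 hz2
  refine ⟨σ, τ, ψ, hσ, hτ, fun i j => ?_⟩
  have h := hψ (p * j + e i)
  have hdiv : (p * j + (e i : ℕ)) / p = j := by
    rw [Nat.mul_add_div hp0, Nat.div_eq_of_lt (e i).2, add_zero]
  have hmd : (p * j + (e i : ℕ)) % p = e i := by
    rw [Nat.mul_add_mod, Nat.mod_eq_of_lt (e i).2]
  have hidx : (⟨(p * j + (e i : ℕ)) % p, hmod _⟩ : Fin p) = e i := Fin.ext hmd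
  rw [hidx, hdiv, e.symm_apply_apply] at h
  exact h

end Pool.Agent.MP_fe3720.BB
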