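import Pool.Agent.Work.MP_fe3720_an.B.MainB

/-! # Module RRPos: the axiom (RR2) with its condition for `n ≥ 1` only

`IsRRP O`: RR-spaces, if the condition on `D` in (RR2) is imposed for `n ≥ 1` only (`ℕ = {1, 2, …}`).
`rrp_iff`: `IsRRP O` holds if and only if `IsRR O` holds and no point is a common zero of all complete fields.

* `rr_of_rrp` is immediate.
* `trans_of_rrp`: given `x, x'` choose an injective sequence `y n ∉ {x, x'}` with `ρ (y n) > R j` for all `j ≤ n + 1`; the sets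
  `{x} ∪ {y n}` and `{x'} ∪ {y n}` are tame, and `x ↦ x'`, `y n ↦ y n` extends to an automorphism.
* `rrp_of_rr`: let `C₀ = {ρ ≤ R 0}`; finitely many automorphisms `φ` are such that every point of `C₀` is moved out of `C₀` by
  one of them. Choose `R' n ≥ R n` such that `{ρ ≤ R' n}` contains `K n = ⋃_{j ≤ n} {ρ ≤ R j}` and all `φ⁻¹ (K n)`. If `D` is
  sparse for `R'` (for `n ≥ 1`) then either `D` does not meet `C₀`, and `D` is tame, or it meets `C₀` in one point `x`, and
  `φ (D)` is tame if `φ x ∉ C₀`. -/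

namespace Pool.Agent.MP_fe3720.BB

open Topology RR Filter

section Top

variable {X : Type} [TopologicalSpace X]

/-- RR-spaces, with the condition of (RR2) for `n ≥ 1` only -/
def IsRRP (O : Subalgebra ℂ (X → ℂ)) : Prop :=
  ∃ T : Set (Set X),
    (∀ D ∈ T, D.Infinite ∧ IsClosed D ∧ DiscreteTopology D) ∧
    (∀ D ∈ T, ∀ D' ∈ T, ∀ ι : X → X, Set.MapsTo ι D D' → Set.InjOn ι D →
      ∃ φ : HolAut O, ∀ x ∈ D, φ x = ι x) ∧
    (∃ ρ : X → ℝ, Continuous ρ ∧ (∀ x, 0 ≤ ρ x) ∧ (∀ c, IsCompact {x | ρ x ≤ c}) ∧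
      ∃ R : ℕ → ℝ, (∀ n, 0 < R n) ∧ ¬ BddAbove (Set.range R) ∧
        ∀ D : Set X, D.Infinite → (∀ n : ℕ, 1 ≤ n → {x ∈ D | ρ x ≤ R n}.encard ≤ n) → D ∈ T) ∧
    (∀ φ : HolAut O, ∀ D ∈ T, φ '' D ∈ T) ∧
    (∃ v : Derivation ℂ O O, IsCompleteVF v ∧ v ≠ 0 ∧
      ∃ f : O, (∃ x y, f x ≠ f y) ∧ v f = 0)

variable {O : Subalgebra ℂ (X → ℂ)}

theorem rr_of_rrp (h : IsRRP O) : IsRR O := by
  obtain ⟨T, h0, h1, ⟨ρ, hρ, hρ0, hρc, R, hR, hRu, h2⟩, h3, h4⟩ := h
  exact ⟨T, h0, h1, ⟨ρ, hρ, hρ0, hρc, R, hR, hRu, fun D hD hn => h2 D hD fun n _ => hn n⟩, h3, h4⟩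

theorem exists_inj_seq [T1Space X] (K : ℕ → Set X) (hK : ∀ n, IsCompact (K n))
    (hnc : ∀ K : Set X, IsCompact K → ∃ x, x ∉ K) :
    ∃ u : ℕ → X, Function.Injective u ∧ ∀ n, u n ∉ K n := by
  classical
  choose p hp using fun (n : ℕ) (F : Finset X) => hnc (K n ∪ F)
    ((hK n).union F.finite_toSet.isCompact)
  let S : ℕ → Finset X := fun n => Nat.rec ∅ (fun n F => insert (p n F) F) n
  have hSs : ∀ n, S (n + 1) = insert (p n (S n)) (S n) := fun n => rfl
  have hmem : ∀ n j, j < n → p j (S j) ∈ S n := by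
    intro n
    induction n with
    | zero => intro j hj; omega
    | succ n ih =>
      intro j hj
      rw [hSs]
      rcases Nat.lt_succ_iff_lt_or_eq.mp hj with h | h
      · exact Finset.mem_insert_of_mem (ih j h)
      · rw [h]
        exact Finset.mem_insert_self _ _
  have hne : ∀ i j, i < j → p i (S i) ≠ p j (S j) := by
    intro i j hij h
    have h1 := hp j (S j)
    rw [← h] at h1
    exact h1 (Or.inr (Finset.mem_coe.mpr (hmem j i hij)))
  refine ⟨fun n => p n (S n), fun i j hij => ?_, fun n h => hp n (S n) (Or.inl h)⟩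
  rcases lt_trichotomy i j with h | h | h
  · exact absurd hij (hne i j h)
  · exact h
  · exact absurd hij.symm (hne j i h)

theorem trans_of_rrp [T1Space X] (h : IsRRP O) (hnc : ∀ K : Set X, IsCompact K → ∃ x, x ∉ K)
    (x x' : X) : ∃ φ : HolAut O, φ x = x' := by
  classical
  obtain ⟨T, -, h1, ⟨ρ, -, -, hρc, R, -, -, h2⟩, -, -⟩ := h
  obtain ⟨y, hy, hyK⟩ := exists_inj_seq
    (fun n => (⋃ j ∈ Finset.range (n + 2), {x | ρ x ≤ R j}) ∪ {x, x'})
    (fun n => ((Finset.range (n + 2)).isCompact_biUnion fun j _ => hρc (R j)).union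
      (Set.toFinite _).isCompact) hnc
  have hyx : ∀ n, y n ≠ x := fun n h => hyK n (Or.inr (Or.inl h))
  have hyx' : ∀ n, y n ≠ x' := fun n h => hyK n (Or.inr (Or.inr h))
  have hyR : ∀ n j, j ≤ n + 1 → R j < ρ (y n) := by
    intro n j hj
    by_contra hc
    push Not at hc
    exact hyK n (Or.inl (Set.mem_biUnion
      (Finset.mem_coe.mpr (Finset.mem_range.mpr (Nat.lt_succ_of_le hj))) hc))
  have key : ∀ z : X, insert z (Set.range y) ∈ T := by
    intro z
    refine h2 _ ((Set.infinite_range_of_injective hy).mono (Set.subset_insert _ _)) fun n hn => ?_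
    have hsub : {w ∈ insert z (Set.range y) | ρ w ≤ R n} ⊆
        insert z (y '' (Finset.range (n - 1) : Set ℕ)) := by
      rintro w ⟨rfl | ⟨j, rfl⟩, hw⟩
      · exact Set.mem_insert _ _
      · refine Set.mem_insert_of_mem _ ⟨j, ?_, rfl⟩
        rw [Finset.mem_coe, Finset.mem_range]
        by_contra hj
        exact absurd hw (not_le.mpr (hyR j n (by omega)))
    refine (Set.encard_le_encard hsub).trans ((Set.encard_insert_le _ _).trans ?_)
    have h3 : (y '' (Finset.range (n - 1) : Set ℕ)).encard ≤ ((n - 1 : ℕ) : ℕ∞) := by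
      refine (Set.encard_image_le _ _).trans ?_
      rw [Set.encard_coe_eq_coe_finsetCard, Finset.card_range]
    refine (add_le_add_left h3 1).trans ?_
    have h4 : ((n - 1 : ℕ) : ℕ∞) + 1 = (((n - 1) + 1 : ℕ) : ℕ∞) := by push_cast; rfl
    rw [h4, Nat.sub_add_cancel hn]
  have hι : ∀ n, Function.update id x x' (y n) = y n := fun n => by
    rw [Function.update_of_ne (hyx n)]
    rfl
  obtain ⟨φ, hφ⟩ := h1 _ (key x) _ (key x') (Function.update id x x')
    (by
      rintro w (rfl | ⟨j, rfl⟩)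
      · rw [Function.update_self]
        exact Set.mem_insert _ _
      · rw [hι]
        exact Set.mem_insert_of_mem _ ⟨j, rfl⟩)
    (by
      rintro w (rfl | ⟨j, rfl⟩) w' (rfl | ⟨j', rfl⟩) hww
      · rfl
      · rw [Function.update_self, hι] at hww
        exact absurd hww.symm (hyx' j')
      · rw [Function.update_self, hι] at hww
        exact absurd hww (hyx' j)
      · rw [hι, hι] at hww
        exact hww)
  exact ⟨φ, by rw [hφ x (Set.mem_insert _ _), Function.update_self]⟩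

theorem rrp_of_rr (h : IsRR O) (hesc : ∀ (K : Set X), IsCompact K → ∀ x, ∃ φ : HolAut O, φ x ∉ K) :
    IsRRP O := by
  classical
  obtain ⟨T, h0, h1, ⟨ρ, hρ, hρ0, hρc, R, hR, hRu, h2⟩, h3, h4⟩ := h
  refine ⟨T, h0, h1, ⟨ρ, hρ, hρ0, hρc, ?_⟩, h3, h4⟩
  -- finitely many automorphisms move the points of `C₀` out of it
  obtain ⟨t, ht⟩ := (hρc (R 0)).elim_finite_subcover
    (fun φ : HolAut O => {x | ¬ ρ (φ x) ≤ R 0})
    (fun φ => by
      have h5 : IsClosed {x | ρ (φ x) ≤ R 0} :=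
        isClosed_le (hρ.comp φ.toHomeo.continuous) continuous_const
      exact h5.isOpen_compl)
    (fun x _ => by
      obtain ⟨φ, hφ⟩ := hesc _ (hρc (R 0)) x
      exact Set.mem_iUnion.mpr ⟨φ, hφ⟩)
  let K : ℕ → Set X := fun n => ⋃ j ∈ Finset.range (n + 1), {x | ρ x ≤ R j}
  have hKc : ∀ n, IsCompact (K n) := fun n =>
    (Finset.range (n + 1)).isCompact_biUnion fun j _ => hρc (R j)
  have hKmem : ∀ n j, j ≤ n → ∀ x, ρ x ≤ R j → x ∈ K n := fun n j hj x hx =>
    Set.mem_biUnion (Finset.mem_coe.mpr (Finset.mem_range.mpr (Nat.lt_succ_of_le hj))) hx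
  have hL : ∀ n, ∃ B : ℝ, (∀ x ∈ K n, ρ x ≤ B) ∧ ∀ φ ∈ t, ∀ x, φ x ∈ K n → ρ x ≤ B := by
    intro n
    have hc : IsCompact (K n ∪ ⋃ φ ∈ t, φ.toHomeo.symm '' (K n)) :=
      (hKc n).union (t.isCompact_biUnion fun φ _ => (hKc n).image φ.toHomeo.symm.continuous)
    obtain ⟨B, hB⟩ := hc.exists_bound_of_continuousOn hρ.continuousOn
    refine ⟨B, fun x hx => ?_, fun φ hφ x hx => ?_⟩
    · exact (Real.le_norm_self _).trans (hB x (Or.inl hx))
    · refine (Real.le_norm_self _).trans (hB x (Or.inr (Set.mem_biUnion (Finset.mem_coe.mpr hφ) ?_)))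
      exact ⟨φ x, hx, φ.toHomeo.symm_apply_apply x⟩
  choose B hB1 hB2 using hL
  refine ⟨fun n => max (R n) (B n), fun n => lt_max_of_lt_left (hR n), ?_, fun D hD hn => ?_⟩
  · rintro ⟨M, hM⟩
    refine hRu ⟨M, ?_⟩
    rintro _ ⟨n, rfl⟩
    exact (le_max_left _ _).trans (hM ⟨n, rfl⟩)
  · by_cases hDC : ∃ x ∈ D, ρ x ≤ R 0
    · obtain ⟨x, hxD, hx⟩ := hDC
      obtain ⟨φ, hφt, hφx⟩ : ∃ φ ∈ t, ¬ ρ (φ x) ≤ R 0 := by
        have h5 := ht hx
        simp only [Set.mem_iUnion, Set.mem_ofPred_eq] at h5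
        obtain ⟨φ, hφ, h6⟩ := h5
        exact ⟨φ, hφ, h6⟩
      have hφD : φ '' D ∈ T := by
        refine h2 _ (hD.image φ.toHomeo.injective.injOn) fun n => ?_
        have hsub : {y ∈ φ '' D | ρ y ≤ R n} ⊆ φ '' {z ∈ D | ρ z ≤ max (R n) (B n)} := by
          rintro _ ⟨⟨z, hz, rfl⟩, hy⟩
          exact ⟨z, ⟨hz, (hB2 n φ hφt z (hKmem n n le_rfl _ hy)).trans (le_max_right _ _)⟩, rfl⟩
        rcases Nat.eq_zero_or_pos n with rfl | hpos
        · have hempty : {y ∈ φ '' D | ρ y ≤ R 0} = ∅ := by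
            rw [Set.eq_empty_iff_forall_notMem]
            rintro _ ⟨⟨z, hz, rfl⟩, hy⟩
            have hz1 : ρ z ≤ max (R 1) (B 1) :=
              (hB2 1 φ hφt z (hKmem 1 0 (by omega) _ hy)).trans (le_max_right _ _)
            have hx1 : ρ x ≤ max (R 1) (B 1) :=
              (hB1 1 x (hKmem 1 0 (by omega) _ hx)).trans (le_max_right _ _)
            have h4 : {z ∈ D | ρ z ≤ max (R 1) (B 1)}.encard ≤ 1 := by
              have h6 := hn 1 le_rfl
              rw [Nat.cast_one] at h6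
              exact h6
            have h5 : z = x := Set.encard_le_one_iff.mp h4 z x ⟨hz, hz1⟩ ⟨hxD, hx1⟩
            rw [h5] at hy
            exact hφx hy
          rw [hempty, Set.encard_empty]
          exact zero_le
        · exact (Set.encard_le_encard hsub).trans ((Set.encard_image_le _ _).trans (hn n hpos))
      have h5 := h3 φ.symm _ hφD
      have h6 : φ.symm '' (φ '' D) = D := by
        rw [← Set.image_comp]
        have h7 : ((φ.symm : X → X) ∘ (φ : X → X)) = id :=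
          funext fun x => φ.toHomeo.symm_apply_apply x
        rw [h7, Set.image_id]
      rw [h6] at h5
      exact h5
    · push Not at hDC
      refine h2 D hD fun n => ?_
      rcases Nat.eq_zero_or_pos n with rfl | hpos
      · have hempty : {y ∈ D | ρ y ≤ R 0} = ∅ := by
          rw [Set.eq_empty_iff_forall_notMem]
          rintro y ⟨hy, hy0⟩
          exact absurd hy0 (not_le.mpr (hDC y hy))
        rw [hempty, Set.encard_empty]
        exact zero_le
      · refine (Set.encard_le_encard ?_).trans (hn n hpos)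
        rintro y ⟨hy, hy0⟩
        exact ⟨hy, hy0.trans (le_max_left _ _)⟩

end Top

variable {X : Type} [MetricSpace X] [ProperSpace X] [PreconnectedSpace X]
  {O : Subalgebra ℂ (X → ℂ)} {m N : ℕ} {G : Fin N → O}

theorem rrp_iff (hS : SD0 m O G) : IsRRP O ↔
    (IsRR O ∧ ∀ x : X, ∃ w : Derivation ℂ O O, IsCompleteVF w ∧ NZ w x) := by
  constructor
  · intro h
    refine ⟨rr_of_rrp h, fun x => ?_⟩
    obtain ⟨T, -, -, -, -, v, hv, hv0, f, hfc, hvf⟩ := id h
    have hnc : ∀ K : Set X, IsCompact K → ∃ x, x ∉ K := fun K hK => nonCompact hS hv hv0 hK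
    have hp : ∃ p, NZ v p := by
      by_contra hcon
      push Not at hcon
      refine hv0 (Derivation.ext fun g => Subtype.ext (funext fun p => ?_))
      by_contra hne
      exact hcon p ⟨g, hne⟩
    obtain ⟨p, g, hg⟩ := hp
    obtain ⟨φ, hφ⟩ := trans_of_rrp h hnc p x
    refine ⟨φ.push v, φ.isComplete_push hv, φ.symm.pull g, ?_⟩
    rw [← hφ, HolAut.push_apply]
    rw [HolAut.pull_pull_symm]
    exact hg
  · rintro ⟨h, hT⟩
    refine rrp_of_rr h fun K hK x => ?_
    obtain ⟨w, hw, hwx⟩ := hT x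
    obtain ⟨Φ, hΦ⟩ := exists_flow hS hw
    obtain ⟨t, ht⟩ := orbit_unbounded hS hΦ hwx hK
    exact ⟨Φ t, ht⟩

end Pool.Agent.MP_fe3720.BB
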