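import Mathlib

/-! # Module RootC: the nearest root of unity

For `ν ≥ 1` and `‖z ^ ν - 1‖ < 1` put `rt ν z = z * exp (- log (z ^ ν) / ν)` (`Complex.log`, which is continuous on
`{w | ‖w - 1‖ < 1}`, contained in the slit plane).
* `rt_pow`: `(rt ν z) ^ ν = z^ν * exp (- log (z^ν)) = 1`.
* `rt_cont`: `rt ν` is continuous on `{z | ‖z^ν - 1‖ < 1}`.
* `rt_const`: near a point `z` of this (open) set `rt ν` is constant: its values are among the finitely many `ν`-th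
  roots of unity (`Polynomial.nthRoots`/`rootsOfUnity` finite; `{w : ℂ | w^ν = 1}` is finite), and it is continuous.
* `rt_close`: if `‖z^ν - 1‖ ≤ 1/2` then `‖z - rt ν z‖ ≤ 4 / ν`: `z = rt ν z * exp (log (z^ν)/ν)`, `‖rt ν z‖ = 1`,
  `‖log w‖ ≤ 2 ‖w - 1‖ ≤ 1` for `‖w - 1‖ ≤ 1/2` (`Complex.norm_log_one_add_half_le_self`: `‖log (1+z)‖ ≤ (3/2) ‖z‖`) and
  `‖exp u - 1‖ ≤ 2 ‖u‖` for `‖u‖ ≤ 1` (`Complex.norm_exp_sub_one_le`…). -/

namespace Pool.Agent.MP_fe3720.BB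

open Topology

/-- the nearest `ν`-th root of unity -/
noncomputable def rt (ν : ℕ) (z : ℂ) : ℂ := z * Complex.exp (-Complex.log (z ^ ν) / ν)

private theorem ne_zero_of_close {w : ℂ} (hw : ‖w - 1‖ < 1) : w ≠ 0 := by
  rintro rfl
  simp at hw

private theorem slit_of_close {w : ℂ} (hw : ‖w - 1‖ < 1) : w ∈ Complex.slitPlane := by
  left
  have h1 : |(w - 1).re| < 1 := (Complex.abs_re_le_norm _).trans_lt hw
  rw [Complex.sub_re, Complex.one_re, abs_lt] at h1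
  linarith

theorem rt_pow {ν : ℕ} (hν : 1 ≤ ν) {z : ℂ} (hz : ‖z ^ ν - 1‖ < 1) : rt ν z ^ ν = 1 := by
  have hν' : (ν : ℂ) ≠ 0 := by exact_mod_cast (by omega : ν ≠ 0)
  unfold rt
  rw [mul_pow, ← Complex.exp_nat_mul, mul_div_cancel₀ _ hν', Complex.exp_neg,
    Complex.exp_log (ne_zero_of_close hz)]
  exact mul_inv_cancel₀ (ne_zero_of_close hz)

private theorem rt_contAt {ν : ℕ} {z : ℂ} (hz : ‖z ^ ν - 1‖ < 1) : ContinuousAt (rt ν) z := by
  unfold rt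
  refine continuousAt_id.mul (Complex.continuous_exp.continuousAt.comp ?_)
  refine ContinuousAt.div_const ?_ _
  refine ContinuousAt.neg ?_
  exact ContinuousAt.clog (continuousAt_id.pow ν) (slit_of_close hz)

theorem rt_const {ν : ℕ} (hν : 1 ≤ ν) {z : ℂ} (hz : ‖z ^ ν - 1‖ < 1) :
    ∀ᶠ w in 𝓝 z, rt ν w = rt ν z := by
  have hfin : {w : ℂ | w ^ ν = 1}.Finite := by
    have h2 : {w : ℂ | w ^ ν = 1} ⊆ ((Polynomial.nthRoots ν (1 : ℂ)).toFinset : Set ℂ) := by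
      intro w hw
      rw [Finset.mem_coe, Multiset.mem_toFinset, Polynomial.mem_nthRoots (by omega)]
      exact hw
    exact (Finset.finite_toSet _).subset h2
  have hopen : IsOpen ({w : ℂ | w ^ ν = 1} \ {rt ν z})ᶜ :=
    (hfin.subset Set.diff_subset).isClosed.isOpen_compl
  have hmem : rt ν z ∈ ({w : ℂ | w ^ ν = 1} \ {rt ν z})ᶜ := fun h => h.2 rfl
  have h1 := (rt_contAt hz).eventually (hopen.mem_nhds hmem)
  have h2 : ∀ᶠ w in 𝓝 z, ‖w ^ ν - 1‖ < 1 := by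
    have hc : Continuous (fun w : ℂ => ‖w ^ ν - 1‖) := by fun_prop
    exact hc.continuousAt.eventually_lt_const hz
  filter_upwards [h1, h2] with w hw1 hw2
  by_contra hne
  exact hw1 ⟨rt_pow hν hw2, hne⟩

theorem rt_close {ν : ℕ} (hν : 1 ≤ ν) {z : ℂ} (hz : ‖z ^ ν - 1‖ ≤ 1 / 2) :
    ‖z - rt ν z‖ ≤ 4 / ν := by
  have hν0 : (0 : ℝ) < ν := by exact_mod_cast hν
  have hz1 : ‖z ^ ν - 1‖ < 1 := hz.trans_lt (by norm_num)
  have hrn : ‖rt ν z‖ = 1 := by
    have h1 : ‖rt ν z‖ ^ ν = 1 := by rw [← norm_pow, rt_pow hν hz1, norm_one]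
    exact (pow_eq_one_iff_of_nonneg (norm_nonneg _) (by omega)).mp h1
  set u : ℂ := Complex.log (z ^ ν) / ν with hu
  have hz2 : z = rt ν z * Complex.exp u := by
    unfold rt
    rw [mul_assoc, ← Complex.exp_add, neg_div, ← hu, neg_add_cancel, Complex.exp_zero, mul_one]
  have hlog : ‖Complex.log (z ^ ν)‖ ≤ 1 := by
    have h1 := Complex.norm_log_one_add_half_le_self (z := z ^ ν - 1) hz
    rw [add_sub_cancel] at h1
    linarith
  have hun : ‖u‖ ≤ 1 / ν := by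
    rw [hu, norm_div, Complex.norm_natCast]
    gcongr
  have hu1 : ‖u‖ ≤ 1 := hun.trans (by
    rw [div_le_one hν0]
    exact_mod_cast hν)
  have hexp : ‖Complex.exp u - 1‖ ≤ 2 * ‖u‖ := Complex.norm_exp_sub_one_le hu1
  have h3 : z - rt ν z = rt ν z * (Complex.exp u - 1) := by
    rw [mul_sub, mul_one, ← hz2]
  rw [h3, norm_mul, hrn, one_mul]
  calc ‖Complex.exp u - 1‖ ≤ 2 * ‖u‖ := hexp
    _ ≤ 2 * (1 / ν) := by gcongr
    _ ≤ 4 / ν := by
      rw [mul_one_div]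
      gcongr
      norm_num

end Pool.Agent.MP_fe3720.BB
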