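import Mathlib

/-! # Module SubSeq: subsequences along which each of finitely many sequences converges or leaves all
compact sets

Induction on `k` (`Fin.cons`/`Fin.succ` or `Finset.induction`): for one sequence `u` in a proper space: either
`u → cocompact` (then nothing to do), or there is a compact set `K` with `u n ∈ K` for infinitely many
`n` (negation of `Tendsto … (cocompact X)`: `Filter.not_tendsto_iff_exists_frequently_notMem`,
`Filter.mem_cocompact`), hence (`IsCompact.tendsto_subseq'` or `tendsto_subseq`) a convergent subsequence.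
A subsequence of a convergent sequence (or of one tending to `cocompact`) has the same property
(`StrictMono.tendsto_atTop`). -/

namespace Pool.Agent.MP_fe3720.BB

open Topology Filter

theorem exists_subseq_split {X : Type} [MetricSpace X] {k : ℕ} (y : Fin k → ℕ → X) :
    ∃ σ : ℕ → ℕ, StrictMono σ ∧ ∀ i, (∃ w, Tendsto (fun n => y i (σ n)) atTop (𝓝 w)) ∨
      Tendsto (fun n => y i (σ n)) atTop (cocompact X) := by
  induction k with
  | zero => exact ⟨id, strictMono_id, fun i => i.elim0⟩
  | succ k ih =>
    obtain ⟨σ, hσ, h⟩ := ih (fun i => y i.succ)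
    by_cases h0 : Tendsto (fun n => y 0 (σ n)) atTop (cocompact X)
    · refine ⟨σ, hσ, fun i => ?_⟩
      refine Fin.cases (Or.inr h0) (fun i => h i) i
    · rw [(hasBasis_cocompact).tendsto_right_iff] at h0
      push Not at h0
      obtain ⟨K, hK, hfr⟩ := h0
      have hfr' : ∃ᶠ n in atTop, y 0 (σ n) ∈ K := by
        refine fun hc => hfr ?_
        filter_upwards [hc] with n hn
        exact not_not.mpr hn
      obtain ⟨w, -, τ, hτ, hw⟩ := hK.tendsto_subseq' hfr'
      refine ⟨fun n => σ (τ n), hσ.comp hτ, fun i => ?_⟩
      refine Fin.cases (Or.inl ⟨w, hw⟩) (fun i => ?_) i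
      rcases h i with ⟨w', hw'⟩ | h'
      · exact Or.inl ⟨w', hw'.comp hτ.tendsto_atTop⟩
      · exact Or.inr (h'.comp hτ.tendsto_atTop)

end Pool.Agent.MP_fe3720.BB
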