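import Pool.Agent.Work.MP_fe3720_an.B.NZEv
import Pool.Agent.Work.MP_fe3720_an.B.SubSeq

/-! # Module SepNZ: separating one point from finitely many others

`sep_nz`: by `nz_orbit` choose `φ` with `NZ v (φ (x 0))`. Let `Φ` be the flow of `v` and `y i t = Φ t (φ (x i))`. For
every `n` choose `t n` with `y 0 (t n) ∉ closedBall (φ (x 0)) n` (`orbit_unbounded`), so
`n ↦ y 0 (t n)` tends to `cocompact X` (`Metric.cobounded_eq_cocompact`). By `exists_subseq_split` pass to a
subsequence such that each `n ↦ y i (t n)` converges to some `w i` or tends to `cocompact`; let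
`ι = {i // Tendsto (y i ∘ t) atTop (cocompact X)}` (nonempty: contains `0`; classical Fintype). Let `a` be from
`exists_seqB` and `c` from `exists_seqC`. Define the targets `z i`: `z 0 n = a (n + n₀)` and
`z i n = c ((k+1) n + i)` for `i ≠ 0`, with `n₀` such that `‖f (a n)‖ > C` for `n ≥ n₀` (so for fixed `n` the points `z i n`
are distinct: `c` is injective and `‖f (c _)‖ ≤ C`). By `interp_multi` there are `σ, τ, ψ` with
`ψ (y i (t (σ j))) = z i (τ j)` for `i ∈ ι`. Put `α j = ψ ∘ Φ (t (σ j)) ∘ φ`. Then `NZ v (α j (x 0))`,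
`‖f (α j (x 0))‖ → ∞`, while for `i ≠ 0`, `i ∈ ι`: `‖f (α j (x i))‖ ≤ C`, and for `i ∉ ι`: `f (α j (x i)) → f (ψ (w i))`, bounded. So for
`j` large `f (α j (x i)) ≠ f (α j (x 0))` for all `i ≠ 0`. -/

namespace Pool.Agent.MP_fe3720.BB

open Topology RR Filter

variable {X : Type} [MetricSpace X] [ProperSpace X] [PreconnectedSpace X]
  {O : Subalgebra ℂ (X → ℂ)} {m N : ℕ} {G : Fin N → O}

theorem sep_nz (hS : SD0 m O G) (hI : Interp O) {v : Derivation ℂ O O} (hv : IsCompleteVF v)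
    (hv0 : v ≠ 0) {f : O} (hf : v f = 0) (hfc : ∃ x y, f x ≠ f y)
    (hT : ∀ x : X, ∃ w : Derivation ℂ O O, IsCompleteVF w ∧ NZ w x) {k : ℕ} (x : Fin (k + 1) → X)
    (hx : Function.Injective x) :
    ∃ α : HolAut O, NZ v (α (x 0)) ∧ ∀ i : Fin k, f (α (x i.succ)) ≠ f (α (x 0)) := by
  classical
  obtain ⟨φ, hφ⟩ := nz_orbit hS hI hv hv0 hT (x 0)
  obtain ⟨Φ, hΦ⟩ := exists_flow hS hv
  -- times
  have ht : ∀ n : ℕ, ∃ t, Φ t (φ (x 0)) ∉ Metric.closedBall (φ (x 0)) (n : ℝ) := fun n =>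
    orbit_unbounded hS hΦ hφ (isCompact_closedBall _ _)
  choose t ht using ht
  have h0 : Tendsto (fun n => Φ (t n) (φ (x 0))) atTop (cocompact X) := by
    rw [(hasBasis_cocompact).tendsto_right_iff]
    intro K hK
    obtain ⟨B, hB⟩ := hK.isBounded.subset_closedBall (φ (x 0))
    obtain ⟨n₀, hn₀⟩ := exists_nat_ge B
    filter_upwards [eventually_ge_atTop n₀] with n hn hmem
    refine ht n (Metric.closedBall_subset_closedBall ?_ (hB hmem))
    exact hn₀.trans (by exact_mod_cast hn)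
  obtain ⟨σ₀, hσ₀, hsplit⟩ := exists_subseq_split (fun (i : Fin (k + 1)) n => Φ (t n) (φ (x i)))
  -- the indices that leave the compact sets
  let ι := {i : Fin (k + 1) // Tendsto (fun n => Φ (t (σ₀ n)) (φ (x i))) atTop (cocompact X)}
  have hι0 : Tendsto (fun n => Φ (t (σ₀ n)) (φ (x 0))) atTop (cocompact X) :=
    h0.comp hσ₀.tendsto_atTop
  let i₀ : ι := ⟨0, hι0⟩
  have : Nonempty ι := ⟨i₀⟩
  have : Fintype ι := Fintype.ofFinite ι
  obtain ⟨a, ha1, ha2, ha3, ha4⟩ := exists_seqB hS hI hv hv0 hfc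
  obtain ⟨c, hc1, ⟨C, hC⟩, hc3⟩ := exists_seqC hS hv hv0 hf
  obtain ⟨n₀, hn₀⟩ := eventually_atTop.mp (ha2.eventually_gt_atTop C)
  let z : ι → ℕ → X := fun i n => if i.1 = 0 then a (n + n₀) else c ((k + 1) * n + i.1)
  have hz0 : ∀ n, z i₀ n = a (n + n₀) := fun n => if_pos rfl
  have hy : ∀ n, Function.Injective (fun i : ι => Φ (t (σ₀ n)) (φ (x i.1))) := by
    intro n i j hij
    exact Subtype.ext (hx (φ.toHomeo.injective ((Φ _).toHomeo.injective hij)))
  have hz : ∀ n, Function.Injective (fun i : ι => z i n) := by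
    intro n i j hij
    by_cases hi : i.1 = 0 <;> by_cases hj : j.1 = 0
    · exact Subtype.ext (hi.trans hj.symm)
    · exfalso
      simp only [z, if_pos hi, if_neg hj] at hij
      have h1 := hn₀ (n + n₀) (by omega)
      rw [hij] at h1
      exact absurd (hC _) (not_le.mpr h1)
    · exfalso
      simp only [z, if_neg hi, if_pos hj] at hij
      have h1 := hn₀ (n + n₀) (by omega)
      rw [← hij] at h1
      exact absurd (hC _) (not_le.mpr h1)
    · simp only [z, if_neg hi, if_neg hj] at hij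
      have h1 := hc1 hij
      exact Subtype.ext (Fin.ext (by omega))
  have hzi : ∀ i : ι, Tendsto (z i) atTop (cocompact X) := by
    intro i
    by_cases hi : i.1 = 0
    · have e : z i = fun n => a (n + n₀) := funext fun n => if_pos hi
      rw [e]
      exact ha4.comp (tendsto_add_atTop_nat n₀)
    · have e : z i = fun n => c ((k + 1) * n + i.1) := funext fun n => if_neg hi
      rw [e]
      refine hc3.comp ?_
      refine tendsto_atTop_mono (fun n => ?_) tendsto_id
      have : n ≤ (k + 1) * n := Nat.le_mul_of_pos_left n (Nat.succ_pos k)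
      show n ≤ (k + 1) * n + (i.1 : ℕ)
      omega
  obtain ⟨σ, τ, ψ, hσ, hτ, hψ⟩ := interp_multi hI
    (fun (i : ι) n => Φ (t (σ₀ n)) (φ (x i.1))) z hy (fun i => i.2) hz hzi
  let α : ℕ → HolAut O := fun j => ψ.comp ((Φ (t (σ₀ (σ j)))).comp φ)
  have hα : ∀ j (y : X), α j y = ψ (Φ (t (σ₀ (σ j))) (φ y)) := fun j y => rfl
  have hα0 : ∀ j, α j (x 0) = a (τ j + n₀) := by
    intro j
    rw [hα, ← hz0]
    exact hψ i₀ j
  have hlarge : Tendsto (fun j => ‖f (α j (x 0))‖) atTop atTop := by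
    have e : (fun j => ‖f (α j (x 0))‖) = fun j => ‖f (a (τ j + n₀))‖ := by
      funext j
      rw [hα0]
    rw [e]
    exact ha2.comp ((tendsto_add_atTop_nat n₀).comp hτ.tendsto_atTop)
  -- the other points have bounded values
  have hbd : ∀ i : Fin k, ∃ B : ℝ, ∀ᶠ j in atTop, ‖f (α j (x i.succ))‖ ≤ B := by
    intro i
    by_cases hi : Tendsto (fun n => Φ (t (σ₀ n)) (φ (x i.succ))) atTop (cocompact X)
    · refine ⟨C, Eventually.of_forall fun j => ?_⟩
      have h1 := hψ ⟨i.succ, hi⟩ j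
      have h2 : z ⟨i.succ, hi⟩ (τ j) = c ((k + 1) * τ j + (i.succ : Fin (k + 1))) :=
        if_neg (Fin.succ_ne_zero i)
      rw [hα]
      simp only at h1
      rw [h1, h2]
      exact hC _
    · rcases hsplit i.succ with ⟨w, hw⟩ | h
      · refine ⟨‖f (ψ w)‖ + 1, ?_⟩
        have h1 : Tendsto (fun j => ‖f (α j (x i.succ))‖) atTop (𝓝 ‖f (ψ w)‖) := by
          have h2 : Tendsto (fun j => Φ (t (σ₀ (σ j))) (φ (x i.succ))) atTop (𝓝 w) :=
            hw.comp hσ.tendsto_atTop
          exact (((cont hS f).comp ψ.toHomeo.continuous).norm.tendsto w).comp h2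
        exact h1.eventually_le_const (lt_add_one _)
      · exact absurd h hi
  choose B hB using hbd
  have h1 : ∀ᶠ j in atTop, ∀ i : Fin k, ‖f (α j (x i.succ))‖ < ‖f (α j (x 0))‖ := by
    rw [eventually_all]
    intro i
    filter_upwards [hB i, hlarge.eventually_gt_atTop (B i)] with j h1 h2
    exact h1.trans_lt h2
  obtain ⟨j, hj⟩ := h1.exists
  refine ⟨α j, ?_, fun i h => ?_⟩
  · rw [hα0]
    exact ha3 _
  · have := hj i
    rw [h] at this
    exact lt_irrefl _ this

end Pool.Agent.MP_fe3720.BB
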