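import Pool.Agent.Work.MP_fe3720_an.FrobA
import Pool.Agent.Work.MP_fe3720_an.B.PushF
import Pool.Agent.Work.MP_fe3720_an.FrobCalc

/-! # Module SpanA: Frobenius boxes for the fields `φ_* v` (port of modules Rank, FrobA, Frob, SpanT (1), (2))

`cSpan v x` is the span of the values `f ↦ (φ.push v f) x`, `φ ∈ Aut`, in `O → ℂ`.

This is the same proof as in the files Rank.lean, FrobA.lean, Frob.lean and SpanT.lean of
`Pool/Agent/Work/MP_fe3720_an` (there `X = Y × ℂ`), with `flowMap φ s x` replaced by `pushFlow Φ φ s x`, `Psi φ t` by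
`RR.Psi (fun i => pushFlow Φ (φ i)) t`; the facts on `Psi` are in R/Word (`Psi_cont`, `Psi_contDiff`, `Psi_zero`,
`Psi_update`, `Psi_deriv`) and in PushF (`Psi_update_push`); `frame` of FrobA.lean is general (copy it here as a private
lemma or import FrobA), `inverse_general`, `inverse_box` are in FrobCalc.lean. -/

namespace Pool.Agent.MP_fe3720.BB

open Topology RR Filter

variable {X : Type} [MetricSpace X] {O : Subalgebra ℂ (X → ℂ)} {m N : ℕ} {G : Fin N → O}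

/-- the span of the values at `x` of the fields `φ_* v` -/
def cSpan (v : Derivation ℂ O O) (x : X) : Submodule ℂ (O → ℂ) :=
  Submodule.span ℂ (Set.range fun φ : HolAut O => fun f : O => (φ.push v f) x)

/-- A Frobenius box: an open set `U` with a first integral `p` of all the fields `φ_* v`,
whose level sets are contained in images of `Psi`. -/
def IsBoxB (Φ : ℂ → HolAut O) (r : ℕ) {W : Type} (U : Set X) (p : X → W) : Prop :=
  IsOpen U ∧ ¬ (p '' U).Countable ∧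
  (∀ x ∈ U, ∀ φ : HolAut O, ∀ᶠ s in 𝓝 (0 : ℂ), p (pushFlow Φ φ s x) = p x) ∧
  (∀ c : W, ∃ (φ : Fin r → HolAut O) (y : X),
    {x ∈ U | p x = c} ⊆ Set.range (fun t : Fin r → ℂ => RR.Psi (fun i => pushFlow Φ (φ i)) t y))

theorem cSpan_deriv {v : Derivation ℂ O O} (hv : IsVF v) (x : X) (ξ : O → ℂ)
    (hξ : ξ ∈ cSpan v x) : ∃ D : Derivation ℂ O O, IsVF D ∧ ∀ f : O, ξ f = (D f) x := by
  unfold cSpan at hξ
  induction hξ using Submodule.span_induction with
  | mem ξ h =>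
    obtain ⟨φ, rfl⟩ := h
    exact ⟨φ.push v, φ.isVF_push hv, fun f => rfl⟩
  | zero => exact ⟨0, isVF_zero, fun f => rfl⟩
  | add ξ η _ _ h1 h2 =>
    obtain ⟨D, hD, h1⟩ := h1
    obtain ⟨E, hE, h2⟩ := h2
    refine ⟨D + E, hD.add hE, fun f => ?_⟩
    rw [Pi.add_apply, h1, h2]
    rfl
  | smul c ξ _ h1 =>
    obtain ⟨D, hD, h1⟩ := h1
    refine ⟨c • D, hD.csmul c, fun f => ?_⟩
    rw [Pi.smul_apply, h1]
    rfl

/-- evaluation of a functional at the coordinates -/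
noncomputable def evqB {m : ℕ} (q : Fin m → O) : (O → ℂ) →ₗ[ℂ] (Fin m → ℂ) :=
  LinearMap.pi fun j => LinearMap.proj (q j)

theorem evqB_apply {m : ℕ} (q : Fin m → O) (ξ : O → ℂ) (j : Fin m) : evqB q ξ j = ξ (q j) := rfl

/-- the span of the coordinate vectors of the conjugate fields -/
noncomputable def qSpanB (v : Derivation ℂ O O) {m : ℕ} (q : Fin m → O) (x : X) :
    Submodule ℂ (Fin m → ℂ) :=
  Submodule.span ℂ (Set.range fun φ : HolAut O => fun j => (φ.push v (q j)) x)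

theorem qSpanB_eq_map (v : Derivation ℂ O O) {m : ℕ} (q : Fin m → O) (x : X) :
    qSpanB v q x = (cSpan v x).map (evqB q) := by
  unfold qSpanB cSpan
  rw [Submodule.map_span, ← Set.range_comp]
  rfl

theorem evqB_inj {v : Derivation ℂ O O} (hv : IsVF v) {m : ℕ} (q : Fin m → O)
    (κ : (Fin m → ℂ) → X) (y : Fin m → ℂ)
    (hy : ∀ D : Derivation ℂ O O, IsVF D → ∀ f : O,
      (D f) (κ y) = fderiv ℂ (fun y => f (κ y)) y (fun j => (D (q j)) (κ y)))
    (ξ : O → ℂ) (hξ : ξ ∈ cSpan v (κ y)) (h0 : evqB q ξ = 0) : ξ = 0 := by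
  obtain ⟨D, hD, h⟩ := cSpan_deriv hv _ ξ hξ
  funext f
  rw [h, hy D hD f]
  have : (fun j => (D (q j)) (κ y)) = 0 := by
    funext j
    rw [← h]
    exact congrFun h0 j
  rw [this, map_zero]
  rfl

theorem finrank_qSpanB {v : Derivation ℂ O O} (hv : IsVF v) {m : ℕ} (q : Fin m → O)
    (κ : (Fin m → ℂ) → X) (y : Fin m → ℂ)
    (hy : ∀ D : Derivation ℂ O O, IsVF D → ∀ f : O,
      (D f) (κ y) = fderiv ℂ (fun y => f (κ y)) y (fun j => (D (q j)) (κ y))) :
    Module.finrank ℂ (qSpanB v q (κ y)) = Module.finrank ℂ (cSpan v (κ y)) := by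
  rw [qSpanB_eq_map, ← LinearMap.range_domRestrict]
  apply LinearMap.finrank_range_of_inj
  rw [← LinearMap.ker_eq_bot, LinearMap.ker_eq_bot']
  rintro ⟨ξ, hξ⟩ h
  exact Subtype.ext (evqB_inj hv q κ y hy ξ hξ h)

theorem cSpan_finrank_aut (v : Derivation ℂ O O) (A : HolAut O) (x : X) :
    Module.finrank ℂ (cSpan v (A x)) = Module.finrank ℂ (cSpan v x) := by
  let T : (O → ℂ) ≃ₗ[ℂ] (O → ℂ) := LinearEquiv.funCongrLeft ℂ ℂ A.pull.toEquiv
  have hT : ∀ (ξ : O → ℂ) (f : O), T ξ f = ξ (A.pull f) := fun ξ f => rfl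
  have hmap : (cSpan v x).map (T : (O → ℂ) →ₗ[ℂ] (O → ℂ)) = cSpan v (A x) := by
    unfold cSpan
    rw [Submodule.map_span, ← Set.range_comp]
    congr 1
    ext ξ
    constructor
    · rintro ⟨ψ, rfl⟩
      refine ⟨A.comp ψ, ?_⟩
      funext f
      simp only [Function.comp]
      rw [HolAut.push_comp, HolAut.push_apply]
      rfl
    · rintro ⟨φ, rfl⟩
      refine ⟨A.symm.comp φ, ?_⟩
      funext f
      simp only [Function.comp]
      rw [HolAut.push_comp]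
      have h : (T fun f => ((A.symm.push (φ.push v)) f) x) f =
          ((A.symm.push (φ.push v)) (A.pull f)) x := rfl
      refine h.trans ?_
      rw [← HolAut.push_apply, HolAut.push_push_symm]
  rw [← hmap]
  exact LinearEquiv.finrank_map_eq T (cSpan v x)

theorem cSpan_finrank_le (hS : SD0 m O G) {v : Derivation ℂ O O} (hv : IsVF v) (x : X) :
    Module.finrank ℂ (cSpan v x) ≤ m := by
  obtain ⟨q, κ, V, hc, hy₀, hκ₀⟩ := hS.charts x
  have h := finrank_qSpanB hv q κ (fun j => (q j) x) (fun D hD f => hc.tan D hD f _ hy₀)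
  rw [hκ₀] at h
  rw [← h]
  refine (Submodule.finrank_le _).trans ?_
  rw [Module.finrank_fin_fun]

/-- the map `(t, w) ↦ q (RR.Psi (fun i => pushFlow Φ (φ i)) t (κ (y₀ + B w)))` -/
noncomputable def boxMapB (Φ : ℂ → HolAut O) {m r k : ℕ} (q : Fin m → O) (κ : (Fin m → ℂ) → X)
    (y₀ : Fin m → ℂ) (φ : Fin r → HolAut O) (B : (Fin k → ℂ) →ₗ[ℂ] (Fin m → ℂ))
    (p : (Fin r → ℂ) × (Fin k → ℂ)) : Fin m → ℂ :=
  fun j => (q j) (RR.Psi (fun i => pushFlow Φ (φ i)) p.1 (κ (y₀ + B p.2)))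

theorem boxMapB_contDiffAt (hO : IsClosedAlg O) {v : Derivation ℂ O O} {Φ : ℂ → HolAut O}
    (hΦ : IsFlow v Φ) {m r k : ℕ} {q : Fin m → O}
    {κ : (Fin m → ℂ) → X} {V : Set (Fin m → ℂ)} (hc : IsChart O q κ V)
    (y₀ : Fin m → ℂ) (hy₀ : y₀ ∈ V) (φ : Fin r → HolAut O)
    (B : (Fin k → ℂ) →ₗ[ℂ] (Fin m → ℂ)) : ContDiffAt ℂ 1 (boxMapB Φ q κ y₀ φ B) 0 := by
  rw [contDiffAt_pi]
  intro j
  have h1 := RR.Psi_contDiff hO (fun i => isFlow_push hΦ (φ i)) hc (q j)
  have h2 : ContDiffAt ℂ 1 (fun p : (Fin r → ℂ) × (Fin m → ℂ) => (q j) (RR.Psi (fun i => pushFlow Φ (φ i)) p.1 (κ p.2)))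
      ((0 : Fin r → ℂ), y₀) :=
    h1.contDiffAt ((isOpen_univ.prod hc.opn).mem_nhds ⟨Set.mem_univ _, hy₀⟩)
  have h3 : ContDiff ℂ 1 (fun p : (Fin r → ℂ) × (Fin k → ℂ) => (p.1, y₀ + B p.2)) := by
    have hB : ContDiff ℂ 1 (fun w : Fin k → ℂ => B w) :=
      (LinearMap.toContinuousLinearMap B).contDiff
    exact contDiff_fst.prodMk (contDiff_const.add (hB.comp contDiff_snd))
  have h4 : ContDiffAt ℂ 1 (fun p : (Fin r → ℂ) × (Fin m → ℂ) => (q j) (RR.Psi (fun i => pushFlow Φ (φ i)) p.1 (κ p.2)))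
      ((fun p : (Fin r → ℂ) × (Fin k → ℂ) => (p.1, y₀ + B p.2)) 0) := by
    simpa using h2
  exact ContDiffAt.comp (f := fun p : (Fin r → ℂ) × (Fin k → ℂ) => (p.1, y₀ + B p.2))
    (g := fun p : (Fin r → ℂ) × (Fin m → ℂ) => (q j) (RR.Psi (fun i => pushFlow Φ (φ i)) p.1 (κ p.2)))
    (0 : (Fin r → ℂ) × (Fin k → ℂ)) h4 h3.contDiffAt

theorem boxMapB_partial {v : Derivation ℂ O O} {Φ : ℂ → HolAut O} (hΦ : IsFlow v Φ) {m r k : ℕ}
    (q : Fin m → O) (κ : (Fin m → ℂ) → X) (y₀ : Fin m → ℂ) (φ : Fin r → HolAut O)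
    (B : (Fin k → ℂ) →ₗ[ℂ] (Fin m → ℂ)) (n : (Fin r → ℂ) × (Fin k → ℂ))
    (hn : DifferentiableAt ℂ (boxMapB Φ q κ y₀ φ B) n) (i : Fin r) :
    ∃ α : HolAut O, (fderiv ℂ (boxMapB Φ q κ y₀ φ B) n (Pi.single i 1, 0)) =
      fun j => (α.push v (q j)) (RR.Psi (fun i => pushFlow Φ (φ i)) n.1 (κ (y₀ + B n.2))) := by
  obtain ⟨α, hα⟩ := Psi_update_push hΦ φ n.1 i
  refine ⟨α, ?_⟩
  have h1 : HasDerivAt (fun s : ℂ => n + s • ((Pi.single i 1, 0) : (Fin r → ℂ) × (Fin k → ℂ)))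
      (Pi.single i 1, 0) 0 := by
    have := ((hasDerivAt_id (0 : ℂ)).smul_const
      ((Pi.single i 1, 0) : (Fin r → ℂ) × (Fin k → ℂ))).const_add n
    simpa using this
  have h2 : HasFDerivAt (boxMapB Φ q κ y₀ φ B) (fderiv ℂ (boxMapB Φ q κ y₀ φ B) n)
      ((fun s : ℂ => n + s • ((Pi.single i 1, 0) : (Fin r → ℂ) × (Fin k → ℂ))) 0) := by
    simpa using hn.hasFDerivAt
  have h3 := h2.comp_hasDerivAt (0 : ℂ) h1
  have h4 : HasDerivAt (boxMapB Φ q κ y₀ φ B ∘
      fun s : ℂ => n + s • ((Pi.single i 1, 0) : (Fin r → ℂ) × (Fin k → ℂ)))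
      (fun j => (α.push v (q j)) (RR.Psi (fun i => pushFlow Φ (φ i)) n.1 (κ (y₀ + B n.2)))) 0 := by
    rw [hasDerivAt_pi]
    intro j
    have h5 := (isFlow_push hΦ α).deriv (q j) (RR.Psi (fun i => pushFlow Φ (φ i)) n.1 (κ (y₀ + B n.2))) 0
    rw [(isFlow_push hΦ α).zero] at h5
    refine h5.congr_of_eventuallyEq (Filter.Eventually.of_forall fun s => ?_)
    simp only [Function.comp, boxMapB]
    have h6 : (n + s • ((Pi.single i 1, 0) : (Fin r → ℂ) × (Fin k → ℂ))).1 =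
        Function.update n.1 i (n.1 i + s) := by
      funext l
      by_cases hl : l = i
      · subst hl; simp
      · simp [hl]
    have h7 : (n + s • ((Pi.single i 1, 0) : (Fin r → ℂ) × (Fin k → ℂ))).2 = n.2 := by simp
    rw [h6, h7, hα]
  exact h3.unique h4

theorem boxMapB_partial_zero {v : Derivation ℂ O O} {Φ : ℂ → HolAut O} (hΦ : IsFlow v Φ) {m r k : ℕ}
    (q : Fin m → O) (κ : (Fin m → ℂ) → X) (y₀ : Fin m → ℂ) (φ : Fin r → HolAut O)
    (B : (Fin k → ℂ) →ₗ[ℂ] (Fin m → ℂ))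
    (hn : DifferentiableAt ℂ (boxMapB Φ q κ y₀ φ B) 0) (i : Fin r) :
    (fderiv ℂ (boxMapB Φ q κ y₀ φ B) 0 (Pi.single i 1, 0)) =
      fun j => ((φ i).push v (q j)) (κ y₀) := by
  have h1 : HasDerivAt (fun s : ℂ => s • ((Pi.single i 1, 0) : (Fin r → ℂ) × (Fin k → ℂ)))
      (Pi.single i 1, 0) 0 := by
    have := ((hasDerivAt_id (0 : ℂ)).smul_const
      ((Pi.single i 1, 0) : (Fin r → ℂ) × (Fin k → ℂ)))
    simpa using this
  have h2 : HasFDerivAt (boxMapB Φ q κ y₀ φ B) (fderiv ℂ (boxMapB Φ q κ y₀ φ B) 0)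
      ((fun s : ℂ => s • ((Pi.single i 1, 0) : (Fin r → ℂ) × (Fin k → ℂ))) 0) := by
    simpa using hn.hasFDerivAt
  have h3 := h2.comp_hasDerivAt (0 : ℂ) h1
  have h4 : HasDerivAt (boxMapB Φ q κ y₀ φ B ∘
      fun s : ℂ => s • ((Pi.single i 1, 0) : (Fin r → ℂ) × (Fin k → ℂ)))
      (fun j => ((φ i).push v (q j)) (κ y₀)) 0 := by
    rw [hasDerivAt_pi]
    intro j
    have h5 := (isFlow_push hΦ (φ i)).deriv (q j) (κ y₀) 0
    rw [(isFlow_push hΦ (φ i)).zero] at h5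
    refine h5.congr_of_eventuallyEq (Filter.Eventually.of_forall fun s => ?_)
    simp only [Function.comp, boxMapB]
    have h6 : (s • ((Pi.single i 1, 0) : (Fin r → ℂ) × (Fin k → ℂ))).1 =
        Function.update (0 : Fin r → ℂ) i s := by
      funext l
      by_cases hl : l = i
      · subst hl; simp
      · simp [hl]
    have h7 : (s • ((Pi.single i 1, 0) : (Fin r → ℂ) × (Fin k → ℂ))).2 = 0 := by simp
    rw [h6, h7, RR.Psi_update (fun i => isFlow_push hΦ (φ i)), map_zero, add_zero]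
  exact h3.unique h4

theorem boxMapB_zero {v : Derivation ℂ O O} {Φ : ℂ → HolAut O} (hΦ : IsFlow v Φ) {m r k : ℕ} (q : Fin m → O) (κ : (Fin m → ℂ) → X)
    (V : Set (Fin m → ℂ)) (hq : ∀ y ∈ V, ∀ j, (q j) (κ y) = y j) (y₀ : Fin m → ℂ)
    (φ : Fin r → HolAut O) (B : (Fin k → ℂ) →ₗ[ℂ] (Fin m → ℂ)) (w : Fin k → ℂ)
    (hw : y₀ + B w ∈ V) : boxMapB Φ q κ y₀ φ B (0, w) = y₀ + B w := by
  funext j
  simp only [boxMapB, RR.Psi_zero (fun i => isFlow_push hΦ (φ i))]
  exact hq _ hw j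

theorem boxMapB_partial_w {v : Derivation ℂ O O} {Φ : ℂ → HolAut O} (hΦ : IsFlow v Φ) {m r k : ℕ} (q : Fin m → O) (κ : (Fin m → ℂ) → X)
    (V : Set (Fin m → ℂ)) (hV : IsOpen V) (hq : ∀ y ∈ V, ∀ j, (q j) (κ y) = y j)
    (y₀ : Fin m → ℂ) (hy₀ : y₀ ∈ V)
    (φ : Fin r → HolAut O) (B : (Fin k → ℂ) →ₗ[ℂ] (Fin m → ℂ))
    (hn : DifferentiableAt ℂ (boxMapB Φ q κ y₀ φ B) 0) (w : Fin k → ℂ) :
    (fderiv ℂ (boxMapB Φ q κ y₀ φ B) 0 (0, w)) = B w := by
  have h1 : HasDerivAt (fun s : ℂ => s • ((0, w) : (Fin r → ℂ) × (Fin k → ℂ)))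
      (0, w) 0 := by
    have := ((hasDerivAt_id (0 : ℂ)).smul_const
      ((0, w) : (Fin r → ℂ) × (Fin k → ℂ)))
    simpa using this
  have h2 : HasFDerivAt (boxMapB Φ q κ y₀ φ B) (fderiv ℂ (boxMapB Φ q κ y₀ φ B) 0)
      ((fun s : ℂ => s • ((0, w) : (Fin r → ℂ) × (Fin k → ℂ))) 0) := by
    simpa using hn.hasFDerivAt
  have h3 := h2.comp_hasDerivAt (0 : ℂ) h1
  have h4 : HasDerivAt (boxMapB Φ q κ y₀ φ B ∘
      fun s : ℂ => s • ((0, w) : (Fin r → ℂ) × (Fin k → ℂ))) (B w) 0 := by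
    have h5 : HasDerivAt (fun s : ℂ => y₀ + s • B w) (B w) 0 := by
      have := ((hasDerivAt_id (0 : ℂ)).smul_const (B w)).const_add y₀
      simpa using this
    refine h5.congr_of_eventuallyEq ?_
    have h6 : ∀ᶠ s : ℂ in 𝓝 0, y₀ + s • B w ∈ V := by
      have : Filter.Tendsto (fun s : ℂ => y₀ + s • B w) (𝓝 0) (𝓝 (y₀ + (0 : ℂ) • B w)) :=
        h5.continuousAt
      rw [zero_smul, add_zero] at this
      exact this (hV.mem_nhds hy₀)
    filter_upwards [h6] with s hs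
    have h7 : s • ((0, w) : (Fin r → ℂ) × (Fin k → ℂ)) = (0, s • w) := by simp
    simp only [Function.comp]
    rw [h7, boxMapB_zero hΦ q κ V hq y₀ φ B (s • w) (by rwa [map_smul]), map_smul]
  exact h3.unique h4

theorem exists_boxB (hS : SD0 m O G) {v : Derivation ℂ O O} {Φ : ℂ → HolAut O}
    (hv : IsVF v) (hΦ : IsFlow v Φ) {r : ℕ} (hr : r < m)
    (hrank : ∀ x, Module.finrank ℂ (cSpan v x) = r) (x₀ : X) :
    ∃ (U : Set X) (p : X → (Fin (m - r) → ℂ)), x₀ ∈ U ∧ IsBoxB Φ r U p := by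
  obtain ⟨q, κ, V, hc, hy₀, hκ₀⟩ := hS.charts x₀
  have hV := hc.opn
  have hκ := hc.cont
  have hq := hc.inv
  have hopen := hc.img
  have hf := hc.smooth
  have htan := hc.tan
  have hfl : ∀ φ : HolAut O, IsFlow (φ.push v) (pushFlow Φ φ) := isFlow_push hΦ
  set y₀ : Fin m → ℂ := fun j => (q j) x₀ with hy₀def
  have hrk : ∀ y ∈ V, Module.finrank ℂ (qSpanB v q (κ y)) = r := fun y hy => by
    rw [finrank_qSpanB hv q κ y (fun D hD f => htan D hD f y hy), hrank]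
  have hκq : ∀ x ∈ κ '' V, κ (fun j => (q j) x) = x ∧ (fun j => (q j) x) ∈ V := by
    rintro x ⟨y, hy, rfl⟩
    have : (fun j => (q j) (κ y)) = y := funext fun j => hq y hy j
    rw [this]
    exact ⟨rfl, hy⟩
  -- the frame at `x₀`
  have hr0 : Module.finrank ℂ (Submodule.span ℂ (Set.range
      fun φ : HolAut O => fun j => (φ.push v (q j)) x₀)) = r := by
    have := hrk y₀ hy₀
    rw [hκ₀] at this
    exact this
  obtain ⟨φ, B, hbij⟩ := frame (fun φ : HolAut O => fun j => (φ.push v (q j)) x₀) hr0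
  set G := boxMapB Φ q κ y₀ φ B with hGdef
  have hG1 : ContDiffAt ℂ 1 G 0 := boxMapB_contDiffAt hS.alg hΦ hc y₀ hy₀ φ B
  have hGd : DifferentiableAt ℂ G 0 := hG1.differentiableAt (by norm_num)
  have hG' : ∀ e : (Fin r → ℂ) × (Fin (m - r) → ℂ), fderiv ℂ G 0 e =
      ∑ i, e.1 i • (fun j => ((φ i).push v (q j)) x₀) + B e.2 := by
    intro e
    have h1 : e = ∑ i, e.1 i • ((Pi.single i 1, 0) : (Fin r → ℂ) × (Fin (m - r) → ℂ))
        + (0, e.2) := by
      refine Prod.ext ?_ ?_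
      · rw [Prod.fst_add, Prod.fst_sum]
        funext l
        simp [Finset.sum_apply, Pi.single_apply]
      · rw [Prod.snd_add, Prod.snd_sum]
        simp
    conv_lhs => rw [h1]
    rw [map_add, map_sum, boxMapB_partial_w hΦ q κ V hV hq y₀ hy₀ φ B hGd]
    congr 1
    refine Finset.sum_congr rfl fun i _ => ?_
    rw [map_smul, boxMapB_partial_zero hΦ q κ y₀ φ B hGd, hκ₀]
  have hbij' : Function.Bijective (fderiv ℂ G 0) := by
    have : (fderiv ℂ G 0 : (Fin r → ℂ) × (Fin (m - r) → ℂ) → (Fin m → ℂ)) =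
        fun e => ∑ i, e.1 i • (fun j => ((φ i).push v (q j)) x₀) + B e.2 := funext hG'
    rw [this]
    exact hbij
  -- the neighbourhood `S`
  set Ψ : (Fin r → ℂ) × (Fin (m - r) → ℂ) → X := fun p => RR.Psi (fun i => pushFlow Φ (φ i)) p.1 (κ (y₀ + B p.2))
    with hΨdef
  have hBc : Continuous B := B.continuous_of_finiteDimensional
  have hΨc : ContinuousAt Ψ 0 := by
    have h1 : ContinuousAt κ (y₀ + B (0 : (Fin r → ℂ) × (Fin (m - r) → ℂ)).2) := by
      have : y₀ + B (0 : (Fin r → ℂ) × (Fin (m - r) → ℂ)).2 = y₀ := by simp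
      rw [this]
      exact hκ.continuousAt (hV.mem_nhds hy₀)
    have h2 : ContinuousAt (fun p : (Fin r → ℂ) × (Fin (m - r) → ℂ) => y₀ + B p.2) 0 :=
      (continuous_const.add (hBc.comp continuous_snd)).continuousAt
    have h3 : ContinuousAt (fun p : (Fin r → ℂ) × (Fin (m - r) → ℂ) =>
        (p.1, κ (y₀ + B p.2))) 0 :=
      continuous_fst.continuousAt.prodMk (ContinuousAt.comp (g := κ) h1 h2)
    exact ContinuousAt.comp (g := fun p : (Fin r → ℂ) × (X) => RR.Psi (fun i => pushFlow Φ (φ i)) p.1 p.2)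
      (RR.Psi_cont fun i => hfl (φ i)).continuousAt h3
  have hΨ0 : Ψ 0 = x₀ := by
    simp only [hΨdef, Prod.fst_zero, Prod.snd_zero, map_zero, add_zero,
      RR.Psi_zero (fun i => hfl (φ i)), hκ₀]
  have hx₀V : x₀ ∈ κ '' V := ⟨y₀, hy₀, hκ₀⟩
  set S : Set ((Fin r → ℂ) × (Fin (m - r) → ℂ)) := {p | y₀ + B p.2 ∈ V ∧ Ψ p ∈ κ '' V}
    with hSdef
  have hSn : S ∈ 𝓝 (0 : (Fin r → ℂ) × (Fin (m - r) → ℂ)) := by
    refine Filter.inter_mem ?_ ?_
    · have h2 : ContinuousAt (fun p : (Fin r → ℂ) × (Fin (m - r) → ℂ) => y₀ + B p.2) 0 :=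
        (continuous_const.add (hBc.comp continuous_snd)).continuousAt
      refine h2.preimage_mem_nhds ?_
      simpa using hV.mem_nhds hy₀
    · have h5 : Ψ ⁻¹' (κ '' V) ∈ 𝓝 (0 : (Fin r → ℂ) × (Fin (m - r) → ℂ)) := by
        refine hΨc.preimage_mem_nhds ?_
        rw [hΨ0]
        exact hopen.mem_nhds hx₀V
      exact h5
  obtain ⟨𝒩, 𝒱, H, hNo, hN0, hNS, hVo, hGN, hHV⟩ := inverse_box G hG1 hbij' S hSn
  have hGΨ : ∀ p, G p = fun j => (q j) (Ψ p) := fun p => rfl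
  -- the box
  set U : Set X := κ '' V ∩ {x | (fun j => (q j) x) ∈ 𝒱} with hUdef
  have hqc : Continuous (fun x : X => fun j => (q j) x) :=
    continuous_pi fun j => hS.alg.cont _ (q j).2
  have hU : IsOpen U := hopen.inter (hVo.preimage hqc)
  have hrec : ∀ x ∈ U, Ψ (H (fun j => (q j) x)) = x := by
    rintro x ⟨hx1, hx2⟩
    obtain ⟨h1, h2, -, -⟩ := hHV _ hx2
    have h3 : Ψ (H (fun j => (q j) x)) ∈ κ '' V := (hNS h1).2
    have h4 := (hκq _ h3).1
    rw [← h4, ← hGΨ, h2]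
    exact (hκq x hx1).1
  refine ⟨U, fun x => (H (fun j => (q j) x)).2, ?_, hU, ?_, ?_, ?_⟩
  · refine ⟨hx₀V, ?_⟩
    have := (hGN 0 hN0).1
    rw [hGΨ, hΨ0] at this
    exact this
  · -- uncountable
    intro hcount
    have hsub : {w : Fin (m - r) → ℂ | ((0 : Fin r → ℂ), w) ∈ 𝒩} ⊆
        (fun x => (H (fun j => (q j) x)).2) '' U := by
      intro w hw
      have h1 := (hNS hw).2
      obtain ⟨h2, h3, -, -⟩ := hGN _ hw
      refine ⟨Ψ (0, w), ⟨h1, ?_⟩, ?_⟩
      · rw [hGΨ] at h2; exact h2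
      · rw [hGΨ] at h3
        simp only
        rw [h3]
    have hcount2 := hcount.mono hsub
    have hop : IsOpen {w : Fin (m - r) → ℂ | ((0 : Fin r → ℂ), w) ∈ 𝒩} :=
      hNo.preimage (by fun_prop : Continuous fun w : Fin (m - r) → ℂ => ((0 : Fin r → ℂ), w))
    have : Nonempty (Fin (m - r)) := ⟨⟨0, by omega⟩⟩
    obtain ⟨w, hw1, hw2⟩ := (Set.Countable.dense_compl ℂ hcount2).exists_mem_open hop
      ⟨0, hN0⟩
    exact hw1 hw2
  · -- first integral
    intro x hx ψ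
    have hcont : Continuous (fun s : ℂ => pushFlow Φ ψ s x) :=
      (hfl ψ).cont.comp (by fun_prop : Continuous fun s : ℂ => (s, x))
    have hopen2 : IsOpen {s : ℂ | pushFlow Φ ψ s x ∈ U} := hU.preimage hcont
    have h0mem : (0 : ℂ) ∈ {s : ℂ | pushFlow Φ ψ s x ∈ U} := by
      rw [Set.mem_ofPred_eq, (hfl ψ).zero]; exact hx
    obtain ⟨δ, hδ, hball⟩ := Metric.isOpen_iff.mp hopen2 0 h0mem
    have hder : ∀ s ∈ Metric.ball (0 : ℂ) δ,
        HasDerivAt (fun s => (H (fun j => (q j) (pushFlow Φ ψ s x))).2) 0 s := by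
      intro s hs
      have hsU : pushFlow Φ ψ s x ∈ U := hball hs
      set xs := pushFlow Φ ψ s x with hxs
      set n := H (fun j => (q j) xs) with hn
      obtain ⟨hn1, hn2, hn3, hn4⟩ := hHV _ hsU.2
      obtain ⟨-, -, hn5, hn6⟩ := hGN _ hn1
      have hqd : HasDerivAt (fun s => fun j => (q j) (pushFlow Φ ψ s x))
          (fun j => (ψ.push v (q j)) xs) s := by
        rw [hasDerivAt_pi]
        exact fun j => (hfl ψ).deriv (q j) x s
      have hHd := hn3.hasFDerivAt.comp_hasDerivAt s hqd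
      -- `a` is in the range of the partial derivative
      have hxsV := (hκq xs hsU.1).2
      have hfr : Module.finrank ℂ (qSpanB v q xs) = r := by
        have := hrk _ hxsV
        rwa [(hκq xs hsU.1).1] at this
      have hpart : ∀ i : Fin r, fderiv ℂ G n (Pi.single i 1, 0) ∈ qSpanB v q xs := by
        intro i
        obtain ⟨α, hα⟩ := boxMapB_partial hΦ q κ y₀ φ B n hn5 i
        rw [hα]
        have : RR.Psi (fun i => pushFlow Φ (φ i)) n.1 (κ (y₀ + B n.2)) = xs := hrec xs hsU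
        rw [this]
        exact Submodule.subset_span ⟨α, rfl⟩
      have hli : LinearIndependent ℂ
          (fun i : Fin r => fderiv ℂ G n ((Pi.single i 1, 0) :
            (Fin r → ℂ) × (Fin (m - r) → ℂ))) := by
        have h1 : LinearIndependent ℂ (fun i : Fin r => (Pi.single i 1 : Fin r → ℂ)) := by
          have := (Pi.basisFun ℂ (Fin r)).linearIndependent
          convert this using 2 with i
          simp
        have h2 := h1.map' ((fderiv ℂ G n).toLinearMap ∘ₗ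
          LinearMap.inl ℂ (Fin r → ℂ) (Fin (m - r) → ℂ)) (by
            rw [LinearMap.ker_eq_bot]
            exact hn6.comp LinearMap.inl_injective)
        exact h2
      have hspan : Submodule.span ℂ (Set.range
          (fun i : Fin r => fderiv ℂ G n ((Pi.single i 1, 0) :
            (Fin r → ℂ) × (Fin (m - r) → ℂ)))) = qSpanB v q xs := by
        refine Submodule.eq_of_le_of_finrank_eq (Submodule.span_le.mpr ?_) ?_
        · rintro _ ⟨i, rfl⟩
          exact hpart i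
        · rw [finrank_span_eq_card hli, hfr, Fintype.card_fin]
      have ha : (fun j => (ψ.push v (q j)) xs) ∈ Submodule.span ℂ (Set.range
          (fun i : Fin r => fderiv ℂ G n ((Pi.single i 1, 0) :
            (Fin r → ℂ) × (Fin (m - r) → ℂ)))) := by
        rw [hspan]
        exact Submodule.subset_span ⟨ψ, rfl⟩
      obtain ⟨b, hb⟩ := (Submodule.mem_span_range_iff_exists_fun ℂ).mp ha
      have hb2 : (fun j => (ψ.push v (q j)) xs) =
          fderiv ℂ G n ((b, 0) : (Fin r → ℂ) × (Fin (m - r) → ℂ)) := by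
        rw [← hb]
        have h1 : ((b, 0) : (Fin r → ℂ) × (Fin (m - r) → ℂ)) =
            ∑ i, b i • ((Pi.single i 1, 0) : (Fin r → ℂ) × (Fin (m - r) → ℂ)) := by
          refine Prod.ext ?_ ?_
          · rw [Prod.fst_sum]
            funext l
            simp [Finset.sum_apply, Pi.single_apply]
          · rw [Prod.snd_sum]
            simp
        rw [h1, map_sum]
        simp only [map_smul]
      rw [hb2, hn4] at hHd
      have hsnd := hHd.snd
      exact hsnd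
    have hconst := (convex_ball (0 : ℂ) δ)
    have hev : ∀ᶠ s in 𝓝 (0 : ℂ), s ∈ Metric.ball (0 : ℂ) δ := Metric.ball_mem_nhds 0 hδ
    filter_upwards [hev] with s hs
    have h1 := Metric.isOpen_ball.is_const_of_deriv_eq_zero (convex_ball (0 : ℂ) δ).isPreconnected
      (f := fun s => (H (fun j => (q j) (pushFlow Φ ψ s x))).2)
      (fun s hs => (hder s hs).differentiableAt.differentiableWithinAt)
      (fun s hs => (hder s hs).deriv) hs (Metric.mem_ball_self hδ)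
    simpa [(hfl ψ).zero] using h1
  · intro c
    refine ⟨φ, κ (y₀ + B c), ?_⟩
    rintro x ⟨hx, hxc⟩
    refine ⟨(H (fun j => (q j) x)).1, ?_⟩
    have h1 := hrec x hx
    have h2 : (H (fun j => (q j) x)).2 = c := hxc
    simp only [hΨdef] at h1
    rw [h2] at h1
    exact h1

end Pool.Agent.MP_fe3720.BB
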