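import Pool.Agent.Work.MP_fe3720_an.B.LeafB

/-! # Module SpanB: the fields `φ_* v` span the tangent spaces

As in `Pool/Agent/Work/MP_fe3720_an/SpanT.lean`: by transitivity (`KTrans` with `k = 1`) and `cSpan_finrank_aut` the
finrank of `cSpan v x` is a constant `r ≤ m`. If `r < m`: `exists_boxB` and `no_boxesB` give a contradiction; for
`y ≠ x₀`: there is `p` with `NZ v p` and `t` with `p' = Φ t p ≠ p` (`orbit_unbounded` with the compact set `{p}`, `hnz`); by
2-transitivity there is `φ` with `φ p = x₀`, `φ p' = y`; so `y = pushFlow Φ φ t x₀`. So `r = m`; in a chart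
`q, κ, V` at `x`, the map `ξ ↦ (ξ (q j))_j` is injective on `cSpan v x`, so the vectors `((φ.push v (q j)) x)_j`
span `ℂ^m`, and `m` of them are linearly independent: nonzero determinant with `f = q`. -/

namespace Pool.Agent.MP_fe3720.BB

open Topology RR Filter

variable {X : Type} [MetricSpace X] [ProperSpace X] {O : Subalgebra ℂ (X → ℂ)} {m N : ℕ}
  {G : Fin N → O}

private theorem trans_one (hK : KTrans O) (x y : X) : ∃ φ : HolAut O, φ x = y := by
  obtain ⟨φ, h⟩ := hK 1 (fun _ => x) (fun _ => y) (fun i j _ => Subsingleton.elim i j)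
    (fun i j _ => Subsingleton.elim i j)
  exact ⟨φ, h 0⟩

private theorem trans_two (hK : KTrans O) {x x' y y' : X} (hx : x ≠ x') (hy : y ≠ y') :
    ∃ φ : HolAut O, φ x = y ∧ φ x' = y' := by
  have inj : ∀ {a b : X}, a ≠ b → Function.Injective (![a, b] : Fin 2 → X) := by
    intro a b hab i j hij
    fin_cases i <;> fin_cases j <;> simp_all
  obtain ⟨φ, h⟩ := hK 2 ![x, x'] ![y, y'] (inj hx) (inj hy)
  exact ⟨φ, h 0, h 1⟩

theorem span_everywhere (hS : SD0 m O G) (hK : KTrans O) {v : Derivation ℂ O O}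
    {Φ : ℂ → HolAut O} (hv : IsVF v) (hΦ : IsFlow v Φ) (hnz : ∃ p, NZ v p) (x : X) :
    ∃ (φ : Fin m → HolAut O) (f : Fin m → O),
      (Matrix.of fun i j => ((φ i).push v (f j)) x).det ≠ 0 := by
  obtain ⟨r, hr⟩ : ∃ r, Module.finrank ℂ (cSpan v x) = r := ⟨_, rfl⟩
  have hrank : ∀ x', Module.finrank ℂ (cSpan v x') = r := by
    intro x'
    obtain ⟨A, hA⟩ := trans_one hK x x'
    rw [← hA, cSpan_finrank_aut, hr]
  have hle : r ≤ m := hr ▸ cSpan_finrank_le hS hv x
  have hrm : r = m := by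
    by_contra hne
    have hlt : r < m := lt_of_le_of_ne hle hne
    refine no_boxesB hΦ (fun x₀ => exists_boxB hS hv hΦ hlt hrank x₀) x ?_
    intro y hy
    obtain ⟨p, hp⟩ := hnz
    obtain ⟨t, ht⟩ := orbit_unbounded hS hΦ hp (isCompact_singleton (x := p))
    have ht' : Φ t p ≠ p := fun h => ht (Set.mem_singleton_iff.2 h)
    obtain ⟨φ, h1, h3⟩ := trans_two hK (x := p) (x' := Φ t p) (y := x) (y' := y) ht'.symm hy.symm
    refine ⟨φ, t, ?_⟩
    rw [pushFlow_apply, ← h1, HolAut.symm_apply_self]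
    exact h3.symm
  obtain ⟨q, κ, V, hc, hy₀, hκ₀⟩ := hS.charts x
  have h := finrank_qSpanB hv q κ (fun j => (q j) x) (fun D hD f => hc.tan D hD f _ hy₀)
  rw [hκ₀, hr, hrm] at h
  obtain ⟨φ, B, hbij⟩ := frame (fun φ : HolAut O => fun j => (φ.push v (q j)) x) h
  refine ⟨φ, q, ?_⟩
  have hli : LinearIndependent ℂ (fun i => fun j => ((φ i).push v (q j)) x) := by
    rw [Fintype.linearIndependent_iff]
    intro t ht i
    have h3 : (t, (0 : Fin (m - m) → ℂ)) = (0, 0) := by
      apply hbij.1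
      simp only [map_zero, add_zero, Pi.zero_apply, zero_smul, Finset.sum_const_zero]
      exact ht
    exact congrFun (congrArg Prod.fst h3) i
  have h4 := (Matrix.linearIndependent_rows_iff_isUnit
    (A := Matrix.of fun i j => ((φ i).push v (q j)) x)).mp hli
  rw [Matrix.isUnit_iff_isUnit_det] at h4
  exact h4.ne_zero

end Pool.Agent.MP_fe3720.BB
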