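import Pool.Agent.Work.MP_fe3720_an.B.Generic
import Pool.Agent.Work.MP_fe3720_an.B.RootC

/-! # Module StepA: the separation step of Bishop's construction

Data: `S₀` compact (`S₀ = closure U`), `f₀, f_1, …, f_n` (`f₀ = b`), `0 < c < c₃ < c₄ < 1`, and `¬ Bad f f₀ f₀ normSq`
(`g₀ = b = f₀`). For `ν : ℕ` put `S_ν = {x ∈ S₀ | ∀ i, ‖f_i x ^ ν - f₀ x ^ ν‖ ≤ c ^ ν}`.

Claim (`stepA`): for all large `ν` there is `Q ⊆ S_ν` such that `Q` and `S_ν \ Q` are closed, and for `x ∈ S_ν`: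
`‖f₀ x‖ < c₃ → x ∈ Q` and `c₄ < ‖f₀ x‖ → x ∉ Q`.

Proof. For `x ∈ E_ν = {x ∈ S_ν | c₃ ≤ ‖f₀ x‖}`: `z_i = f_i x / f₀ x` satisfies `‖z_i ^ ν - 1‖ ≤ (c/c₃)^ν ≤ 1/2` for `ν` large.
Put `ω x = (rt ν (f_i x / f₀ x))_i`; it is locally constant on `E_ν` (`rt_const`), with values in `{w | w ^ ν = 1}^n`.

(1) For `ν` large: for every `w : Fin n → ℂ` there is `ρ ∈ [c₃, c₄]` such that no `x ∈ E_ν` has `ω x = w` and
`‖f₀ x‖ = ρ`. Suppose not: for infinitely many `ν` there is `w_ν` such that for all `ρ ∈ [c₃, c₄]` there is `x ∈ E_ν` with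
`ω x = w_ν`, `‖f₀ x‖ = ρ`; then `‖w_ν i‖ = 1` (`rt_pow`), so along a subsequence `w_ν → ξ` (compactness). For each
`ρ ∈ [c₃, c₄]` the points `x_ν` (`‖f₀ x_ν‖ = ρ`, `‖f_i x_ν / f₀ x_ν - w_ν i‖ ≤ 4/ν` by `rt_close`) have an accumulation point
`x ∈ S₀` with `‖f₀ x‖ = ρ`, `f_i x = ξ i f₀ x`. So `Bad` holds with `U = normSq`, the interval `[c₃², c₄²]`: contradiction.

(2) For such `ν`, for each `w` choose `ρ w ∈ [c₃, c₄]`. Put
`Q = {x ∈ S_ν | ‖f₀ x‖ < c₃ ∨ (c₃ ≤ ‖f₀ x‖ ∧ ‖f₀ x‖ < ρ (ω x))}`. `Q` is relatively open in `S_ν`: clear at points with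
`‖f₀ x‖ < c₃`; at `x ∈ E_ν` with `‖f₀ x‖ < ρ (ω x)`: a nearby `x' ∈ S_ν` has either `‖f₀ x'‖ < c₃` or `x' ∈ E_ν` and
`ω x' = ω x`. The complement `{x ∈ E_ν | ρ (ω x) < ‖f₀ x‖}` (as `‖f₀ x‖ ≠ ρ (ω x)`) is relatively open in `S_ν`: nearby
points `x'` have `‖f₀ x'‖ > ρ (ω x) ≥ c₃`, so are in `E_ν` with `ω x' = ω x`. As `S_ν` is closed, both `Q` and
`S_ν \ Q` are closed. -/

namespace Pool.Agent.MP_fe3720.BB

open Topology RR Filter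

variable {X : Type} [MetricSpace X] [ProperSpace X]
  {O : Subalgebra ℂ (X → ℂ)} {m N : ℕ} {G : Fin N → O}

theorem stepA (hO : IsClosedAlg O) {n : ℕ} (f : Fin n → O) (f₀ : O)
    (hbad : ¬ Bad f f₀ f₀ (fun z => Complex.normSq z)) {S₀ : Set X} (hS₀ : IsCompact S₀)
    {c c₃ c₄ : ℝ} (hc : 0 < c) (hc₃ : c < c₃) (hc₄ : c₃ < c₄) :
    ∃ ν₀ : ℕ, ∀ ν ≥ ν₀, ∃ Q ⊆ {x | x ∈ S₀ ∧ ∀ i, ‖(f i) x ^ ν - f₀ x ^ ν‖ ≤ c ^ ν},
      IsClosed Q ∧ IsClosed ({x | x ∈ S₀ ∧ ∀ i, ‖(f i) x ^ ν - f₀ x ^ ν‖ ≤ c ^ ν} \ Q) ∧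
      (∀ x, x ∈ S₀ → (∀ i, ‖(f i) x ^ ν - f₀ x ^ ν‖ ≤ c ^ ν) → ‖f₀ x‖ < c₃ → x ∈ Q) ∧
      ∀ x ∈ Q, ‖f₀ x‖ ≤ c₄ := by
  classical
  have hf : ∀ i, Continuous (f i).1 := fun i => hO.cont _ (f i).2
  have hf₀ : Continuous f₀.1 := hO.cont _ f₀.2
  have hc₃0 : 0 < c₃ := hc.trans hc₃
  set S : ℕ → Set X := fun ν => {x | x ∈ S₀ ∧ ∀ i, ‖(f i) x ^ ν - f₀ x ^ ν‖ ≤ c ^ ν} with hS
  have hSc : ∀ ν, IsClosed (S ν) := by
    intro ν
    have : S ν = S₀ ∩ ⋂ i, {x | ‖(f i) x ^ ν - f₀ x ^ ν‖ ≤ c ^ ν} := by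
      ext x
      simp [hS]
    rw [this]
    refine hS₀.isClosed.inter (isClosed_iInter fun i => ?_)
    exact isClosed_le (((hf i).pow ν).sub (hf₀.pow ν)).norm continuous_const
  -- large exponents
  have l1 : Tendsto (fun ν : ℕ => (c / c₃) ^ ν) atTop (𝓝 0) :=
    tendsto_pow_atTop_nhds_zero_of_lt_one (by positivity) ((div_lt_one hc₃0).mpr hc₃)
  obtain ⟨ν₁, hν₁⟩ := eventually_atTop.mp ((l1.eventually_le_const
    (show (0 : ℝ) < 1 / 2 by norm_num)).and (eventually_ge_atTop 1))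
  have hquot : ∀ ν ≥ ν₁, ∀ x ∈ S ν, c₃ ≤ ‖f₀ x‖ → ∀ i, ‖((f i) x / f₀ x) ^ ν - 1‖ ≤ 1 / 2 := by
    intro ν hν x hx h3 i
    have h0 : f₀ x ≠ 0 := norm_pos_iff.mp (hc₃0.trans_le h3)
    have h1 : ((f i) x / f₀ x) ^ ν - 1 = ((f i) x ^ ν - f₀ x ^ ν) / f₀ x ^ ν := by
      rw [div_pow, sub_div, div_self (pow_ne_zero ν h0)]
    rw [h1, norm_div, norm_pow]
    refine le_trans ?_ (hν₁ ν hν).1
    rw [div_pow]
    have h2 := hx.2 i
    have h4 : c₃ ^ ν ≤ ‖f₀ x‖ ^ ν := by gcongr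
    gcongr
  -- the classes
  set ω : ℕ → X → Fin n → ℂ := fun ν x i => rt ν ((f i) x / f₀ x) with hω
  have claim : ∃ ν₂ ≥ ν₁, ∀ ν ≥ ν₂, ∀ w : Fin n → ℂ, ∃ ρ ∈ Set.Icc c₃ c₄, ∀ x ∈ S ν,
      c₃ ≤ ‖f₀ x‖ → ω ν x = w → ‖f₀ x‖ ≠ ρ := by
    by_contra hcon
    push Not at hcon
    have hcon' : ∀ M : ℕ, ∃ ν, max ν₁ M ≤ ν ∧ ∃ w : Fin n → ℂ, ∀ ρ ∈ Set.Icc c₃ c₄, ∃ x ∈ S ν,
        c₃ ≤ ‖f₀ x‖ ∧ ω ν x = w ∧ ‖f₀ x‖ = ρ := fun M => by
      obtain ⟨ν, hν, w, hw⟩ := hcon (max ν₁ M) (le_max_left _ _)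
      exact ⟨ν, hν, w, hw⟩
    choose ν hν w hw using hcon'
    have hν1 : ∀ M, ν₁ ≤ ν M := fun M => (le_max_left _ _).trans (hν M)
    have hνM : ∀ M, M ≤ ν M := fun M => (le_max_right _ _).trans (hν M)
    have hwn : ∀ M, w M ∈ Metric.closedBall (0 : Fin n → ℂ) 1 := by
      intro M
      obtain ⟨x, hx, h3, hωx, -⟩ := hw M c₃ ⟨le_rfl, hc₄.le⟩
      rw [mem_closedBall_zero_iff, pi_norm_le_iff_of_nonneg zero_le_one]
      intro i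
      have h1 := hquot (ν M) (hν1 M) x hx h3 i
      have h2 := rt_pow (hν₁ _ (hν1 M)).2 (h1.trans_lt (by norm_num))
      have h3 : ‖w M i‖ ^ (ν M) = 1 := by
        rw [← hωx, ← norm_pow]
        simp only [hω]
        rw [h2, norm_one]
      have h4 := (hν₁ _ (hν1 M)).2
      exact ((pow_eq_one_iff_of_nonneg (norm_nonneg _) (by omega)).mp h3).le
    obtain ⟨ξ, -, φ, hφ, hξ⟩ := (isCompact_closedBall (0 : Fin n → ℂ) 1).tendsto_subseq hwn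
    have key : ∀ ρ ∈ Set.Icc c₃ c₄, ∃ x : X, ‖f₀ x‖ = ρ ∧ ∀ i, (f i) x = ξ i * f₀ x := by
      intro ρ hρ
      choose x hx h3 hωx hρx using fun k => hw (φ k) ρ hρ
      obtain ⟨x₀, -, ψ, hψ, hx₀⟩ := hS₀.tendsto_subseq (fun k => (hx k).1)
      refine ⟨x₀, ?_, fun i => ?_⟩
      · have h1 : Tendsto (fun k => ‖f₀ (x (ψ k))‖) atTop (𝓝 ‖f₀ x₀‖) :=
          (hf₀.norm.tendsto x₀).comp hx₀
        have h2 : (fun k => ‖f₀ (x (ψ k))‖) = fun _ => ρ := funext fun k => hρx _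
        rw [h2] at h1
        exact (tendsto_nhds_unique h1 tendsto_const_nhds)
      · -- the difference tends to zero
        have h1 : Tendsto (fun k => (f i) (x (ψ k)) - w (φ (ψ k)) i * f₀ (x (ψ k))) atTop
            (𝓝 ((f i) x₀ - ξ i * f₀ x₀)) := by
          refine (((hf i).tendsto x₀).comp hx₀).sub (Tendsto.mul ?_ ((hf₀.tendsto x₀).comp hx₀))
          exact ((continuous_apply i).tendsto ξ).comp (hξ.comp hψ.tendsto_atTop)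
        have h2 : Tendsto (fun k => (f i) (x (ψ k)) - w (φ (ψ k)) i * f₀ (x (ψ k))) atTop
            (𝓝 0) := by
          have hb : Tendsto (fun k : ℕ => (4 : ℝ) / ν (φ (ψ k)) * ρ) atTop (𝓝 (0 * ρ)) := by
            refine Tendsto.mul_const ρ ?_
            refine Tendsto.const_div_atTop ?_ 4
            refine tendsto_natCast_atTop_atTop.comp ?_
            exact tendsto_atTop_mono (fun k => hνM _) ((hφ.comp hψ).tendsto_atTop)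
          rw [zero_mul] at hb
          refine squeeze_zero_norm (fun k => ?_) hb
          set z := x (ψ k) with hz
          have h0 : f₀ z ≠ 0 := norm_pos_iff.mp (hc₃0.trans_le (h3 (ψ k)))
          have hq := hquot (ν (φ (ψ k))) (hν1 _) z (hx (ψ k)) (h3 (ψ k)) i
          have h5 := rt_close (hν₁ _ (hν1 (φ (ψ k)))).2 hq
          have h6 : w (φ (ψ k)) i = rt (ν (φ (ψ k))) ((f i) z / f₀ z) := by
            rw [← hωx (ψ k)]
          have h7 : (f i) z - w (φ (ψ k)) i * f₀ z =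
              ((f i) z / f₀ z - rt (ν (φ (ψ k))) ((f i) z / f₀ z)) * f₀ z := by
            rw [h6, sub_mul, div_mul_cancel₀ _ h0]
          rw [h7, norm_mul, hρx (ψ k)]
          have hρ0 : 0 ≤ ρ := hc₃0.le.trans hρ.1
          gcongr
        have h3 := tendsto_nhds_unique h1 h2
        exact sub_eq_zero.mp h3
    refine hbad ⟨ξ, c₃ ^ 2, c₄ ^ 2, by gcongr, fun ρ' hρ' => ?_⟩
    have hρ0 : 0 ≤ ρ' := (sq_nonneg c₃).trans hρ'.1
    obtain ⟨x, hx1, hx2⟩ := key (Real.sqrt ρ') ⟨Real.le_sqrt_of_sq_le hρ'.1,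
      (Real.sqrt_le_left (hc₃0.trans hc₄).le).mpr hρ'.2⟩
    refine ⟨x, ?_, hx2⟩
    show Complex.normSq (f₀ x) = ρ'
    rw [Complex.normSq_eq_norm_sq, hx1, Real.sq_sqrt hρ0]
  obtain ⟨ν₂, hν₂, hcl⟩ := claim
  refine ⟨ν₂, fun ν hν => ?_⟩
  choose ρ hρ hρn using hcl ν hν
  have hν1 : ν₁ ≤ ν := hν₂.trans hν
  set Q : Set X := {x | x ∈ S ν ∧ (‖f₀ x‖ < c₃ ∨ ‖f₀ x‖ < ρ (ω ν x))} with hQ
  have hloc : ∀ x ∈ S ν, ∀ᶠ x' in 𝓝 x, x' ∈ S ν → (x' ∈ Q ↔ x ∈ Q) := by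
    intro x hx
    by_cases h3 : ‖f₀ x‖ < c₃
    · have h1 : ∀ᶠ x' in 𝓝 x, ‖f₀ x'‖ < c₃ := hf₀.norm.continuousAt.eventually_lt_const h3
      filter_upwards [h1] with x' hx' hxS
      exact ⟨fun _ => ⟨hx, Or.inl h3⟩, fun _ => ⟨hxS, Or.inl hx'⟩⟩
    · push Not at h3
      have h0 : f₀ x ≠ 0 := norm_pos_iff.mp (hc₃0.trans_le h3)
      have hω' : ∀ᶠ x' in 𝓝 x, ω ν x' = ω ν x := by
        have h1 : ∀ i, ∀ᶠ x' in 𝓝 x, rt ν ((f i) x' / f₀ x') = rt ν ((f i) x / f₀ x) := by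
          intro i
          have h2 := rt_const (hν₁ ν hν1).2 ((hquot ν hν1 x hx h3 i).trans_lt (by norm_num))
          have h4 : ContinuousAt (fun x' => (f i) x' / f₀ x') x :=
            (hf i).continuousAt.div hf₀.continuousAt h0
          exact h4.eventually h2
        filter_upwards [eventually_all.mpr h1] with x' hx'
        exact funext hx'
      rcases lt_or_gt_of_ne (hρn (ω ν x) x hx h3 rfl) with h4 | h4
      · have h1 : ∀ᶠ x' in 𝓝 x, ‖f₀ x'‖ < ρ (ω ν x) := hf₀.norm.continuousAt.eventually_lt_const h4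
        filter_upwards [h1, hω'] with x' hx' hωx hxS
        exact ⟨fun _ => ⟨hx, Or.inr h4⟩, fun _ => ⟨hxS, Or.inr (by rw [hωx]; exact hx')⟩⟩
      · have h1 : ∀ᶠ x' in 𝓝 x, ρ (ω ν x) < ‖f₀ x'‖ := hf₀.norm.continuousAt.eventually_const_lt h4
        filter_upwards [h1, hω'] with x' hx' hωx hxS
        constructor
        · rintro ⟨-, h5 | h5⟩
          · have := (hρ (ω ν x)).1
            linarith
          · rw [hωx] at h5
            linarith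
        · rintro ⟨-, h5 | h5⟩ <;> linarith
  refine ⟨Q, fun x hx => hx.1, ?_, ?_, fun x hx hxi h3 => ⟨⟨hx, hxi⟩, Or.inl h3⟩, ?_⟩
  · refine isClosed_of_closure_subset fun x hx => ?_
    have hxS : x ∈ S ν := (hSc ν).closure_subset (closure_mono (fun y hy => hy.1) hx)
    obtain ⟨x', hx'1, hx'2⟩ := ((mem_closure_iff_frequently.mp hx).and_eventually
      (hloc x hxS)).exists
    exact (hx'2 hx'1.1).mp hx'1
  · refine isClosed_of_closure_subset fun x hx => ?_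
    have hxS : x ∈ S ν := (hSc ν).closure_subset (closure_mono Set.diff_subset hx)
    obtain ⟨x', hx'1, hx'2⟩ := ((mem_closure_iff_frequently.mp hx).and_eventually
      (hloc x hxS)).exists
    exact ⟨hxS, fun h => hx'1.2 ((hx'2 hx'1.1).mpr h)⟩
  · rintro x ⟨-, h | h⟩
    · exact (h.trans hc₄).le
    · exact h.le.trans (hρ _).2

end Pool.Agent.MP_fe3720.BB
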